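import Pool.Agent.W_MP_654ec6.A.Defs

/-!
# Part E (the core): definitions

Core metric: the quotient of `dt² + g(t)² g_{S³} + ξ(t)⁻² dθ²` by the circle acting with weights
`(1, 2; 1)`. In torus coordinates `(t, x, α', β)`, `z₁ = cos x e^{iα}`, `z₂ = sin x e^{iβ}`,
`α' = 2 α - β`, it is the Kaluza-Klein metric `coreKK g ξ`.

`U(2)`-metrics on `ℂ²`: `dA²/U(A) + A² (σ₁² + σ₂²) + A² W(A) σ₃²`, in torus coordinates
`(A, x, α', β)`, `z₁ = A cos x e^{iα}`, `z₂ = A sin x e^{iβ}`, `α' = α - β`: the metric `u2KK U W`.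
-/

open scoped ContDiff Topology
open Filter Real

namespace Pool.Agent.W_MP_654ec6

/-- `ℓ² = 1 + 3 sin² x`. -/
noncomputable def ell2 (x : ℝ) : ℝ := 1 + 3 * Real.sin x ^ 2

/-- The core metric in torus coordinates `(t, x, α', β)`. -/
noncomputable def coreKK (g ξ : ℝ → ℝ) : Met :=
  kkMet (fun _ => 1) g (fun t x => g t * Real.cos x * Real.sin x / √(ell2 x))
    (fun t x => g t * √(ell2 x) / (2 * √(1 + g t ^ 2 * ξ t ^ 2 * ell2 x)))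
    (fun x => Real.cos x ^ 2 / ell2 x)

/-- `p = 1 / (1 + g² ξ² L)`. -/
noncomputable def coreP (g ξ : ℝ → ℝ) (L t : ℝ) : ℝ := 1 / (1 + g t ^ 2 * ξ t ^ 2 * L)

noncomputable def coreS1 (g ξ : ℝ → ℝ) (L t : ℝ) : ℝ :=
  -(2 + coreP g ξ L t) * deriv (deriv g) t / g t -
    g t ^ 2 * L * coreP g ξ L t * (2 * deriv ξ t ^ 2 - ξ t * deriv (deriv ξ) t)

noncomputable def coreS2 (g ξ : ℝ → ℝ) (L t : ℝ) : ℝ :=
  -deriv (deriv g) t / g t + (1 + coreP g ξ L t) * (1 - deriv g t ^ 2) / g t ^ 2 +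
    g t ^ 2 * L * coreP g ξ L t * ξ t * deriv ξ t * deriv g t / g t

noncomputable def coreS3 (g ξ : ℝ → ℝ) (L t : ℝ) : ℝ :=
  -coreP g ξ L t * deriv (deriv g) t / g t -
    g t ^ 2 * L * coreP g ξ L t * (2 * deriv ξ t ^ 2 - ξ t * deriv (deriv ξ) t) +
    2 * coreP g ξ L t * (1 - deriv g t ^ 2) / g t ^ 2 +
    2 * g t ^ 2 * L * coreP g ξ L t * ξ t * deriv ξ t * deriv g t / g t

/-- The curvature conditions at the time `t`. -/
def CoreOK (g ξ : ℝ → ℝ) (t : ℝ) : Prop :=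
  ∀ L ∈ Set.Icc (1 : ℝ) 4, 0 ≤ coreS1 g ξ L t ∧ 0 ≤ coreS2 g ξ L t ∧ 0 ≤ coreS3 g ξ L t

/-- A `U(2)`-metric in torus coordinates `(A, x, α', β)`. -/
noncomputable def u2KK (U W : ℝ → ℝ) : Met :=
  kkMet (fun A => 1 / U A) (fun A => A) (fun A x => A * Real.cos x * Real.sin x)
    (fun A _ => A * √(W A)) (fun x => Real.cos x ^ 2)

noncomputable def u2om (W : ℝ → ℝ) (A : ℝ) : ℝ := deriv W A / (2 * W A)

noncomputable def u2R0 (U W : ℝ → ℝ) (A : ℝ) : ℝ :=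
  -deriv U A / A - deriv U A * (1 / A + u2om W A) / 2 -
    U A * (deriv (u2om W) A + 2 * u2om W A / A + u2om W A ^ 2)

noncomputable def u2R1 (U W : ℝ → ℝ) (A : ℝ) : ℝ :=
  -deriv U A / (2 * A) - 2 * U A / A ^ 2 - U A * u2om W A / A + (4 - 2 * W A) / A ^ 2

noncomputable def u2R3 (U W : ℝ → ℝ) (A : ℝ) : ℝ :=
  -deriv U A * (1 / A + u2om W A) / 2 - U A * (deriv (u2om W) A + 2 * u2om W A / A + u2om W A ^ 2) -
    2 * U A / A * (1 / A + u2om W A) + 2 * W A / A ^ 2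

/-- `Ric ≥ -κ` for the `U(2)`-metric at the radius `A`. -/
def U2OK (U W : ℝ → ℝ) (κ A : ℝ) : Prop :=
  0 ≤ u2R0 U W A + κ ∧ 0 ≤ u2R1 U W A + κ ∧ 0 ≤ u2R3 U W A + κ

end Pool.Agent.W_MP_654ec6
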