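import Pool.Agent.W_MP_654ec6.A.KKGood
import Pool.Agent.W_MP_654ec6.E.Defs

/-!
# Task E1: the Ricci curvature of the core metric

Apply `ricq_kk` to `coreKK g ξ` (`E = 1`, `P = g`, `N = g c s/ℓ`, `H = g ℓ/(2 √D)`, `a = c²/ℓ²`,
`c = cos x`, `s = sin x`, `ℓ² = 1 + 3 s²`, `D = 1 + g² ξ² ℓ²`). With `w = g' ξ + g ξ'` and
`S1, S2, S3` at `L = ℓ²` the components in the orthonormal frame of `ricq_kk` are
`R00 = S1 + 3 ℓ² w²/D²`, `R01 = 9 c s ξ w/D²` , `R11 = S2 + 3 (9 c² s² ξ²/(ℓ² D²) + 4 ξ²/(ℓ² D))`,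
`R22 = S2 + 12 ξ²/(ℓ² D)`, `R33 = S3 + 3 (ℓ² w²/D² + 9 c² s² ξ²/(ℓ² D²))`,
`R23 = ± 18 c s ξ²/(ℓ² D^{3/2})`, the others vanish (checked numerically).
With `u = ℓ w/D`, `v = 3 c s ξ/(ℓ D)`, `r = 2 ξ/(ℓ √D)`:
`ricq = S1 w0² + S2 (w1² + w2²) + S3 w3² + 3 [(u w0 + v w1)² + r² w1² + (r w2 ± v w3)² + u² w3²] ≥ 0`.
To verify the components it is convenient to write `H = g ℓ/(2 √D)` through its square and the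
logarithmic derivatives: `H_t/H = g'/g - ℓ² g ξ w/D`, `H_x/H = 3 c s/(ℓ² D)`,
`N_t/N = g'/g`, `N_x/N = c/s - s/c - 3 s c/ℓ²`, `a' = -8 c s/ℓ⁴`
(`a = c²/ℓ²`, `a' = (-2 c s ℓ² - 6 c³ s)/ℓ⁴ = -2 c s (ℓ² + 3 c²)/ℓ⁴`, `ℓ² + 3 c² = 4`).
-/

open scoped ContDiff Topology
open Filter Real

namespace Pool.Agent.W_MP_654ec6

theorem coreRic_ell2_pos (x : ℝ) : 0 < ell2 x := by
  unfold ell2
  positivity

theorem coreRic_ell_pos (x : ℝ) : 0 < √(ell2 x) := Real.sqrt_pos.mpr (coreRic_ell2_pos x)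

theorem coreRic_ell_sq (x : ℝ) : √(ell2 x) ^ (2 : ℕ) = ell2 x := Real.sq_sqrt (coreRic_ell2_pos x).le

theorem coreRic_D_pos (g ξ : ℝ → ℝ) (t x : ℝ) : 0 < 1 + g t ^ (2 : ℕ) * ξ t ^ (2 : ℕ) * ell2 x := by
  have := coreRic_ell2_pos x
  positivity

theorem coreRic_rho_pos (g ξ : ℝ → ℝ) (t x : ℝ) : 0 < √(1 + g t ^ (2 : ℕ) * ξ t ^ (2 : ℕ) * ell2 x) :=
  Real.sqrt_pos.mpr (coreRic_D_pos g ξ t x)

theorem coreRic_rho_sq (g ξ : ℝ → ℝ) (t x : ℝ) :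
    √(1 + g t ^ (2 : ℕ) * ξ t ^ (2 : ℕ) * ell2 x) ^ (2 : ℕ) = 1 + g t ^ (2 : ℕ) * ξ t ^ (2 : ℕ) * ell2 x :=
  Real.sq_sqrt (coreRic_D_pos g ξ t x).le

theorem coreRic_ell2_smooth : ContDiff ℝ ∞ ell2 := by
  unfold ell2
  exact contDiff_const.add (contDiff_const.mul (Real.contDiff_sin.pow 2))

theorem coreRic_ell2_deriv (x : ℝ) : HasDerivAt ell2 (6 * sin x * cos x) x := by
  have h := (((Real.hasDerivAt_sin x).pow 2).const_mul 3).const_add 1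
  have e : ell2 = fun x => 1 + 3 * Real.sin x ^ 2 := rfl
  rw [e]
  refine h.congr_deriv ?_
  norm_num
  ring

theorem coreRic_ell_deriv (x : ℝ) :
    HasDerivAt (fun x => √(ell2 x)) (3 * sin x * cos x / √(ell2 x)) x := by
  refine ((coreRic_ell2_deriv x).sqrt (coreRic_ell2_pos x).ne').congr_deriv ?_
  have := (coreRic_ell_pos x).ne'
  field_simp
  ring

theorem coreRic_rho_t {g ξ : ℝ → ℝ} {t g1 x1 : ℝ} (hg : HasDerivAt g g1 t)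
    (hξ : HasDerivAt ξ x1 t) (x : ℝ) :
    HasDerivAt (fun t => √(1 + g t ^ (2 : ℕ) * ξ t ^ (2 : ℕ) * ell2 x))
      (g t * ξ t * (g1 * ξ t + g t * x1) * ell2 x / √(1 + g t ^ (2 : ℕ) * ξ t ^ (2 : ℕ) * ell2 x)) t := by
  have h : HasDerivAt (fun t => 1 + g t ^ (2 : ℕ) * ξ t ^ (2 : ℕ) * ell2 x)
      (2 * g t * ξ t * (g1 * ξ t + g t * x1) * ell2 x) t := by
    refine ((((hg.pow 2).mul (hξ.pow 2)).mul_const (ell2 x)).const_add 1).congr_deriv ?_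
    simp only [Pi.pow_apply]
    push_cast
    ring
  refine (h.sqrt (coreRic_D_pos g ξ t x).ne').congr_deriv ?_
  have := (coreRic_rho_pos g ξ t x).ne'
  field_simp

theorem coreRic_rho_x (g ξ : ℝ → ℝ) (t x : ℝ) :
    HasDerivAt (fun x => √(1 + g t ^ (2 : ℕ) * ξ t ^ (2 : ℕ) * ell2 x))
      (3 * g t ^ (2 : ℕ) * ξ t ^ (2 : ℕ) * sin x * cos x / √(1 + g t ^ (2 : ℕ) * ξ t ^ (2 : ℕ) * ell2 x)) x := by
  have h := ((coreRic_ell2_deriv x).const_mul (g t ^ (2 : ℕ) * ξ t ^ (2 : ℕ))).const_add 1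
  refine (h.sqrt (coreRic_D_pos g ξ t x).ne').congr_deriv ?_
  have := (coreRic_rho_pos g ξ t x).ne'
  field_simp
  ring

/-- `∂_t H` -/
theorem coreRic_H_t {g ξ : ℝ → ℝ} {t g1 x1 : ℝ} (hg : HasDerivAt g g1 t)
    (hξ : HasDerivAt ξ x1 t) (x : ℝ) :
    HasDerivAt (fun t => g t * √(ell2 x) / (2 * √(1 + g t ^ (2 : ℕ) * ξ t ^ (2 : ℕ) * ell2 x)))
      (√(ell2 x) * (g1 - g t ^ (3 : ℕ) * ξ t * x1 * ell2 x) /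
        (2 * √(1 + g t ^ (2 : ℕ) * ξ t ^ (2 : ℕ) * ell2 x) ^ (3 : ℕ))) t := by
  have hρ := (coreRic_rho_pos g ξ t x).ne'
  have h := (hg.mul_const (√(ell2 x))).div ((coreRic_rho_t hg hξ x).const_mul 2)
    (mul_ne_zero two_ne_zero hρ)
  refine h.congr_deriv ?_
  have h2 := coreRic_rho_sq g ξ t x
  set ρ := √(1 + g t ^ (2 : ℕ) * ξ t ^ (2 : ℕ) * ell2 x)
  set l := √(ell2 x)
  field_simp
  linear_combination l * g1 * h2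

/-- `∂_x H` -/
theorem coreRic_H_x (g ξ : ℝ → ℝ) (t x : ℝ) :
    HasDerivAt (fun x => g t * √(ell2 x) / (2 * √(1 + g t ^ (2 : ℕ) * ξ t ^ (2 : ℕ) * ell2 x)))
      (3 * g t * sin x * cos x / (2 * √(ell2 x) * √(1 + g t ^ (2 : ℕ) * ξ t ^ (2 : ℕ) * ell2 x) ^ (3 : ℕ))) x := by
  have hρ := (coreRic_rho_pos g ξ t x).ne'
  have h := ((coreRic_ell_deriv x).const_mul (g t)).div ((coreRic_rho_x g ξ t x).const_mul 2)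
    (mul_ne_zero two_ne_zero hρ)
  refine h.congr_deriv ?_
  have h2 := coreRic_rho_sq g ξ t x
  have h3 := coreRic_ell_sq x
  have hl := (coreRic_ell_pos x).ne'
  set ρ := √(1 + g t ^ (2 : ℕ) * ξ t ^ (2 : ℕ) * ell2 x)
  set l := √(ell2 x)
  rw [← h3] at h2
  field_simp
  linear_combination g t * sin x * cos x * h2

theorem coreRic_N_x (g : ℝ → ℝ) (t x : ℝ) :
    HasDerivAt (fun x => g t * cos x * sin x / √(ell2 x))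
      (g t * ((cos x ^ (2 : ℕ) - sin x ^ (2 : ℕ)) / √(ell2 x) -
        3 * cos x ^ (2 : ℕ) * sin x ^ (2 : ℕ) / √(ell2 x) ^ (3 : ℕ))) x := by
  have hl := (coreRic_ell_pos x).ne'
  have h := (((Real.hasDerivAt_cos x).const_mul (g t)).mul (Real.hasDerivAt_sin x)).div
    (coreRic_ell_deriv x) hl
  refine h.congr_deriv ?_
  simp only [Pi.mul_apply]
  field_simp
  ring

theorem coreRic_N_xx (g : ℝ → ℝ) (t x : ℝ) :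
    HasDerivAt (fun x => g t * ((cos x ^ (2 : ℕ) - sin x ^ (2 : ℕ)) / √(ell2 x) -
        3 * cos x ^ (2 : ℕ) * sin x ^ (2 : ℕ) / √(ell2 x) ^ (3 : ℕ)))
      (g t * (-4 * cos x * sin x / √(ell2 x) -
        9 * sin x * cos x * (cos x ^ (2 : ℕ) - sin x ^ (2 : ℕ)) / √(ell2 x) ^ (3 : ℕ) +
        27 * cos x ^ (3 : ℕ) * sin x ^ (3 : ℕ) / √(ell2 x) ^ (5 : ℕ))) x := by
  have hl := (coreRic_ell_pos x).ne'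
  have hc2 := (Real.hasDerivAt_cos x).pow 2
  have hs2 := (Real.hasDerivAt_sin x).pow 2
  have h := (((hc2.sub hs2).div (coreRic_ell_deriv x) hl).sub
    (((hc2.const_mul 3).mul hs2).div ((coreRic_ell_deriv x).pow 3) (pow_ne_zero 3 hl))).const_mul
      (g t)
  refine h.congr_deriv ?_
  simp only [Pi.pow_apply, Pi.sub_apply, Pi.mul_apply]
  field_simp
  ring

theorem coreRic_H_tt {g ξ g' ξ' : ℝ → ℝ} {t g2 x2 : ℝ} (hg : HasDerivAt g (g' t) t)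
    (hξ : HasDerivAt ξ (ξ' t) t) (hg' : HasDerivAt g' g2 t) (hξ' : HasDerivAt ξ' x2 t) (x : ℝ) :
    HasDerivAt (fun t => √(ell2 x) * (g' t - g t ^ (3 : ℕ) * ξ t * ξ' t * ell2 x) /
        (2 * √(1 + g t ^ (2 : ℕ) * ξ t ^ (2 : ℕ) * ell2 x) ^ (3 : ℕ)))
      (√(ell2 x) * ((g2 - (3 * g t ^ (2 : ℕ) * g' t * ξ t * ξ' t + g t ^ (3 : ℕ) * ξ' t ^ (2 : ℕ) +
        g t ^ (3 : ℕ) * ξ t * x2) * ell2 x) / √(1 + g t ^ (2 : ℕ) * ξ t ^ (2 : ℕ) * ell2 x) ^ (3 : ℕ) -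
        3 * (g' t - g t ^ (3 : ℕ) * ξ t * ξ' t * ell2 x) * (g t * ξ t * (g' t * ξ t + g t * ξ' t) *
        ell2 x) / √(1 + g t ^ (2 : ℕ) * ξ t ^ (2 : ℕ) * ell2 x) ^ (5 : ℕ)) / 2) t := by
  have hρ := (coreRic_rho_pos g ξ t x).ne'
  have h1 : HasDerivAt (fun t => √(ell2 x) * (g' t - g t ^ (3 : ℕ) * ξ t * ξ' t * ell2 x))
      (√(ell2 x) * (g2 - (3 * g t ^ (2 : ℕ) * g' t * ξ t * ξ' t + g t ^ (3 : ℕ) * ξ' t ^ (2 : ℕ) +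
        g t ^ (3 : ℕ) * ξ t * x2) * ell2 x)) t := by
    refine ((hg'.sub ((((hg.pow 3).mul hξ).mul hξ').mul_const (ell2 x))).const_mul
      (√(ell2 x))).congr_deriv ?_
    simp only [Pi.pow_apply, Pi.mul_apply]
    push_cast
    ring
  have h2 : HasDerivAt (fun t => 2 * √(1 + g t ^ (2 : ℕ) * ξ t ^ (2 : ℕ) * ell2 x) ^ (3 : ℕ))
      (6 * √(1 + g t ^ (2 : ℕ) * ξ t ^ (2 : ℕ) * ell2 x) * (g t * ξ t * (g' t * ξ t + g t * ξ' t) *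
        ell2 x)) t := by
    refine (((coreRic_rho_t hg hξ x).pow 3).const_mul 2).congr_deriv ?_
    field_simp
    push_cast
    ring
  refine (h1.div h2 (mul_ne_zero two_ne_zero (pow_ne_zero 3 hρ))).congr_deriv ?_
  set ρ := √(1 + g t ^ (2 : ℕ) * ξ t ^ (2 : ℕ) * ell2 x)
  set l := √(ell2 x)
  field_simp
  ring

theorem coreRic_H_xt {g ξ : ℝ → ℝ} {t g1 x1 : ℝ} (hg : HasDerivAt g g1 t)
    (hξ : HasDerivAt ξ x1 t) (x : ℝ) :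
    HasDerivAt (fun t => 3 * g t * sin x * cos x /
      (2 * √(ell2 x) * √(1 + g t ^ (2 : ℕ) * ξ t ^ (2 : ℕ) * ell2 x) ^ (3 : ℕ)))
      (3 * sin x * cos x / (2 * √(ell2 x)) * (g1 / √(1 + g t ^ (2 : ℕ) * ξ t ^ (2 : ℕ) * ell2 x) ^ (3 : ℕ) -
        3 * g t ^ (2 : ℕ) * ξ t * (g1 * ξ t + g t * x1) * ell2 x /
          √(1 + g t ^ (2 : ℕ) * ξ t ^ (2 : ℕ) * ell2 x) ^ (5 : ℕ))) t := by
  have hρ := (coreRic_rho_pos g ξ t x).ne'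
  have hl := (coreRic_ell_pos x).ne'
  have h1 : HasDerivAt (fun t => 3 * g t * sin x * cos x) (3 * g1 * sin x * cos x) t :=
    ((hg.const_mul 3).mul_const _).mul_const _
  have h2 : HasDerivAt (fun t => 2 * √(ell2 x) * √(1 + g t ^ (2 : ℕ) * ξ t ^ (2 : ℕ) * ell2 x) ^ (3 : ℕ))
      (6 * √(ell2 x) * √(1 + g t ^ (2 : ℕ) * ξ t ^ (2 : ℕ) * ell2 x) * (g t * ξ t * (g1 * ξ t + g t * x1) *
        ell2 x)) t := by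
    refine (((coreRic_rho_t hg hξ x).pow 3).const_mul (2 * √(ell2 x))).congr_deriv ?_
    field_simp
    push_cast
    ring
  refine (h1.div h2 (mul_ne_zero (mul_ne_zero two_ne_zero hl) (pow_ne_zero 3 hρ))).congr_deriv ?_
  set ρ := √(1 + g t ^ (2 : ℕ) * ξ t ^ (2 : ℕ) * ell2 x)
  set l := √(ell2 x)
  field_simp
  ring

theorem coreRic_H_xx (g ξ : ℝ → ℝ) (t x : ℝ) :
    HasDerivAt (fun x => 3 * g t * sin x * cos x /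
      (2 * √(ell2 x) * √(1 + g t ^ (2 : ℕ) * ξ t ^ (2 : ℕ) * ell2 x) ^ (3 : ℕ)))
      (3 * g t / 2 * ((cos x ^ (2 : ℕ) - sin x ^ (2 : ℕ)) / (√(ell2 x) *
        √(1 + g t ^ (2 : ℕ) * ξ t ^ (2 : ℕ) * ell2 x) ^ (3 : ℕ)) - 3 * sin x ^ (2 : ℕ) * cos x ^ (2 : ℕ) / (√(ell2 x) ^ (3 : ℕ) *
        √(1 + g t ^ (2 : ℕ) * ξ t ^ (2 : ℕ) * ell2 x) ^ (3 : ℕ)) - 9 * g t ^ (2 : ℕ) * ξ t ^ (2 : ℕ) * sin x ^ (2 : ℕ) * cos x ^ (2 : ℕ) /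
        (√(ell2 x) * √(1 + g t ^ (2 : ℕ) * ξ t ^ (2 : ℕ) * ell2 x) ^ (5 : ℕ)))) x := by
  have hρ := (coreRic_rho_pos g ξ t x).ne'
  have hl := (coreRic_ell_pos x).ne'
  have h1 : HasDerivAt (fun x => 3 * g t * sin x * cos x)
      (3 * g t * (cos x ^ (2 : ℕ) - sin x ^ (2 : ℕ))) x := by
    refine (((Real.hasDerivAt_sin x).const_mul (3 * g t)).mul (Real.hasDerivAt_cos x)).congr_deriv
      ?_
    ring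
  have h2 : HasDerivAt (fun x => 2 * √(ell2 x) * √(1 + g t ^ (2 : ℕ) * ξ t ^ (2 : ℕ) * ell2 x) ^ (3 : ℕ))
      (2 * (3 * sin x * cos x / √(ell2 x)) * √(1 + g t ^ (2 : ℕ) * ξ t ^ (2 : ℕ) * ell2 x) ^ (3 : ℕ) +
        18 * √(ell2 x) * √(1 + g t ^ (2 : ℕ) * ξ t ^ (2 : ℕ) * ell2 x) * (g t ^ (2 : ℕ) * ξ t ^ (2 : ℕ) * sin x *
        cos x)) x := by
    refine (((coreRic_ell_deriv x).const_mul 2).mul ((coreRic_rho_x g ξ t x).pow 3)).congr_deriv ?_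
    field_simp
    norm_num
    ring
  refine (h1.div h2 (mul_ne_zero (mul_ne_zero two_ne_zero hl) (pow_ne_zero 3 hρ))).congr_deriv ?_
  set ρ := √(1 + g t ^ (2 : ℕ) * ξ t ^ (2 : ℕ) * ell2 x)
  set l := √(ell2 x)
  field_simp
  ring

/-- the algebra -/
theorem coreRic_alg {G G1 G2 X X1 X2 s c l r L D nt nx ntt ntx nxx n0 h0 ht hx htt htx hxx
    a1 a2 F : ℝ}
    (hG : G ≠ 0) (hs : s ≠ 0) (hc : c ≠ 0) (hl : l ≠ 0) (hr : r ≠ 0) (hL : L = l ^ (2 : ℕ))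
    (hD : D = r ^ (2 : ℕ)) (hn0 : n0 = G * c * s / l) (hnt : nt = G1 * c * s / l)
    (hntt : ntt = G2 * c * s / l)
    (hnx : nx = G * ((c ^ (2 : ℕ) - s ^ (2 : ℕ)) / l - 3 * c ^ (2 : ℕ) * s ^ (2 : ℕ) / l ^ (3 : ℕ)))
    (hntx : ntx = G1 * ((c ^ (2 : ℕ) - s ^ (2 : ℕ)) / l - 3 * c ^ (2 : ℕ) * s ^ (2 : ℕ) / l ^ (3 : ℕ)))
    (hnxx : nxx = G * (-4 * c * s / l - 9 * s * c * (c ^ (2 : ℕ) - s ^ (2 : ℕ)) / l ^ (3 : ℕ) +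
        27 * c ^ (3 : ℕ) * s ^ (3 : ℕ) / l ^ (5 : ℕ)))
    (hh0 : h0 = G * l / (2 * r)) (hht : ht = l * (G1 - G ^ (3 : ℕ) * X * X1 * L) / (2 * r ^ (3 : ℕ)))
    (hhx : hx = 3 * G * s * c / (2 * l * r ^ (3 : ℕ)))
    (hhtt : htt = l * ((G2 - (3 * G ^ (2 : ℕ) * G1 * X * X1 + G ^ (3 : ℕ) * X1 ^ (2 : ℕ) + G ^ (3 : ℕ) * X * X2) * L) /
        r ^ (3 : ℕ) - 3 * (G1 - G ^ (3 : ℕ) * X * X1 * L) * (G * X * (G1 * X + G * X1) * L) / r ^ (5 : ℕ)) / 2)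
    (hhtx : htx = 3 * s * c / (2 * l) * (G1 / r ^ (3 : ℕ) - 3 * G ^ (2 : ℕ) * X * (G1 * X + G * X1) * L /
          r ^ (5 : ℕ)))
    (hhxx : hxx = 3 * G / 2 * ((c ^ (2 : ℕ) - s ^ (2 : ℕ)) / (l * r ^ (3 : ℕ)) - 3 * s ^ (2 : ℕ) * c ^ (2 : ℕ) / (l ^ (3 : ℕ) *
        r ^ (3 : ℕ)) - 9 * G ^ (2 : ℕ) * X ^ (2 : ℕ) * s ^ (2 : ℕ) * c ^ (2 : ℕ) / (l * r ^ (5 : ℕ))))
    (ha1 : a1 = -8 * c * s / l ^ (4 : ℕ))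
    (ha2 : a2 = -8 * (c ^ (2 : ℕ) - s ^ (2 : ℕ)) / l ^ (4 : ℕ) + 96 * c ^ (2 : ℕ) * s ^ (2 : ℕ) / l ^ (6 : ℕ))
    (hF : F = a1 / (G * n0)) :
    nt / n0 = G1 / G ∧ ntt / n0 = G2 / G ∧ nx / n0 = (c ^ (2 : ℕ) - s ^ (2 : ℕ)) / (c * s) - 3 * c * s / L ∧
    ntx / n0 = G1 / G * ((c ^ (2 : ℕ) - s ^ (2 : ℕ)) / (c * s) - 3 * c * s / L) ∧
    nxx / n0 = -4 - 9 * (c ^ (2 : ℕ) - s ^ (2 : ℕ)) / L + 27 * c ^ (2 : ℕ) * s ^ (2 : ℕ) / L ^ (2 : ℕ) ∧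
    ht / h0 = (G1 - G ^ (3 : ℕ) * X * X1 * L) / (G * D) ∧ hx / h0 = 3 * s * c / (L * D) ∧
    htt / h0 = ((G2 - (3 * G ^ (2 : ℕ) * G1 * X * X1 + G ^ (3 : ℕ) * X1 ^ (2 : ℕ) + G ^ (3 : ℕ) * X * X2) * L) / D -
      3 * (G1 - G ^ (3 : ℕ) * X * X1 * L) * (G * X * (G1 * X + G * X1) * L) / D ^ (2 : ℕ)) / G ∧
    htx / h0 = 3 * s * c / L * (G1 / (G * D) - 3 * G * X * (G1 * X + G * X1) * L / D ^ (2 : ℕ)) ∧
    hxx / h0 = 3 * ((c ^ (2 : ℕ) - s ^ (2 : ℕ)) / (L * D) - 3 * s ^ (2 : ℕ) * c ^ (2 : ℕ) / (L ^ (2 : ℕ) * D) -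
      9 * G ^ (2 : ℕ) * X ^ (2 : ℕ) * s ^ (2 : ℕ) * c ^ (2 : ℕ) / (L * D ^ (2 : ℕ))) ∧
    h0 ^ (2 : ℕ) * F ^ (2 : ℕ) = 16 / (G ^ (2 : ℕ) * L ^ (2 : ℕ) * D) ∧
    -(3 * h0 ^ (2 : ℕ) * hx * a1 / (G * n0) + h0 ^ (3 : ℕ) * (a2 * n0 - a1 * nx) / (G * n0 ^ (2 : ℕ))) /
      (2 * h0 ^ (2 : ℕ) * G) = -(18 * s * c / (G ^ (2 : ℕ) * L ^ (2 : ℕ) * r)) * (1 - 1 / D) := by
  subst hL hD hn0 hnt hntt hnx hntx hnxx hh0 hht hhx hhtt hhtx hhxx ha1 ha2 hF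
  refine ⟨?_, ?_, ?_, ?_, ?_, ?_, ?_, ?_, ?_, ?_, ?_, ?_⟩
  · field_simp
  · field_simp
  · field_simp
  · field_simp
  · field_simp
  · field_simp
  · field_simp
  · field_simp
  · field_simp
  · field_simp
  · field_simp
    norm_num
  · field_simp
    ring

theorem coreRic_alg2 {G G1 G2 X X1 X2 L D cs dd S1 S2 S3 w : ℝ}
    (hG : G ≠ 0) (hL0 : L ≠ 0) (hD0 : D ≠ 0) (hD : D = 1 + G ^ (2 : ℕ) * X ^ (2 : ℕ) * L)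
    (hcs : cs = (L - 1) * (4 - L) / 9) (hdd : dd = (5 - 2 * L) / 3)
    (hS1 : S1 = -(2 + 1 / D) * G2 / G - G ^ (2 : ℕ) * L * (1 / D) * (2 * X1 ^ (2 : ℕ) - X * X2))
    (hS2 : S2 = -G2 / G + (1 + 1 / D) * (1 - G1 ^ (2 : ℕ)) / G ^ (2 : ℕ) +
      G ^ (2 : ℕ) * L * (1 / D) * X * X1 * G1 / G)
    (hS3 : S3 = -(1 / D) * G2 / G - G ^ (2 : ℕ) * L * (1 / D) * (2 * X1 ^ (2 : ℕ) - X * X2) +
      2 * (1 / D) * (1 - G1 ^ (2 : ℕ)) / G ^ (2 : ℕ) + 2 * G ^ (2 : ℕ) * L * (1 / D) * X * X1 * G1 / G)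
    (hw : w = G1 * X + G * X1) :
    -G2 / G - G2 / G - ((G2 - (3 * G ^ (2 : ℕ) * G1 * X * X1 + G ^ (3 : ℕ) * X1 ^ (2 : ℕ) + G ^ (3 : ℕ) * X * X2) * L) / D -
      3 * (G1 - G ^ (3 : ℕ) * X * X1 * L) * (G * X * w * L) / D ^ (2 : ℕ)) / G = S1 + 3 * L * w ^ (2 : ℕ) / D ^ (2 : ℕ) ∧
    -G2 / G - ((-4 - 9 * dd / L + 27 * cs / L ^ (2 : ℕ)) / G ^ (2 : ℕ) + G1 / G * (G1 / G)) -
      (3 * (dd / (L * D) - 3 * cs / (L ^ (2 : ℕ) * D) - 9 * G ^ (2 : ℕ) * X ^ (2 : ℕ) * cs / (L * D ^ (2 : ℕ))) / G ^ (2 : ℕ) +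
      G1 / G * ((G1 - G ^ (3 : ℕ) * X * X1 * L) / (G * D))) - 8 / (G ^ (2 : ℕ) * L ^ (2 : ℕ) * D) =
      S2 + 27 * cs * X ^ (2 : ℕ) / (L * D ^ (2 : ℕ)) + 12 * X ^ (2 : ℕ) / (L * D) ∧
    -(G2 / G + (-4 - 9 * dd / L + 27 * cs / L ^ (2 : ℕ)) / G ^ (2 : ℕ) + G1 / G * (G1 / G)) -
      (G1 / G * ((G1 - G ^ (3 : ℕ) * X * X1 * L) / (G * D)) + (3 * dd / (L * D) - 9 * cs / (L ^ (2 : ℕ) * D)) /
      G ^ (2 : ℕ)) - 8 / (G ^ (2 : ℕ) * L ^ (2 : ℕ) * D) = S2 + 12 * X ^ (2 : ℕ) / (L * D) ∧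
    -(((G2 - (3 * G ^ (2 : ℕ) * G1 * X * X1 + G ^ (3 : ℕ) * X1 ^ (2 : ℕ) + G ^ (3 : ℕ) * X * X2) * L) / D -
      3 * (G1 - G ^ (3 : ℕ) * X * X1 * L) * (G * X * w * L) / D ^ (2 : ℕ)) / G +
      3 * (dd / (L * D) - 3 * cs / (L ^ (2 : ℕ) * D) - 9 * G ^ (2 : ℕ) * X ^ (2 : ℕ) * cs / (L * D ^ (2 : ℕ))) / G ^ (2 : ℕ) +
      G1 / G * ((G1 - G ^ (3 : ℕ) * X * X1 * L) / (G * D))) -
      (G1 / G * ((G1 - G ^ (3 : ℕ) * X * X1 * L) / (G * D)) + (3 * dd / (L * D) - 9 * cs / (L ^ (2 : ℕ) * D)) /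
      G ^ (2 : ℕ)) + 8 / (G ^ (2 : ℕ) * L ^ (2 : ℕ) * D) = S3 + 27 * cs * X ^ (2 : ℕ) / (L * D ^ (2 : ℕ)) +
      3 * L * w ^ (2 : ℕ) / D ^ 2 := by
  subst hcs hdd hS1 hS2 hS3 hw
  refine ⟨?_, ?_, ?_, ?_⟩
  · field_simp
    rw [hD]
    ring
  · field_simp
    rw [hD]
    ring
  · field_simp
    rw [hD]
    ring
  · field_simp
    rw [hD]
    ring

/-- the components -/
theorem coreRic_alg3 {G G1 G2 X X1 X2 s c r L D nt nx ntt ntx nxx n0 h0 ht hx htt htx hxx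
    F S1 S2 S3 w : ℝ} (hG : G ≠ 0) (hs : s ≠ 0) (hc : c ≠ 0) (hr : r ≠ 0)
    (hn0 : n0 ≠ 0) (hh0 : h0 ≠ 0) (hDr : D = r ^ (2 : ℕ))
    (hL : L = 1 + 3 * s ^ (2 : ℕ)) (hL0 : L ≠ 0) (hc2 : c ^ (2 : ℕ) = 1 - s ^ (2 : ℕ))
    (hD : D = 1 + G ^ (2 : ℕ) * X ^ (2 : ℕ) * L)
    (hS1 : S1 = -(2 + 1 / D) * G2 / G - G ^ (2 : ℕ) * L * (1 / D) * (2 * X1 ^ (2 : ℕ) - X * X2))
    (hS2 : S2 = -G2 / G + (1 + 1 / D) * (1 - G1 ^ (2 : ℕ)) / G ^ (2 : ℕ) +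
      G ^ (2 : ℕ) * L * (1 / D) * X * X1 * G1 / G)
    (hS3 : S3 = -(1 / D) * G2 / G - G ^ (2 : ℕ) * L * (1 / D) * (2 * X1 ^ (2 : ℕ) - X * X2) +
      2 * (1 / D) * (1 - G1 ^ (2 : ℕ)) / G ^ (2 : ℕ) + 2 * G ^ (2 : ℕ) * L * (1 / D) * X * X1 * G1 / G)
    (hw : w = G1 * X + G * X1)
    (q1 : nt / n0 = G1 / G) (q2 : ntt / n0 = G2 / G)
    (q3 : nx / n0 = (c ^ (2 : ℕ) - s ^ (2 : ℕ)) / (c * s) - 3 * c * s / L)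
    (q4 : ntx / n0 = G1 / G * ((c ^ (2 : ℕ) - s ^ (2 : ℕ)) / (c * s) - 3 * c * s / L))
    (q5 : nxx / n0 = -4 - 9 * (c ^ (2 : ℕ) - s ^ (2 : ℕ)) / L + 27 * c ^ (2 : ℕ) * s ^ (2 : ℕ) / L ^ (2 : ℕ))
    (q6 : ht / h0 = (G1 - G ^ (3 : ℕ) * X * X1 * L) / (G * D)) (q7 : hx / h0 = 3 * s * c / (L * D))
    (q8 : htt / h0 = ((G2 - (3 * G ^ (2 : ℕ) * G1 * X * X1 + G ^ (3 : ℕ) * X1 ^ (2 : ℕ) + G ^ (3 : ℕ) * X * X2) * L) / D -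
      3 * (G1 - G ^ (3 : ℕ) * X * X1 * L) * (G * X * (G1 * X + G * X1) * L) / D ^ (2 : ℕ)) / G)
    (q9 : htx / h0 = 3 * s * c / L * (G1 / (G * D) - 3 * G * X * (G1 * X + G * X1) * L / D ^ (2 : ℕ)))
    (q10 : hxx / h0 = 3 * ((c ^ (2 : ℕ) - s ^ (2 : ℕ)) / (L * D) - 3 * s ^ (2 : ℕ) * c ^ (2 : ℕ) / (L ^ (2 : ℕ) * D) -
      9 * G ^ (2 : ℕ) * X ^ (2 : ℕ) * s ^ (2 : ℕ) * c ^ (2 : ℕ) / (L * D ^ (2 : ℕ))))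
    (q11 : h0 ^ (2 : ℕ) * F ^ (2 : ℕ) = 16 / (G ^ (2 : ℕ) * L ^ (2 : ℕ) * D)) :
    S1 + 3 * L * w ^ (2 : ℕ) / D ^ (2 : ℕ) = -G2 / G - ntt / n0 - htt / h0 ∧
    9 * c * s * X * w / D ^ (2 : ℕ) =
      -(ntx / 1 - G1 * nx / G) / (G * n0) - (htx / 1 - G1 * hx / G) / (G * h0) ∧
    S2 + 27 * (c ^ (2 : ℕ) * s ^ (2 : ℕ)) * X ^ (2 : ℕ) / (L * D ^ (2 : ℕ)) + 12 * X ^ (2 : ℕ) / (L * D) =
      -G2 / G - (nxx / G ^ (2 : ℕ) + G1 * nt / G) / n0 - (hxx / G ^ (2 : ℕ) + G1 * ht / G) / h0 -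
        h0 ^ (2 : ℕ) * F ^ (2 : ℕ) / 2 ∧
    S2 + 12 * X ^ (2 : ℕ) / (L * D) = -(ntt + nxx / G ^ (2 : ℕ) + G1 * nt / G) / n0 -
      (nt * ht + nx * hx / G ^ (2 : ℕ)) / (n0 * h0) - h0 ^ (2 : ℕ) * F ^ (2 : ℕ) / 2 ∧
    S3 + 27 * (c ^ (2 : ℕ) * s ^ (2 : ℕ)) * X ^ (2 : ℕ) / (L * D ^ (2 : ℕ)) + 3 * L * w ^ (2 : ℕ) / D ^ (2 : ℕ) =
      -(htt + hxx / G ^ (2 : ℕ) + G1 * ht / G) / h0 -
      (nt * ht + nx * hx / G ^ (2 : ℕ)) / (n0 * h0) + h0 ^ (2 : ℕ) * F ^ (2 : ℕ) / 2 := by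
  have hD0 : D ≠ 0 := by
    rw [hDr]
    exact pow_ne_zero 2 hr
  obtain ⟨b1, b2, b3, b4⟩ := coreRic_alg2 (cs := c ^ (2 : ℕ) * s ^ (2 : ℕ)) (dd := c ^ (2 : ℕ) - s ^ (2 : ℕ)) hG hL0 hD0 hD
    (by rw [hc2, hL]; ring) (by rw [hc2, hL]; ring) hS1 hS2 hS3 hw
  have q37 : nx / n0 * (hx / h0) = 3 * (c ^ (2 : ℕ) - s ^ (2 : ℕ)) / (L * D) - 9 * (c ^ (2 : ℕ) * s ^ (2 : ℕ)) /
      (L ^ (2 : ℕ) * D) := by
    rw [q3, q7]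
    field_simp
    ring
  refine ⟨?_, ?_, ?_, ?_, ?_⟩
  · rw [q2, q8, ← b1, hw]
  · have e : -(ntx / 1 - G1 * nx / G) / (G * n0) - (htx / 1 - G1 * hx / G) / (G * h0) =
        -(ntx / n0 - G1 / G * (nx / n0)) / G - (htx / h0 - G1 / G * (hx / h0)) / G := by
      field_simp
    rw [e, q3, q4, q7, q9, hw]
    field_simp
    ring
  · have e : -G2 / G - (nxx / G ^ (2 : ℕ) + G1 * nt / G) / n0 - (hxx / G ^ (2 : ℕ) + G1 * ht / G) / h0 -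
        h0 ^ (2 : ℕ) * F ^ (2 : ℕ) / 2 = -G2 / G - ((nxx / n0) / G ^ (2 : ℕ) + G1 / G * (nt / n0)) -
        ((hxx / h0) / G ^ (2 : ℕ) + G1 / G * (ht / h0)) - h0 ^ (2 : ℕ) * F ^ (2 : ℕ) / 2 := by
      field_simp
    rw [e, q1, q5, q6, q10, q11, ← b2]
    ring
  · have e : -(ntt + nxx / G ^ (2 : ℕ) + G1 * nt / G) / n0 -
        (nt * ht + nx * hx / G ^ (2 : ℕ)) / (n0 * h0) - h0 ^ (2 : ℕ) * F ^ (2 : ℕ) / 2 =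
        -(ntt / n0 + (nxx / n0) / G ^ (2 : ℕ) + G1 / G * (nt / n0)) -
        (nt / n0 * (ht / h0) + (nx / n0 * (hx / h0)) / G ^ (2 : ℕ)) - h0 ^ (2 : ℕ) * F ^ (2 : ℕ) / 2 := by
      field_simp
    rw [e, q37, q1, q2, q5, q6, q11, ← b3]
    ring
  · have e : -(htt + hxx / G ^ (2 : ℕ) + G1 * ht / G) / h0 -
        (nt * ht + nx * hx / G ^ (2 : ℕ)) / (n0 * h0) + h0 ^ (2 : ℕ) * F ^ (2 : ℕ) / 2 =
        -(htt / h0 + (hxx / h0) / G ^ (2 : ℕ) + G1 / G * (ht / h0)) -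
        (nt / n0 * (ht / h0) + (nx / n0 * (hx / h0)) / G ^ (2 : ℕ)) + h0 ^ (2 : ℕ) * F ^ (2 : ℕ) / 2 := by
      field_simp
    rw [e, q37, q1, q6, q8, q10, q11, ← b4, hw]
    ring

/-- the final inequality -/
theorem coreRic_alg4 {G X s c l r L D S1 S2 S3 w w0 w1 w2 w3 : ℝ} (hG : G ≠ 0) (hl : l ≠ 0)
    (hr : r ≠ 0) (hL : L = l ^ (2 : ℕ)) (hDr : D = r ^ (2 : ℕ)) (hD : D = 1 + G ^ (2 : ℕ) * X ^ (2 : ℕ) * L)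
    (hS1 : 0 ≤ S1) (hS2 : 0 ≤ S2) (hS3 : 0 ≤ S3) :
    0 ≤ (S1 + 3 * L * w ^ (2 : ℕ) / D ^ (2 : ℕ)) * w0 ^ (2 : ℕ) + 2 * (9 * c * s * X * w / D ^ (2 : ℕ)) * w0 * w1 +
      (S2 + 27 * (c ^ (2 : ℕ) * s ^ (2 : ℕ)) * X ^ (2 : ℕ) / (L * D ^ (2 : ℕ)) + 12 * X ^ (2 : ℕ) / (L * D)) * w1 ^ (2 : ℕ) +
      (S2 + 12 * X ^ (2 : ℕ) / (L * D)) * w2 ^ (2 : ℕ) +
      (S3 + 27 * (c ^ (2 : ℕ) * s ^ (2 : ℕ)) * X ^ (2 : ℕ) / (L * D ^ (2 : ℕ)) + 3 * L * w ^ (2 : ℕ) / D ^ (2 : ℕ)) * w3 ^ (2 : ℕ) +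
      2 * (-(18 * s * c / (G ^ (2 : ℕ) * L ^ (2 : ℕ) * r)) * (1 - 1 / D)) * w2 * w3 := by
  have e : -(18 * s * c / (G ^ (2 : ℕ) * L ^ (2 : ℕ) * r)) * (1 - 1 / D) = -(18 * s * c * X ^ (2 : ℕ) / (L * r * D)) := by
    have hD0 : D ≠ 0 := by
      rw [hDr]
      exact pow_ne_zero 2 hr
    have hL0 : L ≠ 0 := by
      rw [hL]
      exact pow_ne_zero 2 hl
    field_simp
    rw [hD]
    ring
  rw [e]
  have key : (S1 + 3 * L * w ^ (2 : ℕ) / D ^ (2 : ℕ)) * w0 ^ (2 : ℕ) + 2 * (9 * c * s * X * w / D ^ (2 : ℕ)) * w0 * w1 +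
      (S2 + 27 * (c ^ (2 : ℕ) * s ^ (2 : ℕ)) * X ^ (2 : ℕ) / (L * D ^ (2 : ℕ)) + 12 * X ^ (2 : ℕ) / (L * D)) * w1 ^ (2 : ℕ) +
      (S2 + 12 * X ^ (2 : ℕ) / (L * D)) * w2 ^ (2 : ℕ) +
      (S3 + 27 * (c ^ (2 : ℕ) * s ^ (2 : ℕ)) * X ^ (2 : ℕ) / (L * D ^ (2 : ℕ)) + 3 * L * w ^ (2 : ℕ) / D ^ (2 : ℕ)) * w3 ^ (2 : ℕ) +
      2 * (-(18 * s * c * X ^ (2 : ℕ) / (L * r * D))) * w2 * w3 =
      S1 * w0 ^ (2 : ℕ) + S2 * w1 ^ (2 : ℕ) + S2 * w2 ^ (2 : ℕ) + S3 * w3 ^ (2 : ℕ) +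
      3 * ((l * w / r ^ (2 : ℕ) * w0 + 3 * c * s * X / (l * r ^ (2 : ℕ)) * w1) ^ (2 : ℕ) +
        (2 * X / (l * r) * w1) ^ (2 : ℕ) +
        (2 * X / (l * r) * w2 - 3 * c * s * X / (l * r ^ (2 : ℕ)) * w3) ^ (2 : ℕ) +
        (l * w / r ^ (2 : ℕ) * w3) ^ (2 : ℕ)) := by
    subst hDr hL
    field_simp
    ring
  rw [key]
  positivity

theorem coreRic_smooth_a : ContDiff ℝ ∞ (fun x => Real.cos x ^ (2 : ℕ) / ell2 x) :=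
  (Real.contDiff_cos.pow 2).div coreRic_ell2_smooth fun x => (coreRic_ell2_pos x).ne'

theorem coreRic_smooth_ell : ContDiff ℝ ∞ (fun x => √(ell2 x)) :=
  coreRic_ell2_smooth.sqrt fun x => (coreRic_ell2_pos x).ne'

theorem coreRic_smooth_N {g : ℝ → ℝ} {p : ℝ × ℝ} (hg : ContDiffAt ℝ ∞ g p.1) :
    ContDiffAt ℝ ∞ (fun p : ℝ × ℝ => g p.1 * Real.cos p.2 * Real.sin p.2 / √(ell2 p.2)) p := by
  have h1 : ContDiffAt ℝ ∞ (fun p : ℝ × ℝ => g p.1) p := hg.comp p contDiffAt_fst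
  have h2 : ContDiffAt ℝ ∞ (fun p : ℝ × ℝ => Real.cos p.2) p :=
    (Real.contDiff_cos.comp contDiff_snd).contDiffAt
  have h3 : ContDiffAt ℝ ∞ (fun p : ℝ × ℝ => Real.sin p.2) p :=
    (Real.contDiff_sin.comp contDiff_snd).contDiffAt
  have h4 : ContDiffAt ℝ ∞ (fun p : ℝ × ℝ => √(ell2 p.2)) p :=
    (coreRic_smooth_ell.comp contDiff_snd).contDiffAt
  exact ((h1.mul h2).mul h3).div h4 (coreRic_ell_pos p.2).ne'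

theorem coreRic_smooth_H {g ξ : ℝ → ℝ} {p : ℝ × ℝ} (hg : ContDiffAt ℝ ∞ g p.1)
    (hξ : ContDiffAt ℝ ∞ ξ p.1) :
    ContDiffAt ℝ ∞ (fun p : ℝ × ℝ => g p.1 * √(ell2 p.2) /
      (2 * √(1 + g p.1 ^ (2 : ℕ) * ξ p.1 ^ (2 : ℕ) * ell2 p.2))) p := by
  have h1 : ContDiffAt ℝ ∞ (fun p : ℝ × ℝ => g p.1) p := hg.comp p contDiffAt_fst
  have h2 : ContDiffAt ℝ ∞ (fun p : ℝ × ℝ => ξ p.1) p := hξ.comp p contDiffAt_fst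
  have h3 : ContDiffAt ℝ ∞ (fun p : ℝ × ℝ => ell2 p.2) p :=
    (coreRic_ell2_smooth.comp contDiff_snd).contDiffAt
  have h4 : ContDiffAt ℝ ∞ (fun p : ℝ × ℝ => √(ell2 p.2)) p :=
    (coreRic_smooth_ell.comp contDiff_snd).contDiffAt
  have h5 : ContDiffAt ℝ ∞ (fun p : ℝ × ℝ => √(1 + g p.1 ^ (2 : ℕ) * ξ p.1 ^ (2 : ℕ) * ell2 p.2)) p :=
    (contDiffAt_const.add (((h1.pow 2).mul (h2.pow 2)).mul h3)).sqrt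
      (coreRic_D_pos g ξ p.1 p.2).ne'
  exact (h1.mul h4).div (contDiffAt_const.mul h5)
    (mul_ne_zero two_ne_zero (coreRic_rho_pos g ξ p.1 p.2).ne')

theorem goodMet_core {g ξ : ℝ → ℝ} {T : Set ℝ} (hT : IsOpen T) (hg : ContDiffOn ℝ ∞ g T)
    (hξ : ContDiffOn ℝ ∞ ξ T) (hg0 : ∀ t ∈ T, 0 < g t) :
    GoodMet (coreKK g ξ) {y : E4 | y 0 ∈ T ∧ y 1 ∈ Set.Ioo 0 (π / 2)} := by
  have hgc : ∀ t ∈ T, ContDiffAt ℝ ∞ g t := fun t ht => hg.contDiffAt (hT.mem_nhds ht)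
  have hξc : ∀ t ∈ T, ContDiffAt ℝ ∞ ξ t := fun t ht => hξ.contDiffAt (hT.mem_nhds ht)
  have h := goodMet_kk (E := fun _ => 1) (P := g)
    (N := fun t x => g t * Real.cos x * Real.sin x / √(ell2 x))
    (H := fun t x => g t * √(ell2 x) / (2 * √(1 + g t ^ (2 : ℕ) * ξ t ^ (2 : ℕ) * ell2 x)))
    (a := fun x => Real.cos x ^ (2 : ℕ) / ell2 x) (U := {p : ℝ × ℝ | p.1 ∈ T ∧ p.2 ∈ Set.Ioo 0 (π / 2)})
    (fun p _ => contDiffAt_const) (fun p hp => hgc _ hp.1)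
    (fun p _ => coreRic_smooth_a.contDiffAt)
    (fun p hp => (coreRic_smooth_N (hgc _ hp.1)).contDiffWithinAt)
    (fun p hp => (coreRic_smooth_H (hgc _ hp.1) (hξc _ hp.1)).contDiffWithinAt)
    (fun p _ => one_pos) (fun p hp => (hg0 _ hp.1).ne')
    (fun p hp => ?_) (fun p hp => ?_)
  · exact h
  · have h1 := hg0 _ hp.1
    have h2 := Real.sin_pos_of_pos_of_lt_pi hp.2.1 (by linarith [hp.2.2, Real.pi_pos])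
    have h3 := Real.cos_pos_of_mem_Ioo ⟨by linarith [hp.2.1, Real.pi_pos], hp.2.2⟩
    have h4 := coreRic_ell_pos p.2
    positivity
  · have h1 := hg0 _ hp.1
    have h4 := coreRic_ell_pos p.2
    have h5 := coreRic_rho_pos g ξ p.1 p.2
    exact (div_pos (mul_pos h1 h4) (mul_pos two_pos h5)).ne'

theorem coreRic_a1 (x : ℝ) :
    HasDerivAt (fun x => Real.cos x ^ (2 : ℕ) / ell2 x) (-8 * cos x * sin x / ell2 x ^ (2 : ℕ)) x := by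
  have hl := (coreRic_ell2_pos x).ne'
  refine (((Real.hasDerivAt_cos x).pow 2).div (coreRic_ell2_deriv x) hl).congr_deriv ?_
  simp only [Pi.pow_apply]
  field_simp
  have h1 : ell2 x = 4 - 3 * cos x ^ 2 := by
    unfold ell2
    linarith [Real.sin_sq_add_cos_sq x]
  rw [h1]
  push_cast
  ring

theorem coreRic_a2 (x : ℝ) :
    HasDerivAt (fun x => -8 * cos x * sin x / ell2 x ^ (2 : ℕ))
      (-8 * (cos x ^ (2 : ℕ) - sin x ^ (2 : ℕ)) / ell2 x ^ (2 : ℕ) + 96 * cos x ^ (2 : ℕ) * sin x ^ (2 : ℕ) / ell2 x ^ (3 : ℕ)) x := by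
  have hl := (coreRic_ell2_pos x).ne'
  have h1 : HasDerivAt (fun x => -8 * cos x * sin x) (-8 * (cos x ^ (2 : ℕ) - sin x ^ (2 : ℕ))) x := by
    refine (((Real.hasDerivAt_cos x).const_mul (-8)).mul (Real.hasDerivAt_sin x)).congr_deriv ?_
    ring
  refine (h1.div ((coreRic_ell2_deriv x).pow 2) (pow_ne_zero 2 hl)).congr_deriv ?_
  simp only [Pi.pow_apply]
  field_simp
  push_cast
  ring

theorem coreRic_deriv_deriv {g : ℝ → ℝ} {t : ℝ} (hg : ContDiffAt ℝ ∞ g t) :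
    (∀ᶠ t' in 𝓝 t, HasDerivAt g (deriv g t') t') ∧
      HasDerivAt (deriv g) (deriv (deriv g) t) t := by
  have h2 : ContDiffAt ℝ 2 g t := hg.of_le (WithTop.coe_le_coe.mpr le_top)
  refine ⟨?_, ?_⟩
  · filter_upwards [h2.eventually (by simp)] with t' ht'
    exact (ht'.differentiableAt (by norm_num)).hasDerivAt
  · have h3 : ContDiffAt ℝ 1 (fderiv ℝ g) t := h2.fderiv_right (by norm_num)
    have h4 : ContDiffAt ℝ 1 (deriv g) t := by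
      have : deriv g = fun x => fderiv ℝ g x 1 := by
        ext x
        rfl
      rw [this]
      exact h3.clm_apply contDiffAt_const
    exact (h4.differentiableAt (by norm_num)).hasDerivAt

end Pool.Agent.W_MP_654ec6
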