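import Pool.Agent.W_MP_654ec6.A.Natural
import Pool.Agent.W_MP_654ec6.E.Defs
import Pool.Agent.W_MP_654ec6.A.Jet

/-!
# Part E: `U(2)`-invariant metrics

The metric `|dz|² + P(s) (Re z̄ dz)² + Q(s) (Im z̄ dz)²`, `s = |z|²`, on `ℂ² = ℝ⁴`
(`z₁ = u 0 + i u 1`, `z₂ = u 2 + i u 3`). With `A = |z|`, `P = (1/U - 1)/s`, `Q = (W - 1)/s` it is
`dA²/U + A² (σ₁² + σ₂²) + A² W σ₃²`.
-/

open scoped ContDiff Topology
open Filter

namespace Pool.Agent.W_MP_654ec6

/-- `|u|²` -/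
noncomputable def nsq (u : E4) : ℝ := u 0 ^ 2 + u 1 ^ 2 + u 2 ^ 2 + u 3 ^ 2

/-- `⟨u, v⟩ = Re (ū v)` -/
noncomputable def dotu (u v : E4) : ℝ := u 0 * v 0 + u 1 * v 1 + u 2 * v 2 + u 3 * v 3

/-- `⟨i u, v⟩ = Im (ū v)` -/
noncomputable def dotj (u v : E4) : ℝ := -u 1 * v 0 + u 0 * v 1 - u 3 * v 2 + u 2 * v 3

/-- multiplication by `i` on `ℂ² = ℝ⁴` -/
noncomputable def ju (u : E4) : Fin 4 → ℝ := ![-u 1, u 0, -u 3, u 2]

/-- The `U(2)`-invariant metric `|dz|² + P(s) (Re z̄ dz)² + Q(s) (Im z̄ dz)²`, `s = |z|²`. -/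
noncomputable def u2Met (P Q : ℝ → ℝ) : Met := fun u => Matrix.of fun i j =>
  (if i = j then 1 else 0) + P (nsq u) * u i * u j + Q (nsq u) * ju u i * ju u j

theorem qf_u2Met (P Q : ℝ → ℝ) (u v : E4) :
    qf (u2Met P Q u) v = nsq v + P (nsq u) * dotu u v ^ 2 + Q (nsq u) * dotj u v ^ 2 := by
  unfold qf u2Met nsq dotu dotj ju
  simp [Fin.sum_univ_four]
  ring

theorem nsq_nonneg (u : E4) : 0 ≤ nsq u := by
  unfold nsq
  positivity

theorem nsq_pos {u : E4} (h : u ≠ 0) : 0 < nsq u := by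
  refine lt_of_le_of_ne (nsq_nonneg u) fun h0 => h ?_
  unfold nsq at h0
  ext i
  fin_cases i <;> simp <;> nlinarith [sq_nonneg (u 0), sq_nonneg (u 1), sq_nonneg (u 2),
    sq_nonneg (u 3)]

theorem dot_le (u v : E4) : dotu u v ^ 2 + dotj u v ^ 2 ≤ nsq u * nsq v := by
  have h : nsq u * nsq v - (dotu u v ^ 2 + dotj u v ^ 2) =
      (-u 2 * v 0 + u 3 * v 1 + u 0 * v 2 - u 1 * v 3) ^ 2 +
        (-u 3 * v 0 - u 2 * v 1 + u 1 * v 2 + u 0 * v 3) ^ 2 := by
    unfold nsq dotu dotj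
    ring
  nlinarith [sq_nonneg (-u 2 * v 0 + u 3 * v 1 + u 0 * v 2 - u 1 * v 3),
    sq_nonneg (-u 3 * v 0 - u 2 * v 1 + u 1 * v 2 + u 0 * v 3)]

theorem contDiff_coord (i : Fin 4) : ContDiff ℝ ∞ (fun u : E4 => u i) :=
  (EuclideanSpace.proj i : E4 →L[ℝ] ℝ).contDiff

theorem contDiff_nsq : ContDiff ℝ ∞ nsq := by
  unfold nsq
  exact ((((contDiff_coord 0).pow 2).add ((contDiff_coord 1).pow 2)).add
    ((contDiff_coord 2).pow 2)).add ((contDiff_coord 3).pow 2)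

theorem contDiff_ju (i : Fin 4) : ContDiff ℝ ∞ (fun u : E4 => ju u i) := by
  fin_cases i
  · exact (contDiff_coord 1).neg
  · exact contDiff_coord 0
  · exact (contDiff_coord 3).neg
  · exact contDiff_coord 2

theorem goodMet_u2q {P Q : ℝ → ℝ} {S : Set ℝ} (hP : ∀ s ∈ S, ContDiffAt ℝ ∞ P s)
    (hQ : ∀ s ∈ S, ContDiffAt ℝ ∞ Q s) (hP0 : ∀ s ∈ S, 0 < 1 + s * P s)
    (hQ0 : ∀ s ∈ S, 0 < 1 + s * Q s) : GoodMet (u2Met P Q) {u | nsq u ∈ S} := by
  refine ⟨?_, ?_, ?_⟩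
  · intro i j u hu
    have h1 : ContDiffAt ℝ ∞ (fun u => P (nsq u)) u := (hP _ hu).comp u contDiff_nsq.contDiffAt
    have h2 : ContDiffAt ℝ ∞ (fun u => Q (nsq u)) u := (hQ _ hu).comp u contDiff_nsq.contDiffAt
    exact ((contDiffAt_const.add ((h1.mul (contDiff_coord i).contDiffAt).mul
      (contDiff_coord j).contDiffAt)).add ((h2.mul (contDiff_ju i).contDiffAt).mul
      (contDiff_ju j).contDiffAt)).contDiffWithinAt
  · intro u _ i j
    unfold u2Met
    simp only [Matrix.of_apply, eq_comm (a := i) (b := j)]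
    ring
  · intro u hu v hv
    rw [qf_u2Met]
    have hv' := nsq_pos hv
    have hd := dot_le u v
    have h1 := hP0 _ hu
    have h2 := hQ0 _ hu
    rcases eq_or_lt_of_le (nsq_nonneg u) with h0 | h0
    · have e1 : dotu u v ^ 2 = 0 := by
        rw [← h0] at hd
        nlinarith [sq_nonneg (dotu u v), sq_nonneg (dotj u v)]
      have e2 : dotj u v ^ 2 = 0 := by
        rw [← h0] at hd
        nlinarith [sq_nonneg (dotu u v), sq_nonneg (dotj u v)]
      rw [e1, e2]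
      linarith
    · have key : 0 < nsq u * (nsq v + P (nsq u) * dotu u v ^ 2 + Q (nsq u) * dotj u v ^ 2) := by
        have e : nsq u * (nsq v + P (nsq u) * dotu u v ^ 2 + Q (nsq u) * dotj u v ^ 2) =
            (nsq u * nsq v - (dotu u v ^ 2 + dotj u v ^ 2)) +
            (1 + nsq u * P (nsq u)) * dotu u v ^ 2 + (1 + nsq u * Q (nsq u)) * dotj u v ^ 2 := by
          ring
        rw [e]
        have p1 := mul_nonneg h1.le (sq_nonneg (dotu u v))
        have p2 := mul_nonneg h2.le (sq_nonneg (dotj u v))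
        by_contra hcon
        push Not at hcon
        have q1 : (1 + nsq u * P (nsq u)) * dotu u v ^ 2 = 0 := by linarith
        have q2 : (1 + nsq u * Q (nsq u)) * dotj u v ^ 2 = 0 := by linarith
        have q3 : dotu u v ^ 2 = 0 := by
          rcases mul_eq_zero.mp q1 with h | h
          · exact absurd h h1.ne'
          · exact h
        have q4 : dotj u v ^ 2 = 0 := by
          rcases mul_eq_zero.mp q2 with h | h
          · exact absurd h h2.ne'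
          · exact h
        have := mul_pos h0 hv'
        rw [q1, q2, q3, q4] at hcon
        linarith
      exact pos_of_mul_pos_right (by rwa [mul_comm] at key) h0.le |> fun h => by simpa using h

/-! ### Jets -/

theorem hasJet_compR {φ : ℝ → ℝ} {f : E4 → ℝ} {y : E4} {c : ℝ} {d : Fin 4 → ℝ}
    {h : Fin 4 → Fin 4 → ℝ} (H : HasJet f y c d h) (hφ : ContDiffAt ℝ 2 φ c) :
    HasJet (fun x => φ (f x)) y (φ c) (fun i => deriv φ c * d i)
      (fun i j => deriv (deriv φ) c * d i * d j + deriv φ c * h i j) := by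
  have hpd : ∀ x, DifferentiableAt ℝ f x → DifferentiableAt ℝ φ (f x) → ∀ i,
      pd i (fun x => φ (f x)) x = deriv φ (f x) * pd i f x := by
    intro x h1 h2 i
    unfold pd
    have := h2.hasDerivAt.comp_hasFDerivAt x h1.hasFDerivAt
    rw [show (fun x => φ (f x)) = φ ∘ f from rfl, this.fderiv]
    rfl
  have hy := H.val
  have hφ' : ContDiffAt ℝ 2 φ (f y) := by rwa [hy]
  have hder : ContDiffAt ℝ 1 (deriv φ) (f y) := hφ'.derivWithin (by norm_num)
  refine ⟨hφ'.comp y H.smooth, by rw [hy], ?_, ?_⟩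
  · intro i
    rw [hpd y H.diff (hφ'.differentiableAt (by norm_num)), hy, H.grad]
  · intro i j
    have h1 : pd j (fun x => φ (f x)) =ᶠ[𝓝 y] fun x => deriv φ (f x) * pd j f x := by
      filter_upwards [H.eventually_diff, H.smooth.continuousAt.eventually
        (hφ'.eventually (by norm_num))] with x h1 h2
      exact hpd x h1 (h2.differentiableAt (by norm_num)) j
    rw [jet_pd_congr_at h1]
    have h2 : DifferentiableAt ℝ (deriv φ) (f y) := hder.differentiableAt (by norm_num)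
    have h3 : DifferentiableAt ℝ (fun x => deriv φ (f x)) y := h2.comp y H.diff
    rw [jet_pd_mul h3 (H.diff_pd j), H.hess, H.grad]
    have h4 : pd i (fun x => deriv φ (f x)) y = deriv (deriv φ) (f y) * pd i f y := by
      unfold pd
      have := h2.hasDerivAt.comp_hasFDerivAt y H.diff.hasFDerivAt
      rw [show (fun x => deriv φ (f x)) = deriv φ ∘ f from rfl, this.fderiv]
      rfl
    rw [h4, hy, H.grad]

/-! ### The axis -/

/-- The point `(A, 0, 0, 0)`. -/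
noncomputable def axp (A : ℝ) : E4 := !₂[A, 0, 0, 0]

theorem axp_coe (A : ℝ) : (fun i => axp A i) = ![A, 0, 0, 0] := by
  funext i
  fin_cases i <;> simp [axp]

theorem ju_axp (A : ℝ) : ju (axp A) = ![0, A, 0, 0] := by
  funext i
  fin_cases i <;> simp [axp, ju]

theorem nsq_axp (A : ℝ) : nsq (axp A) = A ^ 2 := by
  simp [nsq, axp]

/-! ### Rotation to the axis -/

/-- The unitary map sending `u` to `(|u|, 0, 0, 0)`. -/
noncomputable def rotU (u : E4) : E4 →ₗ[ℝ] E4 where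
  toFun w := (Real.sqrt (nsq u))⁻¹ • !₂[dotu u w, dotj u w,
    -u 2 * w 0 + u 3 * w 1 + u 0 * w 2 - u 1 * w 3,
    -u 3 * w 0 - u 2 * w 1 + u 1 * w 2 + u 0 * w 3]
  map_add' v w := by
    ext i
    fin_cases i <;> simp [dotu, dotj] <;> ring
  map_smul' c w := by
    ext i
    fin_cases i <;> simp [dotu, dotj] <;> ring

theorem rotU_apply (u w : E4) : rotU u w = (Real.sqrt (nsq u))⁻¹ • !₂[dotu u w, dotj u w,
    -u 2 * w 0 + u 3 * w 1 + u 0 * w 2 - u 1 * w 3,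
    -u 3 * w 0 - u 2 * w 1 + u 1 * w 2 + u 0 * w 3] := rfl

theorem rotU_self {u : E4} (hu : u ≠ 0) : rotU u u = axp (Real.sqrt (nsq u)) := by
  have h := nsq_pos hu
  have h1 : (Real.sqrt (nsq u)) ≠ 0 := (Real.sqrt_pos.mpr h).ne'
  have h2 : dotu u u = Real.sqrt (nsq u) * Real.sqrt (nsq u) := by
    rw [Real.mul_self_sqrt h.le]
    unfold dotu nsq
    ring
  rw [rotU_apply]
  ext i
  fin_cases i
  · simp [axp, h2, h1]
  · simp [axp, dotj]
    right
    ring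
  · simp [axp]
    right
    ring
  · simp [axp]
    right
    ring

theorem rotU_inner {u : E4} (hu : u ≠ 0) (v w : E4) :
    dotu (rotU u v) (rotU u w) = dotu v w := by
  have h := nsq_pos hu
  have h2 : (Real.sqrt (nsq u))⁻¹ * (Real.sqrt (nsq u))⁻¹ = (nsq u)⁻¹ := by
    rw [← mul_inv, Real.mul_self_sqrt h.le]
  have e : dotu (rotU u v) (rotU u w) = (Real.sqrt (nsq u))⁻¹ * (Real.sqrt (nsq u))⁻¹ *
      (nsq u * dotu v w) := by
    rw [rotU_apply, rotU_apply]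
    unfold dotu dotj nsq
    simp
    ring
  rw [e, h2]
  field_simp

theorem rotU_dotj {u : E4} (hu : u ≠ 0) (v w : E4) :
    dotj (rotU u v) (rotU u w) = dotj v w := by
  have h := nsq_pos hu
  have h2 : (Real.sqrt (nsq u))⁻¹ * (Real.sqrt (nsq u))⁻¹ = (nsq u)⁻¹ := by
    rw [← mul_inv, Real.mul_self_sqrt h.le]
  have e : dotj (rotU u v) (rotU u w) = (Real.sqrt (nsq u))⁻¹ * (Real.sqrt (nsq u))⁻¹ *
      (nsq u * dotj v w) := by
    rw [rotU_apply, rotU_apply]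
    unfold dotu dotj nsq
    simp
    ring
  rw [e, h2]
  field_simp

theorem nsq_eq_dotu (u : E4) : nsq u = dotu u u := by
  unfold nsq dotu
  ring

theorem isoAt_rotU (P Q : ℝ → ℝ) {u : E4} (hu : u ≠ 0) (x : E4) :
    IsoAt (u2Met P Q) (u2Met P Q) (rotU u) x := by
  have hc : ((rotU u : E4 → E4)) = ((LinearMap.toContinuousLinearMap (rotU u) : E4 →L[ℝ] E4) :
      E4 → E4) := rfl
  refine ⟨?_, Filter.Eventually.of_forall fun y v => ?_⟩
  · rw [hc]
    exact (LinearMap.toContinuousLinearMap (rotU u)).contDiff.contDiffAt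
  · have hf : fderiv ℝ (rotU u) y v = rotU u v := by
      rw [hc, ContinuousLinearMap.fderiv]
    rw [hf, qf_u2Met, qf_u2Met, nsq_eq_dotu (rotU u v), nsq_eq_dotu (rotU u y), rotU_inner hu,
      rotU_inner hu, rotU_inner hu, rotU_dotj hu, ← nsq_eq_dotu, ← nsq_eq_dotu]

/-! ### The Ricci tensor -/

theorem deriv2_of {f f1 : ℝ → ℝ} {f2 s : ℝ} (h1 : ∀ᶠ t in 𝓝 s, HasDerivAt f (f1 t) t)
    (h2 : HasDerivAt f1 f2 s) : deriv f s = f1 s ∧ deriv (deriv f) s = f2 := by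
  have e : deriv f =ᶠ[𝓝 s] f1 := by
    filter_upwards [h1] with t ht
    exact ht.deriv
  exact ⟨e.self_of_nhds, by rw [e.deriv_eq, h2.deriv]⟩

/-! ### The metric with coefficients given as functions of `A = |z|` -/

theorem nsq_eq_norm (u : E4) : nsq u = ‖u‖ ^ 2 := by
  rw [EuclideanSpace.norm_eq, Real.sq_sqrt (by positivity)]
  simp [nsq, Fin.sum_univ_four]

theorem sqrt_nsq (u : E4) : √(nsq u) = ‖u‖ := by
  rw [nsq_eq_norm, Real.sqrt_sq (norm_nonneg u)]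

/-- The metric `dA²/U(A) + A² (σ₁² + σ₂²) + A² W(A) σ₃²` on `ℂ² = ℝ⁴`, `A = |z|`. -/
noncomputable def u2Z (U W : ℝ → ℝ) : Met :=
  u2Met (fun s => (1 / U (√s) - 1) / s) (fun s => (W (√s) - 1) / s)

theorem qf_u2Z (U W : ℝ → ℝ) (u v : E4) :
    qf (u2Z U W u) v = nsq v + (1 / U ‖u‖ - 1) / ‖u‖ ^ 2 * dotu u v ^ 2 +
      (W ‖u‖ - 1) / ‖u‖ ^ 2 * dotj u v ^ 2 := by
  unfold u2Z
  rw [qf_u2Met, sqrt_nsq, nsq_eq_norm u]

theorem goodMet_u2Z {U W : ℝ → ℝ} {T : Set ℝ} (hT0 : ∀ A ∈ T, 0 < A)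
    (hU : ∀ A ∈ T, ContDiffAt ℝ ∞ U A) (hW : ∀ A ∈ T, ContDiffAt ℝ ∞ W A)
    (hU0 : ∀ A ∈ T, 0 < U A) (hW0 : ∀ A ∈ T, 0 < W A) :
    GoodMet (u2Z U W) {u | ‖u‖ ∈ T} := by
  have hset : {u : E4 | ‖u‖ ∈ T} = {u : E4 | nsq u ∈ {s : ℝ | 0 < s ∧ √s ∈ T}} := by
    ext u
    simp only [Set.mem_ofPred_eq, sqrt_nsq]
    constructor
    · intro h
      refine ⟨?_, h⟩
      rw [nsq_eq_norm]
      exact pow_pos (hT0 _ h) 2
    · exact fun h => h.2
  rw [hset]
  unfold u2Z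
  have hsq : ∀ s : ℝ, 0 < s → ContDiffAt ℝ ∞ (fun s => √s) s := fun s hs =>
    Real.contDiffAt_sqrt hs.ne'
  refine goodMet_u2q ?_ ?_ ?_ ?_
  · rintro s ⟨hs, hsT⟩
    have h1 : ContDiffAt ℝ ∞ (fun s => U (√s)) s := (hU _ hsT).comp s (hsq s hs)
    exact ((contDiffAt_const.div h1 (hU0 _ hsT).ne').sub contDiffAt_const).div contDiffAt_id hs.ne'
  · rintro s ⟨hs, hsT⟩
    have h1 : ContDiffAt ℝ ∞ (fun s => W (√s)) s := (hW _ hsT).comp s (hsq s hs)
    exact (h1.sub contDiffAt_const).div contDiffAt_id hs.ne'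
  · rintro s ⟨hs, hsT⟩
    have h2 := hU0 _ hsT
    have : 1 + s * ((1 / U (√s) - 1) / s) = 1 / U (√s) := by
      field_simp
      ring
    rw [this]
    positivity
  · rintro s ⟨hs, hsT⟩
    have h2 := hW0 _ hsT
    have : 1 + s * ((W (√s) - 1) / s) = W (√s) := by
      field_simp
      ring
    rw [this]
    exact h2

theorem u2z_jet {U : ℝ → ℝ} {A : ℝ} (hA : 0 < A) {T : Set ℝ} (hT : IsOpen T) (hAT : A ∈ T)
    (hU : ∀ A ∈ T, ContDiffAt ℝ ∞ U A) :
    (∀ᶠ t in 𝓝 (A ^ 2), HasDerivAt (fun t => U (√t)) (deriv U (√t) / (2 * √t)) t) ∧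
    HasDerivAt (fun t => deriv U (√t) / (2 * √t))
      (deriv (deriv U) A / (4 * A ^ 2) - deriv U A / (4 * A ^ 3)) (A ^ 2) := by
  have hs : 0 < A ^ 2 := by positivity
  have hsA : √(A ^ 2) = A := Real.sqrt_sq hA.le
  constructor
  · have h1 : ∀ᶠ t in 𝓝 (A ^ 2), √t ∈ T :=
      Real.continuous_sqrt.continuousAt.eventually (hT.mem_nhds (by simpa only [hsA] using hAT))
    filter_upwards [h1, eventually_gt_nhds hs] with t ht ht0
    have h2 := ((hU _ ht).differentiableAt (by simp)).hasDerivAt.comp t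
      (Real.hasDerivAt_sqrt ht0.ne')
    refine h2.congr_deriv ?_
    ring
  · have h2 : ContDiffAt ℝ 1 (deriv U) (√(A ^ 2)) := by
      rw [hsA]
      exact (hU _ hAT).derivWithin (WithTop.coe_le_coe.mpr le_top)
    have h3 := (h2.differentiableAt (by simp)).hasDerivAt.comp (A ^ 2)
      (Real.hasDerivAt_sqrt hs.ne')
    have h4 := h3.div ((Real.hasDerivAt_sqrt hs.ne').const_mul 2)
      (by rw [hsA]; positivity)
    refine h4.congr_deriv ?_
    simp only [Function.comp_apply, hsA]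
    field_simp
    ring

end Pool.Agent.W_MP_654ec6
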