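import Pool.Agent.W_MP_654ec6.D.NeckZ
import Pool.Agent.W_MP_654ec6.E.CoreRicAlg
import Pool.Agent.W_MP_654ec6.E.U2Z

/-!
# The core metric in the coordinates `u` of `ℝ⁴ \ 0`

`coreZ g ξ` is the metric `dt² + g(t)² (g_{S³} - κ (K^♭)²)`, `t = |u|`,
`K^♭ = Im (z̄₁ dz₁) + 2 Im (z̄₂ dz₂)` on `S³`, `κ = g² ξ²/(1 + g² ξ² ℓ²)`, `ℓ² = |z₁|² + 4 |z₂|²`.
-/

open scoped ContDiff Topology
open Filter Set Real

namespace Pool.Agent.W_MP_654ec6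

/-- `ℓ²` as a function of `u`. -/
noncomputable def ellZ (u : E4) : ℝ := (u 0 ^ 2 + u 1 ^ 2 + 4 * (u 2 ^ 2 + u 3 ^ 2)) / ‖u‖ ^ 2

/-- The vector field `K` of the circle action with weights `(1, 2)`. -/
noncomputable def kZ (u : E4) : Fin 4 → ℝ := ![-u 1, u 0, -(2 * u 3), 2 * u 2]

/-- `⟨K, v⟩` -/
noncomputable def kdot (u v : E4) : ℝ := -u 1 * v 0 + u 0 * v 1 - 2 * u 3 * v 2 + 2 * u 2 * v 3

/-- `κ = g² ξ²/(1 + g² ξ² ℓ²)` -/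
noncomputable def kapZ (g ξ : ℝ → ℝ) (u : E4) : ℝ :=
  g ‖u‖ ^ 2 * ξ ‖u‖ ^ 2 / (1 + g ‖u‖ ^ 2 * ξ ‖u‖ ^ 2 * ellZ u)

/-- The core metric on `ℝ⁴ \ 0`. -/
noncomputable def coreZ (g ξ : ℝ → ℝ) : Met := fun u => Matrix.of fun i j =>
  (g ‖u‖ / ‖u‖) ^ 2 * (if i = j then 1 else 0) +
    (1 - (g ‖u‖ / ‖u‖) ^ 2) * (u i * u j / ‖u‖ ^ 2) -
    g ‖u‖ ^ 2 * kapZ g ξ u * (kZ u i * kZ u j / ‖u‖ ^ 4)

theorem qf_coreZ (g ξ : ℝ → ℝ) (u v : E4) :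
    qf (coreZ g ξ u) v = (g ‖u‖ / ‖u‖) ^ 2 * nsq v +
      (1 - (g ‖u‖ / ‖u‖) ^ 2) * (dotu u v ^ 2 / ‖u‖ ^ 2) -
      g ‖u‖ ^ 2 * kapZ g ξ u * (kdot u v ^ 2 / ‖u‖ ^ 4) := by
  unfold qf coreZ nsq dotu kdot kZ
  simp [Fin.sum_univ_four]
  ring

/-- Where `ξ = 0` the core metric is the round neck metric. -/
theorem coreZ_eq_neckZ {g ξ l m H : ℝ → ℝ} {u : E4} (h1 : g ‖u‖ = l ‖u‖) (h2 : ξ ‖u‖ = 0)
    (h3 : m ‖u‖ = 0) : coreZ g ξ u = neckZ l m H u := by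
  ext i j
  unfold coreZ neckZ kapZ
  simp only [Matrix.of_apply, h1, h2, h3, nBeta_zero]
  ring

theorem nsq_pos' {u : E4} (hu : u ≠ 0) : 0 < ‖u‖ ^ 2 := pow_pos (norm_pos_iff.mpr hu) 2

theorem ellZ_nonneg (u : E4) : 0 ≤ ellZ u := by
  unfold ellZ
  positivity

theorem core_D_pos (g ξ : ℝ → ℝ) (u : E4) : 0 < 1 + g ‖u‖ ^ 2 * ξ ‖u‖ ^ 2 * ellZ u := by
  have := ellZ_nonneg u
  positivity

theorem kdot_cs (u v : E4) : kdot u v ^ 2 * ‖u‖ ^ 2 ≤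
    (u 0 ^ 2 + u 1 ^ 2 + 4 * (u 2 ^ 2 + u 3 ^ 2)) * (‖u‖ ^ 2 * nsq v - dotu u v ^ 2) := by
  have hn : ‖u‖ ^ 2 = nsq u := (nsq_eq_norm u).symm
  rw [hn]
  have h : (u 0 ^ 2 + u 1 ^ 2 + 4 * (u 2 ^ 2 + u 3 ^ 2)) * (nsq u * nsq v - dotu u v ^ 2) -
      kdot u v ^ 2 * nsq u =
      ((-u 1) * (u 1 * v 2 - u 2 * v 1) - (u 0) * (u 0 * v 2 - u 2 * v 0) + (-(2 * u 3)) * (u 0 * v 1 - u 1 * v 0)) ^ 2 +
      ((-u 1) * (u 1 * v 3 - u 3 * v 1) - (u 0) * (u 0 * v 3 - u 3 * v 0) + (2 * u 2) * (u 0 * v 1 - u 1 * v 0)) ^ 2 +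
      ((-u 1) * (u 2 * v 3 - u 3 * v 2) - (-(2 * u 3)) * (u 0 * v 3 - u 3 * v 0) + (2 * u 2) * (u 0 * v 2 - u 2 * v 0)) ^ 2 +
      ((u 0) * (u 2 * v 3 - u 3 * v 2) - (-(2 * u 3)) * (u 1 * v 3 - u 3 * v 1) + (2 * u 2) * (u 1 * v 2 - u 2 * v 1)) ^ 2 := by
    unfold nsq dotu kdot
    ring
  have h2 : 0 ≤ (u 0 ^ 2 + u 1 ^ 2 + 4 * (u 2 ^ 2 + u 3 ^ 2)) * (nsq u * nsq v - dotu u v ^ 2) -
      kdot u v ^ 2 * nsq u := by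
    rw [h]
    positivity
  linarith

theorem contDiffAt_coreZ {g ξ : ℝ → ℝ} {u : E4} (hu : u ≠ 0) (hg : ContDiffAt ℝ ∞ g ‖u‖)
    (hξ : ContDiffAt ℝ ∞ ξ ‖u‖) (i j : Fin 4) :
    ContDiffAt ℝ ∞ (fun u => coreZ g ξ u i j) u := by
  have h0 : ‖u‖ ≠ 0 := norm_ne_zero_iff.2 hu
  have hn := contDiffAt_nrm hu
  have hg' : ContDiffAt ℝ ∞ (fun u : E4 => g ‖u‖) u := hg.comp u hn
  have hξ' : ContDiffAt ℝ ∞ (fun u : E4 => ξ ‖u‖) u := hξ.comp u hn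
  have hq : ContDiffAt ℝ ∞ (fun u : E4 => (g ‖u‖ / ‖u‖) ^ 2) u := (hg'.div hn h0).pow 2
  have hc := fun i => contDiffAt_coord i u
  have hell : ContDiffAt ℝ ∞ (fun u : E4 => ellZ u) u :=
    ((((hc 0).pow 2).add ((hc 1).pow 2)).add
      (contDiffAt_const.mul (((hc 2).pow 2).add ((hc 3).pow 2)))).div (hn.pow 2)
      (pow_ne_zero 2 h0)
  have hkap : ContDiffAt ℝ ∞ (fun u : E4 => kapZ g ξ u) u :=
    ((hg'.pow 2).mul (hξ'.pow 2)).div (contDiffAt_const.add (((hg'.pow 2).mul (hξ'.pow 2)).mul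
      hell)) (core_D_pos g ξ u).ne'
  have hk : ∀ i, ContDiffAt ℝ ∞ (fun u : E4 => kZ u i) u := by
    intro i
    fin_cases i
    · exact (hc 1).neg
    · exact hc 0
    · exact (contDiffAt_const.mul (hc 3)).neg
    · exact contDiffAt_const.mul (hc 2)
  unfold coreZ
  simp only [Matrix.of_apply]
  exact ((hq.mul contDiffAt_const).add ((contDiffAt_const.sub hq).mul
    (((hc i).mul (hc j)).div (hn.pow 2) (pow_ne_zero 2 h0)))).sub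
    (((hg'.pow 2).mul hkap).mul (((hk i).mul (hk j)).div (hn.pow 4) (pow_ne_zero 4 h0)))

theorem coreZ_pos {g ξ : ℝ → ℝ} {u : E4} (hu : u ≠ 0) (hg : 0 < g ‖u‖) {v : E4} (hv : v ≠ 0) :
    0 < qf (coreZ g ξ u) v := by
  have ht : 0 < ‖u‖ := norm_pos_iff.2 hu
  have hn : ‖u‖ ^ 2 = nsq u := (nsq_eq_norm u).symm
  have hcs := kdot_cs u v
  have hcs2 := dot_le u v
  have hv2 := nsq_pos hv
  rw [qf_coreZ]
  have hD := core_D_pos g ξ u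
  obtain ⟨e, he⟩ : ∃ e, e = ellZ u := ⟨_, rfl⟩
  obtain ⟨κ, hκ⟩ : ∃ κ, κ = kapZ g ξ u := ⟨_, rfl⟩
  obtain ⟨t, htt⟩ : ∃ t, t = ‖u‖ := ⟨_, rfl⟩
  have he2 : u 0 ^ 2 + u 1 ^ 2 + 4 * (u 2 ^ 2 + u 3 ^ 2) = e * t ^ 2 := by
    rw [he, htt]
    unfold ellZ
    field_simp
  have hκ0 : 0 ≤ κ := by
    rw [hκ]
    unfold kapZ
    positivity
  have hκ1 : 0 < 1 - κ * e := by
    have : 1 - κ * e = 1 / (1 + g ‖u‖ ^ 2 * ξ ‖u‖ ^ 2 * ellZ u) := by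
      rw [hκ, he]
      unfold kapZ
      field_simp
      ring
    rw [this]
    positivity
  rw [he2] at hcs
  rw [← hn] at hcs2
  rw [← hκ, ← htt]
  rw [← htt] at hcs hcs2 ht hg
  obtain ⟨n, hnn⟩ : ∃ n, n = nsq v := ⟨_, rfl⟩
  obtain ⟨P, hP⟩ : ∃ P, P = dotu u v := ⟨_, rfl⟩
  obtain ⟨k, hk⟩ : ∃ k, k = kdot u v := ⟨_, rfl⟩
  obtain ⟨G, hG⟩ : ∃ G, G = g t := ⟨_, rfl⟩
  rw [← hnn, ← hP, ← hk, ← hG]
  rw [← hnn, ← hP, ← hk] at hcs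
  rw [← hnn, ← hP] at hcs2
  rw [← hnn] at hv2
  rw [← hG] at hg
  have hD2 : 0 ≤ t ^ 2 * n - P ^ 2 := by nlinarith only [sq_nonneg (dotj u v), hcs2]
  have hk2 : k ^ 2 ≤ e * (t ^ 2 * n - P ^ 2) := by
    have : k ^ 2 * t ^ 2 ≤ (e * (t ^ 2 * n - P ^ 2)) * t ^ 2 := by linarith
    exact le_of_mul_le_mul_right this (by positivity)
  have h6 : (G / t) ^ 2 * n + (1 - (G / t) ^ 2) * (P ^ 2 / t ^ 2) -
      G ^ 2 * κ * (k ^ 2 / t ^ 4) =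
      (G ^ 2 * (t ^ 2 * n - P ^ 2) + t ^ 2 * P ^ 2 - G ^ 2 * κ * k ^ 2) / t ^ 4 := by
    field_simp
    ring
  rw [h6]
  refine div_pos ?_ (pow_pos ht 4)
  have hG2 : 0 < G ^ 2 := by positivity
  have h7 : G ^ 2 * κ * k ^ 2 ≤ G ^ 2 * κ * (e * (t ^ 2 * n - P ^ 2)) :=
    mul_le_mul_of_nonneg_left hk2 (by positivity)
  have h8 : G ^ 2 * ((1 - κ * e) * (t ^ 2 * n - P ^ 2)) + t ^ 2 * P ^ 2 ≤
      G ^ 2 * (t ^ 2 * n - P ^ 2) + t ^ 2 * P ^ 2 - G ^ 2 * κ * k ^ 2 := by linarith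
  refine lt_of_lt_of_le ?_ h8
  rcases eq_or_lt_of_le hD2 with h9 | h9
  · have hP2 : 0 < P ^ 2 := by nlinarith only [pow_pos ht 2, mul_pos (pow_pos ht 2) hv2, h9]
    rw [← h9]
    have := mul_pos (pow_pos ht 2) hP2
    linarith
  · have := mul_pos hG2 (mul_pos hκ1 h9)
    have h10 : 0 ≤ t ^ 2 * P ^ 2 := by positivity
    linarith

theorem goodMet_coreZ {g ξ : ℝ → ℝ} {T : Set ℝ} (hT0 : ∀ t ∈ T, 0 < t)
    (hg : ∀ t ∈ T, ContDiffAt ℝ ∞ g t) (hξ : ∀ t ∈ T, ContDiffAt ℝ ∞ ξ t)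
    (hg0 : ∀ t ∈ T, 0 < g t) : GoodMet (coreZ g ξ) {u : E4 | ‖u‖ ∈ T} := by
  have hne : ∀ u : E4, ‖u‖ ∈ T → u ≠ 0 := fun u hu => norm_pos_iff.1 (hT0 _ hu)
  refine ⟨fun i j u hu => ?_, fun u _ i j => ?_, fun u hu v hv => ?_⟩
  · exact (contDiffAt_coreZ (hne u hu) (hg _ hu) (hξ _ hu) i j).contDiffWithinAt
  · simp only [coreZ, Matrix.of_apply, eq_comm (a := i) (b := j)]
    ring
  · exact coreZ_pos (hne u hu) (hg0 _ hu) hv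

/-! ### Torus coordinates -/

/-- The map `(t, x, α', β) ↦ t (cos x e^{iα}, sin x e^{iβ})`, `α = (α' + β)/2`. -/
noncomputable def tor (y : E4) : E4 :=
  WithLp.toLp 2 ![y 0 * cos (y 1) * cos ((y 2 + y 3) / 2), y 0 * cos (y 1) * sin ((y 2 + y 3) / 2),
    y 0 * sin (y 1) * cos (y 3), y 0 * sin (y 1) * sin (y 3)]

theorem tor_0 (y : E4) : tor y 0 = y 0 * cos (y 1) * cos ((y 2 + y 3) / 2) := rfl
theorem tor_1 (y : E4) : tor y 1 = y 0 * cos (y 1) * sin ((y 2 + y 3) / 2) := rfl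
theorem tor_2 (y : E4) : tor y 2 = y 0 * sin (y 1) * cos (y 3) := rfl
theorem tor_3 (y : E4) : tor y 3 = y 0 * sin (y 1) * sin (y 3) := rfl

theorem contDiff_tor : ContDiff ℝ ∞ tor := by
  have h (i : Fin 4) : ContDiff ℝ ∞ (fun y : E4 => y i) :=
    (EuclideanSpace.proj i : E4 →L[ℝ] ℝ).contDiff
  rw [contDiff_euclidean]
  intro i
  fin_cases i
  · exact ((h 0).mul (h 1).cos).mul (((h 2).add (h 3)).div_const 2).cos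
  · exact ((h 0).mul (h 1).cos).mul (((h 2).add (h 3)).div_const 2).sin
  · exact ((h 0).mul (h 1).sin).mul (h 3).cos
  · exact ((h 0).mul (h 1).sin).mul (h 3).sin

theorem norm_tor {y : E4} (hy : 0 ≤ y 0) : ‖tor y‖ = y 0 := by
  have h1 : ‖tor y‖ ^ 2 = y 0 ^ 2 := by
    rw [norm_sq_E4, tor_0, tor_1, tor_2, tor_3]
    have e1 := sin_sq_add_cos_sq (y 1)
    have e2 := sin_sq_add_cos_sq ((y 2 + y 3) / 2)
    have e3 := sin_sq_add_cos_sq (y 3)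
    linear_combination (y 0 ^ 2 * cos (y 1) ^ 2) * e2 + (y 0 ^ 2 * sin (y 1) ^ 2) * e3 +
      y 0 ^ 2 * e1
  exact (sq_eq_sq₀ (norm_nonneg _) hy).1 h1

/-- The derivative of `tor`. -/
theorem fderiv_tor (y w : E4) :
    fderiv ℝ tor y w 0 = (w 0 * cos (y 1) - y 0 * (sin (y 1) * w 1)) * cos ((y 2 + y 3) / 2) -
      y 0 * cos (y 1) * (sin ((y 2 + y 3) / 2) * ((w 2 + w 3) / 2)) ∧
    fderiv ℝ tor y w 1 = (w 0 * cos (y 1) - y 0 * (sin (y 1) * w 1)) * sin ((y 2 + y 3) / 2) +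
      y 0 * cos (y 1) * (cos ((y 2 + y 3) / 2) * ((w 2 + w 3) / 2)) ∧
    fderiv ℝ tor y w 2 = (w 0 * sin (y 1) + y 0 * (cos (y 1) * w 1)) * cos (y 3) -
      y 0 * sin (y 1) * (sin (y 3) * w 3) ∧
    fderiv ℝ tor y w 3 = (w 0 * sin (y 1) + y 0 * (cos (y 1) * w 1)) * sin (y 3) +
      y 0 * sin (y 1) * (cos (y 3) * w 3) := by
  have hd : DifferentiableAt ℝ tor y := contDiff_tor.differentiable (by simp) y
  have h (i : Fin 4) : HasFDerivAt (fun y : E4 => y i) (EuclideanSpace.proj i : E4 →L[ℝ] ℝ) y :=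
    (EuclideanSpace.proj i : E4 →L[ℝ] ℝ).hasFDerivAt
  have ha : HasFDerivAt (fun y : E4 => (y 2 + y 3) * (1 / 2 : ℝ))
      ((1 / 2 : ℝ) • ((EuclideanSpace.proj 2 : E4 →L[ℝ] ℝ) + (EuclideanSpace.proj 3 : E4 →L[ℝ] ℝ)))
      y := ((h 2).add (h 3)).mul_const (1 / 2 : ℝ)
  have e : ∀ z : E4, (z 2 + z 3) / 2 = (z 2 + z 3) * (1 / 2) := fun z => by ring
  have h0 : HasFDerivAt (fun y : E4 => y 0 * cos (y 1) * cos ((y 2 + y 3) * (1 / 2))) _ y :=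
    ((h 0).mul (h 1).cos).mul ha.cos
  have h1 : HasFDerivAt (fun y : E4 => y 0 * cos (y 1) * sin ((y 2 + y 3) * (1 / 2))) _ y :=
    ((h 0).mul (h 1).cos).mul ha.sin
  have e0 : (fun y : E4 => tor y 0) = fun y => y 0 * cos (y 1) * cos ((y 2 + y 3) * (1 / 2)) := by
    funext z
    rw [tor_0, e]
  have e1 : (fun y : E4 => tor y 1) = fun y => y 0 * cos (y 1) * sin ((y 2 + y 3) * (1 / 2)) := by
    funext z
    rw [tor_1, e]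
  have h2 : HasFDerivAt (fun y : E4 => tor y 2) _ y := ((h 0).mul (h 1).sin).mul (h 3).cos
  have h3 : HasFDerivAt (fun y : E4 => tor y 3) _ y := ((h 0).mul (h 1).sin).mul (h 3).sin
  refine ⟨?_, ?_, ?_, ?_⟩
  · rw [← trans_fderiv_coord hd, e0, h0.fderiv, e]
    simp
    ring
  · rw [← trans_fderiv_coord hd, e1, h1.fderiv, e]
    simp
    ring
  · rw [← trans_fderiv_coord hd, h2.fderiv]
    simp
    ring
  · rw [← trans_fderiv_coord hd, h3.fderiv]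
    simp
    ring

theorem tor_dotu (y w : E4) : dotu (tor y) (fderiv ℝ tor y w) = y 0 * w 0 := by
  obtain ⟨h0, h1, h2, h3⟩ := fderiv_tor y w
  unfold dotu
  rw [h0, h1, h2, h3, tor_0, tor_1, tor_2, tor_3]
  have e1 := sin_sq_add_cos_sq (y 1)
  have e2 := sin_sq_add_cos_sq ((y 2 + y 3) / 2)
  have e3 := sin_sq_add_cos_sq (y 3)
  linear_combination (y 0 * cos (y 1) * (w 0 * cos (y 1) - y 0 * (sin (y 1) * w 1))) * e2 +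
    (y 0 * sin (y 1) * (w 0 * sin (y 1) + y 0 * (cos (y 1) * w 1))) * e3 + (y 0 * w 0) * e1

theorem tor_nsq (y w : E4) : nsq (fderiv ℝ tor y w) =
    w 0 ^ 2 + y 0 ^ 2 * w 1 ^ 2 + y 0 ^ 2 * cos (y 1) ^ 2 * ((w 2 + w 3) / 2) ^ 2 +
      y 0 ^ 2 * sin (y 1) ^ 2 * w 3 ^ 2 := by
  obtain ⟨h0, h1, h2, h3⟩ := fderiv_tor y w
  unfold nsq
  rw [h0, h1, h2, h3]
  have e1 := sin_sq_add_cos_sq (y 1)
  have e2 := sin_sq_add_cos_sq ((y 2 + y 3) / 2)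
  have e3 := sin_sq_add_cos_sq (y 3)
  linear_combination ((w 0 * cos (y 1) - y 0 * (sin (y 1) * w 1)) ^ 2 +
      (y 0 * cos (y 1) * ((w 2 + w 3) / 2)) ^ 2) * e2 +
    ((w 0 * sin (y 1) + y 0 * (cos (y 1) * w 1)) ^ 2 + (y 0 * sin (y 1) * w 3) ^ 2) * e3 +
    (w 0 ^ 2 + y 0 ^ 2 * w 1 ^ 2) * e1

theorem tor_kdot (y w : E4) : kdot (tor y) (fderiv ℝ tor y w) =
    y 0 ^ 2 * (cos (y 1) ^ 2 * ((w 2 + w 3) / 2) + 2 * (sin (y 1) ^ 2 * w 3)) := by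
  obtain ⟨h0, h1, h2, h3⟩ := fderiv_tor y w
  unfold kdot
  rw [h0, h1, h2, h3, tor_0, tor_1, tor_2, tor_3]
  have e2 := sin_sq_add_cos_sq ((y 2 + y 3) / 2)
  have e3 := sin_sq_add_cos_sq (y 3)
  linear_combination (y 0 ^ 2 * cos (y 1) ^ 2 * ((w 2 + w 3) / 2)) * e2 +
    (2 * (y 0 ^ 2 * sin (y 1) ^ 2 * w 3)) * e3

theorem tor_ellZ {y : E4} (hy : 0 < y 0) : ellZ (tor y) = ell2 (y 1) := by
  unfold ellZ ell2
  rw [norm_tor hy.le, tor_0, tor_1, tor_2, tor_3]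
  have e1 := sin_sq_add_cos_sq (y 1)
  have e2 := sin_sq_add_cos_sq ((y 2 + y 3) / 2)
  have e3 := sin_sq_add_cos_sq (y 3)
  rw [div_eq_iff (by positivity)]
  linear_combination (y 0 ^ 2 * cos (y 1) ^ 2) * e2 + (4 * y 0 ^ 2 * sin (y 1) ^ 2) * e3 +
    y 0 ^ 2 * e1

theorem qf_kkMet (E P : ℝ → ℝ) (N H : ℝ → ℝ → ℝ) (a : ℝ → ℝ) (y w : E4) :
    qf (kkMet E P N H a y) w = E (y 0) * w 0 ^ 2 + P (y 0) ^ 2 * w 1 ^ 2 +
      N (y 0) (y 1) ^ 2 * w 2 ^ 2 + H (y 0) (y 1) ^ 2 * (w 3 + a (y 1) * w 2) ^ 2 := by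
  unfold qf kkMet
  simp [Fin.sum_univ_four]
  ring

theorem isoAt_tor {g ξ : ℝ → ℝ} {y : E4} (h0 : 0 < y 0) :
    IsoAt (coreKK g ξ) (coreZ g ξ) tor y := by
  refine ⟨contDiff_tor.contDiffAt, ?_⟩
  have hc : ∀ i : Fin 4, Continuous fun y : E4 => y i := fun i =>
    (EuclideanSpace.proj i : E4 →L[ℝ] ℝ).continuous
  filter_upwards [(hc 0).continuousAt.eventually (lt_mem_nhds h0)] with z hz0 w
  unfold coreKK
  rw [qf_coreZ, qf_kkMet, norm_tor (show (0 : ℝ) ≤ z 0 from le_of_lt hz0), tor_dotu, tor_nsq, tor_kdot]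
  unfold kapZ
  rw [norm_tor (show (0 : ℝ) ≤ z 0 from le_of_lt hz0), tor_ellZ hz0]
  have hl := coreRic_ell2_pos (z 1)
  have hD := coreRic_D_pos g ξ (z 0) (z 1)
  have hz : z 0 ≠ 0 := ne_of_gt hz0
  simp only [div_pow, mul_pow, Real.sq_sqrt hl.le, Real.sq_sqrt hD.le]
  have e1 : ell2 (z 1) = cos (z 1) ^ 2 + 4 * sin (z 1) ^ 2 := by
    unfold ell2
    linarith [sin_sq_add_cos_sq (z 1)]
  obtain ⟨L, hL⟩ : ∃ L, L = ell2 (z 1) := ⟨_, rfl⟩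
  obtain ⟨c, hc⟩ : ∃ c, c = cos (z 1) := ⟨_, rfl⟩
  obtain ⟨s, hs⟩ : ∃ s, s = sin (z 1) := ⟨_, rfl⟩
  obtain ⟨G, hG⟩ : ∃ G, G = g (z 0) := ⟨_, rfl⟩
  obtain ⟨X, hX⟩ : ∃ X, X = ξ (z 0) := ⟨_, rfl⟩
  rw [← hL, ← hc, ← hs] at e1
  rw [← hL] at hl
  rw [← hL, ← hG, ← hX] at hD
  rw [← hL, ← hc, ← hs, ← hG, ← hX]
  have hLn : L ≠ 0 := hl.ne'
  have hDn : 1 + G ^ 2 * X ^ 2 * L ≠ 0 := hD.ne'
  have e2 : s ^ 2 = (L - c ^ 2) / 4 := by linarith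
  rw [e2]
  field_simp
  ring

theorem exists_polar {a b c : ℝ} (hc : 0 < c) (hab : a ^ 2 + b ^ 2 = c ^ 2) :
    ∃ θ : ℝ, c * cos θ = a ∧ c * sin θ = b := by
  have h2 : ‖(⟨a, b⟩ : ℂ)‖ = c := by
    rw [Complex.norm_def, Complex.normSq_apply]
    rw [show a * a + b * b = c ^ 2 by rw [← hab]; ring]
    exact Real.sqrt_sq hc.le
  refine ⟨Complex.arg ⟨a, b⟩, ?_, ?_⟩
  · have h1 := Complex.norm_mul_cos_arg ⟨a, b⟩
    rw [h2] at h1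
    exact h1
  · have h1 := Complex.norm_mul_sin_arg ⟨a, b⟩
    rw [h2] at h1
    exact h1

/-- Torus coordinates of a point off the axes. -/
theorem exists_tor {u : E4} (h1 : u 0 ^ 2 + u 1 ^ 2 ≠ 0) (h2 : u 2 ^ 2 + u 3 ^ 2 ≠ 0) :
    ∃ y : E4, y 0 = ‖u‖ ∧ y 1 ∈ Ioo 0 (π / 2) ∧ tor y = u := by
  have p1 : 0 < u 0 ^ 2 + u 1 ^ 2 := lt_of_le_of_ne (by positivity) (Ne.symm h1)
  have p2 : 0 < u 2 ^ 2 + u 3 ^ 2 := lt_of_le_of_ne (by positivity) (Ne.symm h2)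
  obtain ⟨r, hr, hr2⟩ : ∃ r : ℝ, 0 < r ∧ r ^ 2 = u 0 ^ 2 + u 1 ^ 2 :=
    ⟨√(u 0 ^ 2 + u 1 ^ 2), Real.sqrt_pos.2 p1, Real.sq_sqrt p1.le⟩
  obtain ⟨ρ, hρ, hρ2⟩ : ∃ ρ : ℝ, 0 < ρ ∧ ρ ^ 2 = u 2 ^ 2 + u 3 ^ 2 :=
    ⟨√(u 2 ^ 2 + u 3 ^ 2), Real.sqrt_pos.2 p2, Real.sq_sqrt p2.le⟩
  have hn2 := norm_sq_E4 u
  have hn : 0 < ‖u‖ := by
    refine lt_of_le_of_ne (norm_nonneg _) fun h6 => ?_
    rw [← h6] at hn2
    norm_num at hn2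
    linarith
  obtain ⟨t, ht⟩ : ∃ t, t = ‖u‖ := ⟨_, rfl⟩
  rw [← ht] at hn hn2 ⊢
  have ht2 : r ^ 2 + ρ ^ 2 = t ^ 2 := by linarith
  obtain ⟨α, hα1, hα2⟩ := exists_polar hr hr2.symm
  obtain ⟨β, hβ1, hβ2⟩ := exists_polar hρ hρ2.symm
  obtain ⟨x, hx1, hx2, hx3⟩ : ∃ x : ℝ, x ∈ Ioo 0 (π / 2) ∧ t * cos x = r ∧ t * sin x = ρ := by
    have hlt : ρ / t < 1 := by
      rw [div_lt_one hn]
      exact lt_of_pow_lt_pow_left₀ 2 hn.le (by nlinarith only [hρ2, p1, hn2])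
    have hgt : 0 < ρ / t := div_pos hρ hn
    have hs : sin (arcsin (ρ / t)) = ρ / t := sin_arcsin (by linarith) hlt.le
    have hx : arcsin (ρ / t) ∈ Ioo 0 (π / 2) :=
      ⟨arcsin_pos.2 hgt, arcsin_lt_pi_div_two.2 hlt⟩
    refine ⟨arcsin (ρ / t), hx, ?_, ?_⟩
    · have hcp : 0 < cos (arcsin (ρ / t)) :=
        cos_pos_of_mem_Ioo ⟨by linarith [hx.1, Real.pi_pos], hx.2⟩
      have h1 : (t * cos (arcsin (ρ / t))) ^ 2 = r ^ 2 := by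
        have h2 := sin_sq_add_cos_sq (arcsin (ρ / t))
        rw [hs] at h2
        have h3 : (ρ / t) ^ 2 = ρ ^ 2 / t ^ 2 := by ring
        rw [h3] at h2
        have h4 : cos (arcsin (ρ / t)) ^ 2 = 1 - ρ ^ 2 / t ^ 2 := by linarith
        rw [mul_pow, h4]
        field_simp
        linarith
      exact (sq_eq_sq₀ (by positivity) hr.le).1 h1
    · rw [hs]
      field_simp
  refine ⟨WithLp.toLp 2 ![t, x, 2 * α - β, β], rfl, hx1, ?_⟩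
  have e : (2 * α - β + β) / 2 = α := by ring
  ext i
  fin_cases i
  · change t * cos x * cos ((2 * α - β + β) / 2) = u 0
    rw [e, hx2, hα1]
  · change t * cos x * sin ((2 * α - β + β) / 2) = u 1
    rw [e, hx2, hα2]
  · change t * sin x * cos β = u 2
    rw [hx3, hβ1]
  · change t * sin x * sin β = u 3
    rw [hx3, hβ2]

/-- The points off the axes are dense. -/
theorem mem_closure_offAxes {T : Set E4} (hT : IsOpen T) {u : E4} (hu : u ∈ T) :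
    u ∈ closure {v : E4 | v ∈ T ∧ v 0 ≠ 0 ∧ v 2 ≠ 0} := by
  have h1 : Tendsto (fun ε : ℝ => u + ε • (bv 0 + bv 2)) (𝓝[≠] 0) (𝓝 u) := by
    have : Tendsto (fun ε : ℝ => u + ε • (bv 0 + bv 2)) (𝓝 0) (𝓝 (u + (0 : ℝ) • (bv 0 + bv 2))) :=
      (continuous_const.add (continuous_id.smul continuous_const)).continuousAt
    rw [zero_smul, add_zero] at this
    exact this.mono_left nhdsWithin_le_nhds
  refine mem_closure_of_tendsto h1 ?_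
  have h2 : ∀ᶠ ε : ℝ in 𝓝[≠] 0, u + ε • (bv 0 + bv 2) ∈ T := h1.eventually (hT.mem_nhds hu)
  have h3 : ∀ a : ℝ, ∀ᶠ ε : ℝ in 𝓝[≠] 0, a + ε ≠ 0 := by
    intro a
    rcases eq_or_ne a 0 with h | h
    · filter_upwards [self_mem_nhdsWithin] with ε hε
      rw [h, zero_add]
      exact hε
    · have : Tendsto (fun ε : ℝ => a + ε) (𝓝 0) (𝓝 (a + 0)) :=
        (continuous_const.add continuous_id).continuousAt
      rw [add_zero] at this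
      exact (this.eventually_ne h).filter_mono nhdsWithin_le_nhds
  filter_upwards [h2, h3 (u 0), h3 (u 2)] with ε e1 e2 e3
  refine ⟨e1, ?_, ?_⟩
  · have : (u + ε • (bv 0 + bv 2)) 0 = u 0 + ε := by simp [bv]
    rw [this]
    exact e2
  · have : (u + ε • (bv 0 + bv 2)) 2 = u 2 + ε := by simp [bv]
    rw [this]
    exact e3

end Pool.Agent.W_MP_654ec6
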