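import Pool.Agent.W_MP_654ec6.Stmt

/-!
# Part E: complex coordinates of `E4`, the metric of the slice `E` and of the bolt charts
-/

open scoped ContDiff Topology
open Filter Real

namespace Pool.Agent.W_MP_654ec6

/-- The complex coordinates of a point of `E4`. -/
def cz1 (u : E4) : ℂ := ⟨u 0, u 1⟩

def cz2 (u : E4) : ℂ := ⟨u 2, u 3⟩

/-- The point of `E4` with given complex coordinates. -/
def mkz (a b : ℂ) : E4 := WithLp.toLp 2 ![a.re, a.im, b.re, b.im]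

/-- `2 Im (z̄₂ dz₂) + Im (w̄ dw)` in the coordinates `u = (z₂, w)`. -/
def eForm (u : E4) : Fin 4 → ℝ := ![-(2 * u 1), 2 * u 0, -u 3, u 2]

/-- The metric of `P(1,2,1)` in the slice `z₁ > 0`, coordinates `u = (z₂, w)`, `‖u‖ < 1`. -/
noncomputable def gE : Met := fun u => Matrix.of fun i j =>
  (if i = j then 1 else 0) + u i * u j / (1 - ‖u‖ ^ 2) -
    eForm u i * eForm u j / (1 + 3 * (u 0 ^ 2 + u 1 ^ 2))

/-- The real and imaginary parts of `dζ + 2 i ζ Im(v̄ dv)/(1+|v|²)`, `u = (v, ζ)`. -/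
noncomputable def bForm1 (u : E4) : Fin 4 → ℝ :=
  ![2 * u 3 * u 1 / (1 + u 0 ^ 2 + u 1 ^ 2), -(2 * u 3 * u 0 / (1 + u 0 ^ 2 + u 1 ^ 2)), 1, 0]

noncomputable def bForm2 (u : E4) : Fin 4 → ℝ :=
  ![-(2 * u 2 * u 1 / (1 + u 0 ^ 2 + u 1 ^ 2)), 2 * u 2 * u 0 / (1 + u 0 ^ 2 + u 1 ^ 2), 0, 1]

/-- `A²` in the bolt charts. -/
noncomputable def bA2 (a : ℝ) (u : E4) : ℝ := √(a ^ 4 + (u 2 ^ 2 + u 3 ^ 2))

/-- The Eguchi-Hanson metric near the bolt, coordinates `u = (v, ζ)`. -/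
noncomputable def gB (a : ℝ) : Met := fun u => Matrix.of fun i j =>
  (bForm1 u i * bForm1 u j + bForm2 u i * bForm2 u j) / (4 * bA2 a u) +
    (if i = j ∧ (i = 0 ∨ i = 1) then bA2 a u / (1 + u 0 ^ 2 + u 1 ^ 2) ^ 2 else 0)

end Pool.Agent.W_MP_654ec6
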