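import Pool.Agent.W_MP_654ec6.A.Inverse
import Pool.Agent.W_MP_654ec6.E.CoreZ
import Pool.Agent.W_MP_654ec6.E.ZDefs

/-!
# The weighted projective plane `P(1,2,1) = S⁵/S¹` in three slices

`S⁵ ⊂ ℂ³` with the circle action `c · (z₁, z₂, w) = (c z₁, c² z₂, c w)`. The quotient metric is
computed in the slices `w > 0` (the core metric, coordinates `u = t (z₁, z₂)/cos t`, `w = sin t`),
`z₁ > 0` (metric `gE`, coordinates `(z₂, w)`), `z₂ > 0` (metric `gFS`, coordinates `(z₁, w)`).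
Two slices which differ by a gauge transformation have isometric metrics.
-/

open scoped ContDiff Topology ComplexConjugate
open Filter Set Real

namespace Pool.Agent.W_MP_654ec6

/-! ### Complex coordinates on `ℝ⁴` -/

/-- The first complex coordinate. -/
noncomputable def cA : E4 →L[ℝ] ℂ :=
  (EuclideanSpace.proj 0 : E4 →L[ℝ] ℝ).smulRight (1 : ℂ) +
    (EuclideanSpace.proj 1 : E4 →L[ℝ] ℝ).smulRight Complex.I

/-- The second complex coordinate. -/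
noncomputable def cB : E4 →L[ℝ] ℂ :=
  (EuclideanSpace.proj 2 : E4 →L[ℝ] ℝ).smulRight (1 : ℂ) +
    (EuclideanSpace.proj 3 : E4 →L[ℝ] ℝ).smulRight Complex.I

theorem cA_re (u : E4) : (cA u).re = u 0 := by simp [cA]
theorem cA_im (u : E4) : (cA u).im = u 1 := by simp [cA]
theorem cB_re (u : E4) : (cB u).re = u 2 := by simp [cB]
theorem cB_im (u : E4) : (cB u).im = u 3 := by simp [cB]

/-- The point with given complex coordinates. -/
noncomputable def toE (a b : ℂ) : E4 := WithLp.toLp 2 ![a.re, a.im, b.re, b.im]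

theorem cA_toE (a b : ℂ) : cA (toE a b) = a := by
  apply Complex.ext
  · rw [cA_re]; rfl
  · rw [cA_im]; rfl

theorem cB_toE (a b : ℂ) : cB (toE a b) = b := by
  apply Complex.ext
  · rw [cB_re]; rfl
  · rw [cB_im]; rfl

theorem cA_eq (u : E4) : cA u = cz1 u := Complex.ext (cA_re u) (cA_im u)

theorem cB_eq (u : E4) : cB u = cz2 u := Complex.ext (cB_re u) (cB_im u)

theorem toE_eq (a b : ℂ) : toE a b = mkz a b := rfl

theorem nsq_lt_one_iff (u : E4) : nsq u < 1 ↔ ‖u‖ < 1 := by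
  rw [nsq_eq_norm]
  exact sq_lt_one_iff₀ (norm_nonneg u)

theorem ball1_eq : {u : E4 | nsq u < 1} = {u : E4 | ‖u‖ < 1} := by
  ext u
  exact nsq_lt_one_iff u

theorem toE_eta (u : E4) : toE (cA u) (cB u) = u := by
  ext i
  fin_cases i
  · exact cA_re u
  · exact cA_im u
  · exact cB_re u
  · exact cB_im u

theorem normSq_cA (u : E4) : Complex.normSq (cA u) = u 0 ^ 2 + u 1 ^ 2 := by
  rw [Complex.normSq_apply, cA_re, cA_im]
  ring

theorem normSq_cB (u : E4) : Complex.normSq (cB u) = u 2 ^ 2 + u 3 ^ 2 := by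
  rw [Complex.normSq_apply, cB_re, cB_im]
  ring

theorem nsq_eq_normSq (u : E4) : nsq u = Complex.normSq (cA u) + Complex.normSq (cB u) := by
  rw [normSq_cA, normSq_cB]
  unfold nsq
  ring

theorem nsq_toE (a b : ℂ) : nsq (toE a b) = Complex.normSq a + Complex.normSq b := by
  rw [nsq_eq_normSq, cA_toE, cB_toE]

theorem contDiffAt_toE {a b : E4 → ℂ} {u : E4} (ha : ContDiffAt ℝ ∞ a u)
    (hb : ContDiffAt ℝ ∞ b u) : ContDiffAt ℝ ∞ (fun u => toE (a u) (b u)) u := by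
  rw [contDiffAt_euclidean]
  intro i
  fin_cases i
  · exact Complex.reCLM.contDiff.contDiffAt.comp u ha
  · exact Complex.imCLM.contDiff.contDiffAt.comp u ha
  · exact Complex.reCLM.contDiff.contDiffAt.comp u hb
  · exact Complex.imCLM.contDiff.contDiffAt.comp u hb

/-! ### The horizontal norm and gauge invariance -/

/-- The square of the horizontal norm of the tangent vector `(a', b', c')` at `(a, b, c) ∈ ℂ³`, for
the circle action with weights `(1, 2, 1)`. -/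
noncomputable def hq (a b c a' b' c' : ℂ) : ℝ :=
  Complex.normSq a' + Complex.normSq b' + Complex.normSq c' -
    ((conj a * a').im + 2 * (conj b * b').im + (conj c * c').im) ^ 2 /
      (Complex.normSq a + 4 * Complex.normSq b + Complex.normSq c)

theorem hq_gauge {a b c a' b' c' e : ℂ} {φ : ℝ} (he : Complex.normSq e = 1)
    (hK : Complex.normSq a + 4 * Complex.normSq b + Complex.normSq c ≠ 0) :
    hq (e * a) (e ^ 2 * b) (e * c) (e * (a' + φ * Complex.I * a))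
      (e ^ 2 * (b' + 2 * φ * Complex.I * b)) (e * (c' + φ * Complex.I * c)) =
      hq a b c a' b' c' := by
  have n1 : ∀ x : ℂ, Complex.normSq (e * x) = Complex.normSq x := fun x => by
    rw [Complex.normSq_mul, he, one_mul]
  have n2 : ∀ x : ℂ, Complex.normSq (e ^ 2 * x) = Complex.normSq x := fun x => by
    rw [Complex.normSq_mul, map_pow, he, one_pow, one_mul]
  have c1 : ∀ x y : ℂ, (conj (e * x)) * (e * y) = conj x * y := fun x y => by
    have : conj e * e = 1 := by rw [← Complex.normSq_eq_conj_mul_self, he]; simp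
    rw [map_mul]
    linear_combination (conj x * y) * this
  have c2 : ∀ x y : ℂ, (conj (e ^ 2 * x)) * (e ^ 2 * y) = conj x * y := fun x y => by
    have : conj e * e = 1 := by rw [← Complex.normSq_eq_conj_mul_self, he]; simp
    rw [map_mul, map_pow]
    linear_combination (conj x * y) * (conj e * e + 1) * this
  unfold hq
  rw [n1, n2, n1, c1, c2, c1, n1, n2, n1]
  have e1 : Complex.normSq (a' + φ * Complex.I * a) = Complex.normSq a' +
      2 * φ * (conj a * a').im + φ ^ 2 * Complex.normSq a := by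
    simp [Complex.normSq_apply]
    ring
  have e2 : Complex.normSq (b' + 2 * φ * Complex.I * b) = Complex.normSq b' +
      4 * φ * (conj b * b').im + 4 * φ ^ 2 * Complex.normSq b := by
    simp [Complex.normSq_apply]
    ring
  have e3 : Complex.normSq (c' + φ * Complex.I * c) = Complex.normSq c' +
      2 * φ * (conj c * c').im + φ ^ 2 * Complex.normSq c := by
    simp [Complex.normSq_apply]
    ring
  have f1 : (conj a * (a' + φ * Complex.I * a)).im = (conj a * a').im + φ * Complex.normSq a := by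
    simp [Complex.normSq_apply]
    ring
  have f2 : (conj b * (b' + 2 * φ * Complex.I * b)).im =
      (conj b * b').im + 2 * φ * Complex.normSq b := by
    simp [Complex.normSq_apply]
    ring
  have f3 : (conj c * (c' + φ * Complex.I * c)).im = (conj c * c').im + φ * Complex.normSq c := by
    simp [Complex.normSq_apply]
    ring
  rw [e1, e2, e3, f1, f2, f3]
  generalize (conj a * a').im = A at *
  generalize (conj b * b').im = B at *
  generalize (conj c * c').im = C at *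
  generalize Complex.normSq a = na at *
  generalize Complex.normSq b = nb at *
  generalize Complex.normSq c = nc at *
  field_simp
  ring

/-- `(a, b, c) : V → ℂ³` is a slice whose quotient metric is `g`. -/
structure IsSlice (g : Met) (a b c : E4 → ℂ) (V : Set E4) : Prop where
  da : ∀ y ∈ V, DifferentiableAt ℝ a y
  db : ∀ y ∈ V, DifferentiableAt ℝ b y
  dc : ∀ y ∈ V, DifferentiableAt ℝ c y
  nz : ∀ y ∈ V, Complex.normSq (a y) + 4 * Complex.normSq (b y) + Complex.normSq (c y) ≠ 0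
  met : ∀ y ∈ V, ∀ v, qf (g y) v =
    hq (a y) (b y) (c y) (fderiv ℝ a y v) (fderiv ℝ b y v) (fderiv ℝ c y v)

theorem gauge_phase {e : E4 → ℂ} {x : E4} (hd : DifferentiableAt ℝ e x)
    (h1 : ∀ᶠ y in 𝓝 x, Complex.normSq (e y) = 1) (v : E4) :
    ∃ φ : ℝ, fderiv ℝ e x v = φ * Complex.I * e x := by
  have hx := h1.self_of_nhds
  have hre : HasFDerivAt (fun y => (e y).re) (Complex.reCLM.comp (fderiv ℝ e x)) x :=
    Complex.reCLM.hasFDerivAt.comp x hd.hasFDerivAt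
  have him : HasFDerivAt (fun y => (e y).im) (Complex.imCLM.comp (fderiv ℝ e x)) x :=
    Complex.imCLM.hasFDerivAt.comp x hd.hasFDerivAt
  have hn := (hre.mul hre).add (him.mul him)
  have hc : (fun y => (e y).re * (e y).re + (e y).im * (e y).im) =ᶠ[𝓝 x] fun _ => (1 : ℝ) := by
    filter_upwards [h1] with y hy
    rw [← hy, Complex.normSq_apply]
  have h2 : HasFDerivAt (fun y => (e y).re * (e y).re + (e y).im * (e y).im)
      (0 : E4 →L[ℝ] ℝ) x := (hasFDerivAt_const (1 : ℝ) x).congr_of_eventuallyEq hc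
  have h3 := congrArg (fun L : E4 →L[ℝ] ℝ => L v) (hn.unique h2)
  simp at h3
  rw [Complex.normSq_apply] at hx
  refine ⟨(e x).re * (fderiv ℝ e x v).im - (e x).im * (fderiv ℝ e x v).re, ?_⟩
  apply Complex.ext
  · simp
    linear_combination (-(fderiv ℝ e x v).re) * hx + (1 / 2) * (e x).re * h3
  · simp
    linear_combination (-(fderiv ℝ e x v).im) * hx + (1 / 2) * (e x).im * h3

/-- Slices which differ by a gauge transformation have isometric metrics. -/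
theorem isoAt_gauge {g g' : Met} {a b c a' b' c' e : E4 → ℂ} {V V' : Set E4} {θ : E4 → E4} {x : E4}
    (hV : IsOpen V) (hV' : IsOpen V') (h : IsSlice g a b c V) (h' : IsSlice g' a' b' c' V')
    (hx : x ∈ V) (hx' : θ x ∈ V') (hθ : ContDiffAt ℝ ∞ θ x) (he : ContDiffAt ℝ ∞ e x)
    (he1 : ∀ᶠ y in 𝓝 x, Complex.normSq (e y) = 1)
    (h1 : ∀ᶠ y in 𝓝 x, a' (θ y) = e y * a y) (h2 : ∀ᶠ y in 𝓝 x, b' (θ y) = e y ^ 2 * b y)
    (h3 : ∀ᶠ y in 𝓝 x, c' (θ y) = e y * c y) : IsoAt g g' θ x := by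
  refine ⟨hθ, ?_⟩
  have hθd := inverse_diff hθ
  have hed : ∀ᶠ y in 𝓝 x, DifferentiableAt ℝ e y := by
    have h1 : ContDiffAt ℝ 1 e x := he.of_le (by norm_cast)
    exact (h1.eventually (by simp)).mono fun y hy => hy.differentiableAt (by simp)
  filter_upwards [hV.mem_nhds hx, hθ.continuousAt.eventually (hV'.mem_nhds hx'), hθd, hed,
    he1.eventually_nhds, h1.eventually_nhds, h2.eventually_nhds, h3.eventually_nhds]
    with y hy hy' dθ de e1 q1 q2 q3 v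
  rw [h.met y hy, h'.met _ hy']
  obtain ⟨φ, hφ⟩ := gauge_phase de e1 v
  have ha := h.da y hy
  have hb := h.db y hy
  have hc := h.dc y hy
  have key : ∀ (f f' : E4 → ℂ) (_ : DifferentiableAt ℝ f y) (_ : DifferentiableAt ℝ f' (θ y))
      (_ : ∀ᶠ z in 𝓝 y, f' (θ z) = e z * f z),
      fderiv ℝ f' (θ y) (fderiv ℝ θ y v) = e y * (fderiv ℝ f y v + φ * Complex.I * f y) := by
    intro f f' df df' hf
    have r1 : fderiv ℝ (f' ∘ θ) y v = fderiv ℝ f' (θ y) (fderiv ℝ θ y v) := by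
      rw [fderiv_comp y df' dθ]
      rfl
    have r2 : (f' ∘ θ) =ᶠ[𝓝 y] fun z => e z * f z := hf
    rw [← r1, r2.fderiv_eq, fderiv_fun_mul de df]
    simp only [add_apply, smul_apply, smul_eq_mul, hφ]
    ring
  have key2 : ∀ (f f' : E4 → ℂ) (_ : DifferentiableAt ℝ f y) (_ : DifferentiableAt ℝ f' (θ y))
      (_ : ∀ᶠ z in 𝓝 y, f' (θ z) = e z ^ 2 * f z),
      fderiv ℝ f' (θ y) (fderiv ℝ θ y v) =
        e y ^ 2 * (fderiv ℝ f y v + 2 * φ * Complex.I * f y) := by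
    intro f f' df df' hf
    have r1 : fderiv ℝ (f' ∘ θ) y v = fderiv ℝ f' (θ y) (fderiv ℝ θ y v) := by
      rw [fderiv_comp y df' dθ]
      rfl
    have r2 : (f' ∘ θ) =ᶠ[𝓝 y] fun z => e z * (e z * f z) := by
      filter_upwards [hf] with z hz
      change f' (θ z) = _
      rw [hz]
      ring
    rw [← r1, r2.fderiv_eq, fderiv_fun_mul de (de.fun_mul df), fderiv_fun_mul de df]
    simp only [add_apply, smul_apply, smul_eq_mul, hφ]
    ring
  rw [key a a' ha (h'.da _ hy') q1, key2 b b' hb (h'.db _ hy') q2, key c c' hc (h'.dc _ hy') q3,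
    q1.self_of_nhds, q2.self_of_nhds, q3.self_of_nhds]
  exact hq_gauge e1.self_of_nhds (h.nz y hy)

/-! ### The slices `z₁ > 0` and `z₂ > 0` -/

/-- The slice `z₂ > 0`, coordinates `(z₁, w)`. -/
noncomputable def gFS : Met := u2Met (fun s => 1 / (1 - s)) (fun s => -1 / (4 - 3 * s))

/-- `⟨eForm u, v⟩ = 2 Im (z̄₂ dz₂) + Im (w̄ dw)` -/
noncomputable def kEdot (u v : E4) : ℝ := -(2 * u 1) * v 0 + 2 * u 0 * v 1 - u 3 * v 2 + u 2 * v 3

theorem qf_gE (u v : E4) : qf (gE u) v = nsq v + dotu u v ^ 2 / (1 - nsq u) -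
    kEdot u v ^ 2 / (1 + 3 * (u 0 ^ 2 + u 1 ^ 2)) := by
  unfold qf gE eForm kEdot dotu
  rw [← nsq_eq_norm]
  simp [Fin.sum_univ_four]
  unfold nsq
  ring

theorem hasFDerivAt_nsq (u : E4) : ∃ L : E4 →L[ℝ] ℝ, HasFDerivAt nsq L u ∧
    ∀ v, L v = 2 * dotu u v := by
  have h (i : Fin 4) : HasFDerivAt (fun y : E4 => y i) (EuclideanSpace.proj i : E4 →L[ℝ] ℝ) u :=
    (EuclideanSpace.proj i : E4 →L[ℝ] ℝ).hasFDerivAt
  refine ⟨_, ((((h 0).pow 2).add ((h 1).pow 2)).add ((h 2).pow 2)).add ((h 3).pow 2), ?_⟩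
  intro v
  simp [dotu]
  ring

/-- `√(1 - |u|²)` -/
noncomputable def sr (u : E4) : ℝ := √(1 - nsq u)

theorem sr_pos {u : E4} (hu : nsq u < 1) : 0 < sr u := Real.sqrt_pos.2 (by linarith)

theorem sr_sq {u : E4} (hu : nsq u < 1) : sr u ^ 2 = 1 - nsq u := Real.sq_sqrt (by linarith)

theorem contDiffAt_sr {u : E4} (hu : nsq u < 1) : ContDiffAt ℝ ∞ sr u := by
  unfold sr
  exact (contDiffAt_const.sub contDiff_nsq.contDiffAt).sqrt (by linarith)

theorem hasFDerivAt_sr {u : E4} (hu : nsq u < 1) : ∃ L : E4 →L[ℝ] ℂ,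
    HasFDerivAt (fun u => ((sr u : ℝ) : ℂ)) L u ∧
    ∀ v, L v = ((-dotu u v / sr u : ℝ) : ℂ) := by
  obtain ⟨L, hL, hL2⟩ := hasFDerivAt_nsq u
  have h1 : HasFDerivAt sr _ u := (hL.const_sub 1).sqrt (by linarith)
  refine ⟨_, Complex.ofRealCLM.hasFDerivAt.comp u h1, ?_⟩
  intro v
  have := (sr_pos hu).ne'
  simp only [ContinuousLinearMap.comp_apply, smul_apply, neg_apply, hL2, Complex.ofRealCLM_apply]
  congr 1
  change (1 / (2 * sr u)) • -(2 * dotu u v) = _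
  rw [smul_eq_mul]
  field_simp

theorem isSlice_gFS : IsSlice gFS cA (fun u => ((sr u : ℝ) : ℂ)) cB {u | nsq u < 1} where
  da y _ := cA.differentiableAt
  db y hy := by
    obtain ⟨L, hL, -⟩ := hasFDerivAt_sr hy
    exact hL.differentiableAt
  dc y _ := cB.differentiableAt
  nz y hy := by
    have h := sr_pos hy
    have h1 := Complex.normSq_nonneg (cA y)
    have h2 := Complex.normSq_nonneg (cB y)
    rw [Complex.normSq_ofReal]
    positivity
  met y hy v := by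
    obtain ⟨L, hL, hL2⟩ := hasFDerivAt_sr hy
    have hs := sr_sq hy
    have hp := sr_pos hy
    have hy' : nsq y < 1 := hy
    rw [hL.fderiv, hL2, ContinuousLinearMap.fderiv, ContinuousLinearMap.fderiv]
    unfold gFS hq
    rw [qf_u2Met, Complex.normSq_ofReal, Complex.normSq_ofReal]
    have e1 : (conj ((sr y : ℝ) : ℂ) * ((-dotu y v / sr y : ℝ) : ℂ)).im = 0 := by
      rw [Complex.conj_ofReal, ← Complex.ofReal_mul]
      exact Complex.ofReal_im _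
    have e2 : (conj (cA y) * cA v).im + (conj (cB y) * cB v).im = dotj y v := by
      simp [cA_re, cA_im, cB_re, cB_im, dotj]
      ring
    have e3 : Complex.normSq (cA y) + 4 * (sr y * sr y) + Complex.normSq (cB y) =
        4 - 3 * nsq y := by
      rw [nsq_eq_normSq] at hs ⊢
      linear_combination 4 * hs
    have e4 : Complex.normSq (cA v) + -dotu y v / sr y * (-dotu y v / sr y) +
        Complex.normSq (cB v) = nsq v + 1 / (1 - nsq y) * dotu y v ^ 2 := by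
      rw [nsq_eq_normSq v, ← hs]
      field_simp
      ring
    rw [e1, e3, e4, mul_zero, add_zero, e2]
    ring

theorem isSlice_gE : IsSlice gE (fun u => ((sr u : ℝ) : ℂ)) cA cB {u | nsq u < 1} where
  da y hy := by
    obtain ⟨L, hL, -⟩ := hasFDerivAt_sr hy
    exact hL.differentiableAt
  db y _ := cA.differentiableAt
  dc y _ := cB.differentiableAt
  nz y hy := by
    have h := sr_pos hy
    have h1 := Complex.normSq_nonneg (cA y)
    have h2 := Complex.normSq_nonneg (cB y)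
    rw [Complex.normSq_ofReal]
    positivity
  met y hy v := by
    obtain ⟨L, hL, hL2⟩ := hasFDerivAt_sr hy
    have hs := sr_sq hy
    have hp := sr_pos hy
    have hy' : nsq y < 1 := hy
    rw [hL.fderiv, hL2, ContinuousLinearMap.fderiv, ContinuousLinearMap.fderiv]
    unfold hq
    rw [qf_gE, Complex.normSq_ofReal, Complex.normSq_ofReal]
    have e1 : (conj ((sr y : ℝ) : ℂ) * ((-dotu y v / sr y : ℝ) : ℂ)).im = 0 := by
      rw [Complex.conj_ofReal, ← Complex.ofReal_mul]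
      exact Complex.ofReal_im _
    have e2 : 2 * (conj (cA y) * cA v).im + (conj (cB y) * cB v).im = kEdot y v := by
      simp [cA_re, cA_im, cB_re, cB_im, kEdot]
      ring
    have e3 : sr y * sr y + 4 * Complex.normSq (cA y) + Complex.normSq (cB y) =
        1 + 3 * (y 0 ^ 2 + y 1 ^ 2) := by
      rw [nsq_eq_normSq] at hs
      rw [← normSq_cA]
      linear_combination hs
    have e4 : -dotu y v / sr y * (-dotu y v / sr y) + Complex.normSq (cA v) +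
        Complex.normSq (cB v) = nsq v + dotu y v ^ 2 / (1 - nsq y) := by
      rw [nsq_eq_normSq v, ← hs]
      field_simp
      ring
    rw [e1, e3, e4, zero_add, e2]

/-! ### The slice `w > 0` -/

theorem slice_normSq (f q : ℝ) (a a' : ℂ) : Complex.normSq ((f : ℂ) * a' + a * (q : ℂ)) =
    f ^ 2 * Complex.normSq a' + 2 * f * q * (a.re * a'.re + a.im * a'.im) +
      q ^ 2 * Complex.normSq a := by
  simp [Complex.normSq_apply]
  ring

theorem slice_im (f q : ℝ) (a a' : ℂ) : (conj ((f : ℂ) * a) * ((f : ℂ) * a' + a * (q : ℂ))).im =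
    f ^ 2 * (a.re * a'.im - a.im * a'.re) := by
  simp
  ring

theorem hasFDerivAt_nrm {u : E4} (hu : u ≠ 0) : ∃ L : E4 →L[ℝ] ℝ,
    HasFDerivAt (fun u : E4 => ‖u‖) L u ∧ ∀ v, L v = dotu u v / ‖u‖ := by
  obtain ⟨L, hL, hL2⟩ := hasFDerivAt_nsq u
  have h0 := nsq_pos hu
  have h1 : HasFDerivAt (fun u => √(nsq u)) _ u := hL.sqrt h0.ne'
  have e : (fun u => √(nsq u)) = fun u : E4 => ‖u‖ := funext sqrt_nsq
  rw [e] at h1
  refine ⟨_, h1, fun v => ?_⟩
  have : ‖u‖ ≠ 0 := norm_ne_zero_iff.2 hu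
  simp only [smul_apply, hL2, smul_eq_mul, sqrt_nsq]
  field_simp

theorem isSlice_core {g ξ : ℝ → ℝ} {T : Set ℝ} (hT : ∀ t ∈ T, 0 < t ∧ t < π / 2)
    (hg : ∀ t ∈ T, g t = Real.cos t) (hξ : ∀ t ∈ T, ξ t = 1 / Real.sin t) :
    IsSlice (coreZ g ξ) (fun u => ((Real.cos ‖u‖ / ‖u‖ : ℝ) : ℂ) * cA u)
      (fun u => ((Real.cos ‖u‖ / ‖u‖ : ℝ) : ℂ) * cB u) (fun u => ((Real.sin ‖u‖ : ℝ) : ℂ))
      {u | ‖u‖ ∈ T} := by
  have hne : ∀ y : E4, ‖y‖ ∈ T → y ≠ 0 := fun y hy => norm_pos_iff.1 (hT _ hy).1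
  -- derivatives
  have hder : ∀ y : E4, ‖y‖ ∈ T → ∃ L M : E4 →L[ℝ] ℂ,
      HasFDerivAt (fun u : E4 => ((Real.cos ‖u‖ / ‖u‖ : ℝ) : ℂ)) L y ∧
      HasFDerivAt (fun u : E4 => ((Real.sin ‖u‖ : ℝ) : ℂ)) M y ∧
      (∀ v, L v = (((-Real.sin ‖y‖ / ‖y‖ - Real.cos ‖y‖ / ‖y‖ ^ 2) *
        (dotu y v / ‖y‖) : ℝ) : ℂ)) ∧
      ∀ v, M v = ((Real.cos ‖y‖ * (dotu y v / ‖y‖) : ℝ) : ℂ) := by
    intro y hy
    obtain ⟨L, hL, hL2⟩ := hasFDerivAt_nrm (hne y hy)
    have hn : ‖y‖ ≠ 0 := norm_ne_zero_iff.2 (hne y hy)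
    have h1 : HasDerivAt (fun t : ℝ => Real.cos t / t)
        (-Real.sin ‖y‖ / ‖y‖ - Real.cos ‖y‖ / ‖y‖ ^ 2) ‖y‖ := by
      refine ((Real.hasDerivAt_cos ‖y‖).div (hasDerivAt_id ‖y‖) hn).congr_deriv ?_
      simp
      field_simp
    have h2 : HasFDerivAt (fun u : E4 => Real.cos ‖u‖ / ‖u‖)
        ((-Real.sin ‖y‖ / ‖y‖ - Real.cos ‖y‖ / ‖y‖ ^ 2) • L) y := h1.comp_hasFDerivAt y hL
    have h3 : HasFDerivAt (fun u : E4 => Real.sin ‖u‖) (Real.cos ‖y‖ • L) y :=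
      (Real.hasDerivAt_sin ‖y‖).comp_hasFDerivAt y hL
    refine ⟨_, _, Complex.ofRealCLM.hasFDerivAt.comp y h2,
      Complex.ofRealCLM.hasFDerivAt.comp y h3, ?_, ?_⟩
    · intro v
      simp only [ContinuousLinearMap.comp_apply, smul_apply, hL2, smul_eq_mul,
        Complex.ofRealCLM_apply]
    · intro v
      simp only [ContinuousLinearMap.comp_apply, smul_apply, hL2, smul_eq_mul,
        Complex.ofRealCLM_apply]
  refine ⟨fun y hy => ?_, fun y hy => ?_, fun y hy => ?_, fun y hy => ?_, fun y hy v => ?_⟩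
  · obtain ⟨L, M, hL, -⟩ := hder y hy
    exact hL.differentiableAt.mul cA.differentiableAt
  · obtain ⟨L, M, hL, -⟩ := hder y hy
    exact hL.differentiableAt.mul cB.differentiableAt
  · obtain ⟨L, M, -, hM, -⟩ := hder y hy
    exact hM.differentiableAt
  · have h := hT _ hy
    have hs : 0 < Real.sin ‖y‖ := Real.sin_pos_of_pos_of_lt_pi h.1 (by linarith [Real.pi_pos])
    simp only [Complex.normSq_mul, Complex.normSq_ofReal]
    have h1 := Complex.normSq_nonneg (cA y)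
    have h2 := Complex.normSq_nonneg (cB y)
    have h3 := mul_self_nonneg (Real.cos ‖y‖ / ‖y‖)
    have h4 : 0 < Real.sin ‖y‖ * Real.sin ‖y‖ := mul_pos hs hs
    have h5 := mul_nonneg h3 h1
    have h6 := mul_nonneg h3 h2
    refine ne_of_gt ?_
    linarith
  · obtain ⟨L, M, hL, hM, hL2, hM2⟩ := hder y hy
    have h := hT _ hy
    have hs : 0 < Real.sin ‖y‖ := Real.sin_pos_of_pos_of_lt_pi h.1 (by linarith [Real.pi_pos])
    have hn : 0 < ‖y‖ := h.1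
    have ea : fderiv ℝ (fun u => ((Real.cos ‖u‖ / ‖u‖ : ℝ) : ℂ) * cA u) y v =
        ((Real.cos ‖y‖ / ‖y‖ : ℝ) : ℂ) * cA v + cA y * (((-Real.sin ‖y‖ / ‖y‖ - Real.cos ‖y‖ / ‖y‖ ^ 2) *
        (dotu y v / ‖y‖) : ℝ) : ℂ) := by
      rw [(hL.fun_mul cA.hasFDerivAt).fderiv]
      simp only [add_apply, smul_apply, smul_eq_mul, hL2]
    have eb : fderiv ℝ (fun u => ((Real.cos ‖u‖ / ‖u‖ : ℝ) : ℂ) * cB u) y v =
        ((Real.cos ‖y‖ / ‖y‖ : ℝ) : ℂ) * cB v + cB y * (((-Real.sin ‖y‖ / ‖y‖ - Real.cos ‖y‖ / ‖y‖ ^ 2) *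
        (dotu y v / ‖y‖) : ℝ) : ℂ) := by
      rw [(hL.fun_mul cB.hasFDerivAt).fderiv]
      simp only [add_apply, smul_apply, smul_eq_mul, hL2]
    rw [ea, eb, hM.fderiv, hM2]
    rw [qf_coreZ]
    unfold kapZ hq
    rw [hg _ hy, hξ _ hy]
    have hsc := Real.sin_sq_add_cos_sq ‖y‖
    have hell : ellZ y * ‖y‖ ^ 2 = Complex.normSq (cA y) + 4 * Complex.normSq (cB y) := by
      unfold ellZ
      rw [normSq_cA, normSq_cB]
      field_simp
    have hnn : ‖y‖ ^ 2 = nsq y := (nsq_eq_norm y).symm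
    rw [slice_normSq, slice_normSq, slice_im, slice_im]
    have e1 : (conj ((Real.sin ‖y‖ : ℝ) : ℂ) * ((Real.cos ‖y‖ * (dotu y v / ‖y‖) : ℝ) : ℂ)).im =
        0 := by
      rw [Complex.conj_ofReal, ← Complex.ofReal_mul]
      exact Complex.ofReal_im _
    rw [e1, Complex.normSq_ofReal, Complex.normSq_ofReal, Complex.normSq_mul, Complex.normSq_mul,
      Complex.normSq_ofReal]
    have d1 : (cA y).re * (cA v).re + (cA y).im * (cA v).im +
        ((cB y).re * (cB v).re + (cB y).im * (cB v).im) = dotu y v := by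
      rw [cA_re, cA_re, cA_im, cA_im, cB_re, cB_re, cB_im, cB_im]
      unfold dotu
      ring
    have d2 : (cA y).re * (cA v).im - (cA y).im * (cA v).re +
        2 * ((cB y).re * (cB v).im - (cB y).im * (cB v).re) = kdot y v := by
      rw [cA_re, cA_re, cA_im, cA_im, cB_re, cB_re, cB_im, cB_im]
      unfold kdot
      ring
    have d3 := nsq_eq_normSq v
    have d4 := nsq_eq_normSq y
    rw [← hnn] at d4
    have d5 : (Real.cos ‖y‖ / ‖y‖) ^ 2 * ((cA y).re * (cA v).im - (cA y).im * (cA v).re) +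
        2 * ((Real.cos ‖y‖ / ‖y‖) ^ 2 * ((cB y).re * (cB v).im - (cB y).im * (cB v).re)) + 0 =
        (Real.cos ‖y‖ / ‖y‖) ^ 2 * kdot y v := by
      rw [← d2]
      ring
    have d6 : Real.cos ‖y‖ / ‖y‖ * (Real.cos ‖y‖ / ‖y‖) * Complex.normSq (cA y) +
        4 * (Real.cos ‖y‖ / ‖y‖ * (Real.cos ‖y‖ / ‖y‖) * Complex.normSq (cB y)) +
        Real.sin ‖y‖ * Real.sin ‖y‖ = Real.cos ‖y‖ ^ 2 * ellZ y + Real.sin ‖y‖ ^ 2 := by
      have : Real.cos ‖y‖ / ‖y‖ * (Real.cos ‖y‖ / ‖y‖) * Complex.normSq (cA y) +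
        4 * (Real.cos ‖y‖ / ‖y‖ * (Real.cos ‖y‖ / ‖y‖) * Complex.normSq (cB y)) =
        (Real.cos ‖y‖ / ‖y‖) ^ 2 * (Complex.normSq (cA y) + 4 * Complex.normSq (cB y)) := by ring
      rw [this, ← hell]
      field_simp
    rw [d5, d6]
    obtain ⟨F1, hF1⟩ : ∃ F1, F1 = (-Real.sin ‖y‖ / ‖y‖ - Real.cos ‖y‖ / ‖y‖ ^ 2) *
        (dotu y v / ‖y‖) := ⟨_, rfl⟩
    rw [← hF1]
    have d7 : (Real.cos ‖y‖ / ‖y‖) ^ 2 * Complex.normSq (cA v) +
        2 * (Real.cos ‖y‖ / ‖y‖) * F1 * ((cA y).re * (cA v).re + (cA y).im * (cA v).im) +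
        F1 ^ 2 * Complex.normSq (cA y) +
        ((Real.cos ‖y‖ / ‖y‖) ^ 2 * Complex.normSq (cB v) +
        2 * (Real.cos ‖y‖ / ‖y‖) * F1 * ((cB y).re * (cB v).re + (cB y).im * (cB v).im) +
        F1 ^ 2 * Complex.normSq (cB y)) =
        (Real.cos ‖y‖ / ‖y‖) ^ 2 * nsq v + 2 * (Real.cos ‖y‖ / ‖y‖) * F1 * dotu y v +
          F1 ^ 2 * ‖y‖ ^ 2 := by
      rw [d3, d4, ← d1]
      ring
    rw [d7, hF1]
    have hell0 := ellZ_nonneg y
    have hK : 0 < Real.cos ‖y‖ ^ 2 * ellZ y + Real.sin ‖y‖ ^ 2 := by positivity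
    have hK2 : 0 < 1 + Real.cos ‖y‖ ^ 2 * (1 / Real.sin ‖y‖) ^ 2 * ellZ y := by positivity
    have d8 : Real.cos ‖y‖ ^ 2 * (Real.cos ‖y‖ ^ 2 * (1 / Real.sin ‖y‖) ^ 2 /
        (1 + Real.cos ‖y‖ ^ 2 * (1 / Real.sin ‖y‖) ^ 2 * ellZ y)) *
        (kdot y v ^ 2 / ‖y‖ ^ 4) = ((Real.cos ‖y‖ / ‖y‖) ^ 2 * kdot y v) ^ 2 /
        (Real.cos ‖y‖ ^ 2 * ellZ y + Real.sin ‖y‖ ^ 2) := by
      field_simp
      ring
    rw [d8]
    obtain ⟨Z, hZ⟩ : ∃ Z, Z = ((Real.cos ‖y‖ / ‖y‖) ^ 2 * kdot y v) ^ 2 /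
        (Real.cos ‖y‖ ^ 2 * ellZ y + Real.sin ‖y‖ ^ 2) := ⟨_, rfl⟩
    rw [← hZ]
    have hs2 : Real.sin ‖y‖ ^ 2 = 1 - Real.cos ‖y‖ ^ 2 := by linarith only [hsc]
    have hnn' : ‖y‖ ≠ 0 := hn.ne'
    obtain ⟨t, ht⟩ : ∃ t, t = ‖y‖ := ⟨_, rfl⟩
    rw [← ht] at hnn' hs2 ⊢
    obtain ⟨S, hS⟩ : ∃ S, S = Real.sin t := ⟨_, rfl⟩
    obtain ⟨C, hC⟩ : ∃ C, C = Real.cos t := ⟨_, rfl⟩
    rw [← hS, ← hC] at hs2
    rw [← hS, ← hC]
    have e9 : (C / t) ^ 2 * nsq v + 2 * (C / t) * ((-S / t - C / t ^ 2) * (dotu y v / t)) *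
        dotu y v + ((-S / t - C / t ^ 2) * (dotu y v / t)) ^ 2 * t ^ 2 +
        C * (dotu y v / t) * (C * (dotu y v / t)) =
        (C / t) ^ 2 * nsq v + (S ^ 2 + C ^ 2 - (C / t) ^ 2) * (dotu y v ^ 2 / t ^ 2) := by
      field_simp
      ring
    rw [e9, hs2]
    ring

/-! ### The slice metrics are smooth Riemannian metrics with `Ric ≥ 0` -/

theorem isOpen_ball1 : IsOpen {u : E4 | nsq u < 1} :=
  isOpen_Iio.preimage contDiff_nsq.continuous

theorem gFS_smooth {s : ℝ} (hs : s < 1) : ContDiffAt ℝ ∞ (fun s : ℝ => 1 / (1 - s)) s ∧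
    ContDiffAt ℝ ∞ (fun s : ℝ => -1 / (4 - 3 * s)) s ∧ 0 < 1 + s * (1 / (1 - s)) ∧
    0 < 1 + s * (-1 / (4 - 3 * s)) := by
  have h1 : 0 < 1 - s := by linarith
  have h2 : 0 < 4 - 3 * s := by linarith
  have h2' : (4 : ℝ) - s * 3 ≠ 0 := by linarith
  refine ⟨contDiffAt_const.div (contDiffAt_const.sub contDiffAt_id) h1.ne',
    contDiffAt_const.div (contDiffAt_const.sub (contDiffAt_const.mul contDiffAt_id)) h2.ne', ?_, ?_⟩
  · have : 1 + s * (1 / (1 - s)) = 1 / (1 - s) := by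
      field_simp
      ring
    rw [this]
    positivity
  · have : 1 + s * (-1 / (4 - 3 * s)) = 4 * (1 - s) / (4 - 3 * s) := by
      field_simp
      ring
    rw [this]
    positivity

theorem goodMet_gFS : GoodMet gFS {u : E4 | nsq u < 1} :=
  goodMet_u2q (S := Iio 1) (fun _ hs => (gFS_smooth hs).1) (fun _ hs => (gFS_smooth hs).2.1)
    (fun _ hs => (gFS_smooth hs).2.2.1) (fun _ hs => (gFS_smooth hs).2.2.2)

/-- The metric `u2Z` of `P(1,2,1)` is `gFS`. -/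
theorem u2Z_eq_gFS {U W : ℝ → ℝ} {u : E4} (hu : nsq u < 1) (hu0 : u ≠ 0)
    (hU : U ‖u‖ = 1 - ‖u‖ ^ 2) (hW : W ‖u‖ = (1 - ‖u‖ ^ 2) / (1 - 3 / 4 * ‖u‖ ^ 2)) :
    u2Z U W u = gFS u := by
  have h0 := nsq_pos hu0
  have hn : ‖u‖ ^ 2 = nsq u := (nsq_eq_norm u).symm
  have h1 : (1 : ℝ) - nsq u ≠ 0 := by linarith
  have h2 : (1 : ℝ) - 3 / 4 * nsq u ≠ 0 := by linarith
  have h3 : (4 : ℝ) - 3 * nsq u ≠ 0 := by linarith
  ext i j
  unfold u2Z gFS u2Met
  simp only [Matrix.of_apply, sqrt_nsq, hU, hW, hn]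
  have e1 : (1 / (1 - nsq u) - 1) / nsq u = 1 / (1 - nsq u) := by
    field_simp
    ring
  have e2 : ((1 - nsq u) / (1 - 3 / 4 * nsq u) - 1) / nsq u = -1 / (4 - 3 * nsq u) := by
    rw [div_sub_one h2, div_div, div_eq_div_iff (mul_ne_zero h2 h0.ne') h3]
    ring
  rw [e1, e2]

theorem goodMet_gE : GoodMet gE {u : E4 | nsq u < 1} := by
  refine ⟨?_, ?_, ?_⟩
  · intro i j u hu
    have hu' : nsq u < 1 := hu
    have hc := fun i => (contDiff_coord i).contDiffAt (x := u)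
    have hn : ContDiffAt ℝ ∞ nsq u := contDiff_nsq.contDiffAt
    have hk : ∀ i, ContDiffAt ℝ ∞ (fun u : E4 => eForm u i) u := by
      intro i
      fin_cases i
      · exact (contDiffAt_const.mul (hc 1)).neg
      · exact contDiffAt_const.mul (hc 0)
      · exact (hc 3).neg
      · exact hc 2
    have h1 : (1 : ℝ) - nsq u ≠ 0 := by linarith
    have h2 : (1 : ℝ) + 3 * (u 0 ^ 2 + u 1 ^ 2) ≠ 0 := by positivity
    unfold gE
    simp only [← nsq_eq_norm]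
    exact ((contDiffAt_const.add (((hc i).mul (hc j)).div (contDiffAt_const.sub hn) h1)).sub
      (((hk i).mul (hk j)).div (contDiffAt_const.add (contDiffAt_const.mul (((hc 0).pow 2).add
        ((hc 1).pow 2)))) h2)).contDiffWithinAt
  · intro u _ i j
    unfold gE
    simp only [Matrix.of_apply, eq_comm (a := i) (b := j)]
    ring
  · intro u hu v hv
    have hu' : nsq u < 1 := hu
    rw [qf_gE]
    have hv2 := nsq_pos hv
    have hK : 0 < 1 + 3 * (u 0 ^ 2 + u 1 ^ 2) := by positivity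
    have hcs : kEdot u v ^ 2 ≤ (4 * (u 0 ^ 2 + u 1 ^ 2) + (u 2 ^ 2 + u 3 ^ 2)) * nsq v := by
      have : (4 * (u 0 ^ 2 + u 1 ^ 2) + (u 2 ^ 2 + u 3 ^ 2)) * nsq v - kEdot u v ^ 2 =
          (-(2 * u 1) * v 1 - 2 * u 0 * v 0) ^ 2 + (-(2 * u 1) * v 2 + u 3 * v 0) ^ 2 +
          (-(2 * u 1) * v 3 - u 2 * v 0) ^ 2 + (2 * u 0 * v 2 + u 3 * v 1) ^ 2 +
          (2 * u 0 * v 3 - u 2 * v 1) ^ 2 + (-u 3 * v 3 - u 2 * v 2) ^ 2 := by
        unfold nsq kEdot
        ring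
      have h2 : 0 ≤ (4 * (u 0 ^ 2 + u 1 ^ 2) + (u 2 ^ 2 + u 3 ^ 2)) * nsq v - kEdot u v ^ 2 := by
        rw [this]
        positivity
      linarith
    have hlt : kEdot u v ^ 2 / (1 + 3 * (u 0 ^ 2 + u 1 ^ 2)) < nsq v := by
      rw [div_lt_iff₀ hK]
      refine lt_of_le_of_lt hcs ?_
      rw [mul_comm]
      refine mul_lt_mul_of_pos_left ?_ hv2
      unfold nsq at hu'
      linarith
    have h3 : 0 ≤ dotu u v ^ 2 / (1 - nsq u) := div_nonneg (sq_nonneg _) (by linarith)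
    linarith

/-! ### The transition from the slice `z₂ > 0` to the slice `z₁ > 0` -/

/-- The map `(z₁, w) ↦ (z₂ (z̄₁/|z₁|)², w z̄₁/|z₁|)`. -/
noncomputable def thFE (u : E4) : E4 :=
  toE (((sr u : ℝ) : ℂ) * (conj (cA u) / (‖cA u‖ : ℂ)) ^ 2) (cB u * (conj (cA u) / (‖cA u‖ : ℂ)))

theorem normSq_phase {z : ℂ} (hz : z ≠ 0) : Complex.normSq (conj z / (‖z‖ : ℂ)) = 1 := by
  rw [Complex.normSq_div, Complex.normSq_conj, Complex.normSq_ofReal, Complex.normSq_eq_norm_sq]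
  have : ‖z‖ ≠ 0 := norm_ne_zero_iff.2 hz
  field_simp

theorem phase_mul {z : ℂ} (hz : z ≠ 0) : conj z / (‖z‖ : ℂ) * z = (‖z‖ : ℂ) := by
  have : (‖z‖ : ℂ) ≠ 0 := by
    rw [Complex.ofReal_ne_zero]
    exact norm_ne_zero_iff.2 hz
  field_simp
  rw [mul_comm, Complex.mul_conj, Complex.normSq_eq_norm_sq]
  push_cast
  ring

theorem contDiffAt_phase {f : E4 → ℂ} {u : E4} (hf : ContDiffAt ℝ ∞ f u) (h0 : f u ≠ 0) :
    ContDiffAt ℝ ∞ (fun u => conj (f u) / (‖f u‖ : ℂ)) u := by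
  have h1 : ContDiffAt ℝ ∞ (fun u => conj (f u)) u :=
    Complex.conjCLE.contDiff.contDiffAt.comp u hf
  have h2 : ContDiffAt ℝ ∞ (fun u => ‖f u‖) u := hf.norm ℝ h0
  have h3 : ContDiffAt ℝ ∞ (fun u => (‖f u‖ : ℂ)) u :=
    Complex.ofRealCLM.contDiff.contDiffAt.comp u h2
  simp only [div_eq_mul_inv]
  exact h1.mul (h3.inv (by rw [Complex.ofReal_ne_zero]; exact norm_ne_zero_iff.2 h0))

theorem nsq_thFE {u : E4} (hu : nsq u < 1) (h1 : cA u ≠ 0) :
    nsq (thFE u) = 1 - ‖cA u‖ ^ 2 := by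
  unfold thFE
  rw [nsq_toE, Complex.normSq_mul, Complex.normSq_mul, map_pow, normSq_phase h1,
    Complex.normSq_ofReal, ← pow_two, sr_sq hu, nsq_eq_normSq, ← Complex.normSq_eq_norm_sq]
  ring

theorem isoAt_thFE {u : E4} (hu : nsq u < 1) (h1 : cA u ≠ 0) : IsoAt gFS gE thFE u := by
  have hsr : ContDiffAt ℝ ∞ (fun u => ((sr u : ℝ) : ℂ)) u :=
    Complex.ofRealCLM.contDiff.contDiffAt.comp u (contDiffAt_sr hu)
  have hph := contDiffAt_phase (f := cA) cA.contDiff.contDiffAt h1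
  have hb : ∀ᶠ y in 𝓝 u, nsq y < 1 := isOpen_ball1.mem_nhds hu
  have hev : ∀ᶠ y in 𝓝 u, nsq y < 1 ∧ cA y ≠ 0 :=
    hb.and (cA.continuous.continuousAt.eventually_ne h1)
  refine isoAt_gauge (e := fun y => conj (cA y) / (‖cA y‖ : ℂ)) isOpen_ball1 isOpen_ball1
    isSlice_gFS isSlice_gE hu ?_ ?_ hph ?_ ?_ ?_ ?_
  · change nsq (thFE u) < 1
    rw [nsq_thFE hu h1]
    have := pow_pos (norm_pos_iff.2 h1) 2
    linarith
  · exact contDiffAt_toE (hsr.mul (hph.pow 2)) (cB.contDiff.contDiffAt.mul hph)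
  · filter_upwards [hev] with y hy
    exact normSq_phase hy.2
  · filter_upwards [hev] with y hy
    rw [phase_mul hy.2]
    congr 1
    unfold sr
    rw [nsq_thFE hy.1 hy.2]
    rw [show 1 - (1 - ‖cA y‖ ^ 2) = ‖cA y‖ ^ 2 by ring, Real.sqrt_sq (norm_nonneg _)]
  · filter_upwards [hev] with y hy
    unfold thFE
    rw [cA_toE]
    ring
  · filter_upwards [hev] with y hy
    unfold thFE
    rw [cB_toE]
    ring

/-- Every point of the slice `z₁ > 0` with `z₂ ≠ 0` lies in the slice `z₂ > 0`. -/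
theorem exists_thFE {y : E4} (hy : nsq y < 1) (h1 : cA y ≠ 0) :
    ∃ u : E4, nsq u < 1 ∧ cA u ≠ 0 ∧ thFE u = y := by
  obtain ⟨e, he⟩ := IsAlgClosed.exists_pow_nat_eq (conj (cA y) / (‖cA y‖ : ℂ)) (n := 2)
    (by norm_num)
  have hn : Complex.normSq e = 1 := by
    have h2 : Complex.normSq e ^ 2 = 1 := by
      rw [← map_pow, he, normSq_phase h1]
    have h3 := Complex.normSq_nonneg e
    nlinarith
  have hz := sr_pos hy
  have hz2 := sr_sq hy
  have hce : conj e * e = 1 := by rw [← Complex.normSq_eq_conj_mul_self, hn]; simp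
  have hen : ‖e‖ = 1 := by
    rw [Complex.normSq_eq_norm_sq] at hn
    nlinarith only [norm_nonneg e, hn]
  have hny : (‖cA y‖ : ℂ) ≠ 0 := by
    rw [Complex.ofReal_ne_zero]
    exact norm_ne_zero_iff.2 h1
  have hsr : ((sr y : ℝ) : ℂ) ≠ 0 := by
    rw [Complex.ofReal_ne_zero]
    exact hz.ne'
  -- `conj e ^ 2 = z₂/|z₂|`
  have hce2 : conj e ^ 2 = cA y / (‖cA y‖ : ℂ) := by
    rw [← map_pow, he, map_div₀, Complex.conj_conj, Complex.conj_ofReal]
  have hns : nsq (toE (e * ((sr y : ℝ) : ℂ)) (e * cB y)) = 1 - ‖cA y‖ ^ 2 := by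
    rw [nsq_toE, Complex.normSq_mul, Complex.normSq_mul, hn, Complex.normSq_ofReal, ← pow_two, hz2,
      nsq_eq_normSq, ← Complex.normSq_eq_norm_sq]
    ring
  refine ⟨toE (e * ((sr y : ℝ) : ℂ)) (e * cB y), ?_, ?_, ?_⟩
  · rw [hns]
    have := pow_pos (norm_pos_iff.2 h1) 2
    linarith
  · rw [cA_toE]
    exact mul_ne_zero (by rintro rfl; simp at hn) hsr
  · have hsr2 : sr (toE (e * ((sr y : ℝ) : ℂ)) (e * cB y)) = ‖cA y‖ := by
      unfold sr
      unfold sr at hns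
      rw [hns, show 1 - (1 - ‖cA y‖ ^ 2) = ‖cA y‖ ^ 2 by ring, Real.sqrt_sq (norm_nonneg _)]
    have hph : conj (e * ((sr y : ℝ) : ℂ)) / (‖e * ((sr y : ℝ) : ℂ)‖ : ℂ) = conj e := by
      rw [norm_mul, hen, one_mul, Complex.norm_real, Real.norm_of_nonneg hz.le, map_mul,
        Complex.conj_ofReal]
      field_simp
    unfold thFE
    rw [hsr2, cA_toE, cB_toE, hph, hce2]
    have e1 : (‖cA y‖ : ℂ) * (cA y / (‖cA y‖ : ℂ)) = cA y := by
      field_simp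
    have e2 : e * cB y * conj e = cB y := by
      linear_combination (cB y) * hce
    rw [e1, e2, toE_eta]

/-! ### The transitions to the core -/

/-- The map `(z₂, w) ↦ (t/cos t) (z₁ w̄/|w|, z₂ (w̄/|w|)²)`, `sin t = |w|`. -/
noncomputable def thED (u : E4) : E4 :=
  toE (((arcsin ‖cB u‖ / Real.cos (arcsin ‖cB u‖) : ℝ) : ℂ) *
      (((sr u : ℝ) : ℂ) * (conj (cB u) / (‖cB u‖ : ℂ))))
    (((arcsin ‖cB u‖ / Real.cos (arcsin ‖cB u‖) : ℝ) : ℂ) *
      (cA u * (conj (cB u) / (‖cB u‖ : ℂ)) ^ 2))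

/-- The map `(z₁, w) ↦ (t/cos t) (z₁ w̄/|w|, z₂ (w̄/|w|)²)`, `sin t = |w|`. -/
noncomputable def thFD (u : E4) : E4 :=
  toE (((arcsin ‖cB u‖ / Real.cos (arcsin ‖cB u‖) : ℝ) : ℂ) *
      (cA u * (conj (cB u) / (‖cB u‖ : ℂ))))
    (((arcsin ‖cB u‖ / Real.cos (arcsin ‖cB u‖) : ℝ) : ℂ) *
      (((sr u : ℝ) : ℂ) * (conj (cB u) / (‖cB u‖ : ℂ)) ^ 2))

theorem slice_t {u : E4} (hu : nsq u < 1) (h1 : cB u ≠ 0) :
    0 < ‖cB u‖ ∧ ‖cB u‖ < 1 ∧ 0 < arcsin ‖cB u‖ ∧ arcsin ‖cB u‖ < π / 2 ∧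
    Real.sin (arcsin ‖cB u‖) = ‖cB u‖ ∧ 0 < Real.cos (arcsin ‖cB u‖) ∧
    Real.cos (arcsin ‖cB u‖) ^ 2 = 1 - ‖cB u‖ ^ 2 := by
  have h2 : 0 < ‖cB u‖ := norm_pos_iff.2 h1
  have h3 : ‖cB u‖ < 1 := by
    rw [nsq_eq_normSq, Complex.normSq_eq_norm_sq (cB u)] at hu
    have := Complex.normSq_nonneg (cA u)
    nlinarith
  have h4 : 0 < arcsin ‖cB u‖ := arcsin_pos.2 h2
  have h5 : arcsin ‖cB u‖ < π / 2 := arcsin_lt_pi_div_two.2 h3
  have h6 : Real.sin (arcsin ‖cB u‖) = ‖cB u‖ := sin_arcsin (by linarith) h3.le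
  refine ⟨h2, h3, h4, h5, h6, cos_pos_of_mem_Ioo ⟨by linarith [Real.pi_pos], h5⟩, ?_⟩
  have := Real.sin_sq_add_cos_sq (arcsin ‖cB u‖)
  rw [h6] at this
  linarith

theorem norm_thD {u : E4} (hu : nsq u < 1) (h1 : cB u ≠ 0) {a b : ℂ}
    (hab : Complex.normSq a + Complex.normSq b = 1 - ‖cB u‖ ^ 2) :
    ‖toE (((arcsin ‖cB u‖ / Real.cos (arcsin ‖cB u‖) : ℝ) : ℂ) * a)
      (((arcsin ‖cB u‖ / Real.cos (arcsin ‖cB u‖) : ℝ) : ℂ) * b)‖ = arcsin ‖cB u‖ := by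
  obtain ⟨-, -, h4, -, -, h7, h8⟩ := slice_t hu h1
  have h9 : ‖toE (((arcsin ‖cB u‖ / Real.cos (arcsin ‖cB u‖) : ℝ) : ℂ) * a)
      (((arcsin ‖cB u‖ / Real.cos (arcsin ‖cB u‖) : ℝ) : ℂ) * b)‖ ^ 2 = arcsin ‖cB u‖ ^ 2 := by
    rw [← nsq_eq_norm, nsq_toE, Complex.normSq_mul, Complex.normSq_mul, Complex.normSq_ofReal,
      ← mul_add, hab, ← h8]
    field_simp
  exact (sq_eq_sq₀ (norm_nonneg _) h4.le).1 h9

theorem norm_thED {u : E4} (hu : nsq u < 1) (h1 : cB u ≠ 0) : ‖thED u‖ = arcsin ‖cB u‖ := by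
  refine norm_thD hu h1 ?_
  rw [Complex.normSq_mul, Complex.normSq_mul, map_pow, normSq_phase h1, Complex.normSq_ofReal,
    ← pow_two, sr_sq hu, nsq_eq_normSq, Complex.normSq_eq_norm_sq (cB u)]
  ring

theorem norm_thFD {u : E4} (hu : nsq u < 1) (h1 : cB u ≠ 0) : ‖thFD u‖ = arcsin ‖cB u‖ := by
  refine norm_thD hu h1 ?_
  rw [Complex.normSq_mul, Complex.normSq_mul, map_pow, normSq_phase h1, Complex.normSq_ofReal,
    ← pow_two, sr_sq hu, nsq_eq_normSq, Complex.normSq_eq_norm_sq (cB u)]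
  ring

theorem contDiffAt_thD {u : E4} (hu : nsq u < 1) (h1 : cB u ≠ 0) :
    ContDiffAt ℝ ∞ (fun u : E4 => ((arcsin ‖cB u‖ / Real.cos (arcsin ‖cB u‖) : ℝ) : ℂ)) u := by
  obtain ⟨h2, h3, -, -, -, h7, -⟩ := slice_t hu h1
  have hn : ContDiffAt ℝ ∞ (fun u : E4 => ‖cB u‖) u := cB.contDiff.contDiffAt.norm ℝ h1
  have ha0 : ContDiffAt ℝ ∞ Real.arcsin ‖cB u‖ := Real.contDiffAt_arcsin (by linarith) h3.ne
  have ha : ContDiffAt ℝ ∞ (fun u : E4 => arcsin ‖cB u‖) u :=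
    ContDiffAt.comp (g := Real.arcsin) (f := fun u : E4 => ‖cB u‖) u ha0 hn
  have hc : ContDiffAt ℝ ∞ (fun u : E4 => Real.cos (arcsin ‖cB u‖)) u :=
    Real.contDiff_cos.contDiffAt.comp u ha
  exact Complex.ofRealCLM.contDiff.contDiffAt.comp u (ha.div hc h7.ne')

theorem isoAt_thED {g ξ : ℝ → ℝ} {T : Set ℝ} (hTo : IsOpen T) (hT : ∀ t ∈ T, 0 < t ∧ t < π / 2)
    (hg : ∀ t ∈ T, g t = Real.cos t) (hξ : ∀ t ∈ T, ξ t = 1 / Real.sin t) {u : E4}
    (hu : nsq u < 1) (h1 : cB u ≠ 0) (ht : arcsin ‖cB u‖ ∈ T) :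
    IsoAt gE (coreZ g ξ) thED u := by
  have hsr : ContDiffAt ℝ ∞ (fun u => ((sr u : ℝ) : ℂ)) u :=
    Complex.ofRealCLM.contDiff.contDiffAt.comp u (contDiffAt_sr hu)
  have hph := contDiffAt_phase (f := cB) cB.contDiff.contDiffAt h1
  have hD := contDiffAt_thD hu h1
  have hb : ∀ᶠ y in 𝓝 u, nsq y < 1 := isOpen_ball1.mem_nhds hu
  have hev : ∀ᶠ y in 𝓝 u, nsq y < 1 ∧ cB y ≠ 0 :=
    hb.and (cB.continuous.continuousAt.eventually_ne h1)
  have hsm : ContDiffAt ℝ ∞ thED u :=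
    contDiffAt_toE (hD.mul (hsr.mul hph)) (hD.mul (cA.contDiff.contDiffAt.mul (hph.pow 2)))
  refine isoAt_gauge (e := fun y => conj (cB y) / (‖cB y‖ : ℂ)) isOpen_ball1
    (hTo.preimage continuous_norm) isSlice_gE (isSlice_core hT hg hξ) hu ?_ hsm hph ?_ ?_ ?_ ?_
  · change ‖thED u‖ ∈ T
    rw [norm_thED hu h1]
    exact ht
  · filter_upwards [hev] with y hy
    exact normSq_phase hy.2
  · filter_upwards [hev] with y hy
    obtain ⟨-, -, h4, -, -, h7, -⟩ := slice_t hy.1 hy.2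
    rw [norm_thED hy.1 hy.2]
    unfold thED
    rw [cA_toE]
    have e1 : ((Real.cos (arcsin ‖cB y‖) / arcsin ‖cB y‖ : ℝ) : ℂ) *
        ((arcsin ‖cB y‖ / Real.cos (arcsin ‖cB y‖) : ℝ) : ℂ) = 1 := by
      rw [← Complex.ofReal_mul]
      have : Real.cos (arcsin ‖cB y‖) / arcsin ‖cB y‖ *
          (arcsin ‖cB y‖ / Real.cos (arcsin ‖cB y‖)) = 1 := by
        field_simp
      rw [this, Complex.ofReal_one]
    linear_combination (((sr y : ℝ) : ℂ) * (conj (cB y) / (‖cB y‖ : ℂ))) * e1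
  · filter_upwards [hev] with y hy
    obtain ⟨-, -, h4, -, -, h7, -⟩ := slice_t hy.1 hy.2
    rw [norm_thED hy.1 hy.2]
    unfold thED
    rw [cB_toE]
    have e1 : ((Real.cos (arcsin ‖cB y‖) / arcsin ‖cB y‖ : ℝ) : ℂ) *
        ((arcsin ‖cB y‖ / Real.cos (arcsin ‖cB y‖) : ℝ) : ℂ) = 1 := by
      rw [← Complex.ofReal_mul]
      have : Real.cos (arcsin ‖cB y‖) / arcsin ‖cB y‖ *
          (arcsin ‖cB y‖ / Real.cos (arcsin ‖cB y‖)) = 1 := by
        field_simp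
      rw [this, Complex.ofReal_one]
    linear_combination (cA y * (conj (cB y) / (‖cB y‖ : ℂ)) ^ 2) * e1
  · filter_upwards [hev] with y hy
    obtain ⟨-, -, -, -, h6, -, -⟩ := slice_t hy.1 hy.2
    rw [norm_thED hy.1 hy.2, h6, phase_mul hy.2]

theorem isoAt_thFD {g ξ : ℝ → ℝ} {T : Set ℝ} (hTo : IsOpen T) (hT : ∀ t ∈ T, 0 < t ∧ t < π / 2)
    (hg : ∀ t ∈ T, g t = Real.cos t) (hξ : ∀ t ∈ T, ξ t = 1 / Real.sin t) {u : E4}
    (hu : nsq u < 1) (h1 : cB u ≠ 0) (ht : arcsin ‖cB u‖ ∈ T) :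
    IsoAt gFS (coreZ g ξ) thFD u := by
  have hsr : ContDiffAt ℝ ∞ (fun u => ((sr u : ℝ) : ℂ)) u :=
    Complex.ofRealCLM.contDiff.contDiffAt.comp u (contDiffAt_sr hu)
  have hph := contDiffAt_phase (f := cB) cB.contDiff.contDiffAt h1
  have hD := contDiffAt_thD hu h1
  have hb : ∀ᶠ y in 𝓝 u, nsq y < 1 := isOpen_ball1.mem_nhds hu
  have hev : ∀ᶠ y in 𝓝 u, nsq y < 1 ∧ cB y ≠ 0 :=
    hb.and (cB.continuous.continuousAt.eventually_ne h1)
  have hsm : ContDiffAt ℝ ∞ thFD u :=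
    contDiffAt_toE (hD.mul (cA.contDiff.contDiffAt.mul hph)) (hD.mul (hsr.mul (hph.pow 2)))
  refine isoAt_gauge (e := fun y => conj (cB y) / (‖cB y‖ : ℂ)) isOpen_ball1
    (hTo.preimage continuous_norm) isSlice_gFS (isSlice_core hT hg hξ) hu ?_ hsm hph ?_ ?_ ?_ ?_
  · change ‖thFD u‖ ∈ T
    rw [norm_thFD hu h1]
    exact ht
  · filter_upwards [hev] with y hy
    exact normSq_phase hy.2
  · filter_upwards [hev] with y hy
    obtain ⟨-, -, h4, -, -, h7, -⟩ := slice_t hy.1 hy.2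
    rw [norm_thFD hy.1 hy.2]
    unfold thFD
    rw [cA_toE]
    have e1 : ((Real.cos (arcsin ‖cB y‖) / arcsin ‖cB y‖ : ℝ) : ℂ) *
        ((arcsin ‖cB y‖ / Real.cos (arcsin ‖cB y‖) : ℝ) : ℂ) = 1 := by
      rw [← Complex.ofReal_mul]
      have : Real.cos (arcsin ‖cB y‖) / arcsin ‖cB y‖ *
          (arcsin ‖cB y‖ / Real.cos (arcsin ‖cB y‖)) = 1 := by
        field_simp
      rw [this, Complex.ofReal_one]
    linear_combination (cA y * (conj (cB y) / (‖cB y‖ : ℂ))) * e1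
  · filter_upwards [hev] with y hy
    obtain ⟨-, -, h4, -, -, h7, -⟩ := slice_t hy.1 hy.2
    rw [norm_thFD hy.1 hy.2]
    unfold thFD
    rw [cB_toE]
    have e1 : ((Real.cos (arcsin ‖cB y‖) / arcsin ‖cB y‖ : ℝ) : ℂ) *
        ((arcsin ‖cB y‖ / Real.cos (arcsin ‖cB y‖) : ℝ) : ℂ) = 1 := by
      rw [← Complex.ofReal_mul]
      have : Real.cos (arcsin ‖cB y‖) / arcsin ‖cB y‖ *
          (arcsin ‖cB y‖ / Real.cos (arcsin ‖cB y‖)) = 1 := by
        field_simp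
      rw [this, Complex.ofReal_one]
    linear_combination (((sr y : ℝ) : ℂ) * (conj (cB y) / (‖cB y‖ : ℂ)) ^ 2) * e1
  · filter_upwards [hev] with y hy
    obtain ⟨-, -, -, -, h6, -, -⟩ := slice_t hy.1 hy.2
    rw [norm_thFD hy.1 hy.2, h6, phase_mul hy.2]

/-! ### The involution of the slice `z₂ > 0` -/

theorem isoAt_neg_u2Met (P Q : ℝ → ℝ) (u : E4) :
    IsoAt (u2Met P Q) (u2Met P Q) (fun u => -u) u := by
  refine ⟨contDiff_neg.contDiffAt, Eventually.of_forall fun y v => ?_⟩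
  have h1 : fderiv ℝ (fun u : E4 => -u) y v = -v := by
    rw [fderiv_fun_neg]
    simp
  rw [h1, qf_u2Met, qf_u2Met]
  unfold nsq dotu dotj
  simp

theorem isoAt_neg_u2Z (U W : ℝ → ℝ) (u : E4) : IsoAt (u2Z U W) (u2Z U W) (fun u => -u) u :=
  isoAt_neg_u2Met _ _ u

end Pool.Agent.W_MP_654ec6
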