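import Pool.Agent.W_MP_654ec6.A.IsoDense
import Pool.Agent.W_MP_654ec6.E.Slices

/-!
# The charts of the Eguchi-Hanson metric near the bolt

`gB a = |dζ + 2 i ζ Im (v̄ dv)/(1 + |v|²)|²/(4 A²) + A² |dv|²/(1 + |v|²)²`, `A² = √(a⁴ + |ζ|²)`, in the
coordinates `(v, ζ) ∈ ℂ²`; the map `(z₁, z₂) ↦ (z₁/z₂, √(A⁴ - a⁴) (z₂/|z₂|)²)` is a local isometry
from the metric `dA²/U + A² (σ₁² + σ₂²) + A² U σ₃²`, `U = 1 - a⁴/A⁴`.
-/

open scoped ContDiff Topology ComplexConjugate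
open Filter Set Real

namespace Pool.Agent.W_MP_654ec6

/-- `1 + |v|²` -/
noncomputable def bD (u : E4) : ℝ := 1 + u 0 ^ 2 + u 1 ^ 2

theorem bD_pos (u : E4) : 0 < bD u := by
  unfold bD
  positivity

theorem bA2_pos {a : ℝ} (ha : 0 < a) (u : E4) : 0 < bA2 a u := by
  unfold bA2
  exact Real.sqrt_pos.2 (by positivity)

theorem qf_gB (a : ℝ) (u w : E4) : qf (gB a u) w =
    ((w 2 + 2 * u 3 * ((u 1 * w 0 - u 0 * w 1) / bD u)) ^ 2 +
      (w 3 - 2 * u 2 * ((u 1 * w 0 - u 0 * w 1) / bD u)) ^ 2) / (4 * bA2 a u) +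
      bA2 a u / bD u ^ 2 * (w 0 ^ 2 + w 1 ^ 2) := by
  unfold qf gB bForm1 bForm2 bD
  simp [Fin.sum_univ_four]
  ring

theorem qf_gB' (a : ℝ) (u w : E4) : qf (gB a u) w =
    Complex.normSq (cB w + 2 * (((conj (cA u) * cA w).im / bD u : ℝ) : ℂ) * Complex.I * cB u) /
      (4 * bA2 a u) + bA2 a u / bD u ^ 2 * Complex.normSq (cA w) := by
  rw [qf_gB, normSq_cA]
  congr 2
  rw [Complex.normSq_apply]
  simp [cA_re, cA_im, cB_re, cB_im]
  ring

theorem goodMet_gB {a : ℝ} (ha : 0 < a) : GoodMet (gB a) Set.univ := by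
  refine ⟨?_, ?_, ?_⟩
  · intro i j u _
    have hc := fun i => (contDiff_coord i).contDiffAt (x := u)
    have hD : ContDiffAt ℝ ∞ bD u := (contDiffAt_const.add ((hc 0).pow 2)).add ((hc 1).pow 2)
    have hS : ContDiffAt ℝ ∞ (bA2 a) u := by
      unfold bA2
      exact (contDiffAt_const.add (((hc 2).pow 2).add ((hc 3).pow 2))).sqrt (by positivity)
    have hD0 := (bD_pos u).ne'
    have hS0 := (bA2_pos ha u).ne'
    have h3 : ∀ i, ContDiffAt ℝ ∞ (fun u : E4 => bForm1 u i) u := by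
      intro i
      fin_cases i
      · exact ((contDiffAt_const.mul (hc 3)).mul (hc 1)).div hD hD0
      · exact (((contDiffAt_const.mul (hc 3)).mul (hc 0)).div hD hD0).neg
      · exact contDiffAt_const
      · exact contDiffAt_const
    have h4 : ∀ i, ContDiffAt ℝ ∞ (fun u : E4 => bForm2 u i) u := by
      intro i
      fin_cases i
      · exact (((contDiffAt_const.mul (hc 2)).mul (hc 1)).div hD hD0).neg
      · exact ((contDiffAt_const.mul (hc 2)).mul (hc 0)).div hD hD0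
      · exact contDiffAt_const
      · exact contDiffAt_const
    have h5 : ContDiffAt ℝ ∞ (fun u : E4 => if i = j ∧ (i = 0 ∨ i = 1) then
        bA2 a u / (1 + u 0 ^ 2 + u 1 ^ 2) ^ 2 else 0) u := by
      by_cases h : i = j ∧ (i = 0 ∨ i = 1)
      · simp only [if_pos h]
        exact hS.div (hD.pow 2) (pow_ne_zero 2 hD0)
      · simp only [if_neg h]
        exact contDiffAt_const
    exact ((((h3 i).mul (h3 j)).add ((h4 i).mul (h4 j))).div (contDiffAt_const.mul hS)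
      (mul_ne_zero four_ne_zero hS0)).add h5 |>.contDiffWithinAt
  · intro u _ i j
    unfold gB
    fin_cases i <;> fin_cases j <;> simp <;> ring
  · intro u _ v hv
    rw [qf_gB]
    have hD := bD_pos u
    have hS := bA2_pos ha u
    by_contra hcon
    push Not at hcon
    have e1 : 0 ≤ ((v 2 + 2 * u 3 * ((u 1 * v 0 - u 0 * v 1) / bD u)) ^ 2 +
      (v 3 - 2 * u 2 * ((u 1 * v 0 - u 0 * v 1) / bD u)) ^ 2) / (4 * bA2 a u) := by positivity
    have e2 : 0 ≤ bA2 a u / bD u ^ 2 * (v 0 ^ 2 + v 1 ^ 2) := by positivity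
    have e3 : bA2 a u / bD u ^ 2 * (v 0 ^ 2 + v 1 ^ 2) = 0 := by linarith
    have e4 : v 0 ^ 2 + v 1 ^ 2 = 0 := by
      rcases mul_eq_zero.1 e3 with h | h
      · exact absurd h (by positivity)
      · exact h
    have v0 : v 0 = 0 := by nlinarith [sq_nonneg (v 0), sq_nonneg (v 1)]
    have v1 : v 1 = 0 := by nlinarith [sq_nonneg (v 0), sq_nonneg (v 1)]
    rw [v0, v1] at hcon e1
    have e5 : ((v 2 + 2 * u 3 * ((u 1 * 0 - u 0 * 0) / bD u)) ^ 2 +
      (v 3 - 2 * u 2 * ((u 1 * 0 - u 0 * 0) / bD u)) ^ 2) / (4 * bA2 a u) = 0 := by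
      rw [v0, v1] at e2
      linarith
    have e6 : v 2 ^ 2 + v 3 ^ 2 = 0 := by
      rcases div_eq_zero_iff.1 e5 with h | h
      · simpa using h
      · exact absurd h (by positivity)
    have v2 : v 2 = 0 := by nlinarith [sq_nonneg (v 2), sq_nonneg (v 3)]
    have v3 : v 3 = 0 := by nlinarith [sq_nonneg (v 2), sq_nonneg (v 3)]
    apply hv
    ext i
    fin_cases i
    · exact v0
    · exact v1
    · exact v2
    · exact v3

/-- `y = √(A⁴ - a⁴)` -/
noncomputable def yB (a : ℝ) (u : E4) : ℝ := √(nsq u ^ 2 - a ^ 4)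

/-- The chart map `(z₁, z₂) ↦ (z₁/z₂, y (z₂/|z₂|)²)`. -/
noncomputable def thB (a : ℝ) (u : E4) : E4 :=
  toE (cA u / cB u) (((yB a u : ℝ) : ℂ) * (conj (conj (cB u) / (‖cB u‖ : ℂ))) ^ 2)

theorem yB_pos {a : ℝ} (ha : 0 < a) {u : E4} (hu : a < ‖u‖) :
    0 < yB a u ∧ yB a u ^ 2 = nsq u ^ 2 - a ^ 4 := by
  have h1 : 0 < nsq u ^ 2 - a ^ 4 := by
    rw [nsq_eq_norm]
    have : a ^ 4 < ‖u‖ ^ 4 := pow_lt_pow_left₀ hu ha.le (by norm_num)
    nlinarith
  exact ⟨Real.sqrt_pos.2 h1, Real.sq_sqrt h1.le⟩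

theorem contDiffAt_yB {a : ℝ} (ha : 0 < a) {u : E4} (hu : a < ‖u‖) :
    ContDiffAt ℝ ∞ (yB a) u := by
  have h1 : 0 < nsq u ^ 2 - a ^ 4 := by
    obtain ⟨h, h2⟩ := yB_pos ha hu
    rw [← h2]
    positivity
  unfold yB
  exact ((contDiff_nsq.contDiffAt.pow 2).sub contDiffAt_const).sqrt h1.ne'

theorem hasFDerivAt_yB {a : ℝ} (ha : 0 < a) {u : E4} (hu : a < ‖u‖) : ∃ L : E4 →L[ℝ] ℝ,
    HasFDerivAt (yB a) L u ∧ ∀ v, L v = 2 * nsq u * dotu u v / yB a u := by
  obtain ⟨L, hL, hL2⟩ := hasFDerivAt_nsq u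
  obtain ⟨h, h2⟩ := yB_pos ha hu
  have h1 : HasFDerivAt (yB a) _ u := ((hL.pow 2).sub_const (a ^ 4)).sqrt (by
    have : nsq u ^ 2 - a ^ 4 ≠ 0 := by rw [← h2]; positivity
    exact this)
  refine ⟨_, h1, fun v => ?_⟩
  have e : √(nsq u ^ 2 - a ^ 4) = yB a u := rfl
  simp [hL2, e]
  field_simp

theorem contDiffAt_thB {a : ℝ} (ha : 0 < a) {u : E4} (hu : a < ‖u‖) (h0 : cB u ≠ 0) :
    ContDiffAt ℝ ∞ (thB a) u := by
  have h1 : ContDiffAt ℝ ∞ (fun u => cA u / cB u) u := by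
    simp only [div_eq_mul_inv]
    exact cA.contDiff.contDiffAt.mul (cB.contDiff.contDiffAt.inv h0)
  have h2 : ContDiffAt ℝ ∞ (fun u => ((yB a u : ℝ) : ℂ)) u :=
    Complex.ofRealCLM.contDiff.contDiffAt.comp u (contDiffAt_yB ha hu)
  have h3 : ContDiffAt ℝ ∞ (fun u => conj (conj (cB u) / (‖cB u‖ : ℂ))) u :=
    Complex.conjCLE.contDiff.contDiffAt.comp u
      (contDiffAt_phase (f := cB) cB.contDiff.contDiffAt h0)
  exact contDiffAt_toE h1 (h2.mul (h3.pow 2))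

/-- The isometry with the Eguchi-Hanson metric. -/
theorem isoAt_thB {a : ℝ} (ha : 0 < a) {U W : ℝ → ℝ} {T : Set ℝ} (hT : IsOpen T)
    (hTa : ∀ A ∈ T, a < A) (hU : ∀ A ∈ T, U A = 1 - a ^ 4 / A ^ 4)
    (hW : ∀ A ∈ T, W A = 1 - a ^ 4 / A ^ 4) {u : E4} (hu : ‖u‖ ∈ T) (h0 : cB u ≠ 0) :
    IsoAt (u2Z U W) (gB a) (thB a) u := by
  refine ⟨contDiffAt_thB ha (hTa _ hu) h0, ?_⟩
  have hev : ∀ᶠ y : E4 in 𝓝 u, ‖y‖ ∈ T := continuous_norm.continuousAt.eventually (hT.mem_nhds hu)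
  filter_upwards [hev, cB.continuous.continuousAt.eventually_ne h0] with y hy h1 w
  have hya := hTa _ hy
  obtain ⟨hy0, hy2⟩ := yB_pos ha hya
  have hdiff : DifferentiableAt ℝ (thB a) y := (contDiffAt_thB ha hya h1).differentiableAt (by simp)
  have hN0 : 0 < nsq y := by
    rw [nsq_eq_norm]
    have : 0 < ‖y‖ := ha.trans hya
    positivity
  have hr0 : 0 < Complex.normSq (cB y) := Complex.normSq_pos.2 h1
  -- the first coordinate
  have hV : cA (fderiv ℝ (thB a) y w) * cB y + cA (thB a y) * cB w = cA w := by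
    have e1 : (fun z => cA (thB a z) * cB z) =ᶠ[𝓝 y] fun z => cA z := by
      filter_upwards [cB.continuous.continuousAt.eventually_ne h1] with z hz
      unfold thB
      rw [cA_toE]
      field_simp
    have d1 : HasFDerivAt (fun z => cA (thB a z)) (cA.comp (fderiv ℝ (thB a) y)) y :=
      cA.hasFDerivAt.comp y hdiff.hasFDerivAt
    have d2 := d1.fun_mul (cB.hasFDerivAt (x := y))
    have d3 := d2.unique (cA.hasFDerivAt.congr_of_eventuallyEq e1)
    have d4 := congrArg (fun L : E4 →L[ℝ] ℂ => L w) d3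
    simp only [add_apply, smul_apply, smul_eq_mul, ContinuousLinearMap.comp_apply] at d4
    rw [← d4]
    ring
  -- the phase
  obtain ⟨e, he⟩ : ∃ e : E4 → ℂ, e = fun z => conj (conj (cB z) / (‖cB z‖ : ℂ)) := ⟨_, rfl⟩
  have hes : ContDiffAt ℝ ∞ e y := by
    rw [he]
    exact Complex.conjCLE.contDiff.contDiffAt.comp y
      (contDiffAt_phase (f := cB) cB.contDiff.contDiffAt h1)
  have hed : DifferentiableAt ℝ e y := hes.differentiableAt (by simp)
  have hen : ∀ᶠ z in 𝓝 y, Complex.normSq (e z) = 1 := by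
    filter_upwards [cB.continuous.continuousAt.eventually_ne h1] with z hz
    rw [he]
    simp only [Complex.normSq_conj]
    exact normSq_phase hz
  have hen1 := hen.self_of_nhds
  have hce : conj (e y) * e y = 1 := by rw [← Complex.normSq_eq_conj_mul_self, hen1]; simp
  obtain ⟨φ, hφ⟩ := gauge_phase hed hen w
  -- `e |z₂| = z₂`
  have hnd : DifferentiableAt ℝ (fun z : E4 => ‖cB z‖) y :=
    (cB.contDiff.contDiffAt.norm ℝ h1 : ContDiffAt ℝ ∞ (fun z : E4 => ‖cB z‖) y).differentiableAt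
      (by simp)
  have hee : ∀ z, cB z ≠ 0 → e z * (‖cB z‖ : ℂ) = cB z := by
    intro z hz
    have hz' : (‖cB z‖ : ℂ) ≠ 0 := by
      rw [Complex.ofReal_ne_zero]
      exact norm_ne_zero_iff.2 hz
    rw [he]
    simp only [map_div₀, Complex.conj_conj, Complex.conj_ofReal]
    field_simp
  have hφ2 : (conj (cB y) * cB w).im = φ * Complex.normSq (cB y) := by
    have d1 : HasFDerivAt (fun z : E4 => ((‖cB z‖ : ℝ) : ℂ)) _ y :=
      Complex.ofRealCLM.hasFDerivAt.comp y hnd.hasFDerivAt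
    have e1 : (fun z => e z * (‖cB z‖ : ℂ)) =ᶠ[𝓝 y] fun z => cB z := by
      filter_upwards [cB.continuous.continuousAt.eventually_ne h1] with z hz
      exact hee z hz
    have d3 := (hed.hasFDerivAt.fun_mul d1).unique (cB.hasFDerivAt.congr_of_eventuallyEq e1)
    have d4 := congrArg (fun L : E4 →L[ℝ] ℂ => L w) d3
    simp only [add_apply, smul_apply, smul_eq_mul, ContinuousLinearMap.comp_apply, hφ,
      Complex.ofRealCLM_apply] at d4
    obtain ⟨r, hr⟩ : ∃ r : ℝ, r = fderiv ℝ (fun z : E4 => ‖cB z‖) y w := ⟨_, rfl⟩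
    rw [← hr] at d4
    have d5 : conj (cB y) * cB w = (‖cB y‖ : ℂ) * (r + φ * (‖cB y‖ : ℂ) * Complex.I) := by
      rw [← d4]
      have e2 : conj (cB y) = conj (e y) * (‖cB y‖ : ℂ) := by
        have := congrArg conj (hee y h1)
        rw [map_mul, Complex.conj_ofReal] at this
        exact this.symm
      rw [e2]
      linear_combination ((‖cB y‖ : ℂ) * (r + φ * (‖cB y‖ : ℂ) * Complex.I)) * hce
    rw [d5, Complex.normSq_eq_norm_sq]
    simp
    ring
  -- the second coordinate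
  obtain ⟨L, hL, hL2⟩ := hasFDerivAt_yB ha hya
  have hZ : cB (fderiv ℝ (thB a) y w) =
      e y ^ 2 * (((2 * nsq y * dotu y w / yB a y : ℝ) : ℂ) +
        2 * ((yB a y * φ : ℝ) : ℂ) * Complex.I) := by
    have d1 : HasFDerivAt (fun z => cB (thB a z)) (cB.comp (fderiv ℝ (thB a) y)) y :=
      cB.hasFDerivAt.comp y hdiff.hasFDerivAt
    have e1 : (fun z => cB (thB a z)) = fun z => ((yB a z : ℝ) : ℂ) * (e z * e z) := by
      funext z
      unfold thB
      rw [cB_toE, he]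
      ring
    have d2 : HasFDerivAt (fun z : E4 => ((yB a z : ℝ) : ℂ)) _ y :=
      Complex.ofRealCLM.hasFDerivAt.comp y hL
    have d3 := d2.fun_mul (hed.hasFDerivAt.fun_mul hed.hasFDerivAt)
    rw [e1] at d1
    have d4 := congrArg (fun L : E4 →L[ℝ] ℂ => L w) (d1.unique d3)
    simp only [add_apply, smul_apply, smul_eq_mul, ContinuousLinearMap.comp_apply, hφ,
      Complex.ofRealCLM_apply, hL2] at d4
    rw [d4]
    push_cast
    ring
  have hcBth : cB (thB a y) = ((yB a y : ℝ) : ℂ) * e y ^ 2 := by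
    unfold thB
    rw [cB_toE, he]
  -- values
  have hv : cA (thB a y) * cB y = cA y := by
    unfold thB
    rw [cA_toE]
    field_simp
  have hD : bD (thB a y) = 1 + Complex.normSq (cA (thB a y)) := by
    unfold bD
    rw [normSq_cA]
    ring
  have hNr : nsq y = Complex.normSq (cB y) * bD (thB a y) := by
    rw [nsq_eq_normSq, ← hv, Complex.normSq_mul, hD]
    ring
  have hS : bA2 a (thB a y) = nsq y := by
    unfold bA2
    rw [← normSq_cB, hcBth, Complex.normSq_mul, map_pow, hen1, Complex.normSq_ofReal, ← pow_two,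
      hy2]
    rw [show a ^ 4 + (nsq y ^ 2 - a ^ 4) * 1 ^ 2 = nsq y ^ 2 by ring]
    exact Real.sqrt_sq hN0.le
  have hUy : U ‖y‖ = yB a y ^ 2 / nsq y ^ 2 := by
    rw [hU _ hy, hy2, show ‖y‖ ^ 4 = nsq y ^ 2 by rw [nsq_eq_norm]; ring]
    field_simp
  have hWy : W ‖y‖ = yB a y ^ 2 / nsq y ^ 2 := by
    rw [hW _ hy, hy2, show ‖y‖ ^ 4 = nsq y ^ 2 by rw [nsq_eq_norm]; ring]
    field_simp
  -- Im (v̄ dv)
  have hc : (conj (cA (thB a y)) * cA (fderiv ℝ (thB a) y w)).im * Complex.normSq (cB y) =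
      (conj (cA y) * cA w).im - Complex.normSq (cA (thB a y)) * (conj (cB y) * cB w).im := by
    have e1 : conj (cA (thB a y)) * cA (fderiv ℝ (thB a) y w) * (Complex.normSq (cB y) : ℂ) =
        conj (cA y) * cA w - (Complex.normSq (cA (thB a y)) : ℂ) * (conj (cB y) * cB w) := by
      rw [Complex.normSq_eq_conj_mul_self, Complex.normSq_eq_conj_mul_self, ← hV, ← hv, map_mul]
      ring
    have e2 := congrArg Complex.im e1
    simpa using e2
  have hj : (conj (cA y) * cA w).im + (conj (cB y) * cB w).im = dotj y w := by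
    simp [cA_re, cA_im, cB_re, cB_im, dotj]
    ring
  have hphi : φ + (conj (cA (thB a y)) * cA (fderiv ℝ (thB a) y w)).im / bD (thB a y) =
      dotj y w / nsq y := by
    have hDp := bD_pos (thB a y)
    have e1 : φ * Complex.normSq (cB y) * bD (thB a y) +
        (conj (cA (thB a y)) * cA (fderiv ℝ (thB a) y w)).im * Complex.normSq (cB y) =
        dotj y w := by
      rw [hc, ← hj, hφ2, hD]
      ring
    rw [hNr, ← e1]
    field_simp
  have hV2 : Complex.normSq (cA (fderiv ℝ (thB a) y w)) * Complex.normSq (cB y) ^ 2 =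
      nsq y * nsq w - dotu y w ^ 2 - dotj y w ^ 2 := by
    have e1 : cA (fderiv ℝ (thB a) y w) * cB y * cB y = cB y * cA w - cA y * cB w := by
      rw [← hV, ← hv]
      ring
    have e2 := congrArg Complex.normSq e1
    rw [Complex.normSq_mul, Complex.normSq_mul] at e2
    have e3 : Complex.normSq (cB y * cA w - cA y * cB w) =
        nsq y * nsq w - dotu y w ^ 2 - dotj y w ^ 2 := by
      rw [Complex.normSq_apply]
      simp [cA_re, cA_im, cB_re, cB_im, dotj, dotu, nsq]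
      ring
    rw [← e3, ← e2]
    ring
  rw [qf_gB', hZ, hcBth, hS, qf_u2Z, hUy, hWy]
  obtain ⟨c, hcd⟩ : ∃ c : ℝ, c = (conj (cA (thB a y)) * cA (fderiv ℝ (thB a) y w)).im /
    bD (thB a y) := ⟨_, rfl⟩
  rw [← hcd] at hphi ⊢
  have e1 : e y ^ 2 * (((2 * nsq y * dotu y w / yB a y : ℝ) : ℂ) +
        2 * ((yB a y * φ : ℝ) : ℂ) * Complex.I) +
      2 * (c : ℂ) * Complex.I * (((yB a y : ℝ) : ℂ) * e y ^ 2) =
      e y ^ 2 * (((2 * nsq y * dotu y w / yB a y : ℝ) : ℂ) +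
        ((2 * yB a y * (dotj y w / nsq y) : ℝ) : ℂ) * Complex.I) := by
    rw [← hphi]
    push_cast
    ring
  have e2 : Complex.normSq (((2 * nsq y * dotu y w / yB a y : ℝ) : ℂ) +
        ((2 * yB a y * (dotj y w / nsq y) : ℝ) : ℂ) * Complex.I) =
      (2 * nsq y * dotu y w / yB a y) ^ 2 + (2 * yB a y * (dotj y w / nsq y)) ^ 2 :=
    Complex.normSq_add_mul_I _ _
  rw [e1, Complex.normSq_mul, map_pow, hen1, e2]
  have hn2 : ‖y‖ ^ 2 = nsq y := (nsq_eq_norm y).symm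
  rw [hn2]
  have e3 : nsq y / bD (thB a y) ^ 2 * Complex.normSq (cA (fderiv ℝ (thB a) y w)) =
      (nsq y * nsq w - dotu y w ^ 2 - dotj y w ^ 2) / nsq y := by
    have hDp := bD_pos (thB a y)
    rw [← hV2]
    have hbD : bD (thB a y) = nsq y / Complex.normSq (cB y) := by
      rw [hNr]
      field_simp
    rw [hbD]
    field_simp
  rw [e3]
  field_simp
  ring

/-! ### The Eguchi-Hanson metric is Ricci flat -/

/-- `1 - a⁴/A⁴` -/
noncomputable def ehUa (a A : ℝ) : ℝ := 1 - a ^ 4 / A ^ 4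

theorem ehUa_pos {a : ℝ} (ha : 0 < a) {A : ℝ} (hA : a < A) : 0 < ehUa a A := by
  have hA0 : 0 < A := ha.trans hA
  have : a ^ 4 < A ^ 4 := pow_lt_pow_left₀ hA ha.le (by norm_num)
  have h2 : a ^ 4 / A ^ 4 < 1 := by rwa [div_lt_one (by positivity)]
  unfold ehUa
  linarith

theorem contDiffAt_ehUa {a : ℝ} {A : ℝ} (hA : 0 < A) : ContDiffAt ℝ ∞ (ehUa a) A := by
  unfold ehUa
  exact contDiffAt_const.sub (contDiffAt_const.div (contDiffAt_id.pow 4)
    (pow_ne_zero 4 hA.ne'))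

theorem goodMet_eh {a : ℝ} (ha : 0 < a) :
    GoodMet (u2Z (ehUa a) (ehUa a)) {u : E4 | ‖u‖ ∈ Ioi a} :=
  goodMet_u2Z (fun _ hA => ha.trans hA) (fun _ hA => contDiffAt_ehUa (ha.trans hA))
    (fun _ hA => contDiffAt_ehUa (ha.trans hA)) (fun _ hA => ehUa_pos ha hA)
    (fun _ hA => ehUa_pos ha hA)

theorem exists_sq_phase {z : ℂ} (hz : z ≠ 0) : ∃ e : ℂ, e ≠ 0 ∧ Complex.normSq e = 1 ∧
    e ^ 2 * (‖z‖ : ℂ) = z := by
  obtain ⟨e, he⟩ := IsAlgClosed.exists_pow_nat_eq (z / (‖z‖ : ℂ)) (n := 2) (by norm_num)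
  have hz' : (‖z‖ : ℂ) ≠ 0 := by
    rw [Complex.ofReal_ne_zero]
    exact norm_ne_zero_iff.2 hz
  have h1 : e ^ 2 * (‖z‖ : ℂ) = z := by
    rw [he]
    field_simp
  have hn : Complex.normSq e = 1 := by
    have h2 : Complex.normSq e ^ 2 = 1 := by
      rw [← map_pow, he, Complex.normSq_div, Complex.normSq_ofReal, Complex.normSq_eq_norm_sq]
      have : ‖z‖ ≠ 0 := norm_ne_zero_iff.2 hz
      field_simp
    have h3 := Complex.normSq_nonneg e
    nlinarith
  exact ⟨e, by rintro rfl; simp at hn, hn, h1⟩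

/-- Every point of the chart off the bolt is in the image. -/
theorem exists_thB {a : ℝ} (ha : 0 < a) {y : E4} (hy : cB y ≠ 0) :
    ∃ u : E4, a < ‖u‖ ∧ cB u ≠ 0 ∧ thB a u = y := by
  obtain ⟨e, he0, hen, he2⟩ := exists_sq_phase hy
  have hD := bD_pos y
  have hS := bA2_pos ha y
  have hy0 : 0 < ‖cB y‖ := norm_pos_iff.2 hy
  obtain ⟨r, hr⟩ : ∃ r : ℝ, r = √(bA2 a y / bD y) := ⟨_, rfl⟩
  have hr0 : 0 < r := by rw [hr]; exact Real.sqrt_pos.2 (by positivity)
  have hr2 : r ^ 2 = bA2 a y / bD y := by rw [hr]; exact Real.sq_sqrt (by positivity)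
  have hS2 : bA2 a y ^ 2 = a ^ 4 + ‖cB y‖ ^ 2 := by
    unfold bA2
    rw [Real.sq_sqrt (by positivity), ← normSq_cB, Complex.normSq_eq_norm_sq]
  obtain ⟨z, hz⟩ : ∃ z : ℂ, z = (r : ℂ) * e := ⟨_, rfl⟩
  have hz0 : z ≠ 0 := by
    rw [hz]
    exact mul_ne_zero (by rw [Complex.ofReal_ne_zero]; exact hr0.ne') he0
  have hnz : Complex.normSq z = r ^ 2 := by
    rw [hz, Complex.normSq_mul, hen, Complex.normSq_ofReal]
    ring
  have hzn : ‖z‖ = r := by
    rw [Complex.normSq_eq_norm_sq] at hnz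
    exact (sq_eq_sq₀ (norm_nonneg _) hr0.le).1 hnz
  have hN : nsq (toE (cA y * z) z) = bA2 a y := by
    rw [nsq_toE, Complex.normSq_mul, hnz, hr2, normSq_cA]
    have : (y 0 ^ 2 + y 1 ^ 2) * (bA2 a y / bD y) + bA2 a y / bD y = bA2 a y * (bD y / bD y) := by
      unfold bD
      ring
    rw [this, div_self hD.ne', mul_one]
  have hnorm : a < ‖toE (cA y * z) z‖ := by
    refine lt_of_pow_lt_pow_left₀ 4 (norm_nonneg _) ?_
    rw [show ‖toE (cA y * z) z‖ ^ 4 = (‖toE (cA y * z) z‖ ^ 2) ^ 2 by ring, ← nsq_eq_norm, hN, hS2]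
    have : 0 < ‖cB y‖ ^ 2 := by positivity
    linarith
  refine ⟨toE (cA y * z) z, hnorm, by rw [cB_toE]; exact hz0, ?_⟩
  have hyB : yB a (toE (cA y * z) z) = ‖cB y‖ := by
    unfold yB
    rw [hN, hS2, show a ^ 4 + ‖cB y‖ ^ 2 - a ^ 4 = ‖cB y‖ ^ 2 by ring]
    exact Real.sqrt_sq hy0.le
  unfold thB
  rw [hyB, cA_toE, cB_toE, hzn]
  have e1 : cA y * z / z = cA y := by field_simp
  have e2 : conj (conj z / (r : ℂ)) = e := by
    have : (r : ℂ) ≠ 0 := by rw [Complex.ofReal_ne_zero]; exact hr0.ne'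
    rw [map_div₀, Complex.conj_conj, Complex.conj_ofReal, hz]
    field_simp
  rw [e1, e2, mul_comm, he2, toE_eta]

/-! ### The second chart and the transition between the two charts -/

/-- The map `(z₁, z₂) ↦ (z₂, z₁)`. -/
noncomputable def swapE : E4 →ₗ[ℝ] E4 where
  toFun w := WithLp.toLp 2 ![w 2, w 3, w 0, w 1]
  map_add' v w := by
    ext i
    fin_cases i <;> rfl
  map_smul' c w := by
    ext i
    fin_cases i <;> rfl

theorem swapE_0 (u : E4) : swapE u 0 = u 2 := rfl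
theorem swapE_1 (u : E4) : swapE u 1 = u 3 := rfl
theorem swapE_2 (u : E4) : swapE u 2 = u 0 := rfl
theorem swapE_3 (u : E4) : swapE u 3 = u 1 := rfl

theorem cA_swapE (u : E4) : cA (swapE u) = cB u := by
  apply Complex.ext
  · rw [cA_re, cB_re]; rfl
  · rw [cA_im, cB_im]; rfl

theorem cB_swapE (u : E4) : cB (swapE u) = cA u := by
  apply Complex.ext
  · rw [cA_re, cB_re]; rfl
  · rw [cA_im, cB_im]; rfl

theorem swapE_swapE (u : E4) : swapE (swapE u) = u := by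
  ext i
  fin_cases i <;> rfl

theorem nsq_swapE (u : E4) : nsq (swapE u) = nsq u := by
  unfold nsq
  rw [swapE_0, swapE_1, swapE_2, swapE_3]
  ring

theorem norm_swapE (u : E4) : ‖swapE u‖ = ‖u‖ := by
  rw [← sqrt_nsq, nsq_swapE, sqrt_nsq]

theorem isoAt_swapE (P Q : ℝ → ℝ) (u : E4) : IsoAt (u2Met P Q) (u2Met P Q) swapE u := by
  have hc : ((swapE : E4 → E4)) = ((LinearMap.toContinuousLinearMap swapE : E4 →L[ℝ] E4) :
      E4 → E4) := rfl
  refine ⟨?_, Filter.Eventually.of_forall fun y v => ?_⟩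
  · rw [hc]
    exact (LinearMap.toContinuousLinearMap swapE).contDiff.contDiffAt
  · have hf : fderiv ℝ swapE y v = swapE v := by
      rw [hc, ContinuousLinearMap.fderiv]
    rw [hf, qf_u2Met, qf_u2Met, nsq_swapE, nsq_swapE]
    have e1 : dotu (swapE y) (swapE v) = dotu y v := by
      unfold dotu
      rw [swapE_0, swapE_1, swapE_2, swapE_3, swapE_0, swapE_1, swapE_2, swapE_3]
      ring
    have e2 : dotj (swapE y) (swapE v) = dotj y v := by
      unfold dotj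
      rw [swapE_0, swapE_1, swapE_2, swapE_3, swapE_0, swapE_1, swapE_2, swapE_3]
      ring
    rw [e1, e2]

theorem isoAt_swapE_u2Z (U W : ℝ → ℝ) (u : E4) : IsoAt (u2Z U W) (u2Z U W) swapE u :=
  isoAt_swapE _ _ u

theorem nsq_neg' (u : E4) : nsq (-u) = nsq u := by
  unfold nsq
  simp

/-- The second chart map `(z₁, z₂) ↦ (z₂/z₁, y (z₁/|z₁|)²)`. -/
noncomputable def thB2 (a : ℝ) (u : E4) : E4 := thB a (swapE u)

theorem isoAt_thB2 {a : ℝ} (ha : 0 < a) {U W : ℝ → ℝ} {T : Set ℝ} (hT : IsOpen T)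
    (hTa : ∀ A ∈ T, a < A) (hU : ∀ A ∈ T, U A = 1 - a ^ 4 / A ^ 4)
    (hW : ∀ A ∈ T, W A = 1 - a ^ 4 / A ^ 4) {u : E4} (hu : ‖u‖ ∈ T) (h0 : cA u ≠ 0) :
    IsoAt (u2Z U W) (gB a) (thB2 a) u :=
  isoAt_comp (isoAt_swapE_u2Z U W u) (isoAt_thB ha hT hTa hU hW (by rwa [norm_swapE])
    (by rwa [cB_swapE]))

/-- The transition between the two charts, `(v, ζ) ↦ (1/v, ζ (v/|v|)²)`. -/
noncomputable def thBB (u : E4) : E4 :=
  toE (1 / cA u) (cB u * (conj (conj (cA u) / (‖cA u‖ : ℂ))) ^ 2)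

theorem yB_swapE (a : ℝ) (u : E4) : yB a (swapE u) = yB a u := by
  unfold yB
  rw [nsq_swapE]

theorem thBB_thB {a : ℝ} {u : E4} (h1 : cA u ≠ 0) (h2 : cB u ≠ 0) :
    thBB (thB a u) = thB2 a u := by
  unfold thBB thB2 thB
  rw [cA_toE, cB_toE, cA_swapE, cB_swapE, yB_swapE]
  congr 1
  · field_simp
  · have n1 : (‖cA u‖ : ℂ) ≠ 0 := by
      rw [Complex.ofReal_ne_zero]
      exact norm_ne_zero_iff.2 h1
    have n2 : (‖cB u‖ : ℂ) ≠ 0 := by
      rw [Complex.ofReal_ne_zero]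
      exact norm_ne_zero_iff.2 h2
    rw [norm_div]
    simp only [map_div₀, Complex.conj_conj, Complex.conj_ofReal]
    push_cast
    field_simp

theorem contDiffAt_thBB {u : E4} (h0 : cA u ≠ 0) : ContDiffAt ℝ ∞ thBB u := by
  have h1 : ContDiffAt ℝ ∞ (fun u => 1 / cA u) u := by
    simp only [div_eq_mul_inv]
    exact contDiffAt_const.mul (cA.contDiff.contDiffAt.inv h0)
  have h3 : ContDiffAt ℝ ∞ (fun u => conj (conj (cA u) / (‖cA u‖ : ℂ))) u :=
    Complex.conjCLE.contDiff.contDiffAt.comp u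
      (contDiffAt_phase (f := cA) cA.contDiff.contDiffAt h0)
  exact contDiffAt_toE h1 (cB.contDiff.contDiffAt.mul (h3.pow 2))

theorem isoAt_thBB {a : ℝ} (ha : 0 < a) {u : E4} (h0 : cA u ≠ 0) :
    IsoAt (gB a) (gB a) thBB u := by
  have hV : IsOpen {u : E4 | cA u ≠ 0} := isOpen_ne.preimage cA.continuous
  have hg0 := goodMet_gB ha
  have hg : GoodMet (gB a) {u : E4 | cA u ≠ 0} :=
    ⟨fun i j => (hg0.smooth i j).mono (subset_univ _),
      fun x _ => hg0.symm x (mem_univ _), fun x _ => hg0.pos x (mem_univ _)⟩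
  refine isoAt_of_dense (D := {v : E4 | v ∈ {u : E4 | cA u ≠ 0} ∧ v 0 ≠ 0 ∧ v 2 ≠ 0}) hV hg hg0
    (fun x hx => (contDiffAt_thBB hx).contDiffWithinAt) (fun x _ => mem_univ _)
    (fun x hx => hx.1) (fun x hx => mem_closure_offAxes hV hx) ?_ u h0
  rintro x ⟨hx1, hx2, hx3⟩ v
  have h1 : cB x ≠ 0 := by
    intro h
    apply hx3
    rw [← cB_re, h]
    rfl
  obtain ⟨z, hz1, hz2, hz3⟩ := exists_thB ha h1
  have hz4 : cA z ≠ 0 := by
    intro h
    apply hx1
    rw [← hz3]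
    unfold thB
    rw [cA_toE, h, zero_div]
  have i1 : IsoAt (u2Z (ehUa a) (ehUa a)) (gB a) (thB a) z :=
    isoAt_thB ha isOpen_Ioi (fun _ h => h) (fun _ _ => rfl) (fun _ _ => rfl) hz1 hz2
  have i2 : IsoAt (u2Z (ehUa a) (ehUa a)) (gB a) (thB2 a) z :=
    isoAt_thB2 ha isOpen_Ioi (fun _ h => h) (fun _ _ => rfl) (fun _ _ => rfl) hz1 hz4
  have i3 : IsoAt (u2Z (ehUa a) (ehUa a)) (gB a) (thBB ∘ thB a) z := by
    refine isoAt_congr i2 EventuallyEq.rfl ?_ EventuallyEq.rfl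
    filter_upwards [cA.continuous.continuousAt.eventually_ne hz4,
      cB.continuous.continuousAt.eventually_ne hz2] with y hy1 hy2
    exact (thBB_thB hy1 hy2).symm
  have i4 := isoAt_of_comp (isOpen_Ioi.preimage continuous_norm) (goodMet_eh ha) isOpen_univ hg0
    hz1 (mem_univ _) i1 i3
  rw [hz3] at i4
  exact i4.2.self_of_nhds v

/-! ### Which points have the same image -/

theorem thB_neg (a : ℝ) (u : E4) : thB a (-u) = thB a u := by
  unfold thB yB
  rw [map_neg, map_neg, nsq_neg', norm_neg, neg_div_neg_eq, map_neg, neg_div, map_neg, neg_sq]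

end Pool.Agent.W_MP_654ec6
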