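import Pool.Agent.W_MP_654ec6.E.U2Alg
import Pool.Agent.W_MP_654ec6.E.U2Z

/-!
# The Ricci tensor of U(2)-invariant metrics in the coordinates z
-/

open scoped ContDiff Topology
open Filter

namespace Pool.Agent.W_MP_654ec6

theorem hasJet_coord (i : Fin 4) (y : E4) :
    HasJet (fun u => u i) y (y i) (fun m => u2e m i) (fun _ _ => 0) := by
  refine (hasJet_comp1 (φ := fun t => t) i contDiffAt_id).of_eq rfl (fun m => ?_) (fun m n => ?_)
  · simp [u2e]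
  · simp

theorem hasJet_ju (i : Fin 4) (y : E4) :
    HasJet (fun u => ju u i) y (ju y i) (fun m => u2J i m) (fun _ _ => 0) := by
  have hneg : ∀ j, HasJet (fun u : E4 => -u j) y (-y j) (fun m => -u2e m j) (fun _ _ => 0) := by
    intro j
    have h := (hasJet_const (-1) y).mul (hasJet_coord j y)
    have e : (fun u : E4 => -u j) = fun u => -1 * u j := by
      funext u
      ring
    rw [e]
    exact h.of_eq (by ring) (fun m => by ring) (fun m n => by ring)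
  fin_cases i
  · refine (hneg 1).of_eq rfl (fun m => ?_) (fun _ _ => rfl)
    fin_cases m <;> simp [u2e, u2J]
  · refine (hasJet_coord 0 y).of_eq rfl (fun m => ?_) (fun _ _ => rfl)
    fin_cases m <;> simp [u2e, u2J]
  · refine (hneg 3).of_eq rfl (fun m => ?_) (fun _ _ => rfl)
    fin_cases m <;> simp [u2e, u2J]
  · refine (hasJet_coord 2 y).of_eq rfl (fun m => ?_) (fun _ _ => rfl)
    fin_cases m <;> simp [u2e, u2J]

theorem hasJet_nsq (y : E4) :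
    HasJet nsq y (nsq y) (fun m => 2 * y m) (fun m n => 2 * u2e m n) := by
  have h := (((hasJet_coord 0 y).pow_two.add (hasJet_coord 1 y).pow_two).add
    (hasJet_coord 2 y).pow_two).add (hasJet_coord 3 y).pow_two
  refine h.of_eq rfl (fun m => ?_) (fun m n => ?_)
  · fin_cases m <;> simp [u2e]
  · fin_cases m <;> fin_cases n <;> simp [u2e]

theorem hasJet_u2 {P Q : ℝ → ℝ} {y : E4} (hP : ContDiffAt ℝ 2 P (nsq y))
    (hQ : ContDiffAt ℝ 2 Q (nsq y)) (i j : Fin 4) :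
    HasJet (fun u => u2Met P Q u i j) y (u2G (P (nsq y)) (Q (nsq y)) (fun i => y i) (ju y) i j)
      (fun m => u2D (P (nsq y)) (deriv P (nsq y)) (Q (nsq y)) (deriv Q (nsq y)) (fun i => y i)
        (ju y) m i j)
      (fun m n => u2S (P (nsq y)) (deriv P (nsq y)) (deriv (deriv P) (nsq y)) (Q (nsq y))
        (deriv Q (nsq y)) (deriv (deriv Q) (nsq y)) (fun i => y i) (ju y) m n i j) := by
  have h := ((hasJet_const (u2e i j) y).add (((hasJet_compR (hasJet_nsq y) hP).mul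
    (hasJet_coord i y)).mul (hasJet_coord j y))).add (((hasJet_compR (hasJet_nsq y) hQ).mul
    (hasJet_ju i y)).mul (hasJet_ju j y))
  refine h.of_eq ?_ (fun m => ?_) (fun m n => ?_)
  · unfold u2G
    ring
  · unfold u2D
    ring
  · unfold u2S
    ring

theorem ricq_axis {P Q : ℝ → ℝ} {A U W Us Uss Ws Wss Rtt R11 R33 : ℝ} (hA : A ≠ 0)
    (hU : U ≠ 0) (hW : W ≠ 0) (hP : ContDiffAt ℝ 2 P (A ^ 2)) (hQ : ContDiffAt ℝ 2 Q (A ^ 2))
    (hP0 : P (A ^ 2) = (1 / U - 1) / A ^ 2) (hQ0 : Q (A ^ 2) = (W - 1) / A ^ 2)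
    (hP1 : deriv P (A ^ 2) = -Us / (U ^ 2 * A ^ 2) - (1 / U - 1) / A ^ 4)
    (hQ1 : deriv Q (A ^ 2) = Ws / A ^ 2 - (W - 1) / A ^ 4)
    (hP2 : deriv (deriv P) (A ^ 2) = (2 * Us ^ 2 / U ^ 3 - Uss / U ^ 2) / A ^ 2 +
      2 * Us / (U ^ 2 * A ^ 4) + 2 * (1 / U - 1) / A ^ 6)
    (hQ2 : deriv (deriv Q) (A ^ 2) = Wss / A ^ 2 - 2 * Ws / A ^ 4 + 2 * (W - 1) / A ^ 6)
    (hRtt : Rtt = -3 * Us - A ^ 2 * Us * Ws / W -
      U * (3 * Ws / W + 2 * A ^ 2 * Wss / W - A ^ 2 * Ws ^ 2 / W ^ 2))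
    (hR11 : R11 = -Us - 2 * U / A ^ 2 - U * Ws / W + (4 - 2 * W) / A ^ 2)
    (hR33 : R33 = -Us * (1 + A ^ 2 * Ws / W) -
      U * (3 * Ws / W + 2 * A ^ 2 * Wss / W - A ^ 2 * Ws ^ 2 / W ^ 2) -
      2 * U / A ^ 2 - 2 * U * Ws / W + 2 * W / A ^ 2) (v : E4) :
    ricq (u2Met P Q) (axp A) v =
      Rtt / U * v 0 ^ 2 + W * R33 * v 1 ^ 2 + R11 * (v 2 ^ 2 + v 3 ^ 2) := by
  have hj : ∀ i j, HasJet (fun u => u2Met P Q u i j) (axp A)
      ((Matrix.of (u2G (P (A ^ 2)) (Q (A ^ 2)) ![A, 0, 0, 0] ![0, A, 0, 0])) i j)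
      (fun m => u2D (P (A ^ 2)) (deriv P (A ^ 2)) (Q (A ^ 2)) (deriv Q (A ^ 2))
        ![A, 0, 0, 0] ![0, A, 0, 0] m i j)
      (fun m n => u2S (P (A ^ 2)) (deriv P (A ^ 2)) (deriv (deriv P) (A ^ 2)) (Q (A ^ 2))
        (deriv Q (A ^ 2)) (deriv (deriv Q) (A ^ 2)) ![A, 0, 0, 0] ![0, A, 0, 0] m n i j) := by
    intro i j
    have h := hasJet_u2 (P := P) (Q := Q) (y := axp A) (by rwa [nsq_axp]) (by rwa [nsq_axp]) i j
    rw [nsq_axp, axp_coe, ju_axp] at h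
    exact h
  have hr := ric_of_jets hj (u2I_mul hA hU hW hP0 hQ0)
    (fun k i j => u2T_eq hA hU hW hP0 hQ0 hP1 hQ1 k i j)
  have hr' : ∀ i j, ric (u2Met P Q) i j (axp A) = u2R U W Rtt R11 R33 i j := by
    intro i j
    rw [hr i j]
    exact u2R_eq hA hU hW hP0 hQ0 hP1 hQ1 hP2 hQ2 hRtt hR11 hR33 i j
  unfold ricq
  simp only [hr']
  simp [Fin.sum_univ_four, u2R]
  ring

/-- The Ricci tensor of a `U(2)`-invariant metric. `U`, `W` are functions of `s = |u|²`. -/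
theorem ricq_u2q {P Q U W U1 W1 : ℝ → ℝ} {S : Set ℝ} (hS : IsOpen S)
    (hP : ∀ s ∈ S, ContDiffAt ℝ ∞ P s) (hQ : ∀ s ∈ S, ContDiffAt ℝ ∞ Q s)
    (hP0 : ∀ s ∈ S, 0 < 1 + s * P s) (hQ0 : ∀ s ∈ S, 0 < 1 + s * Q s)
    {u : E4} {s U2 W2 : ℝ} (hs : nsq u = s) (hsS : s ∈ S) (hs0 : 0 < s)
    (hPU : ∀ᶠ t in 𝓝 s, P t = (1 / U t - 1) / t) (hQW : ∀ᶠ t in 𝓝 s, Q t = (W t - 1) / t)
    (hU1 : ∀ᶠ t in 𝓝 s, HasDerivAt U (U1 t) t) (hU2 : HasDerivAt U1 U2 s)
    (hW1 : ∀ᶠ t in 𝓝 s, HasDerivAt W (W1 t) t) (hW2 : HasDerivAt W1 W2 s)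
    (hU0 : U s ≠ 0) (hW0 : W s ≠ 0) {Rtt R11 R33 : ℝ}
    (hRtt : Rtt = -3 * U1 s - s * U1 s * W1 s / W s -
      U s * (3 * W1 s / W s + 2 * s * W2 / W s - s * W1 s ^ 2 / W s ^ 2))
    (hR11 : R11 = -U1 s - 2 * U s / s - U s * W1 s / W s + (4 - 2 * W s) / s)
    (hR33 : R33 = -U1 s * (1 + s * W1 s / W s) -
      U s * (3 * W1 s / W s + 2 * s * W2 / W s - s * W1 s ^ 2 / W s ^ 2) -
      2 * U s / s - 2 * U s * W1 s / W s + 2 * W s / s) (v : E4) :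
    ricq (u2Met P Q) u v = Rtt * (dotu u v ^ 2 / (s * U s)) + R33 * (W s * dotj u v ^ 2 / s) +
      R11 * (nsq v - dotu u v ^ 2 / s - dotj u v ^ 2 / s) := by
  have hu : u ≠ 0 := by
    rintro rfl
    simp [nsq] at hs
    linarith
  set A := Real.sqrt s with hA
  have hApos : 0 < A := Real.sqrt_pos.mpr hs0
  have hA2 : A ^ 2 = s := Real.sq_sqrt hs0.le
  have hA4 : A ^ 4 = s ^ 2 := by rw [← hA2]; ring
  have hA6 : A ^ 6 = s ^ 3 := by rw [← hA2]; ring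
  have hgood := goodMet_u2q hP hQ hP0 hQ0
  have hopen : IsOpen {u : E4 | nsq u ∈ S} := hS.preimage contDiff_nsq.continuous
  have hself : rotU u u = axp A := by rw [rotU_self hu, hs]
  have hle : (2 : WithTop ℕ∞) ≤ ∞ := WithTop.coe_le_coe.mpr le_top
  have hUne : ∀ᶠ t in 𝓝 s, U t ≠ 0 := hU1.self_of_nhds.continuousAt.eventually_ne hU0
  have hpos : ∀ᶠ t : ℝ in 𝓝 s, t ≠ 0 := eventually_ne_nhds hs0.ne'
  -- jets of P
  have dP1 : ∀ᶠ t in 𝓝 s, HasDerivAt P (-U1 t / (U t ^ 2 * t) - (1 / U t - 1) / t ^ 2) t := by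
    filter_upwards [hPU.eventually_nhds, hU1, hUne, hpos] with t e h1 h2 h3
    have h := ((((hasDerivAt_const t (1 : ℝ)).div h1 h2).sub_const 1).div (hasDerivAt_id t) h3)
    refine (h.congr_of_eventuallyEq ?_).congr_deriv ?_
    · filter_upwards [e] with x hx
      rw [hx]
      rfl
    · simp
      field_simp
  have dP2 : HasDerivAt (fun t => -U1 t / (U t ^ 2 * t) - (1 / U t - 1) / t ^ 2)
      ((2 * U1 s ^ 2 / U s ^ 3 - U2 / U s ^ 2) / s + 2 * U1 s / (U s ^ 2 * s ^ 2) +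
        2 * (1 / U s - 1) / s ^ 3) s := by
    have h1 := hU1.self_of_nhds
    have h := (hU2.neg.div ((h1.pow 2).mul (hasDerivAt_id s))
      (mul_ne_zero (pow_ne_zero 2 hU0) hs0.ne')).sub
      ((((hasDerivAt_const s (1 : ℝ)).div h1 hU0).sub_const 1).div ((hasDerivAt_id s).pow 2)
        (pow_ne_zero 2 hs0.ne'))
    refine h.congr_deriv ?_
    simp
    field_simp
    ring
  obtain ⟨p1, p2⟩ := deriv2_of dP1 dP2
  -- jets of Q
  have dQ1 : ∀ᶠ t in 𝓝 s, HasDerivAt Q (W1 t / t - (W t - 1) / t ^ 2) t := by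
    filter_upwards [hQW.eventually_nhds, hW1, hpos] with t e h1 h3
    have h := ((h1.sub_const 1).div (hasDerivAt_id t) h3)
    refine (h.congr_of_eventuallyEq ?_).congr_deriv ?_
    · filter_upwards [e] with x hx
      rw [hx]
      rfl
    · simp
      field_simp
  have dQ2 : HasDerivAt (fun t => W1 t / t - (W t - 1) / t ^ 2)
      (W2 / s - 2 * W1 s / s ^ 2 + 2 * (W s - 1) / s ^ 3) s := by
    have h1 := hW1.self_of_nhds
    have h := (hW2.div (hasDerivAt_id s) hs0.ne').sub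
      ((h1.sub_const 1).div ((hasDerivAt_id s).pow 2) (pow_ne_zero 2 hs0.ne'))
    refine h.congr_deriv ?_
    simp
    field_simp
    ring
  obtain ⟨q1, q2⟩ := deriv2_of dQ1 dQ2
  have haxis := ricq_axis (P := P) (Q := Q) (A := A) (U := U s) (W := W s) (Us := U1 s)
    (Uss := U2) (Ws := W1 s) (Wss := W2) (Rtt := Rtt) (R11 := R11) (R33 := R33) hApos.ne' hU0 hW0
    (by rw [hA2]; exact (hP s hsS).of_le hle) (by rw [hA2]; exact (hQ s hsS).of_le hle)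
    (by rw [hA2]; exact hPU.self_of_nhds) (by rw [hA2]; exact hQW.self_of_nhds)
    (by rw [hA2, hA4, p1]) (by rw [hA2, hA4, q1])
    (by rw [hA2, hA4, hA6, p2]) (by rw [hA2, hA4, hA6, q2])
    (by rw [hA2, hRtt]) (by rw [hA2, hR11]) (by rw [hA2, hR33]) (rotU u v)
  have hf : fderiv ℝ (rotU u) u v = rotU u v := by
    have hc : ((rotU u : E4 → E4)) = ((LinearMap.toContinuousLinearMap (rotU u) : E4 →L[ℝ] E4) :
        E4 → E4) := rfl
    rw [hc, ContinuousLinearMap.fderiv]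
  have hiso := ricq_iso (g := u2Met P Q) (g' := u2Met P Q) hopen hgood hopen hgood (θ := rotU u)
    (x := u) (by simpa [hs] using hsS)
    (by rw [Set.mem_ofPred_eq, hself, nsq_axp, hA2]; exact hsS) (isoAt_rotU P Q hu u) v
  rw [hiso, hf, hself, haxis]
  have e0 : (rotU u v) 0 ^ 2 = dotu u v ^ 2 / s := by
    rw [rotU_apply, ← hA2]
    simp [hs, ← hA]
    field_simp
  have e1 : (rotU u v) 1 ^ 2 = dotj u v ^ 2 / s := by
    rw [rotU_apply, ← hA2]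
    simp [hs, ← hA]
    field_simp
  have e2 : nsq (rotU u v) = nsq v := by rw [nsq_eq_dotu, rotU_inner hu, ← nsq_eq_dotu]
  have e3 : (rotU u v) 2 ^ 2 + (rotU u v) 3 ^ 2 = nsq v - dotu u v ^ 2 / s - dotj u v ^ 2 / s := by
    rw [← e0, ← e1, ← e2]
    unfold nsq
    ring
  rw [e0, e1, e3]
  field_simp

theorem ricGE_u2q {P Q U W U1 W1 : ℝ → ℝ} {S : Set ℝ} (hS : IsOpen S)
    (hP : ∀ s ∈ S, ContDiffAt ℝ ∞ P s) (hQ : ∀ s ∈ S, ContDiffAt ℝ ∞ Q s)
    (hP0 : ∀ s ∈ S, 0 < 1 + s * P s) (hQ0 : ∀ s ∈ S, 0 < 1 + s * Q s)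
    {u : E4} {s U2 W2 κ : ℝ} (hs : nsq u = s) (hsS : s ∈ S) (hs0 : 0 < s)
    (hPU : ∀ᶠ t in 𝓝 s, P t = (1 / U t - 1) / t) (hQW : ∀ᶠ t in 𝓝 s, Q t = (W t - 1) / t)
    (hU1 : ∀ᶠ t in 𝓝 s, HasDerivAt U (U1 t) t) (hU2 : HasDerivAt U1 U2 s)
    (hW1 : ∀ᶠ t in 𝓝 s, HasDerivAt W (W1 t) t) (hW2 : HasDerivAt W1 W2 s)
    (hU0 : 0 < U s) (hW0 : 0 < W s)
    (hRtt : κ ≤ -3 * U1 s - s * U1 s * W1 s / W s -
      U s * (3 * W1 s / W s + 2 * s * W2 / W s - s * W1 s ^ 2 / W s ^ 2))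
    (hR11 : κ ≤ -U1 s - 2 * U s / s - U s * W1 s / W s + (4 - 2 * W s) / s)
    (hR33 : κ ≤ -U1 s * (1 + s * W1 s / W s) -
      U s * (3 * W1 s / W s + 2 * s * W2 / W s - s * W1 s ^ 2 / W s ^ 2) -
      2 * U s / s - 2 * U s * W1 s / W s + 2 * W s / s) : RicGE (u2Met P Q) κ u := by
  intro v
  rw [ricq_u2q hS hP hQ hP0 hQ0 hs hsS hs0 hPU hQW hU1 hU2 hW1 hW2 hU0.ne' hW0.ne' rfl rfl rfl v,
    qf_u2Met, hs, hPU.self_of_nhds, hQW.self_of_nhds]
  have hd : 0 ≤ nsq v - dotu u v ^ 2 / s - dotj u v ^ 2 / s := by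
    have h := dot_le u v
    rw [hs] at h
    have h' : (dotu u v ^ 2 + dotj u v ^ 2) / s ≤ nsq v := by
      rw [div_le_iff₀ hs0]
      linarith
    rw [add_div] at h'
    linarith
  have t1 := mul_le_mul_of_nonneg_right hRtt
    (show (0 : ℝ) ≤ dotu u v ^ 2 / (s * U s) by positivity)
  have t2 := mul_le_mul_of_nonneg_right hR33
    (show (0 : ℝ) ≤ W s * dotj u v ^ 2 / s by positivity)
  have t3 := mul_le_mul_of_nonneg_right hR11 hd
  refine le_trans (le_of_eq ?_) (add_le_add (add_le_add t1 t2) t3)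
  field_simp
  ring

/-- `Ric ≥ -κ` for a `U(2)`-metric in the coordinates `z`. -/
theorem ricGE_u2Z {U W : ℝ → ℝ} {T : Set ℝ} (hT : IsOpen T) (hT0 : ∀ A ∈ T, 0 < A)
    (hU : ∀ A ∈ T, ContDiffAt ℝ ∞ U A) (hW : ∀ A ∈ T, ContDiffAt ℝ ∞ W A)
    (hU0 : ∀ A ∈ T, 0 < U A) (hW0 : ∀ A ∈ T, 0 < W A) {κ : ℝ} {u : E4} (hu : ‖u‖ ∈ T)
    (h : U2OK U W κ ‖u‖) : RicGE (u2Z U W) (-κ) u := by
  have hA : 0 < ‖u‖ := hT0 _ hu
  set A := ‖u‖ with hAdef
  have hsA : √(A ^ 2) = A := Real.sqrt_sq hA.le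
  have hs : nsq u = A ^ 2 := nsq_eq_norm u
  have hsq : ∀ s : ℝ, 0 < s → ContDiffAt ℝ ∞ (fun s => √s) s := fun s hs =>
    Real.contDiffAt_sqrt hs.ne'
  obtain ⟨hU1, hU2⟩ := u2z_jet hA hT hu hU
  obtain ⟨hW1, hW2⟩ := u2z_jet hA hT hu hW
  have hS : IsOpen {s : ℝ | 0 < s ∧ √s ∈ T} :=
    isOpen_Ioi.inter (hT.preimage Real.continuous_sqrt)
  have hWA := hW0 A hu
  have hUA := hU0 A hu
  -- derivative of `u2om`
  have hom : deriv (u2om W) A = deriv (deriv W) A / (2 * W A) -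
      deriv W A ^ 2 / (2 * W A ^ 2) := by
    have h2 : ContDiffAt ℝ 1 (deriv W) A :=
      (hW _ hu).derivWithin (WithTop.coe_le_coe.mpr le_top)
    have h3 := (h2.differentiableAt (by simp)).hasDerivAt.div
      (((hW _ hu).differentiableAt (by simp)).hasDerivAt.const_mul 2) (by positivity)
    rw [show u2om W = fun A => deriv W A / (2 * W A) from rfl]
    have h4 := h3.deriv
    rw [show (fun A => deriv W A / (2 * W A)) = (deriv W / fun y => 2 * W y) from rfl, h4]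
    field_simp
  obtain ⟨r0, r1, r3⟩ := h
  unfold u2Z
  refine ricGE_u2q (U := fun s => U (√s)) (W := fun s => W (√s)) hS ?_ ?_ ?_ ?_ (s := A ^ 2)
    hs ⟨by positivity, by rwa [hsA]⟩ (by positivity) (Filter.Eventually.of_forall fun _ => rfl)
    (Filter.Eventually.of_forall fun _ => rfl) hU1 hU2 hW1 hW2 (by simpa only [hsA] using hUA)
    (by simpa only [hsA] using hWA) ?_ ?_ ?_
  · rintro s ⟨hs, hsT⟩
    have h1 : ContDiffAt ℝ ∞ (fun s => U (√s)) s := (hU _ hsT).comp s (hsq s hs)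
    exact ((contDiffAt_const.div h1 (hU0 _ hsT).ne').sub contDiffAt_const).div contDiffAt_id hs.ne'
  · rintro s ⟨hs, hsT⟩
    have h1 : ContDiffAt ℝ ∞ (fun s => W (√s)) s := (hW _ hsT).comp s (hsq s hs)
    exact (h1.sub contDiffAt_const).div contDiffAt_id hs.ne'
  · rintro s ⟨hs, hsT⟩
    have h2 := hU0 _ hsT
    have : 1 + s * ((1 / U (√s) - 1) / s) = 1 / U (√s) := by
      field_simp
      ring
    rw [this]
    positivity
  · rintro s ⟨hs, hsT⟩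
    have h2 := hW0 _ hsT
    have : 1 + s * ((W (√s) - 1) / s) = W (√s) := by
      field_simp
      ring
    rw [this]
    exact h2
  · simp only [hsA]
    unfold u2R0 at r0
    rw [hom] at r0
    unfold u2om at r0
    have e : -3 * (deriv U A / (2 * A)) - A ^ 2 * (deriv U A / (2 * A)) *
        (deriv W A / (2 * A)) / W A - U A * (3 * (deriv W A / (2 * A)) / W A +
        2 * A ^ 2 * (deriv (deriv W) A / (4 * A ^ 2) - deriv W A / (4 * A ^ 3)) / W A -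
        A ^ 2 * (deriv W A / (2 * A)) ^ 2 / W A ^ 2) =
      -deriv U A / A - deriv U A * (1 / A + deriv W A / (2 * W A)) / 2 -
        U A * (deriv (deriv W) A / (2 * W A) - deriv W A ^ 2 / (2 * W A ^ 2) +
          2 * (deriv W A / (2 * W A)) / A + (deriv W A / (2 * W A)) ^ 2) := by
      field_simp
      ring
    rw [e]
    linarith
  · simp only [hsA]
    unfold u2R1 u2om at r1
    have e : -(deriv U A / (2 * A)) - 2 * U A / A ^ 2 - U A * (deriv W A / (2 * A)) / W A +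
        (4 - 2 * W A) / A ^ 2 =
      -deriv U A / (2 * A) - 2 * U A / A ^ 2 - U A * (deriv W A / (2 * W A)) / A +
        (4 - 2 * W A) / A ^ 2 := by
      field_simp
    rw [e]
    linarith
  · simp only [hsA]
    unfold u2R3 at r3
    rw [hom] at r3
    unfold u2om at r3
    have e : -(deriv U A / (2 * A)) * (1 + A ^ 2 * (deriv W A / (2 * A)) / W A) -
        U A * (3 * (deriv W A / (2 * A)) / W A +
        2 * A ^ 2 * (deriv (deriv W) A / (4 * A ^ 2) - deriv W A / (4 * A ^ 3)) / W A -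
        A ^ 2 * (deriv W A / (2 * A)) ^ 2 / W A ^ 2) - 2 * U A / A ^ 2 -
        2 * U A * (deriv W A / (2 * A)) / W A + 2 * W A / A ^ 2 =
      -deriv U A * (1 / A + deriv W A / (2 * W A)) / 2 -
        U A * (deriv (deriv W) A / (2 * W A) - deriv W A ^ 2 / (2 * W A ^ 2) +
          2 * (deriv W A / (2 * W A)) / A + (deriv W A / (2 * W A)) ^ 2) -
        2 * U A / A * (1 / A + deriv W A / (2 * W A)) + 2 * W A / A ^ 2 := by
      field_simp
      ring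
    rw [e]
    linarith

end Pool.Agent.W_MP_654ec6
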