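import Pool.Agent.W_MP_654ec6.E.Bolt
import Pool.Agent.W_MP_654ec6.E.U2ZRic

/-!
# The Ricci curvature of the Eguchi-Hanson metrics
-/

open scoped ContDiff Topology ComplexConjugate
open Filter Set Real

namespace Pool.Agent.W_MP_654ec6

theorem ricGE_eh {a : ℝ} (ha : 0 < a) {u : E4} (hu : a < ‖u‖) :
    RicGE (u2Z (ehUa a) (ehUa a)) 0 u := by
  obtain ⟨s, hs⟩ : ∃ s, s = nsq u := ⟨_, rfl⟩
  have hn : ‖u‖ ^ 2 = nsq u := (nsq_eq_norm u).symm
  have hsa : a ^ 2 < s := by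
    rw [hs, ← hn]
    exact pow_lt_pow_left₀ hu ha.le (by norm_num)
  have hs0 : 0 < s := lt_trans (by positivity) hsa
  have hsq : ∀ s : ℝ, 0 < s → ContDiffAt ℝ ∞ (fun s => √s) s := fun s hs =>
    Real.contDiffAt_sqrt hs.ne'
  have hroot : ∀ t ∈ Ioi (a ^ 2), 0 < t ∧ a < √t := by
    intro t ht
    have h0 : 0 < t := lt_trans (by positivity) ht
    exact ⟨h0, by rw [Real.lt_sqrt ha.le]; exact ht⟩
  have hU : ∀ t ∈ Ioi (a ^ 2), ContDiffAt ℝ ∞ (fun s => ehUa a (√s)) t := by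
    intro t ht
    obtain ⟨h0, h1⟩ := hroot t ht
    exact (contDiffAt_ehUa (ha.trans h1)).comp t (hsq t h0)
  have hval : ∀ t, 0 < t → ehUa a (√t) = 1 - a ^ 4 / t ^ 2 := by
    intro t ht
    unfold ehUa
    have : √t ^ 4 = t ^ 2 := by
      rw [show √t ^ 4 = (√t ^ 2) ^ 2 by ring, Real.sq_sqrt ht.le]
    rw [this]
  have hev : ∀ᶠ t : ℝ in 𝓝 s, 0 < t := eventually_gt_nhds hs0
  have hUs : 0 < 1 - a ^ 4 / s ^ 2 := by
    rw [← hval s hs0]
    exact ehUa_pos ha (hroot s hsa).2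
  have hUs' : (1 : ℝ) - a ^ 4 / s ^ 2 ≠ 0 := hUs.ne'
  have hd1 : ∀ t : ℝ, 0 < t → HasDerivAt (fun t => 1 - a ^ 4 / t ^ 2) (2 * a ^ 4 / t ^ 3) t := by
    intro t ht
    have := ((hasDerivAt_const t (a ^ 4)).div ((hasDerivAt_id t).pow 2)
      (pow_ne_zero 2 ht.ne')).const_sub 1
    refine this.congr_deriv ?_
    simp
    field_simp
  have hd2 : HasDerivAt (fun t => 2 * a ^ 4 / t ^ 3) (-6 * a ^ 4 / s ^ 4) s := by
    have := ((hasDerivAt_const s (2 * a ^ 4)).div ((hasDerivAt_id s).pow 3)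
      (pow_ne_zero 3 hs0.ne'))
    refine this.congr_deriv ?_
    simp
    field_simp
    ring
  unfold u2Z
  refine ricGE_u2q (S := Ioi (a ^ 2)) (U := fun t => 1 - a ^ 4 / t ^ 2)
    (W := fun t => 1 - a ^ 4 / t ^ 2) (U1 := fun t => 2 * a ^ 4 / t ^ 3)
    (W1 := fun t => 2 * a ^ 4 / t ^ 3) (U2 := -6 * a ^ 4 / s ^ 4)
    (W2 := -6 * a ^ 4 / s ^ 4) isOpen_Ioi ?_ ?_ ?_ ?_ hs.symm hsa hs0 ?_ ?_ ?_ hd2 ?_ hd2 hUs hUs
    ?_ ?_ ?_
  · intro t ht
    obtain ⟨h0, h1⟩ := hroot t ht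
    exact ((contDiffAt_const.div (hU t ht) (ehUa_pos ha h1).ne').sub contDiffAt_const).div
      contDiffAt_id h0.ne'
  · intro t ht
    obtain ⟨h0, h1⟩ := hroot t ht
    exact ((hU t ht).sub contDiffAt_const).div contDiffAt_id h0.ne'
  · intro t ht
    obtain ⟨h0, h1⟩ := hroot t ht
    have h2 := ehUa_pos ha h1
    have : 1 + t * ((1 / ehUa a √t - 1) / t) = 1 / ehUa a √t := by
      field_simp
      ring
    rw [this]
    positivity
  · intro t ht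
    obtain ⟨h0, h1⟩ := hroot t ht
    have h2 := ehUa_pos ha h1
    have : 1 + t * ((ehUa a √t - 1) / t) = ehUa a √t := by
      field_simp
      ring
    rw [this]
    exact h2
  · filter_upwards [hev] with t ht
    rw [hval t ht]
  · filter_upwards [hev] with t ht
    rw [hval t ht]
  · filter_upwards [hev] with t ht
    exact hd1 t ht
  · filter_upwards [hev] with t ht
    exact hd1 t ht
  · refine le_of_eq ?_
    obtain ⟨X, hX⟩ : ∃ X, X = 1 - a ^ 4 / s ^ 2 := ⟨_, rfl⟩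
    rw [← hX] at hUs'
    simp only [← hX]
    field_simp
    ring
  · refine le_of_eq ?_
    obtain ⟨X, hX⟩ : ∃ X, X = 1 - a ^ 4 / s ^ 2 := ⟨_, rfl⟩
    have hX2 : a ^ 4 = (1 - X) * s ^ 2 := by
      rw [hX]
      field_simp
      ring
    rw [← hX] at hUs'
    simp only [← hX]
    rw [hX2]
    field_simp
    ring
  · refine le_of_eq ?_
    obtain ⟨X, hX⟩ : ∃ X, X = 1 - a ^ 4 / s ^ 2 := ⟨_, rfl⟩
    rw [← hX] at hUs'
    simp only [← hX]
    field_simp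
    ring

theorem ricGE_gB {a : ℝ} (ha : 0 < a) (u : E4) : RicGE (gB a) 0 u := by
  have hV : IsOpen {u : E4 | ‖u‖ ∈ Ioi a ∧ cB u ≠ 0} :=
    (isOpen_Ioi.preimage continuous_norm).inter (isOpen_ne.preimage cB.continuous)
  have hg0 := goodMet_eh ha
  have hg : GoodMet (u2Z (ehUa a) (ehUa a)) {u : E4 | ‖u‖ ∈ Ioi a ∧ cB u ≠ 0} :=
    ⟨fun i j => (hg0.smooth i j).mono fun x hx => hx.1,
      fun x hx => hg0.symm x hx.1, fun x hx => hg0.pos x hx.1⟩
  refine ricGE_of_param hV hg isOpen_univ (goodMet_gB ha) (Q := thB a) ?_ ?_ ?_ ?_ u (mem_univ _)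
  · exact fun x _ => mem_univ _
  · exact fun x hx => isoAt_thB ha isOpen_Ioi (fun _ h => h) (fun _ _ => rfl) (fun _ _ => rfl)
      hx.1 hx.2
  · intro v hv
    refine closure_mono ?_ (mem_closure_offAxes isOpen_univ hv)
    rintro w ⟨hw1, hw2, hw3⟩
    have h1 : cB w ≠ 0 := by
      intro h
      apply hw3
      rw [← cB_re, h]
      rfl
    obtain ⟨x, hx1, hx2, hx3⟩ := exists_thB ha h1
    exact ⟨x, ⟨hx1, hx2⟩, hx3⟩
  · intro x hx
    exact ricGE_eh ha hx.1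

end Pool.Agent.W_MP_654ec6
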