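import Mathlib

/-!
# Task E5: the first part of the core functions

`S = Real.smoothTransition`, `t0 = 1/10⁶`, `ε = 10 t0`, `θ₁(t) = S((t - t0)/t0)`, `θ₂(t) = S(5 (t - 1))`,
`g'' = -cos t (1 - θ₁) + ε θ₁ (1 - θ₂)`, `g(0) = 1`, `g'(0) = 0`;
`f'' = -sin t (1 - θ₂)`, `f(0) = 0`, `f'(0) = 1`.
So `g = cos` on `(-∞, t0]`, `f = sin` on `(-∞, 1]`. On `[t0, 2 t0]`: `-1 ≤ g'' ≤ ε`, so
`g'(2 t0) ≥ -t0 - t0`; afterwards `g'' = ε (1 - θ₂) ≥ 0`, so `g' ≥ -2 t0` everywhere (`t > 0`),
`g'(t) ≤ ε t` always, `g'(1) ≥ -2 t0 + ε (1 - 2 t0) > 0`, `0 < g' ≤ 6 ε/5 < 1/50000` on `[1, ∞)`, and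
`g' = γ` is constant on `[6/5, ∞)`. `f' ≥ cos 1 - 1/5 · 1 ≥ 1/3` and `f' ≤ cos 1 ≤ 0.55` on `[1, ∞)`,
`sin 1 ≤ f ≤ sin 1 + 0.11` on `[1, 6/5]`; `f'' ≤ -(1/2)(1 - θ₂)` there, so `k = 1 - θ₂`.
(`sin 1 ∈ (0.84, 0.8415)`, `cos 1 ∈ (0.54, 0.5404)`: `Real.sin_bound`, `Real.cos_bound` or
`Real.cos_one_le`, `Real.sin_sq_add_cos_sq`.)
-/

open scoped ContDiff Topology
open Filter Real

namespace Pool.Agent.W_MP_654ec6

/-- The first part of the core functions. -/
structure CoreA (t0 γ σ : ℝ) (g f : ℝ → ℝ) : Prop where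
  t0_pos : 0 < t0
  t0_lt : t0 < 1 / 100
  gam_pos : 0 < γ
  gam_lt : γ < 1 / 50000
  sig_lo : 1 / 3 ≤ σ
  sig_hi : σ ≤ 3 / 5
  smooth_g : ContDiff ℝ ∞ g
  smooth_f : ContDiff ℝ ∞ f
  g_start : ∀ t ≤ t0, g t = Real.cos t
  f_start : ∀ t ≤ 1, f t = Real.sin t
  g_mem : ∀ t ∈ Set.Ioc (0 : ℝ) (6 / 5), g t ∈ Set.Icc (99 / 100 : ℝ) (1001 / 1000)
  reg_a : ∀ t ∈ Set.Ioc (0 : ℝ) 1, |deriv g t| ≤ 1 / 100 ∧
    deriv f t * deriv g t ≤ f t / 50 ∧ deriv (deriv g) t ≤ 1 / 100
  reg_b : ∀ t ∈ Set.Icc (1 : ℝ) (6 / 5), 0 ≤ deriv g t ∧ deriv g t ≤ 1 / 1000 ∧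
    f t ∈ Set.Icc (4 / 5 : ℝ) (6 / 5) ∧ 0 ≤ deriv f t ∧ deriv f t ≤ 1 ∧
    ∃ k ∈ Set.Icc (0 : ℝ) 1, deriv (deriv g) t ≤ k / 100 ∧ deriv (deriv f) t ≤ -(k / 2)
  end_g : ∀ t ≥ 6 / 5, deriv g t = γ
  end_f : ∀ t ≥ 6 / 5, deriv f t = σ

theorem coreA_smooth {f g : ℝ → ℝ} (hf : ∀ x, HasDerivAt f (g x) x) (hg : ContDiff ℝ ∞ g) :
    ContDiff ℝ ∞ f := by
  rw [contDiff_infty_iff_deriv]
  refine ⟨fun x => (hf x).differentiableAt, ?_⟩
  have h : deriv f = g := funext fun x => (hf x).deriv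
  rw [h]
  exact hg

/-- upper bound from the derivative -/
theorem coreA_le {f f' : ℝ → ℝ} {a b c : ℝ} (hab : a ≤ b)
    (hf : ∀ x ∈ Set.Icc a b, HasDerivAt f (f' x) x) (h : ∀ x ∈ Set.Icc a b, f' x ≤ c) :
    f b ≤ f a + c * (b - a) := by
  rcases eq_or_lt_of_le hab with rfl | hlt
  · simp
  · obtain ⟨x, hx, hs⟩ := exists_hasDerivAt_eq_slope f f' hlt
      (fun x hx => (hf x hx).continuousAt.continuousWithinAt)
      (fun x hx => hf x ⟨hx.1.le, hx.2.le⟩)
    have h1 := h x ⟨hx.1.le, hx.2.le⟩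
    rw [hs, div_le_iff₀ (by linarith)] at h1
    linarith

/-- lower bound from the derivative -/
theorem coreA_ge {f f' : ℝ → ℝ} {a b c : ℝ} (hab : a ≤ b)
    (hf : ∀ x ∈ Set.Icc a b, HasDerivAt f (f' x) x) (h : ∀ x ∈ Set.Icc a b, c ≤ f' x) :
    f a + c * (b - a) ≤ f b := by
  have := coreA_le (f := fun x => -f x) (f' := fun x => -f' x) (c := -c) hab
    (fun x hx => (hf x hx).neg) (fun x hx => by linarith [h x hx])
  linarith

theorem coreA_prim {f : ℝ → ℝ} (hf : Continuous f) (c x : ℝ) :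
    HasDerivAt (fun t => c + ∫ s in (0 : ℝ)..t, f s) (f x) x :=
  ((hf.integral_hasStrictDerivAt 0 x).hasDerivAt).const_add c

theorem coreA_cos_one : 107 / 200 ≤ Real.cos 1 := by
  have h4 : |Real.cos (1 / 4) - (1 - (1 / 4) ^ 2 / 2)| ≤ |(1 / 4 : ℝ)| ^ 4 * (5 / 96) :=
    Real.cos_bound (by rw [abs_of_pos] <;> norm_num)
  rw [abs_of_pos (show (0 : ℝ) < 1 / 4 by norm_num)] at h4
  have h4' := (abs_le.mp h4).1
  have c4 : 96854 / 100000 ≤ Real.cos (1 / 4) := by norm_num at h4' ⊢; linarith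
  have e2 : Real.cos (1 / 2) = 2 * Real.cos (1 / 4) ^ 2 - 1 := by
    rw [← Real.cos_two_mul]
    norm_num
  have c2 : 8761 / 10000 ≤ Real.cos (1 / 2) := by
    rw [e2, sq]
    have h := mul_self_le_mul_self (by norm_num) c4
    norm_num at h
    linarith
  have e1 : Real.cos 1 = 2 * Real.cos (1 / 2) ^ 2 - 1 := by
    rw [← Real.cos_two_mul]
    norm_num
  rw [e1, sq]
  have h := mul_self_le_mul_self (by norm_num) c2
  norm_num at h
  linarith

theorem coreA_sin_one : 4 / 5 ≤ Real.sin 1 := by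
  have h1 := Real.cos_one_le
  have h2 := Real.sin_sq_add_cos_sq 1
  have h3 : 0 < Real.sin 1 := Real.sin_pos_of_pos_of_lt_pi one_pos (by linarith [Real.pi_gt_three])
  have h4 := Real.cos_one_pos
  by_contra h
  push Not at h
  have h5 := mul_self_lt_mul_self h3.le h
  have h6 := mul_self_le_mul_self h4.le h1
  rw [sq, sq] at h2
  norm_num at h5 h6
  linarith

theorem exists_coreA : ∃ (t0 γ σ : ℝ) (g f : ℝ → ℝ), CoreA t0 γ σ g f := by
  obtain ⟨t0, ht0⟩ : ∃ t0 : ℝ, t0 = 1 / 1000000 := ⟨_, rfl⟩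
  obtain ⟨ε, hε⟩ : ∃ ε : ℝ, ε = 1 / 100000 := ⟨_, rfl⟩
  have hS : ContDiff ℝ ∞ Real.smoothTransition := Real.smoothTransition.contDiff (n := ⊤)
  obtain ⟨a, ha⟩ : ∃ a : ℝ → ℝ, a = fun t => Real.smoothTransition ((t - t0) / t0) := ⟨_, rfl⟩
  obtain ⟨b, hb⟩ : ∃ b : ℝ → ℝ, b = fun t => Real.smoothTransition (5 * (t - 1)) := ⟨_, rfl⟩
  have ha_s : ContDiff ℝ ∞ a := by
    rw [ha]
    exact hS.comp ((contDiff_id.sub contDiff_const).div_const _)
  have hb_s : ContDiff ℝ ∞ b := by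
    rw [hb]
    exact hS.comp (contDiff_const.mul (contDiff_id.sub contDiff_const))
  have ha0 : ∀ t, 0 ≤ a t := fun t => by rw [ha]; exact Real.smoothTransition.nonneg _
  have ha1 : ∀ t, a t ≤ 1 := fun t => by rw [ha]; exact Real.smoothTransition.le_one _
  have hb0 : ∀ t, 0 ≤ b t := fun t => by rw [hb]; exact Real.smoothTransition.nonneg _
  have hb1 : ∀ t, b t ≤ 1 := fun t => by rw [hb]; exact Real.smoothTransition.le_one _
  have haz : ∀ t ≤ t0, a t = 0 := fun t ht => by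
    rw [ha]
    refine Real.smoothTransition.zero_of_nonpos ?_
    rw [ht0] at ht ⊢
    norm_num
    linarith
  have hao : ∀ t ≥ 2 * t0, a t = 1 := fun t ht => by
    rw [ha]
    refine Real.smoothTransition.one_of_one_le ?_
    rw [ht0] at ht ⊢
    norm_num
    linarith
  have hbz : ∀ t ≤ 1, b t = 0 := fun t ht => by
    rw [hb]
    exact Real.smoothTransition.zero_of_nonpos (by linarith)
  have hbo : ∀ t ≥ 6 / 5, b t = 1 := fun t ht => by
    rw [hb]
    exact Real.smoothTransition.one_of_one_le (by linarith)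
  obtain ⟨g2, hg2⟩ : ∃ g2 : ℝ → ℝ, g2 = fun t => -Real.cos t * (1 - a t) + ε * a t * (1 - b t) :=
    ⟨_, rfl⟩
  obtain ⟨f2, hf2⟩ : ∃ f2 : ℝ → ℝ, f2 = fun t => -Real.sin t * (1 - b t) := ⟨_, rfl⟩
  have g2s : ContDiff ℝ ∞ g2 := by
    rw [hg2]
    exact (Real.contDiff_cos.neg.mul (contDiff_const.sub ha_s)).add
      ((contDiff_const.mul ha_s).mul (contDiff_const.sub hb_s))
  have f2s : ContDiff ℝ ∞ f2 := by
    rw [hf2]
    exact Real.contDiff_sin.neg.mul (contDiff_const.sub hb_s)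
  obtain ⟨g1, hg1⟩ : ∃ g1 : ℝ → ℝ, g1 = fun t => 0 + ∫ s in (0 : ℝ)..t, g2 s := ⟨_, rfl⟩
  obtain ⟨f1, hf1⟩ : ∃ f1 : ℝ → ℝ, f1 = fun t => 1 + ∫ s in (0 : ℝ)..t, f2 s := ⟨_, rfl⟩
  have g1d : ∀ t, HasDerivAt g1 (g2 t) t := fun t => by
    rw [hg1]
    exact coreA_prim g2s.continuous 0 t
  have f1d : ∀ t, HasDerivAt f1 (f2 t) t := fun t => by
    rw [hf1]
    exact coreA_prim f2s.continuous 1 t
  have g1s := coreA_smooth g1d g2s
  have f1s := coreA_smooth f1d f2s
  obtain ⟨g, hg⟩ : ∃ g : ℝ → ℝ, g = fun t => 1 + ∫ s in (0 : ℝ)..t, g1 s := ⟨_, rfl⟩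
  obtain ⟨f, hf⟩ : ∃ f : ℝ → ℝ, f = fun t => 0 + ∫ s in (0 : ℝ)..t, f1 s := ⟨_, rfl⟩
  have gd : ∀ t, HasDerivAt g (g1 t) t := fun t => by
    rw [hg]
    exact coreA_prim g1s.continuous 1 t
  have fd : ∀ t, HasDerivAt f (f1 t) t := fun t => by
    rw [hf]
    exact coreA_prim f1s.continuous 0 t
  have gs := coreA_smooth gd g1s
  have fs := coreA_smooth fd f1s
  have dg : deriv g = g1 := funext fun t => (gd t).deriv
  have df : deriv f = f1 := funext fun t => (fd t).deriv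
  have dg1 : deriv g1 = g2 := funext fun t => (g1d t).deriv
  have df1 : deriv f1 = f2 := funext fun t => (f1d t).deriv
  -- the start
  have f1start : ∀ t ≤ 1, f1 t = Real.cos t := by
    intro t ht
    rw [hf1]
    have : ∫ s in (0 : ℝ)..t, f2 s = ∫ s in (0 : ℝ)..t, -Real.sin s := by
      refine intervalIntegral.integral_congr fun s hs => ?_
      have hs1 : s ≤ 1 := (Set.mem_uIcc.mp hs).elim (fun h => h.2.trans ht)
        (fun h => h.2.trans zero_le_one)
      rw [hf2]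
      simp [hbz s hs1]
    simp only [this]
    rw [intervalIntegral.integral_neg, integral_sin]
    simp
  have fstart : ∀ t ≤ 1, f t = Real.sin t := by
    intro t ht
    rw [hf]
    have : ∫ s in (0 : ℝ)..t, f1 s = ∫ s in (0 : ℝ)..t, Real.cos s := by
      refine intervalIntegral.integral_congr fun s hs => ?_
      have hs1 : s ≤ 1 := (Set.mem_uIcc.mp hs).elim (fun h => h.2.trans ht)
        (fun h => h.2.trans zero_le_one)
      exact f1start s hs1
    simp only [this]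
    rw [integral_cos]
    simp
  have g1start : ∀ t ≤ t0, g1 t = -Real.sin t := by
    intro t ht
    rw [hg1]
    have : ∫ s in (0 : ℝ)..t, g2 s = ∫ s in (0 : ℝ)..t, -Real.cos s := by
      refine intervalIntegral.integral_congr fun s hs => ?_
      have hs1 : s ≤ t0 := (Set.mem_uIcc.mp hs).elim (fun h => h.2.trans ht)
        (fun h => h.2.trans (by rw [ht0]; norm_num))
      rw [hg2]
      simp [haz s hs1]
    simp only [this]
    rw [intervalIntegral.integral_neg, integral_cos]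
    simp
  have gstart : ∀ t ≤ t0, g t = Real.cos t := by
    intro t ht
    rw [hg]
    have : ∫ s in (0 : ℝ)..t, g1 s = ∫ s in (0 : ℝ)..t, -Real.sin s := by
      refine intervalIntegral.integral_congr fun s hs => ?_
      have hs1 : s ≤ t0 := (Set.mem_uIcc.mp hs).elim (fun h => h.2.trans ht)
        (fun h => h.2.trans (by rw [ht0]; norm_num))
      exact g1start s hs1
    simp only [this]
    rw [intervalIntegral.integral_neg, integral_sin]
    simp
  have g10 : g1 0 = 0 := by rw [g1start 0 (by rw [ht0]; norm_num)]; simp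
  have g0 : g 0 = 1 := by rw [gstart 0 (by rw [ht0]; norm_num)]; simp
  -- bounds for g2
  have g2le : ∀ t, 0 ≤ t → g2 t ≤ ε := by
    intro t ht
    have h3 := ha0 t
    have h4 := ha1 t
    have h5 := hb0 t
    have h6 := hb1 t
    have hεp : 0 < ε := by rw [hε]; norm_num
    have h7 : ε * a t * (1 - b t) ≤ ε := by
      have : ε * a t * (1 - b t) ≤ ε * 1 * 1 := by
        refine mul_le_mul (mul_le_mul_of_nonneg_left h4 hεp.le) (by linarith) (by linarith)
          (by positivity)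
      linarith
    rw [hg2]
    rcases le_total t (2 * t0) with h | h
    · have hc : 0 ≤ Real.cos t := by
        refine Real.cos_nonneg_of_neg_pi_div_two_le_of_le ?_ ?_
        · linarith [Real.pi_pos]
        · rw [ht0] at h
          linarith [Real.pi_gt_three]
      have : 0 ≤ Real.cos t * (1 - a t) := mul_nonneg hc (by linarith)
      simp only
      linarith
    · simp only [hao t h]
      have e := hao t h
      rw [e] at h7
      linarith
  have g2ge1 : ∀ t, 0 ≤ t → -1 ≤ g2 t := by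
    intro t ht
    have h3 := ha0 t
    have h4 := ha1 t
    have h5 := hb0 t
    have h6 := hb1 t
    have hεp : 0 < ε := by rw [hε]; norm_num
    have h7 : 0 ≤ ε * a t * (1 - b t) :=
      mul_nonneg (mul_nonneg hεp.le h3) (by linarith)
    have h8 : Real.cos t * (1 - a t) ≤ 1 := by
      have h9 := mul_le_mul_of_nonneg_right (Real.cos_le_one t) (show 0 ≤ 1 - a t by linarith only [h4])
      linarith only [h9, h3]
    rw [hg2]
    simp only
    linarith
  have g2ge2 : ∀ t, 2 * t0 ≤ t → 0 ≤ g2 t := by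
    intro t ht
    have h6 := hb1 t
    rw [hg2]
    simp only [hao t ht]
    have hεp : 0 < ε := by rw [hε]; norm_num
    have : 0 ≤ ε * 1 * (1 - b t) := mul_nonneg (by linarith) (by linarith)
    linarith
  -- bounds for g1
  have g1le : ∀ t, 0 ≤ t → g1 t ≤ ε * t := by
    intro t ht
    have := coreA_le (f := g1) (f' := g2) (c := ε) ht (fun x _ => g1d x)
      (fun x hx => g2le x hx.1)
    rw [g10] at this
    linarith
  have g1ge : ∀ t, 0 ≤ t → -(2 * t0) ≤ g1 t := by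
    intro t ht
    have hA : ∀ t, 0 ≤ t → t ≤ 2 * t0 → -(2 * t0) ≤ g1 t := by
      intro t ht ht2
      have := coreA_ge (f := g1) (f' := g2) (c := -1) ht (fun x _ => g1d x)
        (fun x hx => g2ge1 x hx.1)
      rw [g10] at this
      linarith
    rcases le_total t (2 * t0) with h | h
    · exact hA t ht h
    · have h1 := hA (2 * t0) (by rw [ht0]; norm_num) le_rfl
      have := coreA_ge (f := g1) (f' := g2) (c := 0) h (fun x _ => g1d x)
        (fun x hx => g2ge2 x hx.1)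
      linarith
  have g1one : -(2 * t0) + ε * (1 - 2 * t0) ≤ g1 1 := by
    have h1 := g1ge (2 * t0) (by rw [ht0]; norm_num)
    have := coreA_ge (f := g1) (f' := g2) (a := 2 * t0) (b := 1) (c := ε)
      (by rw [ht0]; norm_num) (fun x _ => g1d x)
      (fun x hx => by
        rw [hg2]
        simp only [hao x hx.1, hbz x hx.2]
        linarith)
    linarith
  have g1pos : ∀ t, 1 ≤ t → 0 < g1 t := by
    intro t ht
    have := coreA_ge (f := g1) (f' := g2) (c := 0) ht (fun x _ => g1d x)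
      (fun x hx => g2ge2 x (by rw [ht0]; linarith [hx.1]))
    have h1 : 0 < -(2 * t0) + ε * (1 - 2 * t0) := by rw [ht0, hε]; norm_num
    linarith
  -- bounds for g
  have gmem : ∀ t ∈ Set.Ioc (0 : ℝ) (6 / 5), g t ∈ Set.Icc (99 / 100 : ℝ) (1001 / 1000) := by
    intro t ht
    have h1 := coreA_le (f := g) (f' := g1) (c := 1 / 5000) ht.1.le (fun x _ => gd x)
      (fun x hx => by
        have := g1le x hx.1
        have h2 := hx.2
        have h3 := ht.2
        rw [hε] at this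
        linarith)
    have h2 := coreA_ge (f := g) (f' := g1) (c := -(1 / 5000)) ht.1.le (fun x _ => gd x)
      (fun x hx => by
        have := g1ge x hx.1
        rw [ht0] at this
        linarith)
    rw [g0] at h1 h2
    have h3 := ht.2
    have h4 := ht.1
    constructor <;> linarith
  -- f
  have f2le : ∀ t ∈ Set.Icc (1 : ℝ) (6 / 5), f2 t ≤ 0 ∧ -1 ≤ f2 t ∧
      f2 t ≤ -((1 - b t) / 2) := by
    intro t ht
    have h5 := hb0 t
    have h6 := hb1 t
    have hs1 : 1 / 2 ≤ Real.sin t := by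
      have h1 := coreA_sin_one
      have h2 : Real.sin 1 ≤ Real.sin t := by
        refine Real.sin_le_sin_of_le_of_le_pi_div_two ?_ ?_ ht.1
        · linarith [Real.pi_pos]
        · linarith [Real.pi_gt_three, ht.2]
      linarith
    have hs2 := Real.sin_le_one t
    rw [hf2]
    simp only
    have h7 : 0 ≤ 1 - b t := by linarith only [h6]
    have p1 : 1 / 2 * (1 - b t) ≤ Real.sin t * (1 - b t) := mul_le_mul_of_nonneg_right hs1 h7
    have p2 : Real.sin t * (1 - b t) ≤ 1 * (1 - b t) := mul_le_mul_of_nonneg_right hs2 h7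
    refine ⟨by linarith only [p1, h7], by linarith only [p2, h5], by linarith only [p1]⟩
  have f1one : f1 1 = Real.cos 1 := f1start 1 le_rfl
  have f1mem : ∀ t ∈ Set.Icc (1 : ℝ) (6 / 5), 1 / 3 ≤ f1 t ∧ f1 t ≤ 3 / 5 := by
    intro t ht
    have h1 := coreA_le (f := f1) (f' := f2) (c := 0) ht.1 (fun x _ => f1d x)
      (fun x hx => (f2le x ⟨hx.1, hx.2.trans ht.2⟩).1)
    have h2 := coreA_ge (f := f1) (f' := f2) (c := -1) ht.1 (fun x _ => f1d x)
      (fun x hx => (f2le x ⟨hx.1, hx.2.trans ht.2⟩).2.1)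
    rw [f1one] at h1 h2
    have h3 := coreA_cos_one
    have h4 := Real.cos_one_le
    have h5 := ht.2
    constructor <;> linarith
  have fmem : ∀ t ∈ Set.Icc (1 : ℝ) (6 / 5), f t ∈ Set.Icc (4 / 5 : ℝ) (6 / 5) := by
    intro t ht
    have h1 := coreA_le (f := f) (f' := f1) (c := 1) ht.1 (fun x _ => fd x)
      (fun x hx => by linarith [(f1mem x ⟨hx.1, hx.2.trans ht.2⟩).2])
    have h2 := coreA_ge (f := f) (f' := f1) (c := 0) ht.1 (fun x _ => fd x)
      (fun x hx => by linarith [(f1mem x ⟨hx.1, hx.2.trans ht.2⟩).1])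
    rw [fstart 1 le_rfl] at h1 h2
    have h3 := coreA_sin_one
    have h4 := Real.sin_le_one 1
    have h5 := ht.2
    constructor <;> linarith
  refine ⟨t0, g1 (6 / 5), f1 (6 / 5), g, f, ?_⟩
  refine ⟨by rw [ht0]; norm_num, by rw [ht0]; norm_num, g1pos _ (by norm_num), ?_,
    (f1mem _ ⟨by norm_num, le_rfl⟩).1, (f1mem _ ⟨by norm_num, le_rfl⟩).2, gs, fs, gstart, fstart,
    gmem, ?_, ?_, ?_, ?_⟩
  · have := g1le (6 / 5) (by norm_num)
    rw [hε] at this
    linarith
  · intro t ht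
    have h1 := g1le t ht.1.le
    have h2 := g1ge t ht.1.le
    rw [dg, df, dg1, f1start t ht.2, fstart t ht.2]
    refine ⟨?_, ?_, ?_⟩
    · rw [abs_le]
      rw [hε] at h1
      rw [ht0] at h2
      constructor <;> linarith [ht.2, ht.1]
    · have hc0 : 0 < Real.cos t := Real.cos_pos_of_mem_Ioo
        ⟨by linarith [Real.pi_pos, ht.1], by linarith [Real.pi_gt_three, ht.2]⟩
      have hc1 := Real.cos_le_one t
      have hs : 3 / 4 * t ≤ Real.sin t := by
        have := Real.sin_gt_sub_cube ht.1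
        have h3 : t ^ 3 ≤ t := pow_le_of_le_one ht.1.le ht.2 (by norm_num)
        linarith [ht.1]
      rw [hε] at h1
      rcases le_total (g1 t) 0 with h | h
      · have : Real.cos t * g1 t ≤ 0 := mul_nonpos_of_nonneg_of_nonpos hc0.le h
        have := ht.1
        linarith
      · have : Real.cos t * g1 t ≤ 1 * g1 t := mul_le_mul_of_nonneg_right hc1 h
        have := ht.1
        linarith
    · have := g2le t ht.1.le
      rw [hε] at this
      linarith
  · intro t ht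
    rw [dg, df, dg1, df1]
    have h1 := g1le t (by linarith [ht.1])
    have h2 := ht.2
    rw [hε] at h1
    obtain ⟨k1, k2, k3⟩ := f2le t ht
    obtain ⟨m1, m2⟩ := f1mem t ht
    refine ⟨(g1pos t ht.1).le, by linarith, fmem t ht, by linarith, by linarith, 1 - b t,
      ⟨by linarith [hb1 t], by linarith [hb0 t]⟩, ?_, k3⟩
    rw [hg2]
    simp only [hao t (by rw [ht0]; linarith [ht.1])]
    rw [hε]
    have := hb1 t
    linarith
  · intro t ht
    rw [dg]
    have h1 := coreA_le (f := g1) (f' := g2) (c := 0) ht (fun x _ => g1d x)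
      (fun x hx => by
        rw [hg2]
        simp only [hao x (by rw [ht0]; linarith [hx.1]), hbo x hx.1]
        linarith)
    have h2 := coreA_ge (f := g1) (f' := g2) (c := 0) ht (fun x _ => g1d x)
      (fun x hx => g2ge2 x (by rw [ht0]; linarith [hx.1]))
    linarith
  · intro t ht
    rw [df]
    have e : ∀ x ∈ Set.Icc (6 / 5) t, f2 x = 0 := fun x hx => by
      rw [hf2]
      simp only [hbo x hx.1]
      ring
    have h1 := coreA_le (f := f1) (f' := f2) (c := 0) ht (fun x _ => f1d x)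
      (fun x hx => (e x hx).le)
    have h2 := coreA_ge (f := f1) (f' := f2) (c := 0) ht (fun x _ => f1d x)
      (fun x hx => (e x hx).ge)
    linarith

end Pool.Agent.W_MP_654ec6
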