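import Pool.Agent.W_MP_654ec6.E.Defs

/-!
# Task E4: the curvature conditions of the core in three regimes

`p = 1/(1 + g² ξ² L)`, `0 < p ≤ 1`, `1 - p = g² ξ² L p`. If `ξ = 1/f` near `t` then
`g² L p (2 ξ'² - ξ ξ'') = (1 - p) f''/f` and `g² L p ξ ξ' = -(1 - p) f'/f`, so
`S1 = -(2+p) g''/g - (1-p) f''/f`, `S2 = -g''/g + (1+p)(1-g'²)/g² - (1-p) f' g'/(f g)`,
`S3 = -p g''/g - (1-p) f''/f + 2p(1-g'²)/g² - 2(1-p) f' g'/(f g)`, and `1 - p = p g² L/f²`.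

Regime a (`f'' = -f`): `1 - p ≥ 0.81/(0.7225 + 0.81) ≥ 1/2`;
`S1 ≥ 1/2 - 3/100/0.9`, `S2 ≥ -1/90 + 0.9999/1.21 - 1/45`, `S3 ≥ -1/90 + 1/2 - 2/45`.
Regime b: `1 - p ≤ p · 4 · 1.21/0.64 ≤ 7.6 p`; `S3 ≥ p (-1/90 + 2 · 0.999/1.21 - 2 · 7.6 · 0.001/0.72)`;
`S1 ≥ k ((1-p)/(2f) - (2+p)/(100 g))` and, when `k > 0`, `f ≤ 6/5`,
`1 - p ≥ 0.81/(1.44 + 0.81) = 0.36`.
Regime c: `S1 ≥ ξ'² (6(2+p)/g - 8 g² p) ≥ 0` as `g ≤ 6/5`;
`S2 ≥ (1 - g'²)/g² - 4 g ξ |ξ'| |g'|`, `S3 ≥ p (2 (1-g'²)/g² - 8 g² ξ'² - 8 g ξ |ξ'| |g'|)`.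
-/

open scoped ContDiff Topology
open Filter Real

namespace Pool.Agent.W_MP_654ec6

/-- first and second derivative of `1/f` -/
theorem CoreReg_derivs {ξ f : ℝ → ℝ} {t : ℝ} (hf : ContDiffAt ℝ ∞ f t)
    (hξ : ∀ᶠ s in 𝓝 t, ξ s = 1 / f s) (f0 : 0 < f t) :
    deriv ξ t = -(deriv f t) / f t ^ 2 ∧
      deriv (deriv ξ) t = -(deriv (deriv f) t) / f t ^ 2 + 2 * deriv f t ^ 2 / f t ^ 3 := by
  have hcont : ContinuousAt f t := hf.continuousAt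
  have hne : ∀ᶠ s in 𝓝 t, f s ≠ 0 := hcont.eventually_ne f0.ne'
  have hdiff : ∀ᶠ s in 𝓝 t, DifferentiableAt ℝ f s := by
    have h1 : ∀ᶠ s in 𝓝 t, ContDiffAt ℝ 1 f s :=
      (hf.of_le (by exact_mod_cast le_top)).eventually (by simp)
    exact h1.mono fun s hs => hs.differentiableAt one_ne_zero
  have hd1 : ∀ᶠ s in 𝓝 t, deriv ξ s = -(deriv f s) / f s ^ 2 := by
    filter_upwards [hξ.eventually_nhds, hne, hdiff] with s h1 h2 h3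
    have h4 : ξ =ᶠ[𝓝 s] fun r => 1 / f r := h1
    rw [h4.deriv_eq]
    have h5 : HasDerivAt (fun r => 1 / f r) (-(deriv f s) / f s ^ 2) s := by
      have h5 : HasDerivAt (fun r => (f r)⁻¹) (-(deriv f s) / f s ^ 2) s := h3.hasDerivAt.inv h2
      simpa only [one_div] using h5
    exact h5.deriv
  refine ⟨hd1.self_of_nhds, ?_⟩
  have h6 : deriv ξ =ᶠ[𝓝 t] fun s => -(deriv f s) / f s ^ 2 := hd1
  rw [h6.deriv_eq]
  have hdd : DifferentiableAt ℝ (deriv f) t := by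
    have h7 : ContDiffAt ℝ 2 f t := contDiffAt_infty.1 hf 2
    have h8 : ContDiffAt ℝ 1 (deriv f) t := by
      have h9 := h7.fderiv_right (m := 1) (by norm_num)
      have h10 : deriv f = fun s => (fderiv ℝ f s) 1 := by
        funext s
        simp
      rw [h10]
      exact h9.clm_apply contDiffAt_const
    exact h8.differentiableAt one_ne_zero
  have hft : HasDerivAt f (deriv f t) t := hdiff.self_of_nhds.hasDerivAt
  have h11 : HasDerivAt (fun s => -(deriv f s) / f s ^ 2)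
      ((-(deriv (deriv f) t) * f t ^ 2 - -(deriv f t) * (2 * f t ^ 1 * deriv f t)) /
        (f t ^ 2) ^ 2) t := by
    have h12 : HasDerivAt (fun s => -(deriv f s) / f s ^ 2) _ t :=
      (hdd.hasDerivAt.neg).div (hft.pow 2) (pow_ne_zero 2 f0.ne')
    convert h12 using 1
    simp
  rw [h11.deriv]
  field_simp
  ring

theorem CoreReg_S {g ξ f : ℝ → ℝ} {t L : ℝ} (hf : ContDiffAt ℝ ∞ f t)
    (hξ : ∀ᶠ s in 𝓝 t, ξ s = 1 / f s) (f0 : 0 < f t) (g0 : 0 < g t) (hL : 1 ≤ L) :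
    ∃ p q : ℝ, 0 < p ∧ 0 < q ∧ p + q = 1 ∧ q * f t ^ 2 = p * (g t ^ 2 * L) ∧
      coreS1 g ξ L t = -(2 + p) * (deriv (deriv g) t / g t) - q * (deriv (deriv f) t / f t) ∧
      coreS2 g ξ L t = -(deriv (deriv g) t / g t) + (1 + p) * ((1 - deriv g t ^ 2) / g t ^ 2) -
        q * (deriv f t * deriv g t / (f t * g t)) ∧
      coreS3 g ξ L t = -p * (deriv (deriv g) t / g t) - q * (deriv (deriv f) t / f t) +
        2 * p * ((1 - deriv g t ^ 2) / g t ^ 2) -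
        2 * q * (deriv f t * deriv g t / (f t * g t)) := by
  obtain ⟨h1, h2⟩ := CoreReg_derivs hf hξ f0
  have h0 : ξ t = 1 / f t := hξ.self_of_nhds
  have hL0 : 0 < L := by linarith
  refine ⟨f t ^ 2 / (f t ^ 2 + g t ^ 2 * L), g t ^ 2 * L / (f t ^ 2 + g t ^ 2 * L),
    by positivity, by positivity, ?_, ?_, ?_, ?_, ?_⟩
  · field_simp
  · field_simp
  · unfold coreS1 coreP
    rw [h0, h1, h2]
    field_simp
    ring
  · unfold coreS2 coreP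
    rw [h0, h1]
    field_simp
    ring
  · unfold coreS3 coreP
    rw [h0, h1, h2]
    field_simp
    ring

theorem CoreReg_u {G c r : ℝ} (hG : 9 / 10 ≤ G) (hr : 0 ≤ r) (h : c ≤ r * (9 / 10)) :
    c / G ≤ r := by
  rw [div_le_iff₀ (lt_of_lt_of_le (by norm_num) hG)]
  exact h.trans (mul_le_mul_of_nonneg_left hG hr)

theorem CoreReg_sq {x c : ℝ} (h : |x| ≤ c) : x ^ 2 ≤ c ^ 2 := by
  rw [← sq_abs x]
  exact pow_le_pow_left₀ (abs_nonneg x) h 2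

/-- the lower bound of the second factor -/
theorem CoreReg_v {G b r s v : ℝ} (hG : 0 < G) (h1 : b ^ 2 ≤ r) (h2 : G ^ 2 ≤ s)
    (hv : 0 ≤ v) (h : v * s ≤ 1 - r) : v ≤ (1 - b ^ 2) / G ^ 2 := by
  rw [le_div_iff₀ (pow_pos hG 2)]
  have h3 : v * G ^ 2 ≤ v * s := mul_le_mul_of_nonneg_left h2 hv
  linarith

/-- the lower bound of `q` -/
theorem CoreReg_q {F G L p q r s z : ℝ} (f0 : 0 < F) (f1 : F ≤ r) (g0 : 0 ≤ s) (g1 : s ≤ G)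
    (hL : 1 ≤ L) (hp : 0 < p) (hpq : p + q = 1) (hr : q * F ^ 2 = p * (G ^ 2 * L)) (hz : 0 ≤ z)
    (hz1 : z ≤ 1) (h : z * r ^ 2 < (1 - z) * (s ^ 2 * 1)) : z ≤ q := by
  by_contra hcon
  push Not at hcon
  have h1 : 1 - z ≤ p := by linarith
  have h2 : F ^ 2 ≤ r ^ 2 := pow_le_pow_left₀ f0.le f1 2
  have h3 : s ^ 2 * 1 ≤ G ^ 2 * L :=
    mul_le_mul (pow_le_pow_left₀ g0 g1 2) hL zero_le_one (sq_nonneg G)
  have h4 : q * F ^ 2 ≤ z * r ^ 2 := mul_le_mul hcon.le h2 (sq_nonneg F) hz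
  have h5 : (1 - z) * (s ^ 2 * 1) ≤ p * (G ^ 2 * L) :=
    mul_le_mul h1 h3 (by positivity) hp.le
  linarith

theorem CoreReg_fin_a {p q u v w : ℝ} (hp : 0 < p) (hq : 0 < q) (hpq : p + q = 1)
    (hu : u ≤ 1 / 90) (hv : 82 / 100 ≤ v) (hw : w ≤ 1 / 45) (hq2 : 1 / 2 ≤ q) :
    0 ≤ -(2 + p) * u - q * (-1) ∧ 0 ≤ -u + (1 + p) * v - q * w ∧
      0 ≤ -p * u - q * (-1) + 2 * p * v - 2 * q * w := by
  have h1 : p * u ≤ p * (1 / 90) := mul_le_mul_of_nonneg_left hu hp.le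
  have h2 : p * (82 / 100) ≤ p * v := mul_le_mul_of_nonneg_left hv hp.le
  have h3 : q * w ≤ q * (1 / 45) := mul_le_mul_of_nonneg_left hw hq.le
  refine ⟨?_, ?_, ?_⟩ <;> linarith

theorem CoreReg_arith_a {F a G b c p q L : ℝ} (f0 : 0 < F) (f1 : F ≤ 17 / 20)
    (g0l : 9 / 10 ≤ G) (g0u : G ≤ 11 / 10) (g1 : |b| ≤ 1 / 100) (g2 : a * b ≤ F / 50)
    (g3 : c ≤ 1 / 100) (hL : 1 ≤ L) (hp : 0 < p) (hq : 0 < q) (hpq : p + q = 1)
    (hr : q * F ^ 2 = p * (G ^ 2 * L)) :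
    0 ≤ -(2 + p) * (c / G) - q * (-1) ∧
      0 ≤ -(c / G) + (1 + p) * ((1 - b ^ 2) / G ^ 2) - q * (a * b / (F * G)) ∧
      0 ≤ -p * (c / G) - q * (-1) + 2 * p * ((1 - b ^ 2) / G ^ 2) -
        2 * q * (a * b / (F * G)) := by
  have hG : 0 < G := lt_of_lt_of_le (by norm_num) g0l
  have hw : a * b / (F * G) ≤ 1 / 45 := by
    rw [div_le_iff₀ (mul_pos f0 hG)]
    have h1 : F * (9 / 10) ≤ F * G := mul_le_mul_of_nonneg_left g0l f0.le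
    linarith
  exact CoreReg_fin_a hp hq hpq (CoreReg_u g0l (by norm_num) (g3.trans (by norm_num)))
    (CoreReg_v hG (CoreReg_sq g1) (pow_le_pow_left₀ hG.le g0u 2) (by norm_num) (by norm_num)) hw
    (CoreReg_q f0 f1 (by norm_num) g0l hL hp hpq hr (by norm_num) (by norm_num) (by norm_num))

theorem coreOK_a {g ξ f : ℝ → ℝ} {t : ℝ} (hf : ContDiffAt ℝ ∞ f t)
    (hξ : ∀ᶠ s in 𝓝 t, ξ s = 1 / f s) (f0 : 0 < f t) (f1 : f t ≤ 17 / 20)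
    (f2 : deriv (deriv f) t = -f t) (f3 : 0 ≤ deriv f t)
    (g0 : g t ∈ Set.Icc (9 / 10 : ℝ) (11 / 10)) (g1 : |deriv g t| ≤ 1 / 100)
    (g2 : deriv f t * deriv g t ≤ f t / 50) (g3 : deriv (deriv g) t ≤ 1 / 100) :
    CoreOK g ξ t := by
  intro L hL
  have hg : 0 < g t := lt_of_lt_of_le (by norm_num) g0.1
  obtain ⟨p, q, hp, hq, hpq, hr, e1, e2, e3⟩ := CoreReg_S hf hξ f0 hg hL.1
  have hb : deriv (deriv f) t / f t = -1 := by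
    rw [f2, neg_div, div_self f0.ne']
  rw [e1, e2, e3, hb]
  exact CoreReg_arith_a f0 f1 g0.1 g0.2 g1 g2 g3 hL.1 hp hq hpq hr

theorem CoreReg_fin_b {p q u v w z k : ℝ} (hp : 0 < p) (hq : 0 < q) (hpq : p + q = 1)
    (hk : 0 ≤ k) (hk1 : k ≤ 1)
    (hu : u ≤ k / 90) (hv : 82 / 100 ≤ v) (hw : w ≤ 1 / 720) (hz : q * z ≤ 0)
    (hqp : q ≤ 76 / 10 * p) (hS1 : 0 ≤ -(2 + p) * (k / 90) - q * z) :
    0 ≤ -(2 + p) * u - q * z ∧ 0 ≤ -u + (1 + p) * v - q * w ∧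
      0 ≤ -p * u - q * z + 2 * p * v - 2 * q * w := by
  have hu1 : u ≤ 1 / 90 := by linarith
  have h0 : (2 + p) * u ≤ (2 + p) * (k / 90) := mul_le_mul_of_nonneg_left hu (by linarith)
  have h1 : p * u ≤ p * (1 / 90) := mul_le_mul_of_nonneg_left hu1 hp.le
  have h2 : p * (82 / 100) ≤ p * v := mul_le_mul_of_nonneg_left hv hp.le
  have h3 : q * w ≤ q * (1 / 720) := mul_le_mul_of_nonneg_left hw hq.le
  refine ⟨?_, ?_, ?_⟩ <;> linarith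

theorem CoreReg_S1_b {F G e L p q k : ℝ} (f0 : 0 < F) (hk : 0 ≤ k) (hk2 : k = 0 ∨ F ≤ 6 / 5)
    (f3 : e ≤ -(k / 2)) (g0l : 9 / 10 ≤ G) (hL : 1 ≤ L) (hp : 0 < p) (hq : 0 < q)
    (hpq : p + q = 1) (hr : q * F ^ 2 = p * (G ^ 2 * L)) (hb : e / F ≤ 0) :
    0 ≤ -(2 + p) * (k / 90) - q * (e / F) := by
  have hqb : q * (e / F) ≤ 0 := mul_nonpos_of_nonneg_of_nonpos hq.le hb
  rcases hk2 with hk2 | hk2
  · rw [hk2]
    linarith
  · have hb' : e / F ≤ -(5 * k / 12) := by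
      rw [div_le_iff₀ f0]
      have h1 : k * F ≤ k * (6 / 5) := mul_le_mul_of_nonneg_left hk2 hk
      linarith
    have hq2 : 35 / 100 ≤ q :=
      CoreReg_q f0 hk2 (by norm_num) g0l hL hp hpq hr (by norm_num) (by norm_num) (by norm_num)
    have h7 : q * (e / F) ≤ q * (-(5 * k / 12)) := mul_le_mul_of_nonneg_left hb' hq.le
    have h8 : 35 / 100 * k ≤ q * k := mul_le_mul_of_nonneg_right hq2 hk
    have h9 : p * k ≤ 1 * k := mul_le_mul_of_nonneg_right (by linarith) hk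
    linarith

theorem CoreReg_arith_b {F a e G b c p q L k : ℝ} (f0 : 4 / 5 ≤ F) (f1 : 0 ≤ a) (f2 : a ≤ 1)
    (hk : 0 ≤ k) (hk1 : k ≤ 1) (hk2 : k = 0 ∨ F ≤ 6 / 5) (f3 : e ≤ -(k / 2))
    (g0l : 9 / 10 ≤ G) (g0u : G ≤ 11 / 10) (g1 : 0 ≤ b) (g2 : b ≤ 1 / 1000)
    (g3 : c ≤ k / 100) (hL : 1 ≤ L) (hL2 : L ≤ 4) (hp : 0 < p) (hq : 0 < q) (hpq : p + q = 1)
    (hr : q * F ^ 2 = p * (G ^ 2 * L)) :
    0 ≤ -(2 + p) * (c / G) - q * (e / F) ∧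
      0 ≤ -(c / G) + (1 + p) * ((1 - b ^ 2) / G ^ 2) - q * (a * b / (F * G)) ∧
      0 ≤ -p * (c / G) - q * (e / F) + 2 * p * ((1 - b ^ 2) / G ^ 2) -
        2 * q * (a * b / (F * G)) := by
  have hG : 0 < G := lt_of_lt_of_le (by norm_num) g0l
  have hF : 0 < F := lt_of_lt_of_le (by norm_num) f0
  have hb : e / F ≤ 0 := by
    apply div_nonpos_of_nonpos_of_nonneg _ hF.le
    linarith
  have hw : a * b / (F * G) ≤ 1 / 720 := by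
    rw [div_le_iff₀ (mul_pos hF hG)]
    have h1 : a * b ≤ 1 * (1 / 1000) := mul_le_mul f2 g2 g1 zero_le_one
    have h2 : 4 / 5 * (9 / 10) ≤ F * G := mul_le_mul f0 g0l (by norm_num) hF.le
    linarith
  have hqp : q ≤ 76 / 10 * p := by
    have h1 : (4 / 5 : ℝ) ^ 2 ≤ F ^ 2 := pow_le_pow_left₀ (by norm_num) f0 2
    have h2 : G ^ 2 * L ≤ (11 / 10) ^ 2 * 4 :=
      mul_le_mul (pow_le_pow_left₀ hG.le g0u 2) hL2 (by linarith) (by norm_num)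
    have h5 : q * (4 / 5 : ℝ) ^ 2 ≤ q * F ^ 2 := mul_le_mul_of_nonneg_left h1 hq.le
    have h6 : p * (G ^ 2 * L) ≤ p * ((11 / 10) ^ 2 * 4) := mul_le_mul_of_nonneg_left h2 hp.le
    linarith
  exact CoreReg_fin_b hp hq hpq hk hk1 (CoreReg_u g0l (by positivity) (by linarith))
    (CoreReg_v hG (pow_le_pow_left₀ g1 g2 2) (pow_le_pow_left₀ hG.le g0u 2) (by norm_num)
      (by norm_num)) hw (mul_nonpos_of_nonneg_of_nonpos hq.le hb) hqp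
    (CoreReg_S1_b hF hk hk2 f3 g0l hL hp hq hpq hr hb)

theorem coreOK_b {g ξ f : ℝ → ℝ} {t k : ℝ} (hf : ContDiffAt ℝ ∞ f t)
    (hξ : ∀ᶠ s in 𝓝 t, ξ s = 1 / f s) (f0 : 4 / 5 ≤ f t) (f1 : 0 ≤ deriv f t)
    (f2 : deriv f t ≤ 1) (hk : 0 ≤ k) (hk1 : k ≤ 1) (hk2 : k = 0 ∨ f t ≤ 6 / 5)
    (f3 : deriv (deriv f) t ≤ -(k / 2))
    (g0 : g t ∈ Set.Icc (9 / 10 : ℝ) (11 / 10)) (g1 : 0 ≤ deriv g t)
    (g2 : deriv g t ≤ 1 / 1000) (g3 : deriv (deriv g) t ≤ k / 100) :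
    CoreOK g ξ t := by
  intro L hL
  have hg : 0 < g t := lt_of_lt_of_le (by norm_num) g0.1
  have hf0 : 0 < f t := lt_of_lt_of_le (by norm_num) f0
  obtain ⟨p, q, hp, hq, hpq, hr, e1, e2, e3⟩ := CoreReg_S hf hξ hf0 hg hL.1
  rw [e1, e2, e3]
  exact CoreReg_arith_b f0 f1 f2 hk hk1 hk2 f3 g0.1 g0.2 g1 g2 g3 hL.1 hL.2 hp hq hpq hr

theorem CoreReg_fin_c {p u v m z X : ℝ} (hp : 0 < p) (hp1 : p ≤ 1) (hX : 0 ≤ X)
    (hX1 : X ≤ 1 / 100) (hu : u ≤ -5 * X) (hv : 69 / 100 ≤ v) (hm1 : -(1 / 1000) ≤ m)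
    (hz : z ≤ 144 / 25 * (2 * X)) :
    0 ≤ -(2 + p) * u - p * z ∧ 0 ≤ -u + (1 + p) * v + p * m ∧
      0 ≤ p * (-u - z + 2 * v + 2 * m) := by
  have h1 : (2 + p) * u ≤ (2 + p) * (-5 * X) := mul_le_mul_of_nonneg_left hu (by linarith)
  have h2 : p * z ≤ p * (144 / 25 * (2 * X)) := mul_le_mul_of_nonneg_left hz hp.le
  have h3 : p * X ≤ 1 * X := mul_le_mul_of_nonneg_right hp1 hX
  have h4 : p * (69 / 100) ≤ p * v := mul_le_mul_of_nonneg_left hv hp.le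
  have h5 : p * (-(1 / 1000)) ≤ p * m := mul_le_mul_of_nonneg_left hm1 hp.le
  refine ⟨?_, ?_, mul_nonneg hp.le ?_⟩ <;> linarith

theorem CoreReg_arith_c {G b c x y e L p : ℝ} (x0 : 0 ≤ x) (x1 : x ≤ 1 / 20)
    (x2 : |y| ≤ 1 / 10) (x3 : 0 ≤ e) (g0l : 9 / 10 ≤ G) (g0u : G ≤ 6 / 5)
    (g1 : |b| ≤ 1 / 1000) (g2 : c ≤ -6 * y ^ 2) (hL : 1 ≤ L) (hL2 : L ≤ 4)
    (hp : 0 < p) (hp1 : p ≤ 1) :
    0 ≤ -(2 + p) * (c / G) - p * ((G ^ 2 * L) * (2 * y ^ 2 - x * e)) ∧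
      0 ≤ -(c / G) + (1 + p) * ((1 - b ^ 2) / G ^ 2) + p * (G * L * x * y * b) ∧
      0 ≤ p * (-(c / G) - (G ^ 2 * L) * (2 * y ^ 2 - x * e) + 2 * ((1 - b ^ 2) / G ^ 2) +
        2 * (G * L * x * y * b)) := by
  have hG : 0 < G := lt_of_lt_of_le (by norm_num) g0l
  have hL0 : 0 < L := lt_of_lt_of_le zero_lt_one hL
  have hX : 0 ≤ y ^ 2 := sq_nonneg y
  have hX1 : y ^ 2 ≤ 1 / 100 := (CoreReg_sq x2).trans (by norm_num)
  have hu : c / G ≤ -5 * y ^ 2 := by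
    rw [div_le_iff₀ hG]
    have h1 : y ^ 2 * G ≤ y ^ 2 * (6 / 5) := mul_le_mul_of_nonneg_left g0u hX
    linarith
  have hv : 69 / 100 ≤ (1 - b ^ 2) / G ^ 2 :=
    CoreReg_v hG (CoreReg_sq g1) (pow_le_pow_left₀ hG.le g0u 2) (by norm_num) (by norm_num)
  have hGL0 : 0 ≤ G ^ 2 * L := by positivity
  have hGL : G ^ 2 * L ≤ 144 / 25 :=
    (mul_le_mul (pow_le_pow_left₀ hG.le g0u 2) hL2 hL0.le (by norm_num)).trans (by norm_num)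
  have hm : |G * L * x * y * b| ≤ 1 / 1000 := by
    rw [abs_mul, abs_mul, abs_mul, abs_mul, abs_of_pos hG, abs_of_pos hL0, abs_of_nonneg x0]
    have h1 : G * L ≤ 6 / 5 * 4 := mul_le_mul g0u hL2 hL0.le (by norm_num)
    have h2 : G * L * x ≤ 6 / 5 * 4 * (1 / 20) := mul_le_mul h1 x1 x0 (by norm_num)
    have h3 : G * L * x * |y| ≤ 6 / 5 * 4 * (1 / 20) * (1 / 10) :=
      mul_le_mul h2 x2 (abs_nonneg _) (by norm_num)
    have h4 : G * L * x * |y| * |b| ≤ 6 / 5 * 4 * (1 / 20) * (1 / 10) * (1 / 1000) :=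
      mul_le_mul h3 g1 (abs_nonneg _) (by norm_num)
    exact h4.trans (by norm_num)
  have hxx : 0 ≤ x * e := mul_nonneg x0 x3
  have hz : (G ^ 2 * L) * (2 * y ^ 2 - x * e) ≤ 144 / 25 * (2 * y ^ 2) :=
    (mul_le_mul_of_nonneg_left (by linarith) hGL0).trans
      (mul_le_mul_of_nonneg_right hGL (by positivity))
  exact CoreReg_fin_c hp hp1 hX hX1 hu hv (abs_le.1 hm).1 hz

theorem coreOK_c {g ξ : ℝ → ℝ} {t : ℝ} (x0 : 0 ≤ ξ t) (x1 : ξ t ≤ 1 / 20)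
    (x2 : |deriv ξ t| ≤ 1 / 10) (x3 : 0 ≤ deriv (deriv ξ) t)
    (g0 : g t ∈ Set.Icc (9 / 10 : ℝ) (6 / 5)) (g1 : |deriv g t| ≤ 1 / 1000)
    (g2 : deriv (deriv g) t ≤ -6 * deriv ξ t ^ 2) : CoreOK g ξ t := by
  intro L hL
  have hg : 0 < g t := lt_of_lt_of_le (by norm_num) g0.1
  have hL0 : 0 < L := lt_of_lt_of_le zero_lt_one hL.1
  have hp : 0 < coreP g ξ L t := by unfold coreP; positivity
  have hp1 : coreP g ξ L t ≤ 1 := by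
    unfold coreP
    rw [div_le_one (by positivity)]
    have : 0 ≤ g t ^ 2 * ξ t ^ 2 * L := by positivity
    linarith
  have e1 : coreS1 g ξ L t = -(2 + coreP g ξ L t) * (deriv (deriv g) t / g t) -
      coreP g ξ L t * ((g t ^ 2 * L) * (2 * deriv ξ t ^ 2 - ξ t * deriv (deriv ξ) t)) := by
    unfold coreS1
    ring
  have e2 : coreS2 g ξ L t = -(deriv (deriv g) t / g t) +
      (1 + coreP g ξ L t) * ((1 - deriv g t ^ 2) / g t ^ 2) +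
      coreP g ξ L t * (g t * L * ξ t * deriv ξ t * deriv g t) := by
    unfold coreS2
    field_simp
  have e3 : coreS3 g ξ L t = coreP g ξ L t * (-(deriv (deriv g) t / g t) -
      (g t ^ 2 * L) * (2 * deriv ξ t ^ 2 - ξ t * deriv (deriv ξ) t) +
      2 * ((1 - deriv g t ^ 2) / g t ^ 2) +
      2 * (g t * L * ξ t * deriv ξ t * deriv g t)) := by
    unfold coreS3
    field_simp
  rw [e1, e2, e3]
  exact CoreReg_arith_c x0 x1 x2 x3 g0.1 g0.2 g1 g2 hL.1 hL.2 hp hp1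

end Pool.Agent.W_MP_654ec6
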