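import Pool.Agent.W_MP_654ec6.E.CoreA
import Pool.Agent.W_MP_654ec6.E.CoreReg

/-!
# Task E6: existence of the core functions (Claim E)

Take `t0, γ, σ, gA, fA` from `exists_coreA`. `S = smoothTransition`, `P x = ∫_0^x S`.
`δ = 400 γ < 1/20`. `fB(t) = fA(t) - (σ - δ) P(t - 60)`, so `fB' = σ - (σ - δ) S(t - 60)` for `t ≥ 6/5`:
`fB' = δ` for `t ≥ 61`, `fB'' ≤ 0`, `fB' ∈ [0, 1]`. `f₃ = fB(61)`:
`fB(60) ∈ [4/5 + 58.8/3, 6/5 + 58.8 · 3/5] ⊆ [20.4, 36.5]`, `f₃ ∈ [20.4, 37.1]`.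
`m = δ/(2 f₃²)`, `K = δ/f₃²` (`= 1/L`). `ξ(t) = 1/f₃ + ∫_{61}^t X`,
`X(t) = (1 - S(t - 61)) (1/fB)'(t) - m S(t - 61) (1 - S(t - te))`, where `te ≥ 62` is chosen such that
`ξ(te + 1) = 0` (linear equation: `1/f₃ = ∫_{61}^{62} |..| + m (te - 62) + m/2`; since
`∫_{61}^{62} ≤ K ≤ 1/(2 f₃)` this gives `te > 62` and `te ≤ 62 + 1/(f₃ m) = 62 + 2 f₃/δ`).
So `ξ = 1/fB` on `(0, 61]`, `ξ = 0` on `[te + 1, ∞)`, and on `[61, ∞)`: `0 ≤ ξ ≤ 1/f₃ ≤ 1/20`,
`-K ≤ ξ' ≤ 0`, `ξ'' ≥ 0` (on `[61, 62]`: `X' = (1 - S)(1/fB)'' + S' (δ/fB² - m)`, `(1/fB)'' = 2δ²/fB³ ≥ 0`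
and `δ/fB² ≥ m` as `fB ≤ f₃ + 1 ≤ √2 f₃`).
`g'' = gA'' - 6 K² S(t - 60) (1 - S(t - te - 1))`: `g(t) = gA(t) - 6 K² ∫_{60}^t ∫_{60}^s ..`;
`g' = γ - 6 K² (..)` on `[6/5, ∞)`, decreasing, constant `= ν` for `t ≥ te + 2`, where
`ν ≥ γ - 6 K² (te + 2 - 60) ≥ γ - 6 K² (4 + 2 f₃/δ) = γ - 24 K² - 12 K/f₃` and
`γ = δ/400 = K f₃²/400 ≥ 1.04 K`, `12/f₃ ≤ 0.59`, `24 K ≤ 24/20/416 ≤ 0.003`; so `ν > 0.4 K > 0`.
`g ≤ 1.001 + γ (te + 2) ≤ 1.001 + γ (64 + 2 f₃/δ) ≤ 1.001 + 0.0013 + f₃/200 ≤ 6/5` on `(0, te + 2]`,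
and for `t ≤ 61`, `g ≤ 1.001 + 61 γ ≤ 11/10`.
`ok`: `coreOK_a` on `(0, 1]`, `coreOK_b` on `[1, 61]` (`k = 0` for `t ≥ 6/5`), `coreOK_c` on
`[61, te + 1]` (`g'' = -6 K² ≤ -6 ξ'²`) and on `[te + 1, te + 2]` (`ξ = 0` near or `ξ' = ξ'' = 0`). For
`t ≥ te + 2`, `ξ = 0`, `g'' = 0`, `g' = ν`: `S1 = 0`, `S2 = S3 = 2 (1 - ν²)/g²` (`g` may be large).
Take `T0 = te + 3`, `gT = g(T0)`.
-/

open scoped ContDiff Topology
open Filter Real

namespace Pool.Agent.W_MP_654ec6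

/-- The core functions (Claim E). -/
structure CoreFun (t0 T0 gT ν : ℝ) (g ξ : ℝ → ℝ) : Prop where
  t0_pos : 0 < t0
  t0_lt : t0 < 1 / 100
  T0_gt : 2 < T0
  nu_pos : 0 < ν
  nu_lt : ν < 1
  gT_pos : 0 < gT
  smooth_g : ContDiffOn ℝ ∞ g (Set.Ioi 0)
  smooth_ξ : ContDiffOn ℝ ∞ ξ (Set.Ioi 0)
  g_start : ∀ t ∈ Set.Ioc 0 t0, g t = Real.cos t
  ξ_start : ∀ t ∈ Set.Ioc 0 t0, ξ t = 1 / Real.sin t
  g_end : ∀ t ≥ T0 - 1, g t = gT + ν * (t - T0)
  ξ_end : ∀ t ≥ T0 - 1, ξ t = 0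
  g_pos : ∀ t > 0, 0 < g t
  ok : ∀ t > 0, CoreOK g ξ t

/-- A primitive of the smooth step. -/
theorem coreFun_P : ∃ P : ℝ → ℝ, ContDiff ℝ ∞ P ∧ (∀ x, HasDerivAt P (smoothTransition x) x) ∧
    (∀ x ≤ 0, P x = 0) ∧ (∀ x, 1 ≤ x → P x = P 1 + (x - 1)) ∧ 0 ≤ P 1 ∧ P 1 ≤ 1 := by
  have hc : Continuous smoothTransition := smoothTransition.continuous
  have hd : ∀ x, HasDerivAt (fun x => 0 + ∫ u in (0 : ℝ)..x, smoothTransition u)
      (smoothTransition x) x := fun x => coreA_prim hc 0 x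
  have h0 : ∀ x ≤ 0, (0 + ∫ u in (0 : ℝ)..x, smoothTransition u) = 0 := by
    intro x hx
    have h : ∫ u in (0 : ℝ)..x, smoothTransition u = ∫ _u in (0 : ℝ)..x, (0 : ℝ) := by
      refine intervalIntegral.integral_congr fun u hu => ?_
      rw [Set.uIcc_of_ge hx] at hu
      exact smoothTransition.zero_of_nonpos hu.2
    rw [h]
    simp
  refine ⟨fun x => 0 + ∫ u in (0 : ℝ)..x, smoothTransition u,
    coreA_smooth hd (smoothTransition.contDiff (n := ⊤)), hd, h0, ?_, ?_, ?_⟩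
  · intro x hx
    have h1 := coreA_le (f := fun x => 0 + ∫ u in (0 : ℝ)..x, smoothTransition u)
      (f' := smoothTransition) (c := 1) hx (fun x _ => hd x)
      (fun x _ => smoothTransition.le_one x)
    have h2 := coreA_ge (f := fun x => 0 + ∫ u in (0 : ℝ)..x, smoothTransition u)
      (f' := smoothTransition) (c := 1) hx (fun x _ => hd x)
      (fun x hx => (smoothTransition.one_of_one_le hx.1).ge)
    simp only at h1 h2 ⊢
    linarith
  · have h2 := coreA_ge (f := fun x => 0 + ∫ u in (0 : ℝ)..x, smoothTransition u)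
      (f' := smoothTransition) (c := 0) zero_le_one (fun x _ => hd x)
      (fun x _ => smoothTransition.nonneg x)
    simp only [h0 0 le_rfl] at h2 ⊢
    linarith
  · have h2 := coreA_le (f := fun x => 0 + ∫ u in (0 : ℝ)..x, smoothTransition u)
      (f' := smoothTransition) (c := 1) zero_le_one (fun x _ => hd x)
      (fun x _ => smoothTransition.le_one x)
    simp only [h0 0 le_rfl] at h2 ⊢
    linarith

theorem coreFun_SD_nonneg (x : ℝ) : 0 ≤ deriv smoothTransition x :=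
  smoothTransition.monotone.deriv_nonneg

theorem coreFun_SD_zero {x : ℝ} (hx : 1 < x) : deriv smoothTransition x = 0 := by
  have : smoothTransition =ᶠ[𝓝 x] fun _ => (1 : ℝ) := by
    filter_upwards [eventually_gt_nhds hx] with y hy
    exact smoothTransition.one_of_one_le hy.le
  rw [this.deriv_eq]
  simp

theorem coreFun_SD (x : ℝ) : HasDerivAt smoothTransition (deriv smoothTransition x) x :=
  ((smoothTransition.contDiff (n := 1)).differentiable (by simp) x).hasDerivAt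

/-- The curvature conditions in the final region. -/
theorem coreFun_end {g ξ : ℝ → ℝ} {t ν : ℝ} (g1 : deriv g t = ν) (g2 : deriv (deriv g) t = 0)
    (x0 : ξ t = 0) (x1 : deriv ξ t = 0) (hν : ν ^ 2 ≤ 1) : CoreOK g ξ t := by
  intro L hL
  have hp : coreP g ξ L t = 1 := by
    unfold coreP
    rw [x0]
    simp
  refine ⟨?_, ?_, ?_⟩
  · unfold coreS1
    rw [g2, x0, x1]
    simp
  · unfold coreS2
    rw [g2, x0, x1, hp, g1]
    have : 0 ≤ (1 + 1) * (1 - ν ^ 2) / g t ^ 2 :=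
      div_nonneg (mul_nonneg (by norm_num) (by linarith)) (sq_nonneg _)
    simpa using this
  · unfold coreS3
    rw [g2, x0, x1, hp, g1]
    have : 0 ≤ 2 * 1 * (1 - ν ^ 2) / g t ^ 2 :=
      div_nonneg (mul_nonneg (by norm_num) (by linarith)) (sq_nonneg _)
    simpa using this

/-- Properties of the primitive `P` of the smooth step. -/
structure CoreFunP (P : ℝ → ℝ) : Prop where
  Ps : ContDiff ℝ ∞ P
  Pd : ∀ x, HasDerivAt P (smoothTransition x) x
  P0 : ∀ x ≤ 0, P x = 0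
  P1 : ∀ x, 1 ≤ x → P x = P 1 + (x - 1)
  P1b : P 1 ≤ 1

theorem coreFun_exP : ∃ P, CoreFunP P := by
  obtain ⟨P, Ps, Pd, P0, P1, P1a, P1b⟩ := coreFun_P
  exact ⟨P, Ps, Pd, P0, P1, P1b⟩

theorem CoreFunP.dc {P : ℝ → ℝ} (Q : CoreFunP P) (c t : ℝ) :
    HasDerivAt (fun t => P (t - c)) (smoothTransition (t - c)) t :=
  (Q.Pd (t - c)).comp_sub_const t c

theorem CoreFunP.nonneg {P : ℝ → ℝ} (Q : CoreFunP P) (x : ℝ) : 0 ≤ P x := by
  rcases le_total x 0 with h | h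
  · rw [Q.P0 x h]
  · have := coreA_ge (f := P) (f' := smoothTransition) (c := 0) h (fun x _ => Q.Pd x)
      (fun x _ => smoothTransition.nonneg x)
    rw [Q.P0 0 le_rfl] at this
    linarith only [this]

theorem coreFun_sub (c : ℝ) : ContDiff ℝ ∞ (fun t : ℝ => t - c) := contDiff_id.sub contDiff_const

theorem CoreFunP.smooth {P : ℝ → ℝ} (Q : CoreFunP P) (c : ℝ) :
    ContDiff ℝ ∞ (fun t => P (t - c)) := Q.Ps.comp (coreFun_sub c)

theorem coreFun_Ss (c : ℝ) : ContDiff ℝ ∞ (fun t : ℝ => smoothTransition (t - c)) :=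
  (smoothTransition.contDiff (n := ⊤)).comp (coreFun_sub c)

theorem coreFun_Sc (c t : ℝ) : HasDerivAt (fun t => smoothTransition (t - c))
    (deriv smoothTransition (t - c)) t := (coreFun_SD (t - c)).comp_sub_const t c

theorem coreFun_S0 {x : ℝ} (hx : x ≤ 0) : smoothTransition x = 0 :=
  smoothTransition.zero_of_nonpos hx

theorem coreFun_S1 {x : ℝ} (hx : 1 ≤ x) : smoothTransition x = 1 :=
  smoothTransition.one_of_one_le hx

theorem coreFun_aux1 {σ δ S : ℝ} (h : 0 ≤ σ - δ) (h1 : 0 ≤ S) (h2 : S ≤ 1) :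
    δ ≤ σ - (σ - δ) * S ∧ σ - (σ - δ) * S ≤ σ := by
  have h3 := mul_nonneg h h1
  have h4 := mul_le_mul_of_nonneg_left h2 h
  constructor <;> linarith

theorem coreFun_aux2 {f3 δ x : ℝ} (h1 : 204 / 10 ≤ f3) (h2 : δ < 1 / 125) (h3 : 0 ≤ x)
    (h4 : x ≤ f3 + 2 * δ) : x ^ 2 ≤ 2 * f3 ^ 2 := by
  have h5 : x ^ 2 ≤ (7 / 5 * f3) ^ 2 := pow_le_pow_left₀ h3 (by linarith) 2
  have h6 := sq_nonneg f3
  linarith

theorem coreFun_sin {t : ℝ} (h0 : 0 < t) (h1 : t ≤ 1) : Real.sin t ≤ 17 / 20 := by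
  have hmono : Real.sin t ≤ Real.sin 1 := by
    refine Real.sin_le_sin_of_le_of_le_pi_div_two ?_ ?_ h1
    · linarith [Real.pi_pos]
    · linarith [Real.pi_gt_three]
  have hc := coreA_cos_one
  have hsc := Real.sin_sq_add_cos_sq 1
  have hs0 : 0 < Real.sin 1 := Real.sin_pos_of_pos_of_lt_pi one_pos
    (by linarith [Real.pi_gt_three])
  nlinarith

/-- The function `fB`. -/
structure CoreFunB (σ δ f3 : ℝ) (fA fB f1 : ℝ → ℝ) : Prop where
  δpos : 0 < δ
  δlt : δ < 1 / 125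
  fBs : ContDiff ℝ ∞ fB
  fBd : ∀ t, HasDerivAt fB (f1 t) t
  fB60 : ∀ t ≤ 60, fB t = fA t ∧ f1 t = deriv fA t
  f1mem : ∀ t, 6 / 5 ≤ t → δ ≤ f1 t ∧ f1 t ≤ σ
  f1end : ∀ t, 61 ≤ t → f1 t = δ
  df1 : ∀ t, deriv f1 t ≤ deriv (deriv fA) t
  f3lo : 204 / 10 ≤ f3
  f3hi : f3 ≤ 371 / 10
  hf3 : fB 61 = f3
  fBlin : ∀ t, 61 ≤ t → fB t = f3 + δ * (t - 61)
  fBge : ∀ t, 1 ≤ t → 4 / 5 ≤ fB t
  fBpos : ∀ t, 0 < t → 0 < fB t

theorem coreFun_exB {t0 γ σ δ : ℝ} {gA fA P : ℝ → ℝ} (A : CoreA t0 γ σ gA fA) (Q : CoreFunP P)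
    (hδ : δ = 400 * γ) : ∃ (f3 : ℝ) (fB f1 : ℝ → ℝ), CoreFunB σ δ f3 fA fB f1 := by
  have δpos : 0 < δ := by rw [hδ]; linarith only [A.gam_pos]
  have δlt : δ < 1 / 125 := by rw [hδ]; linarith only [A.gam_lt]
  have σlo := A.sig_lo
  have σhi := A.sig_hi
  have fAd : ∀ t, HasDerivAt fA (deriv fA t) t := fun t =>
    ((contDiff_infty_iff_deriv.1 A.smooth_f).1 t).hasDerivAt
  have fAs1 : ContDiff ℝ ∞ (deriv fA) := (contDiff_infty_iff_deriv.1 A.smooth_f).2
  have fAd1 : ∀ t, HasDerivAt (deriv fA) (deriv (deriv fA) t) t := fun t =>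
    ((contDiff_infty_iff_deriv.1 fAs1).1 t).hasDerivAt
  obtain ⟨fB, hfB⟩ : ∃ fB : ℝ → ℝ, fB = fun t => fA t - (σ - δ) * P (t - 60) := ⟨_, rfl⟩
  obtain ⟨f1, hf1⟩ : ∃ f1 : ℝ → ℝ, f1 = fun t => deriv fA t - (σ - δ) * smoothTransition (t - 60) :=
    ⟨_, rfl⟩
  have fBs : ContDiff ℝ ∞ fB := by
    rw [hfB]
    exact A.smooth_f.sub (contDiff_const.mul (Q.smooth 60))
  have fBd : ∀ t, HasDerivAt fB (f1 t) t := fun t => by
    rw [hfB, hf1]
    exact (fAd t).sub ((Q.dc 60 t).const_mul _)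
  have f1d : ∀ t, deriv f1 t ≤ deriv (deriv fA) t := fun t => by
    have h : HasDerivAt f1 (deriv (deriv fA) t - (σ - δ) * deriv smoothTransition (t - 60)) t := by
      rw [hf1]
      exact (fAd1 t).sub ((coreFun_Sc 60 t).const_mul _)
    rw [h.deriv]
    have := mul_nonneg (show 0 ≤ σ - δ by linarith only [δlt, σlo]) (coreFun_SD_nonneg (t - 60))
    linarith only [this]
  have fB60 : ∀ t ≤ 60, fB t = fA t ∧ f1 t = deriv fA t := by
    intro t ht
    have ht' : t - 60 ≤ 0 := by linarith only [ht]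
    rw [hfB, hf1]
    simp only [Q.P0 (t - 60) ht', coreFun_S0 ht', mul_zero, sub_zero, and_self]
  have f1mem : ∀ t, 6 / 5 ≤ t → δ ≤ f1 t ∧ f1 t ≤ σ := by
    intro t ht
    rw [hf1]
    simp only [A.end_f t ht]
    exact coreFun_aux1 (by linarith only [δlt, σlo]) (smoothTransition.nonneg _)
      (smoothTransition.le_one _)
  have f1end : ∀ t, 61 ≤ t → f1 t = δ := by
    intro t ht
    rw [hf1]
    simp only [A.end_f t (by linarith only [ht]), coreFun_S1 (show 1 ≤ t - 60 by linarith only [ht])]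
    ring
  have b65 := (A.reg_b (6 / 5) ⟨by norm_num, le_rfl⟩).2.2.1
  have fB65 : fB (6 / 5) = fA (6 / 5) := (fB60 _ (by norm_num)).1
  rw [← fB65] at b65
  have fB_60 : fB (6 / 5) + 1 / 3 * (60 - 6 / 5) ≤ fB 60 := by
    refine coreA_ge (f := fB) (f' := f1) (by norm_num) (fun x _ => fBd x) fun x hx => ?_
    rw [(fB60 x hx.2).2, A.end_f x hx.1]
    exact σlo
  have f3lo : 204 / 10 ≤ fB 61 := by
    have := coreA_ge (f := fB) (f' := f1) (a := 60) (b := 61) (c := 0) (by norm_num)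
      (fun x _ => fBd x) fun x hx => δpos.le.trans (f1mem x (by linarith only [hx.1])).1
    linarith only [b65.1, this, fB_60]
  have f3hi : fB 61 ≤ 371 / 10 := by
    have := coreA_le (f := fB) (f' := f1) (a := 6 / 5) (b := 61) (c := 3 / 5) (by norm_num)
      (fun x _ => fBd x) fun x hx => (f1mem x hx.1).2.trans σhi
    linarith only [b65.2, this]
  have fBlin : ∀ t, 61 ≤ t → fB t = fB 61 + δ * (t - 61) := by
    intro t ht
    have h1 := coreA_le (f := fB) (f' := f1) (c := δ) ht (fun x _ => fBd x)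
      (fun x hx => (f1end x hx.1).le)
    have h2 := coreA_ge (f := fB) (f' := f1) (c := δ) ht (fun x _ => fBd x)
      (fun x hx => (f1end x hx.1).ge)
    exact le_antisymm h1 h2
  have fBge : ∀ t, 1 ≤ t → 4 / 5 ≤ fB t := by
    intro t ht
    rcases le_total t (6 / 5) with h | h
    · rw [(fB60 t (by linarith only [h])).1]
      exact (A.reg_b t ⟨ht, h⟩).2.2.1.1
    · have := coreA_ge (f := fB) (f' := f1) (c := 0) h (fun x _ => fBd x)
        fun x hx => δpos.le.trans (f1mem x hx.1).1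
      linarith only [b65.1, this]
  have fBpos : ∀ t, 0 < t → 0 < fB t := by
    intro t ht
    rcases le_total t 1 with h | h
    · rw [(fB60 t (by linarith only [h])).1, A.f_start t h]
      exact Real.sin_pos_of_pos_of_lt_pi ht (by linarith only [Real.pi_gt_three, h])
    · linarith only [fBge t h]
  exact ⟨fB 61, fB, f1, δpos, δlt, fBs, fBd, fB60, f1mem, f1end, f1d, f3lo, f3hi, rfl, fBlin, fBge,
    fBpos⟩

/-- The function `V = 1/fB + Z`. -/
structure CoreFunV (δ f3 K v : ℝ) (fB l V V1 : ℝ → ℝ) : Prop where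
  Kpos : 0 < K
  Klt : K ≤ 1 / 50000
  Kf : K * f3 ^ 2 = δ
  lpos : ∀ t, 0 < l t
  llin : ∀ t, 61 ≤ t → l t = f3 + δ * (t - 61)
  dlK : ∀ t, 61 ≤ t → δ / l t ^ 2 ≤ K ∧ 0 < δ / l t ^ 2
  Vs : ContDiffOn ℝ ∞ V (Set.Ioi 0)
  Vd : ∀ t, 0 < t → HasDerivAt V (V1 t) t
  V62 : ∀ t ≤ 62, V t = 1 / fB t
  Vd61 : ∀ t, 61 ≤ t → V1 t = -(1 - smoothTransition (t - 62)) * (δ / l t ^ 2)
  Vconst : ∀ t, 63 ≤ t → V t = v
  vlo : K / 2 ≤ v
  vhi : v ≤ 1 / f3
  i3 : 1 / f3 ≤ 1 / 20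

theorem coreFun_aux3 {S X K : ℝ} (h1 : 0 ≤ S) (h2 : S ≤ 1) (h3 : X ≤ K) (h4 : 0 < X) :
    -K ≤ -(1 - S) * X ∧ -(1 - S) * X ≤ 0 := by
  have h5 := mul_le_mul (show 1 - S ≤ 1 by linarith) h3 h4.le zero_le_one
  have h6 := mul_nonneg (show 0 ≤ 1 - S by linarith) h4.le
  constructor <;> linarith

theorem coreFun_exV {σ δ f3 : ℝ} {fA fB f1 P : ℝ → ℝ} (Q : CoreFunP P)
    (B : CoreFunB σ δ f3 fA fB f1) :
    ∃ (K v : ℝ) (l V V1 : ℝ → ℝ), CoreFunV δ f3 K v fB l V V1 := by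
  have δpos := B.δpos
  have δlt := B.δlt
  have f3lo := B.f3lo
  have f3hi := B.f3hi
  have f3pos : 0 < f3 := by linarith only [f3lo]
  obtain ⟨K, hK⟩ : ∃ K : ℝ, K = δ / f3 ^ 2 := ⟨_, rfl⟩
  have Kpos : 0 < K := by rw [hK]; exact div_pos δpos (pow_pos f3pos 2)
  have Kf : K * f3 ^ 2 = δ := by rw [hK]; exact div_mul_cancel₀ _ (pow_pos f3pos 2).ne'
  have Klt : K ≤ 1 / 50000 := by
    rw [hK, div_le_iff₀ (pow_pos f3pos 2)]
    have := pow_le_pow_left₀ (by norm_num) f3lo 2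
    linarith only [this, δlt]
  obtain ⟨l, hl⟩ : ∃ l : ℝ → ℝ, l = fun t => f3 + δ * (P (t - 60) - P 1) := ⟨_, rfl⟩
  have lpos : ∀ t, 0 < l t := by
    intro t
    rw [hl]
    simp only
    have h2 := mul_le_mul_of_nonneg_left
      (show -1 ≤ P (t - 60) - P 1 by linarith only [Q.nonneg (t - 60), Q.P1b]) δpos.le
    linarith only [h2, f3lo, δlt]
  have ls : ContDiff ℝ ∞ l := by
    rw [hl]
    exact contDiff_const.add (contDiff_const.mul ((Q.smooth 60).sub contDiff_const))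
  have llin : ∀ t, 61 ≤ t → l t = f3 + δ * (t - 61) := by
    intro t ht
    rw [hl]
    simp only [Q.P1 (t - 60) (by linarith only [ht])]
    ring
  obtain ⟨z, hz⟩ : ∃ z : ℝ → ℝ, z = fun t => smoothTransition (t - 62) * (δ / l t ^ 2) := ⟨_, rfl⟩
  have zs : ContDiff ℝ ∞ z := by
    rw [hz]
    exact (coreFun_Ss 62).mul (contDiff_const.div (ls.pow 2) fun t => (pow_pos (lpos t) 2).ne')
  obtain ⟨Z, hZ⟩ : ∃ Z : ℝ → ℝ, Z = fun t => 0 + ∫ s in (0 : ℝ)..t, z s := ⟨_, rfl⟩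
  have Zd : ∀ t, HasDerivAt Z (z t) t := fun t => by
    rw [hZ]
    exact coreA_prim zs.continuous 0 t
  have Zs := coreA_smooth Zd zs
  have Z0 : ∀ t ≤ 62, Z t = 0 := by
    intro t ht
    rw [hZ]
    have h : ∫ s in (0 : ℝ)..t, z s = ∫ _s in (0 : ℝ)..t, (0 : ℝ) := by
      refine intervalIntegral.integral_congr fun s hs => ?_
      have hs1 : s ≤ 62 := (Set.mem_uIcc.mp hs).elim (fun h => h.2.trans ht)
        (fun h => h.2.trans (by norm_num))
      rw [hz]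
      simp only [coreFun_S0 (show s - 62 ≤ 0 by linarith only [hs1]), zero_mul]
    simp only [h]
    simp
  obtain ⟨V, hV⟩ : ∃ V : ℝ → ℝ, V = fun t => 1 / fB t + Z t := ⟨_, rfl⟩
  obtain ⟨V1, hV1⟩ : ∃ V1 : ℝ → ℝ, V1 = fun t => -f1 t / fB t ^ 2 + z t := ⟨_, rfl⟩
  have Vd : ∀ t, 0 < t → HasDerivAt V (V1 t) t := by
    intro t ht
    have h1 := ((hasDerivAt_const t (1 : ℝ)).div (B.fBd t) (B.fBpos t ht).ne').add (Zd t)
    rw [hV, hV1]
    refine h1.congr_deriv ?_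
    simp
  have Vs : ContDiffOn ℝ ∞ V (Set.Ioi 0) := by
    intro t ht
    rw [hV]
    exact (contDiffAt_const.div B.fBs.contDiffAt (B.fBpos t ht).ne').add Zs.contDiffAt
      |>.contDiffWithinAt
  have Vd61 : ∀ t, 61 ≤ t → V1 t = -(1 - smoothTransition (t - 62)) * (δ / l t ^ 2) := by
    intro t ht
    rw [hV1]
    simp only [B.f1end t ht, B.fBlin t ht, hz, llin t ht]
    ring
  have V62 : ∀ t ≤ 62, V t = 1 / fB t := by
    intro t ht
    rw [hV]
    simp only [Z0 t ht, add_zero]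
  have dlK : ∀ t, 61 ≤ t → δ / l t ^ 2 ≤ K ∧ 0 < δ / l t ^ 2 := by
    intro t ht
    have h1 : f3 ≤ l t := by
      rw [llin t ht]
      have := mul_nonneg δpos.le (show 0 ≤ t - 61 by linarith only [ht])
      linarith only [this]
    refine ⟨?_, div_pos δpos (pow_pos (lpos t) 2)⟩
    rw [hK]
    exact div_le_div_of_nonneg_left δpos.le (pow_pos f3pos 2) (pow_le_pow_left₀ f3pos.le h1 2)
  have Vconst : ∀ t, 63 ≤ t → V t = V 63 := by
    intro t ht
    have h0 : ∀ x ∈ Set.Icc 63 t, V1 x = 0 := by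
      intro x hx
      rw [Vd61 x (by linarith only [hx.1]), coreFun_S1 (show 1 ≤ x - 62 by linarith only [hx.1])]
      ring
    have h1 := coreA_le (f := V) (f' := V1) (c := 0) ht
      (fun x hx => Vd x (by linarith only [hx.1])) (fun x hx => (h0 x hx).le)
    have h2 := coreA_ge (f := V) (f' := V1) (c := 0) ht
      (fun x hx => Vd x (by linarith only [hx.1])) (fun x hx => (h0 x hx).ge)
    linarith only [h1, h2]
  have V61 : V 61 = 1 / f3 := by
    rw [V62 61 (by norm_num), B.hf3]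
  have key : ∀ x, 61 ≤ x → -K ≤ V1 x ∧ V1 x ≤ 0 := fun x hx => by
    rw [Vd61 x hx]
    exact coreFun_aux3 (smoothTransition.nonneg _) (smoothTransition.le_one _) (dlK x hx).1
      (dlK x hx).2
  have V63hi : V 63 ≤ 1 / f3 := by
    have h1 := coreA_le (f := V) (f' := V1) (a := 61) (b := 63)
      (c := 0) (by norm_num) (fun x hx => Vd x (by linarith only [hx.1]))
      (fun x hx => (key x hx.1).2)
    rw [V61] at h1
    linarith only [h1]
  have V63lo : 1 / f3 - 2 * K ≤ V 63 := by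
    have h1 := coreA_ge (f := V) (f' := V1) (a := 61) (b := 63)
      (c := -K) (by norm_num) (fun x hx => Vd x (by linarith only [hx.1]))
      (fun x hx => (key x hx.1).1)
    rw [V61] at h1
    linarith only [h1]
  have i3 : 1 / 38 ≤ 1 / f3 := one_div_le_one_div_of_le f3pos (by linarith only [f3hi])
  have i3' : 1 / f3 ≤ 1 / 20 := one_div_le_one_div_of_le (by norm_num) (by linarith only [f3lo])
  have V63pos : K / 2 ≤ V 63 := by linarith only [V63lo, i3, Klt]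
  exact ⟨K, V 63, l, V, V1, Kpos, Klt, Kf, lpos, llin, dlK, Vs, Vd, V62, Vd61, Vconst, V63pos,
    V63hi, i3'⟩

/-- The function `ξ`. -/
structure CoreFunX (δ f3 K te : ℝ) (fB ξ : ℝ → ℝ) : Prop where
  te63 : 63 ≤ te
  tehi : te ≤ 62 + 2 * f3 / δ
  ξs : ContDiffOn ℝ ∞ ξ (Set.Ioi 0)
  ξ62 : ∀ t ≤ 62, ξ t = 1 / fB t
  ξzero : ∀ t, te + 1 ≤ t → ξ t = 0
  ξ1mem : ∀ t, 61 ≤ t → -K ≤ deriv ξ t ∧ deriv ξ t ≤ 0
  ξ1zero : ∀ t, te + 1 ≤ t → deriv ξ t = 0
  ξmem : ∀ t, 61 ≤ t → 0 ≤ ξ t ∧ ξ t ≤ 1 / 20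
  ξ2 : ∀ t, 61 < t → 0 ≤ deriv (deriv ξ) t

theorem coreFun_aux4 {S S' X K : ℝ} (h1 : 0 ≤ S) (h2 : S ≤ 1) (h3 : X ≤ K) (h4 : 0 < X)
    (h5 : S' ≤ S) (h6 : 0 ≤ S') (hK : 0 < K) :
    -K ≤ -(1 - S) * X - K / 2 * (S - S') ∧ -(1 - S) * X - K / 2 * (S - S') ≤ 0 := by
  have e1 : (1 - S) * X ≤ (1 - S) * K := mul_le_mul_of_nonneg_left h3 (by linarith)
  have a1 := mul_nonneg hK.le h6
  have a2 := mul_nonneg hK.le h1
  have e3 : 0 ≤ (1 - S) * X := mul_nonneg (by linarith) h4.le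
  have e4 : 0 ≤ K / 2 * (S - S') := mul_nonneg (by linarith) (by linarith)
  constructor <;> linarith

theorem coreFun_exX {σ δ f3 K v : ℝ} {fA fB f1 l V V1 P : ℝ → ℝ} (Q : CoreFunP P)
    (B : CoreFunB σ δ f3 fA fB f1) (W : CoreFunV δ f3 K v fB l V V1) :
    ∃ (te : ℝ) (ξ : ℝ → ℝ), CoreFunX δ f3 K te fB ξ := by
  have δpos := B.δpos
  have f3lo := B.f3lo
  have f3pos : 0 < f3 := by linarith only [f3lo]
  have Kpos := W.Kpos
  obtain ⟨m, mK⟩ : ∃ m : ℝ, m = K / 2 := ⟨_, rfl⟩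
  have mpos : 0 < m := by rw [mK]; linarith only [Kpos]
  have hm : m = δ / (2 * f3 ^ 2) := by
    rw [mK, eq_div_iff (by positivity)]
    linear_combination W.Kf
  obtain ⟨te, hte⟩ : ∃ te : ℝ, te = 62 + v / m := ⟨_, rfl⟩
  have te63 : 63 ≤ te := by
    rw [hte]
    have : 1 ≤ v / m := by
      rw [le_div_iff₀ mpos, one_mul, mK]
      exact W.vlo
    linarith only [this]
  have tehi : te ≤ 62 + 2 * f3 / δ := by
    rw [hte]
    have : v / m ≤ 2 * f3 / δ := by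
      rw [div_le_div_iff₀ mpos δpos, hm]
      have : 2 * f3 * (δ / (2 * f3 ^ 2)) = 1 / f3 * δ := by
        field_simp
      rw [this]
      exact mul_le_mul_of_nonneg_right W.vhi δpos.le
    linarith only [this]
  obtain ⟨ξ, hξ⟩ : ∃ ξ : ℝ → ℝ, ξ = fun t => V t - m * (P (t - 62) - P (t - te)) :=
    ⟨_, rfl⟩
  obtain ⟨ξ1, hξ1⟩ : ∃ ξ1 : ℝ → ℝ, ξ1 = fun t => V1 t -
    m * (smoothTransition (t - 62) - smoothTransition (t - te)) := ⟨_, rfl⟩
  have ξd : ∀ t, 0 < t → HasDerivAt ξ (ξ1 t) t := by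
    intro t ht
    rw [hξ, hξ1]
    exact (W.Vd t ht).sub (((Q.dc 62 t).sub (Q.dc te t)).const_mul m)
  have ξs : ContDiffOn ℝ ∞ ξ (Set.Ioi 0) := by
    rw [hξ]
    exact W.Vs.sub (contDiff_const.mul ((Q.smooth 62).sub (Q.smooth te))).contDiffOn
  have ξ62 : ∀ t ≤ 62, ξ t = 1 / fB t := by
    intro t ht
    rw [hξ]
    simp only [W.V62 t ht, Q.P0 (t - 62) (by linarith only [ht]),
      Q.P0 (t - te) (by linarith only [ht, te63]), sub_self, mul_zero, sub_zero]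
  have ξzero : ∀ t, te + 1 ≤ t → ξ t = 0 := by
    intro t ht
    rw [hξ]
    simp only [W.Vconst t (by linarith only [ht, te63]), Q.P1 (t - 62) (by linarith only [ht, te63]),
      Q.P1 (t - te) (by linarith only [ht])]
    have : m * (v / m) = v := mul_div_cancel₀ v mpos.ne'
    rw [hte]
    linear_combination -this
  have ξ1form : ∀ t, 61 ≤ t → ξ1 t = -(1 - smoothTransition (t - 62)) * (δ / l t ^ 2) -
      m * (smoothTransition (t - 62) - smoothTransition (t - te)) := by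
    intro t ht
    rw [hξ1]
    simp only [W.Vd61 t ht]
  have Smono : ∀ t, smoothTransition (t - te) ≤ smoothTransition (t - 62) := fun t =>
    smoothTransition.monotone (by linarith only [te63])
  have ξ1mem : ∀ t, 61 ≤ t → -K ≤ ξ1 t ∧ ξ1 t ≤ 0 := by
    intro t ht
    rw [ξ1form t ht, mK]
    exact coreFun_aux4 (smoothTransition.nonneg _) (smoothTransition.le_one _) (W.dlK t ht).1
      (W.dlK t ht).2 (Smono t) (smoothTransition.nonneg _) Kpos
  have ξmem : ∀ t, 61 ≤ t → 0 ≤ ξ t ∧ ξ t ≤ 1 / 20 := by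
    intro t ht
    constructor
    · rcases le_total t (te + 1) with h | h
      · have := coreA_le (f := ξ) (f' := ξ1) (c := 0) h
          (fun x hx => ξd x (by linarith only [hx.1, ht]))
          (fun x hx => (ξ1mem x (ht.trans hx.1)).2)
        rw [ξzero _ le_rfl] at this
        linarith only [this]
      · rw [ξzero t h]
    · have := coreA_le (f := ξ) (f' := ξ1) (c := 0) ht (fun x hx => ξd x (by linarith only [hx.1]))
        (fun x hx => (ξ1mem x hx.1).2)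
      rw [ξ62 61 (by norm_num), B.hf3] at this
      linarith only [this, W.i3]
  have dξ : ∀ t, 0 < t → deriv ξ t = ξ1 t := fun t ht => (ξd t ht).deriv
  have ξ1zero : ∀ t, te + 1 ≤ t → deriv ξ t = 0 := by
    intro t ht
    rw [dξ t (by linarith only [ht, te63]), ξ1form t (by linarith only [ht, te63]),
      coreFun_S1 (show 1 ≤ t - 62 by linarith only [ht, te63]),
      coreFun_S1 (show 1 ≤ t - te by linarith only [ht])]
    ring
  have ξ2 : ∀ t, 61 < t → 0 ≤ deriv (deriv ξ) t := by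
    intro t ht
    have e : deriv ξ =ᶠ[𝓝 t] fun t => -(1 - smoothTransition (t - 62)) * (δ / l t ^ 2) -
        m * (smoothTransition (t - 62) - smoothTransition (t - te)) := by
      filter_upwards [eventually_gt_nhds ht] with s hs
      rw [dξ s (by linarith only [hs]), ξ1form s hs.le]
    have ld : HasDerivAt l δ t := by
      have e2 : l =ᶠ[𝓝 t] fun t => f3 + δ * (t - 61) := by
        filter_upwards [eventually_gt_nhds ht] with s hs
        exact W.llin s hs.le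
      have h1 : HasDerivAt (fun t : ℝ => f3 + δ * (t - 61)) (δ * 1) t :=
        (((hasDerivAt_id t).sub_const 61).const_mul δ).const_add f3
      rw [mul_one] at h1
      exact h1.congr_of_eventuallyEq e2
    have hl := W.lpos t
    have h1 := ((((coreFun_Sc 62 t).const_sub 1).neg).mul ((hasDerivAt_const t δ).div (ld.pow 2)
      (pow_pos hl 2).ne')).sub (((coreFun_Sc 62 t).sub (coreFun_Sc te t)).const_mul m)
    have h2 : deriv (deriv ξ) t = deriv smoothTransition (t - 62) * (δ / l t ^ 2 - m) +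
        (1 - smoothTransition (t - 62)) * (2 * δ ^ 2 / l t ^ 3) +
        m * deriv smoothTransition (t - te) := by
      rw [e.deriv_eq]
      refine h1.deriv.trans ?_
      have := hl.ne'
      simp
      field_simp
      ring
    rw [h2]
    have a1 : 0 ≤ (1 - smoothTransition (t - 62)) * (2 * δ ^ 2 / l t ^ 3) :=
      mul_nonneg (sub_nonneg.2 (smoothTransition.le_one _))
        (div_nonneg (by positivity) (pow_pos hl 3).le)
    have a2 : 0 ≤ m * deriv smoothTransition (t - te) :=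
      mul_nonneg mpos.le (coreFun_SD_nonneg _)
    have a3 : 0 ≤ deriv smoothTransition (t - 62) * (δ / l t ^ 2 - m) := by
      rcases le_or_gt t 63 with h | h
      · refine mul_nonneg (coreFun_SD_nonneg _) ?_
        rw [sub_nonneg, hm]
        refine div_le_div_of_nonneg_left δpos.le (pow_pos hl 2) ?_
        have h4 : l t ≤ f3 + 2 * δ := by
          rw [W.llin t ht.le]
          have := mul_le_mul_of_nonneg_left (show t - 61 ≤ 2 by linarith only [h]) δpos.le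
          linarith only [this]
        exact coreFun_aux2 f3lo B.δlt hl.le h4
      · rw [coreFun_SD_zero (by linarith only [h]), zero_mul]
    exact add_nonneg (add_nonneg a3 a1) a2
  exact ⟨te, ξ, te63, tehi, ξs, ξ62, ξzero, fun t ht => by
    rw [dξ t (by linarith only [ht])]; exact ξ1mem t ht, ξ1zero, ξmem, ξ2⟩

/-- The function `g`. -/
structure CoreFunG (γ K te ν : ℝ) (gA g h2 : ℝ → ℝ) : Prop where
  νpos : 0 < ν
  νlt : ν < 1 / 1000
  h2n : ∀ t, 0 ≤ h2 t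
  h2form : ∀ t, 61 ≤ t → h2 t = 6 * K ^ 2 * (1 - smoothTransition (t - (te + 1)))
  gs : ContDiff ℝ ∞ g
  gd : ∀ t, HasDerivAt g (deriv g t) t
  ddg : ∀ t, deriv (deriv g) t = deriv (deriv gA) t - h2 t
  g60 : ∀ t ≤ 60, g t = gA t
  dg60 : ∀ t ≤ 60, deriv g t = deriv gA t
  g1mem : ∀ t, 6 / 5 ≤ t → ν ≤ deriv g t ∧ deriv g t ≤ γ
  g1end : ∀ t, te + 2 ≤ t → deriv g t = ν
  gge : ∀ t, 6 / 5 ≤ t → 99 / 100 ≤ g t
  gle : ∀ t, 6 / 5 ≤ t → g t ≤ 1001 / 1000 + γ * (t - 6 / 5)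
  gpos : ∀ t, 0 < t → 0 < g t

theorem coreFun_nu {γ δ f3 K te : ℝ} (hδ : δ = 400 * γ) (Kf : K * f3 ^ 2 = δ) (Kpos : 0 < K)
    (Klt : K ≤ 1 / 50000) (f3lo : 204 / 10 ≤ f3) (i3 : 1 / f3 ≤ 1 / 20)
    (tehi : te ≤ 62 + 2 * f3 / δ) : 0 < γ - 6 * K ^ 2 * (te - 59) := by
  have f3pos : 0 < f3 := by linarith only [f3lo]
  have e1 : 6 * K ^ 2 * (te - 59) ≤ 6 * K ^ 2 * (3 + 2 * f3 / δ) :=
    mul_le_mul_of_nonneg_left (by linarith only [tehi]) (by positivity)
  have e2 : 6 * K ^ 2 * (3 + 2 * f3 / δ) = 18 * K ^ 2 + 12 * K / f3 := by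
    rw [← Kf]
    field_simp
    ring
  have e3 : γ = K * f3 ^ 2 / 400 := by
    rw [Kf, hδ]
    ring
  have e4 : 12 * K / f3 ≤ 12 * K / 20 := by
    have : 12 * K / f3 = 12 * K * (1 / f3) := by ring
    rw [this]
    have := mul_le_mul_of_nonneg_left i3 (show 0 ≤ 12 * K by linarith only [Kpos])
    linarith only [this]
  have e5 : 18 * K ^ 2 ≤ K / 10 := by
    have := mul_le_mul_of_nonneg_left Klt Kpos.le
    linarith only [this, Kpos]
  have e6 : K * (204 / 10) ^ 2 / 400 ≤ K * f3 ^ 2 / 400 := by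
    have : (204 / 10 : ℝ) ^ 2 ≤ f3 ^ 2 := pow_le_pow_left₀ (by norm_num) f3lo 2
    have := mul_le_mul_of_nonneg_left this Kpos.le
    linarith only [this]
  rw [e3]
  rw [e2] at e1
  linarith only [e1, e4, e5, e6, Kpos]

theorem coreFun_exG {t0 γ σ K te : ℝ} {gA fA P : ℝ → ℝ} (A : CoreA t0 γ σ gA fA)
    (Q : CoreFunP P) (te63 : 63 ≤ te) (Kpos : 0 < K)
    (hnu : 0 < γ - 6 * K ^ 2 * (te - 59)) :
    ∃ (ν : ℝ) (g h2 : ℝ → ℝ), CoreFunG γ K te ν gA g h2 := by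
  have gAd : ∀ t, HasDerivAt gA (deriv gA t) t := fun t =>
    ((contDiff_infty_iff_deriv.1 A.smooth_g).1 t).hasDerivAt
  have gAs1 : ContDiff ℝ ∞ (deriv gA) := (contDiff_infty_iff_deriv.1 A.smooth_g).2
  have gAd1 : ∀ t, HasDerivAt (deriv gA) (deriv (deriv gA) t) t := fun t =>
    ((contDiff_infty_iff_deriv.1 gAs1).1 t).hasDerivAt
  obtain ⟨h1, hh1⟩ : ∃ h1 : ℝ → ℝ, h1 = fun t => 6 * K ^ 2 * (P (t - 60) - P (t - (te + 1))) :=
    ⟨_, rfl⟩
  obtain ⟨h2, hh2⟩ : ∃ h2 : ℝ → ℝ, h2 = fun t => 6 * K ^ 2 * (smoothTransition (t - 60) -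
    smoothTransition (t - (te + 1))) := ⟨_, rfl⟩
  obtain ⟨h, hh⟩ : ∃ h : ℝ → ℝ, h = fun t => 0 + ∫ s in (0 : ℝ)..t, h1 s := ⟨_, rfl⟩
  have h1s : ContDiff ℝ ∞ h1 := by
    rw [hh1]
    exact contDiff_const.mul ((Q.smooth 60).sub (Q.smooth (te + 1)))
  have h1d : ∀ t, HasDerivAt h1 (h2 t) t := fun t => by
    rw [hh1, hh2]
    exact ((Q.dc 60 t).sub (Q.dc (te + 1) t)).const_mul _
  have hd : ∀ t, HasDerivAt h (h1 t) t := fun t => by
    rw [hh]
    exact coreA_prim h1s.continuous 0 t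
  have hs := coreA_smooth hd h1s
  have K2 : 0 < K ^ 2 := pow_pos Kpos 2
  have K6 : 0 ≤ 6 * K ^ 2 := by linarith only [K2]
  have h2n : ∀ t, 0 ≤ h2 t := fun t => by
    rw [hh2]
    have : smoothTransition (t - (te + 1)) ≤ smoothTransition (t - 60) :=
      smoothTransition.monotone (by linarith only [te63])
    exact mul_nonneg K6 (sub_nonneg.2 this)
  have h1z : ∀ t ≤ 60, h1 t = 0 := fun t ht => by
    rw [hh1]
    simp only [Q.P0 (t - 60) (by linarith only [ht]),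
      Q.P0 (t - (te + 1)) (by linarith only [ht, te63]), sub_self, mul_zero]
  have hz0 : ∀ t ≤ 60, h t = 0 := by
    intro t ht
    rw [hh]
    have h : ∫ s in (0 : ℝ)..t, h1 s = ∫ _s in (0 : ℝ)..t, (0 : ℝ) := by
      refine intervalIntegral.integral_congr fun s hs => ?_
      have hs1 : s ≤ 60 := (Set.mem_uIcc.mp hs).elim (fun h => h.2.trans ht)
        (fun h => h.2.trans (by norm_num))
      exact h1z s hs1
    simp only [h]
    simp
  have h1end : ∀ t, te + 2 ≤ t → h1 t = 6 * K ^ 2 * (te - 59) := by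
    intro t ht
    rw [hh1]
    simp only [Q.P1 (t - 60) (by linarith only [ht, te63]),
      Q.P1 (t - (te + 1)) (by linarith only [ht])]
    ring
  have h1n : ∀ t, 0 ≤ h1 t := by
    intro t
    rcases le_total t 60 with h | h
    · rw [h1z t h]
    · have := coreA_ge (f := h1) (f' := h2) (c := 0) h (fun x _ => h1d x) (fun x _ => h2n x)
      rw [h1z 60 le_rfl] at this
      linarith only [this]
  have h1le : ∀ t, h1 t ≤ 6 * K ^ 2 * (te - 59) := by
    intro t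
    rcases le_total t (te + 2) with h | h
    · have := coreA_ge (f := h1) (f' := h2) (c := 0) h (fun x _ => h1d x) (fun x _ => h2n x)
      rw [h1end _ le_rfl] at this
      linarith only [this]
    · rw [h1end t h]
  obtain ⟨ν, hν⟩ : ∃ ν : ℝ, ν = γ - 6 * K ^ 2 * (te - 59) := ⟨_, rfl⟩
  have νpos : 0 < ν := by rw [hν]; exact hnu
  have νlt : ν < 1 / 1000 := by
    have : 0 ≤ 6 * K ^ 2 * (te - 59) := mul_nonneg K6 (by linarith only [te63])
    rw [hν]
    linarith only [A.gam_lt, this]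
  obtain ⟨g, hg⟩ : ∃ g : ℝ → ℝ, g = fun t => gA t - h t := ⟨_, rfl⟩
  have gd : ∀ t, HasDerivAt g (deriv gA t - h1 t) t := fun t => by
    rw [hg]
    exact (gAd t).sub (hd t)
  have dg : deriv g = fun t => deriv gA t - h1 t := funext fun t => (gd t).deriv
  have ddg : ∀ t, deriv (deriv g) t = deriv (deriv gA) t - h2 t := fun t => by
    rw [dg]
    exact ((gAd1 t).sub (h1d t)).deriv
  have gs : ContDiff ℝ ∞ g := by
    rw [hg]
    exact A.smooth_g.sub hs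
  have g60 : ∀ t ≤ 60, g t = gA t := fun t ht => by
    rw [hg]
    simp only [hz0 t ht, sub_zero]
  have dg60 : ∀ t ≤ 60, deriv g t = deriv gA t := fun t ht => by
    rw [dg]
    simp only [h1z t ht, sub_zero]
  have g1mem : ∀ t, 6 / 5 ≤ t → ν ≤ deriv g t ∧ deriv g t ≤ γ := by
    intro t ht
    rw [dg]
    simp only [A.end_g t ht]
    have e1 := h1n t
    have e2 := h1le t
    rw [hν]
    constructor
    · linarith only [e2]
    · linarith only [e1]
  have g1end : ∀ t, te + 2 ≤ t → deriv g t = ν := by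
    intro t ht
    rw [dg]
    simp only [A.end_g t (by linarith only [ht, te63]), h1end t ht, hν]
  have gd' : ∀ t, HasDerivAt g (deriv g t) t := fun t => by
    rw [dg]
    exact gd t
  have g65 := g60 (6 / 5) (by norm_num)
  have m65 := A.g_mem (6 / 5) ⟨by norm_num, le_rfl⟩
  rw [← g65] at m65
  have gge : ∀ t, 6 / 5 ≤ t → 99 / 100 ≤ g t := by
    intro t ht
    have e1 := coreA_ge (f := g) (f' := deriv g) (c := 0) ht (fun x _ => gd' x)
      (fun x hx => νpos.le.trans (g1mem x hx.1).1)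
    linarith only [e1, m65.1]
  have gle : ∀ t, 6 / 5 ≤ t → g t ≤ 1001 / 1000 + γ * (t - 6 / 5) := by
    intro t ht
    have e1 := coreA_le (f := g) (f' := deriv g) (c := γ) ht (fun x _ => gd' x)
      (fun x hx => (g1mem x hx.1).2)
    linarith only [e1, m65.2]
  have gpos : ∀ t, 0 < t → 0 < g t := by
    intro t ht
    rcases le_total t (6 / 5) with h | h
    · rw [g60 t (by linarith only [h])]
      linarith only [(A.g_mem t ⟨ht, h⟩).1]
    · linarith only [gge t h]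
  exact ⟨ν, g, h2, νpos, νlt, h2n, fun t ht => by
    rw [hh2]
    simp only [coreFun_S1 (show 1 ≤ t - 60 by linarith only [ht])], gs, gd', ddg, g60, dg60, g1mem,
    g1end, gge, gle, gpos⟩

/-- All the data at once. -/
structure CoreFunAll (t0 γ σ δ f3 K te ν : ℝ) (gA fA fB f1 ξ g h2 : ℝ → ℝ) : Prop where
  A : CoreA t0 γ σ gA fA
  B : CoreFunB σ δ f3 fA fB f1
  X : CoreFunX δ f3 K te fB ξ
  G : CoreFunG γ K te ν gA g h2
  hδ : δ = 400 * γ
  Kpos : 0 < K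
  Klt : K ≤ 1 / 50000

section regions

variable {t0 γ σ δ f3 K te ν : ℝ} {gA fA fB f1 ξ g h2 : ℝ → ℝ}

theorem CoreFunAll.dfB (D : CoreFunAll t0 γ σ δ f3 K te ν gA fA fB f1 ξ g h2) : deriv fB = f1 :=
  funext fun t => (D.B.fBd t).deriv

theorem CoreFunAll.gA2 (D : CoreFunAll t0 γ σ δ f3 K te ν gA fA fB f1 ξ g h2) (t : ℝ)
    (ht : 6 / 5 < t) : deriv (deriv gA) t = 0 := by
  have : deriv gA =ᶠ[𝓝 t] fun _ => γ := by
    filter_upwards [eventually_gt_nhds ht] with s hs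
    exact D.A.end_g s hs.le
  rw [this.deriv_eq]
  simp

theorem CoreFunAll.fA2 (D : CoreFunAll t0 γ σ δ f3 K te ν gA fA fB f1 ξ g h2) (t : ℝ)
    (ht : 6 / 5 < t) : deriv (deriv fA) t = 0 := by
  have : deriv fA =ᶠ[𝓝 t] fun _ => σ := by
    filter_upwards [eventually_gt_nhds ht] with s hs
    exact D.A.end_f s hs.le
  rw [this.deriv_eq]
  simp

theorem CoreFunAll.reg1 (D : CoreFunAll t0 γ σ δ f3 K te ν gA fA fB f1 ξ g h2) (t : ℝ)
    (ht : 0 < t) (c1 : t < 1) : CoreOK g ξ t := by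
  have t60 : t ≤ 60 := by linarith only [c1]
  have e1 : fB =ᶠ[𝓝 t] fun s => Real.sin s := by
    filter_upwards [eventually_lt_nhds c1] with s hs
    rw [(D.B.fB60 s (by linarith only [hs])).1, D.A.f_start s hs.le]
  have e2 : deriv fB =ᶠ[𝓝 t] fun s => Real.cos s := by
    refine e1.deriv.trans (Eventually.of_forall fun s => ?_)
    simp
  have r := D.A.reg_a t ⟨ht, c1.le⟩
  have hgt : g t = gA t := D.G.g60 t t60
  have hdg : deriv g t = deriv gA t := D.G.dg60 t t60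
  have hgm := D.A.g_mem t ⟨ht, by linarith only [c1]⟩
  have hsin : fB t = Real.sin t := e1.self_of_nhds
  have hdf : deriv fB t = deriv fA t := by rw [D.dfB]; exact (D.B.fB60 t t60).2
  refine coreOK_a (f := fB) D.B.fBs.contDiffAt ?_ (D.B.fBpos t ht) ?_ ?_ ?_ ?_ ?_ ?_ ?_
  · filter_upwards [eventually_lt_nhds c1] with s hs
    exact D.X.ξ62 s (by linarith only [hs])
  · rw [hsin]
    exact coreFun_sin ht c1.le
  · rw [e2.deriv_eq, hsin]
    simp
  · rw [e2.self_of_nhds]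
    exact (Real.cos_pos_of_mem_Ioo ⟨by linarith only [Real.pi_pos, ht],
      by linarith only [Real.pi_gt_three, c1]⟩).le
  · rw [hgt]
    exact ⟨by linarith only [hgm.1], by linarith only [hgm.2]⟩
  · rw [hdg]
    exact r.1
  · rw [hdg, hdf, (D.B.fB60 t t60).1]
    exact r.2.1
  · rw [D.G.ddg]
    linarith only [r.2.2, D.G.h2n t]

theorem CoreFunAll.reg2 (D : CoreFunAll t0 γ σ δ f3 K te ν gA fA fB f1 ξ g h2) (t : ℝ)
    (c1 : 1 ≤ t) (c2 : t ≤ 6 / 5) : CoreOK g ξ t := by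
  obtain ⟨r1, r2, r3, r4, r5, k, hk, r6, r7⟩ := D.A.reg_b t ⟨c1, c2⟩
  have t60 : t ≤ 60 := by linarith only [c2]
  have hgt : g t = gA t := D.G.g60 t t60
  have hdg : deriv g t = deriv gA t := D.G.dg60 t t60
  have hgm := D.A.g_mem t ⟨by linarith only [c1], c2⟩
  have hft : fB t = fA t := (D.B.fB60 t t60).1
  have hdf : deriv fB t = deriv fA t := by rw [D.dfB]; exact (D.B.fB60 t t60).2
  refine coreOK_b (f := fB) (k := k) D.B.fBs.contDiffAt ?_ ?_ ?_ ?_ hk.1 hk.2 (Or.inr ?_) ?_ ?_ ?_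
    ?_ ?_
  · filter_upwards [eventually_lt_nhds (show t < 62 by linarith only [c2])] with s hs
    exact D.X.ξ62 s hs.le
  · rw [hft]; exact r3.1
  · rw [hdf]; exact r4
  · rw [hdf]; exact r5
  · rw [hft]; exact r3.2
  · rw [D.dfB]
    exact (D.B.df1 t).trans r7
  · rw [hgt]
    exact ⟨by linarith only [hgm.1], by linarith only [hgm.2]⟩
  · rw [hdg]; exact r1
  · rw [hdg]; exact r2
  · rw [D.G.ddg]
    linarith only [r6, D.G.h2n t]

theorem CoreFunAll.reg3 (D : CoreFunAll t0 γ σ δ f3 K te ν gA fA fB f1 ξ g h2) (t : ℝ)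
    (c2 : 6 / 5 < t) (c3 : t ≤ 61) : CoreOK g ξ t := by
  have m1 := D.B.f1mem t c2.le
  have m2 := D.G.g1mem t c2.le
  have gam := D.A.gam_lt
  refine coreOK_b (f := fB) (k := 0) D.B.fBs.contDiffAt ?_ (D.B.fBge t (by linarith only [c2])) ?_
    ?_ le_rfl zero_le_one (Or.inl rfl) ?_ ?_ ?_ ?_ ?_
  · filter_upwards [eventually_lt_nhds (show t < 62 by linarith only [c3])] with s hs
    exact D.X.ξ62 s hs.le
  · rw [D.dfB]; exact D.B.δpos.le.trans m1.1
  · rw [D.dfB]; linarith only [m1.2, D.A.sig_hi]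
  · rw [D.dfB]
    have := D.B.df1 t
    rw [D.fA2 t c2] at this
    linarith only [this]
  · have e1 := D.G.gge t c2.le
    have e2 := D.G.gle t c2.le
    have e3 := mul_le_mul_of_nonneg_left (show t - 6 / 5 ≤ 60 by linarith only [c3])
      D.A.gam_pos.le
    constructor
    · linarith only [e1]
    · linarith only [e2, e3, gam]
  · exact D.G.νpos.le.trans m2.1
  · linarith only [m2.2, gam]
  · rw [D.G.ddg, D.gA2 t c2]
    linarith only [D.G.h2n t]

theorem CoreFunAll.reg4 (D : CoreFunAll t0 γ σ δ f3 K te ν gA fA fB f1 ξ g h2) (t : ℝ)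
    (c3 : 61 < t) (c4 : t ≤ te + 2) : CoreOK g ξ t := by
  have c2 : 6 / 5 < t := by linarith only [c3]
  have m1 := D.X.ξmem t c3.le
  have m2 := D.X.ξ1mem t c3.le
  have m3 := D.G.g1mem t c2.le
  have Kpos := D.Kpos
  have gam := D.A.gam_lt
  refine coreOK_c m1.1 m1.2 ?_ (D.X.ξ2 t c3) ?_ ?_ ?_
  · rw [abs_le]
    constructor
    · linarith only [m2.1, D.Klt]
    · linarith only [m2.2]
  · have e1 := D.G.gge t c2.le
    have e2 := D.G.gle t c2.le
    refine ⟨by linarith only [e1], ?_⟩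
    have e3 : γ * (t - 6 / 5) ≤ γ * (64 + 2 * f3 / δ) :=
      mul_le_mul_of_nonneg_left (by linarith only [c4, D.X.tehi]) D.A.gam_pos.le
    have gp := D.A.gam_pos
    have e4 : γ * (64 + 2 * f3 / δ) = 64 * γ + f3 / 200 := by
      rw [D.hδ]
      field_simp
      ring
    rw [e4] at e3
    linarith only [e2, e3, gam, D.B.f3hi]
  · rw [abs_le]
    constructor
    · linarith only [m3.1, D.G.νpos]
    · linarith only [m3.2, gam]
  · rw [D.G.ddg, D.gA2 t c2, D.G.h2form t c3.le]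
    rcases le_or_gt t (te + 1) with c5 | c5
    · rw [coreFun_S0 (show t - (te + 1) ≤ 0 by linarith only [c5])]
      have : deriv ξ t ^ 2 ≤ K ^ 2 := by
        rw [sq_le_sq, abs_of_nonpos m2.2, abs_of_pos Kpos]
        linarith only [m2.1]
      linarith only [this]
    · rw [D.X.ξ1zero t c5.le]
      have := mul_nonneg (pow_pos Kpos 2).le (sub_nonneg.2 (smoothTransition.le_one (t - (te + 1))))
      linarith only [this]

theorem CoreFunAll.reg5 (D : CoreFunAll t0 γ σ δ f3 K te ν gA fA fB f1 ξ g h2) (t : ℝ)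
    (c4 : te + 2 < t) : CoreOK g ξ t := by
  have te63 := D.X.te63
  refine coreFun_end (ν := ν) (D.G.g1end t c4.le) ?_ (D.X.ξzero t (by linarith only [c4]))
    (D.X.ξ1zero t (by linarith only [c4])) (pow_le_one₀ D.G.νpos.le (by linarith only [D.G.νlt]))
  rw [D.G.ddg, D.gA2 t (by linarith only [c4, te63]), D.G.h2form t (by linarith only [c4, te63]),
    coreFun_S1 (show 1 ≤ t - (te + 1) by linarith only [c4])]
  ring

theorem CoreFunAll.done (D : CoreFunAll t0 γ σ δ f3 K te ν gA fA fB f1 ξ g h2) :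
    CoreFun t0 (te + 3) (g (te + 3)) ν g ξ := by
  have te63 := D.X.te63
  refine ⟨D.A.t0_pos, D.A.t0_lt, by linarith only [te63], D.G.νpos, by linarith only [D.G.νlt],
    D.G.gpos _ (by linarith only [te63]), D.G.gs.contDiffOn, D.X.ξs, ?_, ?_, ?_, ?_, D.G.gpos, ?_⟩
  · intro t ht
    have h3 := D.A.t0_lt
    rw [D.G.g60 t (by linarith only [ht.2, h3]), D.A.g_start t ht.2]
  · intro t ht
    have h3 := D.A.t0_lt
    rw [D.X.ξ62 t (by linarith only [ht.2, h3]), (D.B.fB60 t (by linarith only [ht.2, h3])).1,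
      D.A.f_start t (by linarith only [ht.2, h3])]
  · intro t ht
    have ht' : te + 2 ≤ t := by linarith only [ht]
    have key : ∀ x, te + 2 ≤ x → g x = g (te + 2) + ν * (x - (te + 2)) := by
      intro x hx
      have e1 := coreA_le (f := g) (f' := deriv g) (c := ν) hx (fun x _ => D.G.gd x)
        (fun x hx => (D.G.g1end x hx.1).le)
      have e2 := coreA_ge (f := g) (f' := deriv g) (c := ν) hx (fun x _ => D.G.gd x)
        (fun x hx => (D.G.g1end x hx.1).ge)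
      exact le_antisymm e1 e2
    rw [key t ht', key (te + 3) (by linarith only)]
    ring
  · intro t ht
    exact D.X.ξzero t (by linarith only [ht])
  · intro t ht
    rcases lt_or_ge t 1 with c1 | c1
    · exact D.reg1 t ht c1
    rcases le_or_gt t (6 / 5) with c2 | c2
    · exact D.reg2 t c1 c2
    rcases le_or_gt t 61 with c3 | c3
    · exact D.reg3 t c2 c3
    rcases le_or_gt t (te + 2) with c4 | c4
    · exact D.reg4 t c3 c4
    · exact D.reg5 t c4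

end regions

theorem exists_coreFun : ∃ (t0 T0 gT ν : ℝ) (g ξ : ℝ → ℝ), CoreFun t0 T0 gT ν g ξ := by
  obtain ⟨t0, γ, σ, gA, fA, A⟩ := exists_coreA
  obtain ⟨P, Q⟩ := coreFun_exP
  obtain ⟨f3, fB, f1, B⟩ := coreFun_exB A Q (δ := 400 * γ) rfl
  obtain ⟨K, v, l, V, V1, W⟩ := coreFun_exV Q B
  obtain ⟨te, ξ, X⟩ := coreFun_exX Q B W
  obtain ⟨ν, g, h2, G⟩ := coreFun_exG A Q X.te63 W.Kpos
    (coreFun_nu rfl W.Kf W.Kpos W.Klt B.f3lo W.i3 X.tehi)
  exact ⟨t0, te + 3, g (te + 3), ν, g, ξ,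
    CoreFunAll.done ⟨A, B, X, G, rfl, W.Kpos, W.Klt⟩⟩

end Pool.Agent.W_MP_654ec6
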