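import Pool.Agent.W_MP_654ec6.A.KK
import Pool.Agent.W_MP_654ec6.E.CoreRicAlg

/-!
# Task E1: the Ricci curvature of the core metric

Apply `ricq_kk` to `coreKK g ξ` (`E = 1`, `P = g`, `N = g c s/ℓ`, `H = g ℓ/(2 √D)`, `a = c²/ℓ²`,
`c = cos x`, `s = sin x`, `ℓ² = 1 + 3 s²`, `D = 1 + g² ξ² ℓ²`). With `w = g' ξ + g ξ'` and
`S1, S2, S3` at `L = ℓ²` the components in the orthonormal frame of `ricq_kk` are
`R00 = S1 + 3 ℓ² w²/D²`, `R01 = 9 c s ξ w/D²` , `R11 = S2 + 3 (9 c² s² ξ²/(ℓ² D²) + 4 ξ²/(ℓ² D))`,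
`R22 = S2 + 12 ξ²/(ℓ² D)`, `R33 = S3 + 3 (ℓ² w²/D² + 9 c² s² ξ²/(ℓ² D²))`,
`R23 = ± 18 c s ξ²/(ℓ² D^{3/2})`, the others vanish (checked numerically).
With `u = ℓ w/D`, `v = 3 c s ξ/(ℓ D)`, `r = 2 ξ/(ℓ √D)`:
`ricq = S1 w0² + S2 (w1² + w2²) + S3 w3² + 3 [(u w0 + v w1)² + r² w1² + (r w2 ± v w3)² + u² w3²] ≥ 0`.
To verify the components it is convenient to write `H = g ℓ/(2 √D)` through its square and the
logarithmic derivatives: `H_t/H = g'/g - ℓ² g ξ w/D`, `H_x/H = 3 c s/(ℓ² D)`,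
`N_t/N = g'/g`, `N_x/N = c/s - s/c - 3 s c/ℓ²`, `a' = -8 c s/ℓ⁴`
(`a = c²/ℓ²`, `a' = (-2 c s ℓ² - 6 c³ s)/ℓ⁴ = -2 c s (ℓ² + 3 c²)/ℓ⁴`, `ℓ² + 3 c² = 4`).
-/

open scoped ContDiff Topology
open Filter Real

namespace Pool.Agent.W_MP_654ec6

theorem ricGE_core {g ξ : ℝ → ℝ} {y : E4} (hg : ContDiffAt ℝ ∞ g (y 0))
    (hξ : ContDiffAt ℝ ∞ ξ (y 0)) (hg0 : 0 < g (y 0)) (hx : y 1 ∈ Set.Ioo 0 (π / 2))
    (h : CoreOK g ξ (y 0)) : RicGE (coreKK g ξ) 0 y := by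
  intro v
  rw [zero_mul]
  obtain ⟨hge, hg2⟩ := coreRic_deriv_deriv hg
  obtain ⟨hξe, hξ2⟩ := coreRic_deriv_deriv hξ
  have hg1 := hge.self_of_nhds
  have hξ1 := hξe.self_of_nhds
  have hN := coreRic_smooth_N (p := (y 0, y 1)) hg
  have hH := coreRic_smooth_H (p := (y 0, y 1)) hg hξ
  have hc := Real.cos_pos_of_mem_Ioo ⟨by linarith [hx.1, Real.pi_pos], hx.2⟩
  have hs := Real.sin_pos_of_pos_of_lt_pi hx.1 (by linarith [hx.2, Real.pi_pos])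
  obtain ⟨t, ht⟩ : ∃ t, t = y 0 := ⟨_, rfl⟩
  obtain ⟨x, hx'⟩ : ∃ x, x = y 1 := ⟨_, rfl⟩
  rw [← ht] at hg hξ hg0 h hge hg2 hξe hξ2 hg1 hξ1
  rw [← hx'] at hc hs
  have hLr : ell2 x ∈ Set.Icc (1 : ℝ) 4 := by
    unfold ell2
    constructor
    · nlinarith [sq_nonneg (Real.sin x)]
    · nlinarith [Real.sin_sq_le_one x]
  obtain ⟨hS1, hS2, hS3⟩ := h (ell2 x) hLr
  -- the functions
  obtain ⟨N, hNd⟩ : ∃ N : ℝ → ℝ → ℝ, N = fun t x => g t * Real.cos x * Real.sin x / √(ell2 x) :=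
    ⟨_, rfl⟩
  obtain ⟨H, hHd⟩ : ∃ H : ℝ → ℝ → ℝ, H = fun t x => g t * √(ell2 x) /
    (2 * √(1 + g t ^ (2 : ℕ) * ξ t ^ (2 : ℕ) * ell2 x)) := ⟨_, rfl⟩
  obtain ⟨a, had⟩ : ∃ a : ℝ → ℝ, a = fun x => Real.cos x ^ (2 : ℕ) / ell2 x := ⟨_, rfl⟩
  have hmet : coreKK g ξ = kkMet (fun _ => 1) g N H a := by rw [hNd, hHd, had]; rfl
  have hl := coreRic_ell_pos x
  have hr := coreRic_rho_pos g ξ t x
  have hl2 := coreRic_ell_sq x
  have hr2 := coreRic_rho_sq g ξ t x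
  obtain ⟨l, hld⟩ : ∃ l, l = √(ell2 x) := ⟨_, rfl⟩
  obtain ⟨r, hrd⟩ : ∃ r, r = √(1 + g t ^ (2 : ℕ) * ξ t ^ (2 : ℕ) * ell2 x) := ⟨_, rfl⟩
  rw [← hld] at hl hl2
  rw [← hrd] at hr hr2
  have vN : N t x = g t * cos x * sin x / l := by rw [hNd, hld]
  have vNt : dT N t x = deriv g t * cos x * sin x / l := by
    rw [hNd, hld]
    exact (((hg1.mul_const _).mul_const _).div_const _).deriv
  have vNtt : dT (dT N) t x = deriv (deriv g) t * cos x * sin x / l := by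
    have e : (fun s => dT N s x) =ᶠ[𝓝 t] fun s => deriv g s * cos x * sin x / l := by
      filter_upwards [hge] with s hs
      rw [hNd, hld]
      exact (((hs.mul_const _).mul_const _).div_const _).deriv
    have : dT (dT N) t x = deriv (fun s => dT N s x) t := rfl
    rw [this, e.deriv_eq]
    exact (((hg2.mul_const _).mul_const _).div_const _).deriv
  have eNx : dX N = fun t x => g t * ((cos x ^ (2 : ℕ) - sin x ^ (2 : ℕ)) / √(ell2 x) -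
        3 * cos x ^ (2 : ℕ) * sin x ^ (2 : ℕ) / √(ell2 x) ^ (3 : ℕ)) := by
    rw [hNd]
    funext t x
    exact (coreRic_N_x g t x).deriv
  have vNx : dX N t x = g t * ((cos x ^ (2 : ℕ) - sin x ^ (2 : ℕ)) / l -
        3 * cos x ^ (2 : ℕ) * sin x ^ (2 : ℕ) / l ^ (3 : ℕ)) := by
    rw [eNx, hld]
  have vNtx : dT (dX N) t x = deriv g t * ((cos x ^ (2 : ℕ) - sin x ^ (2 : ℕ)) / l -
        3 * cos x ^ (2 : ℕ) * sin x ^ (2 : ℕ) / l ^ (3 : ℕ)) := by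
    rw [eNx, hld]
    exact (hg1.mul_const _).deriv
  have vNxx : dX (dX N) t x = g t * (-4 * cos x * sin x / l -
        9 * sin x * cos x * (cos x ^ (2 : ℕ) - sin x ^ (2 : ℕ)) / l ^ (3 : ℕ) +
        27 * cos x ^ (3 : ℕ) * sin x ^ (3 : ℕ) / l ^ (5 : ℕ)) := by
    rw [eNx, hld]
    exact (coreRic_N_xx g t x).deriv
  have vH : H t x = g t * l / (2 * r) := by rw [hHd, hld, hrd]
  have vHt : dT H t x = l * (deriv g t - g t ^ (3 : ℕ) * ξ t * deriv ξ t * ell2 x) / (2 * r ^ (3 : ℕ)) := by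
    rw [hHd, hld, hrd]
    exact (coreRic_H_t hg1 hξ1 x).deriv
  have vHtt : dT (dT H) t x = l * ((deriv (deriv g) t - (3 * g t ^ (2 : ℕ) * deriv g t * ξ t * deriv ξ t +
      g t ^ (3 : ℕ) * deriv ξ t ^ (2 : ℕ) + g t ^ (3 : ℕ) * ξ t * deriv (deriv ξ) t) * ell2 x) / r ^ (3 : ℕ) -
      3 * (deriv g t - g t ^ (3 : ℕ) * ξ t * deriv ξ t * ell2 x) * (g t * ξ t * (deriv g t * ξ t +
      g t * deriv ξ t) * ell2 x) / r ^ (5 : ℕ)) / 2 := by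
    have e : (fun s => dT H s x) =ᶠ[𝓝 t] fun s => √(ell2 x) *
        (deriv g s - g s ^ (3 : ℕ) * ξ s * deriv ξ s * ell2 x) /
        (2 * √(1 + g s ^ (2 : ℕ) * ξ s ^ (2 : ℕ) * ell2 x) ^ (3 : ℕ)) := by
      filter_upwards [hge, hξe] with s hs hs'
      rw [hHd]
      exact (coreRic_H_t hs hs' x).deriv
    have : dT (dT H) t x = deriv (fun s => dT H s x) t := rfl
    rw [this, e.deriv_eq, hld, hrd]
    exact (coreRic_H_tt hg1 hξ1 hg2 hξ2 x).deriv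
  have eHx : dX H = fun t x => 3 * g t * sin x * cos x / (2 * √(ell2 x) *
      √(1 + g t ^ (2 : ℕ) * ξ t ^ (2 : ℕ) * ell2 x) ^ (3 : ℕ)) := by
    rw [hHd]
    funext t x
    exact (coreRic_H_x g ξ t x).deriv
  have vHx : dX H t x = 3 * g t * sin x * cos x / (2 * l * r ^ (3 : ℕ)) := by
    rw [eHx, hld, hrd]
  have vHtx : dT (dX H) t x = 3 * sin x * cos x / (2 * l) * (deriv g t / r ^ (3 : ℕ) -
      3 * g t ^ (2 : ℕ) * ξ t * (deriv g t * ξ t + g t * deriv ξ t) * ell2 x / r ^ (5 : ℕ)) := by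
    rw [eHx, hld, hrd]
    exact (coreRic_H_xt hg1 hξ1 x).deriv
  have vHxx : dX (dX H) t x = 3 * g t / 2 * ((cos x ^ (2 : ℕ) - sin x ^ (2 : ℕ)) / (l * r ^ (3 : ℕ)) -
      3 * sin x ^ (2 : ℕ) * cos x ^ (2 : ℕ) / (l ^ (3 : ℕ) * r ^ (3 : ℕ)) - 9 * g t ^ (2 : ℕ) * ξ t ^ (2 : ℕ) * sin x ^ (2 : ℕ) * cos x ^ (2 : ℕ) /
        (l * r ^ (5 : ℕ))) := by
    rw [eHx, hld, hrd]
    exact (coreRic_H_xx g ξ t x).deriv
  have ea1 : deriv a = fun x => -8 * cos x * sin x / ell2 x ^ 2 := by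
    rw [had]
    funext x
    exact (coreRic_a1 x).deriv
  have va1 : deriv a x = -8 * cos x * sin x / l ^ 4 := by
    rw [ea1]
    simp only
    rw [← hl2]
    ring
  have va2 : deriv (deriv a) x = -8 * (cos x ^ (2 : ℕ) - sin x ^ (2 : ℕ)) / l ^ (4 : ℕ) +
      96 * cos x ^ (2 : ℕ) * sin x ^ (2 : ℕ) / l ^ 6 := by
    rw [ea1, (coreRic_a2 x).deriv, ← hl2]
    ring
  obtain ⟨q1, q2, q3, q4, q5, q6, q7, q8, q9, q10, q11, q12⟩ := coreRic_alg (G := g t)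
    (G1 := deriv g t) (G2 := deriv (deriv g) t) (X := ξ t) (X1 := deriv ξ t)
    (X2 := deriv (deriv ξ) t) (s := sin x) (c := cos x) (l := l) (r := r) (L := ell2 x)
    (D := r ^ (2 : ℕ)) hg0.ne' hs.ne' hc.ne' hl.ne' hr.ne' hl2.symm rfl vN vNt vNtt vNx vNtx vNxx
    vH vHt vHx vHtt vHtx vHxx va1 va2 rfl
  have hn0 : N t x ≠ 0 := by
    rw [vN]
    positivity
  have hh0 : H t x ≠ 0 := by
    rw [vH]
    positivity
  obtain ⟨r1, r2, r3, r4, r5⟩ := coreRic_alg3 (S1 := coreS1 g ξ (ell2 x) t)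
    (S2 := coreS2 g ξ (ell2 x) t) (S3 := coreS3 g ξ (ell2 x) t)
    (w := deriv g t * ξ t + g t * deriv ξ t) hg0.ne' hs.ne' hc.ne' hr.ne' hn0 hh0
    rfl rfl (coreRic_ell2_pos x).ne' (by linarith only [Real.sin_sq_add_cos_sq x]) hr2
    (by rw [hr2]; rfl) (by rw [hr2]; rfl) (by rw [hr2]; rfl) rfl q1 q2 q3 q4 q5 q6 q7 q8 q9 q10 q11
  have hfin := coreRic_alg4 (G := g t) (X := ξ t) (s := sin x) (c := cos x) (l := l) (r := r)
    (L := ell2 x) (D := r ^ (2 : ℕ)) (w := deriv g t * ξ t + g t * deriv ξ t)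
    (w0 := 1 * v 0) (w1 := g t * v 1) (w2 := N t x * v 2) (w3 := H t x * (v 3 + a x * v 2))
    hg0.ne' hl.ne' hr.ne' hl2.symm rfl hr2 hS1 hS2 hS3
  have hac : ContDiffAt ℝ ∞ a x := by
    rw [had]
    exact coreRic_smooth_a.contDiffAt
  have hNc : ContDiffAt ℝ ∞ (fun p : ℝ × ℝ => N p.1 p.2) (y 0, y 1) := by
    rw [hNd]
    exact hN
  have hHc : ContDiffAt ℝ ∞ (fun p : ℝ × ℝ => H p.1 p.2) (y 0, y 1) := by
    rw [hHd]
    exact hH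
  clear hN hH hge hξe hNd hHd had
  subst ht hx'
  rw [hmet, ricq_kk (E := fun _ => (1 : ℝ)) (P := g) (N := N) (H := H) (a := a) (y := y) (s := 1)
    (e1 := 0) contDiffAt_const hg hac hNc hHc one_pos (by norm_num) (by simp) rfl rfl rfl
    hg0.ne' hn0 hh0 rfl rfl rfl rfl rfl rfl rfl rfl rfl rfl rfl rfl rfl rfl rfl
    (P1 := deriv g (y 0)) (P2 := deriv (deriv g) (y 0)) (N1 := dT N (y 0) (y 1))
    (N2 := dT (dT N) (y 0) (y 1)) (H1 := dT H (y 0) (y 1)) (H2 := dT (dT H) (y 0) (y 1))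
    (by simp) (by simp) (by simp) (by simp) (by simp) (by simp) rfl r1 r2 r3 r4 r5 q12.symm v]
  exact hfin

end Pool.Agent.W_MP_654ec6
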