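import Pool.Agent.W_MP_654ec6.E.CoreRic
import Pool.Agent.W_MP_654ec6.E.CoreZ

/-!
# The Ricci curvature of the core metric
-/

open scoped ContDiff Topology
open Filter Set Real

namespace Pool.Agent.W_MP_654ec6

/-- **The Ricci curvature of the core metric on `ℝ⁴ \ 0`.** -/
theorem ricGE_coreZ {g ξ : ℝ → ℝ} {T : Set ℝ} (hT : IsOpen T) (hT0 : ∀ t ∈ T, 0 < t)
    (hg : ∀ t ∈ T, ContDiffAt ℝ ∞ g t) (hξ : ∀ t ∈ T, ContDiffAt ℝ ∞ ξ t)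
    (hg0 : ∀ t ∈ T, 0 < g t) (hok : ∀ t ∈ T, CoreOK g ξ t) {u : E4} (hu : ‖u‖ ∈ T) :
    RicGE (coreZ g ξ) 0 u := by
  have hc : ∀ i : Fin 4, Continuous fun y : E4 => y i := fun i =>
    (EuclideanSpace.proj i : E4 →L[ℝ] ℝ).continuous
  have hV : IsOpen {y : E4 | y 0 ∈ T ∧ y 1 ∈ Ioo 0 (π / 2)} :=
    (hT.preimage (hc 0)).inter (isOpen_Ioo.preimage (hc 1))
  have hgm := goodMet_core hT (fun t ht => (hg t ht).contDiffWithinAt)
    (fun t ht => (hξ t ht).contDiffWithinAt) hg0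
  have hg' := goodMet_coreZ (T := T) hT0 hg hξ hg0
  have hV' : IsOpen {u : E4 | ‖u‖ ∈ T} := hT.preimage continuous_norm
  refine ricGE_of_param hV hgm hV' hg' (Q := tor) ?_ ?_ ?_ ?_ u hu
  · intro y hy
    change ‖tor y‖ ∈ T
    rw [norm_tor (hT0 _ hy.1).le]
    exact hy.1
  · intro y hy
    exact isoAt_tor (hT0 _ hy.1)
  · intro v hv
    refine closure_mono ?_ (mem_closure_offAxes hV' hv)
    rintro w ⟨hw1, hw2, hw3⟩
    have p1 : w 0 ^ 2 + w 1 ^ 2 ≠ 0 := by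
      have := sq_pos_of_ne_zero hw2
      nlinarith [sq_nonneg (w 1)]
    have p2 : w 2 ^ 2 + w 3 ^ 2 ≠ 0 := by
      have := sq_pos_of_ne_zero hw3
      nlinarith [sq_nonneg (w 3)]
    obtain ⟨y, hy0, hy1, hy3⟩ := exists_tor p1 p2
    exact ⟨y, ⟨by rw [hy0]; exact hw1, hy1⟩, hy3⟩
  · intro y hy
    exact ricGE_core (hg _ hy.1) (hξ _ hy.1) (hg0 _ hy.1) hy.2 (hok _ hy.1)

end Pool.Agent.W_MP_654ec6
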