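import Pool.Agent.W_MP_654ec6.E.Defs

/-!
# Task E3: flattening the orbifold point, and the Eguchi-Hanson cut-off

`exists_flat`: a smooth `v` with `v = 0` near `(-∞, A₀]`, `v = A²` for `A ≥ A₁`, `v', v'' ≥ 0`.
Construction for `A₁ = 1` (`S = smoothTransition`, `b > 0` with `b S' ≤ 2`): the derivative of `w` is
`S(2 x/ε - 1) (2 x + c b (1 - S x))` with `c ∈ [0, 1]` chosen such that `w 1 = 1`; then rescale.

`u2OK_flat`: `U = 1 - v`, `W = (1 - v)/(1 - 3 v/4)`, all terms are non-negative.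

`u2OK_eh`: `U = W = 1 - χ(A) a⁴/A⁴`, `χ = 1` for `A ≤ A₀/2`, `χ = 0` for `A ≥ 3A₀/4`,
`χ(A) = 1 - S(4 A/A₀ - 2)`. `R00 = R33 = a⁴ (χ'' A⁻⁴/2 - 3 χ' A⁻⁵/2)`, `R11 = a⁴ χ' A⁻⁵`: `0` for
`A ≤ A₀/2`, and `≥ -C a⁴` with `C` depending on `A₀` only for `A ≥ A₀/2`.
-/

open scoped ContDiff Topology
open Filter Real

namespace Pool.Agent.W_MP_654ec6

/-- The cut-off function of the Eguchi-Hanson metric. -/
noncomputable def ehChi (A₀ A : ℝ) : ℝ := 1 - Real.smoothTransition (4 * A / A₀ - 2)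

noncomputable def ehU (A₀ a A : ℝ) : ℝ := 1 - ehChi A₀ A * a ^ 4 / A ^ 4

/-! ### The flattening function -/

theorem flat_S_contDiff : ContDiff ℝ ∞ Real.smoothTransition := Real.smoothTransition.contDiff

theorem flat_S_deriv_nonneg (x : ℝ) : 0 ≤ deriv Real.smoothTransition x :=
  Real.smoothTransition.monotone.deriv_nonneg

theorem flat_S_deriv_zero {x : ℝ} (h : x < 0) : deriv Real.smoothTransition x = 0 := by
  have h1 : Real.smoothTransition =ᶠ[𝓝 x] fun _ => (0 : ℝ) := by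
    filter_upwards [Iio_mem_nhds h] with y hy
    exact Real.smoothTransition.zero_of_nonpos (le_of_lt hy)
  rw [h1.deriv_eq, deriv_const]

theorem flat_S_deriv_one {x : ℝ} (h : 1 < x) : deriv Real.smoothTransition x = 0 := by
  have h1 : Real.smoothTransition =ᶠ[𝓝 x] fun _ => (1 : ℝ) := by
    filter_upwards [Ioi_mem_nhds h] with y hy
    exact Real.smoothTransition.one_of_one_le (le_of_lt hy)
  rw [h1.deriv_eq, deriv_const]

theorem flat_S_deriv_bound : ∃ C : ℝ, 0 < C ∧ ∀ x, deriv Real.smoothTransition x ≤ C := by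
  have hc : Continuous (deriv Real.smoothTransition) :=
    flat_S_contDiff.continuous_deriv (by exact_mod_cast le_top)
  obtain ⟨C, hC⟩ := (isCompact_Icc (a := (0 : ℝ)) (b := 1)).exists_bound_of_continuousOn
    hc.continuousOn
  refine ⟨|C| + 1, by positivity, fun x => ?_⟩
  by_cases h0 : x < 0
  · rw [flat_S_deriv_zero h0]
    positivity
  · by_cases h1 : 1 < x
    · rw [flat_S_deriv_one h1]
      positivity
    · have := hC x ⟨not_lt.1 h0, not_lt.1 h1⟩
      have h2 := (le_abs_self _).trans this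
      have h3 := le_abs_self C
      linarith

/-- The derivative of the flattening function. -/
noncomputable def flatG (ε b c x : ℝ) : ℝ :=
  Real.smoothTransition (2 * x / ε - 1) * (2 * x + c * (b * (1 - Real.smoothTransition x)))

theorem flatG_contDiff (ε b c : ℝ) : ContDiff ℝ ∞ (flatG ε b c) := by
  unfold flatG
  have h1 : ContDiff ℝ ∞ fun x : ℝ => Real.smoothTransition (2 * x / ε - 1) :=
    flat_S_contDiff.comp (by fun_prop)
  have h2 : ContDiff ℝ ∞ fun x : ℝ => 2 * x + c * (b * (1 - Real.smoothTransition x)) := by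
    have := flat_S_contDiff
    fun_prop
  exact h1.mul h2

theorem flatG_zero {ε b c x : ℝ} (hε : 0 < ε) (h : x ≤ ε / 2) : flatG ε b c x = 0 := by
  unfold flatG
  rw [Real.smoothTransition.zero_of_nonpos, zero_mul]
  rw [sub_nonpos, div_le_one hε]
  linarith

theorem flatG_one {ε b c x : ℝ} (hε : 0 < ε) (hε1 : ε ≤ 1) (h : 1 ≤ x) : flatG ε b c x = 2 * x := by
  unfold flatG
  rw [Real.smoothTransition.one_of_one_le, Real.smoothTransition.one_of_one_le h]
  · ring
  · rw [le_sub_iff_add_le, le_div_iff₀ hε]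
    linarith

theorem flatG_nonneg {ε b c : ℝ} (hε : 0 < ε) (hb : 0 ≤ b) (hc : 0 ≤ c) (x : ℝ) :
    0 ≤ flatG ε b c x := by
  by_cases h : x ≤ ε / 2
  · rw [flatG_zero hε h]
  · unfold flatG
    have h1 := Real.smoothTransition.le_one x
    have h2 : 0 < x := by linarith
    have h3 : 0 ≤ 1 - Real.smoothTransition x := by linarith
    exact mul_nonneg (Real.smoothTransition.nonneg _) (by positivity)

theorem flatG_deriv_nonneg {ε b c : ℝ} (hε : 0 < ε) (hb : 0 ≤ b) (hc : 0 ≤ c) (hc1 : c ≤ 1)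
    (hbS : ∀ x, b * deriv Real.smoothTransition x ≤ 2) (x : ℝ) :
    0 ≤ deriv (flatG ε b c) x := by
  have hS : ∀ y, HasDerivAt Real.smoothTransition (deriv Real.smoothTransition y) y := fun y =>
    ((flat_S_contDiff.differentiable (by simp)) y).hasDerivAt
  have h1 : HasDerivAt (fun x : ℝ => Real.smoothTransition (2 * x / ε - 1))
      (deriv Real.smoothTransition (2 * x / ε - 1) * (2 * 1 / ε)) x := by
    have h0 : HasDerivAt (fun x : ℝ => 2 * x / ε - 1) (2 * 1 / ε) x :=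
      (((hasDerivAt_id x).const_mul 2).div_const ε).sub_const 1
    exact (hS (2 * x / ε - 1)).comp x h0
  have h2 : HasDerivAt (fun x : ℝ => 2 * x + c * (b * (1 - Real.smoothTransition x)))
      (2 * 1 + c * (b * (-deriv Real.smoothTransition x))) x :=
    ((hasDerivAt_id x).const_mul 2).add ((((hS x).const_sub 1).const_mul b).const_mul c)
  have h3 := h1.mul h2
  have h4 : deriv (flatG ε b c) x = _ := h3.deriv
  rw [h4]
  by_cases h : x < ε / 2
  · have h5 : 2 * x / ε - 1 < 0 := by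
      rw [sub_neg, div_lt_one hε]
      linarith only [h]
    rw [flat_S_deriv_zero h5, Real.smoothTransition.zero_of_nonpos h5.le]
    simp
  · have h6 : 0 < x := (half_pos hε).trans_le (not_lt.1 h)
    have h8 : 0 ≤ 1 - Real.smoothTransition x := sub_nonneg.2 (Real.smoothTransition.le_one x)
    have h9 := flat_S_deriv_nonneg (2 * x / ε - 1)
    have h10 := Real.smoothTransition.nonneg (2 * x / ε - 1)
    have h11 : c * (b * deriv Real.smoothTransition x) ≤ 2 := by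
      have h13 : 0 ≤ b * deriv Real.smoothTransition x := mul_nonneg hb (flat_S_deriv_nonneg x)
      exact (mul_le_of_le_one_left h13 hc1).trans (hbS x)
    have h14 : 0 ≤ 2 * 1 + c * (b * (-deriv Real.smoothTransition x)) := by
      rw [mul_neg, mul_neg, ← sub_eq_add_neg, mul_one]
      exact sub_nonneg.2 h11
    have h15 : 0 ≤ 2 * x + c * (b * (1 - Real.smoothTransition x)) :=
      add_nonneg (mul_nonneg zero_le_two h6.le) (mul_nonneg hc (mul_nonneg hb h8))
    have h16 : 0 ≤ deriv Real.smoothTransition (2 * x / ε - 1) * (2 * 1 / ε) :=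
      mul_nonneg h9 (div_nonneg (mul_nonneg zero_le_two zero_le_one) hε.le)
    exact add_nonneg (mul_nonneg h16 h15) (mul_nonneg h10 h14)

/-- The flattening function for `A₁ = 1`. -/
theorem flat_unit : ∃ (x₀ : ℝ) (w : ℝ → ℝ), 0 < x₀ ∧ x₀ < 1 ∧ ContDiff ℝ ∞ w ∧
    (∀ x ≤ x₀, w x = 0) ∧ (∀ x ≥ 1, w x = x ^ 2) ∧ (∀ x, 0 ≤ w x) ∧
    (∀ x, 0 ≤ deriv w x) ∧ (∀ x, 0 ≤ deriv (deriv w) x) ∧
    ∀ x > 0, x * deriv w x ≤ 2 * (max x 1) ^ 2 ∧ w x ≤ (max x 1) ^ 2 := by
  obtain ⟨C, hC, hS⟩ := flat_S_deriv_bound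
  set b : ℝ := 2 / C with hb
  have hb0 : 0 < b := div_pos two_pos hC
  have hbS : ∀ x, b * deriv Real.smoothTransition x ≤ 2 := by
    intro x
    calc b * deriv Real.smoothTransition x ≤ b * C := mul_le_mul_of_nonneg_left (hS x) hb0.le
      _ = 2 := by rw [hb, div_mul_cancel₀ _ hC.ne']
  have hSc : Continuous Real.smoothTransition := Real.smoothTransition.continuous
  have hhalf : Real.smoothTransition (1 / 2) < 1 := Real.smoothTransition.lt_one_of_lt_one
    (by norm_num)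
  set η : ℝ := b * (1 - Real.smoothTransition (1 / 2)) / 4 with hη
  have hη0 : 0 < η := div_pos (mul_pos hb0 (sub_pos.2 hhalf)) four_pos
  set ε : ℝ := min (1 / 4) η with hε
  have hε0 : 0 < ε := lt_min (by norm_num) hη0
  have hε4 : ε ≤ 1 / 4 := min_le_left _ _
  have hεη : ε ^ 2 < η := by
    have h1 : ε ≤ η := min_le_right _ _
    have h2 : ε * ε ≤ 1 / 4 * ε := mul_le_mul_of_nonneg_right hε4 hε0.le
    rw [sq]
    linarith only [h1, h2, hη0]
  -- the two integrals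
  set T : ℝ → ℝ := fun x => Real.smoothTransition (2 * x / ε - 1) with hT
  have hTc : Continuous T := hSc.comp (by fun_prop)
  have hT0 : ∀ x, 0 ≤ T x := fun x => Real.smoothTransition.nonneg _
  have hT1 : ∀ x, T x ≤ 1 := fun x => Real.smoothTransition.le_one _
  have hTε : ∀ x, ε ≤ x → T x = 1 := by
    intro x hx
    apply Real.smoothTransition.one_of_one_le
    rw [le_sub_iff_add_le, le_div_iff₀ hε0]
    linarith only [hx]
  set I₀ : ℝ := ∫ x in (0 : ℝ)..1, T x * (2 * x) with hI₀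
  set I₁ : ℝ := ∫ x in (0 : ℝ)..1, T x * (b * (1 - Real.smoothTransition x)) with hI₁
  have hc0 : Continuous fun x : ℝ => T x * (2 * x) := hTc.mul (by fun_prop)
  have hc1 : Continuous fun x : ℝ => T x * (b * (1 - Real.smoothTransition x)) :=
    hTc.mul (by fun_prop)
  have hsq : ∀ u v : ℝ, ∫ x in u..v, (2 : ℝ) * x = v ^ 2 - u ^ 2 := by
    intro u v
    rw [intervalIntegral.integral_const_mul, integral_id]
    ring
  have hI₀le : I₀ ≤ 1 := by
    have h1 : I₀ ≤ ∫ x in (0 : ℝ)..1, (2 : ℝ) * x := by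
      refine intervalIntegral.integral_mono_on zero_le_one (hc0.intervalIntegrable _ _)
        ((by fun_prop : Continuous fun x : ℝ => 2 * x).intervalIntegrable _ _) fun x hx => ?_
      exact mul_le_of_le_one_left (mul_nonneg zero_le_two hx.1) (hT1 x)
    rw [hsq] at h1
    linarith only [h1]
  have hI₀ge : 1 - ε ^ 2 ≤ I₀ := by
    have h1 : I₀ = (∫ x in (0 : ℝ)..ε, T x * (2 * x)) + ∫ x in ε..1, T x * (2 * x) :=
      (intervalIntegral.integral_add_adjacent_intervals (hc0.intervalIntegrable _ _)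
        (hc0.intervalIntegrable _ _)).symm
    have h2 : 0 ≤ ∫ x in (0 : ℝ)..ε, T x * (2 * x) :=
      intervalIntegral.integral_nonneg hε0.le fun x hx =>
        mul_nonneg (hT0 x) (mul_nonneg zero_le_two hx.1)
    have h3 : ∫ x in ε..1, T x * (2 * x) = ∫ x in ε..1, (2 : ℝ) * x := by
      refine intervalIntegral.integral_congr fun x hx => ?_
      rw [Set.uIcc_of_le (by linarith only [hε4])] at hx
      show T x * (2 * x) = 2 * x
      rw [hTε x hx.1, one_mul]
    rw [h3, hsq] at h1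
    linarith only [h1, h2]
  have hB0 : ∀ x, 0 ≤ b * (1 - Real.smoothTransition x) := fun x =>
    mul_nonneg hb0.le (sub_nonneg.2 (Real.smoothTransition.le_one x))
  have hI₁ge : η ≤ I₁ := by
    have h1 : I₁ = (∫ x in (0 : ℝ)..(1 / 4), T x * (b * (1 - Real.smoothTransition x))) +
        ((∫ x in (1 / 4 : ℝ)..(1 / 2), T x * (b * (1 - Real.smoothTransition x))) +
        ∫ x in (1 / 2 : ℝ)..1, T x * (b * (1 - Real.smoothTransition x))) := by
      rw [intervalIntegral.integral_add_adjacent_intervals (hc1.intervalIntegrable _ _)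
        (hc1.intervalIntegrable _ _), intervalIntegral.integral_add_adjacent_intervals
        (hc1.intervalIntegrable _ _) (hc1.intervalIntegrable _ _)]
    have h2 : 0 ≤ ∫ x in (0 : ℝ)..(1 / 4), T x * (b * (1 - Real.smoothTransition x)) :=
      intervalIntegral.integral_nonneg (by norm_num) fun x _ => mul_nonneg (hT0 x) (hB0 x)
    have h3 : 0 ≤ ∫ x in (1 / 2 : ℝ)..1, T x * (b * (1 - Real.smoothTransition x)) :=
      intervalIntegral.integral_nonneg (by norm_num) fun x _ => mul_nonneg (hT0 x) (hB0 x)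
    have h4 : ∫ x in (1 / 4 : ℝ)..(1 / 2), b * (1 - Real.smoothTransition (1 / 2)) ≤
        ∫ x in (1 / 4 : ℝ)..(1 / 2), T x * (b * (1 - Real.smoothTransition x)) := by
      refine intervalIntegral.integral_mono_on (by norm_num) (by simp)
        (hc1.intervalIntegrable _ _) fun x hx => ?_
      rw [hTε x (hε4.trans hx.1), one_mul]
      have h5 := Real.smoothTransition.monotone hx.2
      exact mul_le_mul_of_nonneg_left (sub_le_sub_left h5 1) hb0.le
    rw [intervalIntegral.integral_const, smul_eq_mul] at h4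
    have h6 : (1 / 2 - 1 / 4 : ℝ) * (b * (1 - Real.smoothTransition (1 / 2))) = η := by
      rw [hη]; ring
    rw [h6] at h4
    linarith only [h1, h2, h3, h4]
  have hI₁0 : 0 < I₁ := hη0.trans_le hI₁ge
  set c : ℝ := (1 - I₀) / I₁ with hc
  have hc0' : 0 ≤ c := div_nonneg (sub_nonneg.2 hI₀le) hI₁0.le
  have hc1' : c ≤ 1 := by
    rw [hc, div_le_one hI₁0]
    linarith only [hI₀ge, hεη, hI₁ge]
  have hcI : I₀ + c * I₁ = 1 := by
    rw [hc, div_mul_cancel₀ _ hI₁0.ne']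
    exact add_sub_cancel _ _
  -- the function
  set G : ℝ → ℝ := flatG ε b c with hG
  have hGd : ContDiff ℝ ∞ G := flatG_contDiff ε b c
  have hGc : Continuous G := hGd.continuous
  have hGI : ∫ x in (0 : ℝ)..1, G x = 1 := by
    have h1 : ∀ x, G x = T x * (2 * x) + c * (T x * (b * (1 - Real.smoothTransition x))) := by
      intro x
      show flatG ε b c x = _
      unfold flatG
      ring
    simp_rw [h1]
    rw [intervalIntegral.integral_add (hc0.intervalIntegrable _ _)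
      ((hc1.const_mul c).intervalIntegrable _ _), intervalIntegral.integral_const_mul, ← hI₀,
      ← hI₁, hcI]
  set w : ℝ → ℝ := fun x => ∫ t in (0 : ℝ)..x, G t with hw
  have hwd : ∀ x, HasDerivAt w (G x) x := fun x => by
    exact intervalIntegral.integral_hasDerivAt_right (hGc.intervalIntegrable _ _)
      (hGc.stronglyMeasurableAtFilter _ _) hGc.continuousAt
  have hwderiv : deriv w = G := funext fun x => (hwd x).deriv
  have hw1 : w 1 = 1 := hGI
  have hGnn : ∀ x, 0 ≤ G x := fun x => flatG_nonneg hε0 hb0.le hc0' x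
  have hG'nn : ∀ x, 0 ≤ deriv G x := fun x =>
    flatG_deriv_nonneg hε0 hb0.le hc0' hc1' hbS x
  have hwdiff : Differentiable ℝ w := fun x => (hwd x).differentiableAt
  have hwmono : Monotone w := monotone_of_deriv_nonneg hwdiff fun x => by
    rw [hwderiv]
    exact hGnn x
  have hGmono : Monotone G := monotone_of_deriv_nonneg (hGd.differentiable (by simp)) hG'nn
  have hwge : ∀ x, 1 ≤ x → w x = x ^ 2 := by
    intro x hx
    have h1 : w x = (∫ t in (0 : ℝ)..1, G t) + ∫ t in (1 : ℝ)..x, G t :=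
      (intervalIntegral.integral_add_adjacent_intervals (hGc.intervalIntegrable _ _)
        (hGc.intervalIntegrable _ _)).symm
    have h2 : ∫ t in (1 : ℝ)..x, G t = ∫ t in (1 : ℝ)..x, (2 : ℝ) * t := by
      refine intervalIntegral.integral_congr fun t ht => ?_
      rw [Set.uIcc_of_le hx] at ht
      exact flatG_one hε0 (by linarith only [hε4]) ht.1
    rw [h1, hGI, h2, hsq]
    ring
  have hwle : ∀ x, x ≤ ε / 2 → w x = 0 := by
    intro x hx
    have h0 : ∫ t in (0 : ℝ)..x, G t = ∫ t in (0 : ℝ)..x, (0 : ℝ) := by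
      refine intervalIntegral.integral_congr fun t ht => ?_
      refine flatG_zero hε0 ?_
      have h1 : t ≤ max 0 x := ht.2
      exact h1.trans (max_le (half_pos hε0).le hx)
    show ∫ t in (0 : ℝ)..x, G t = 0
    rw [h0]
    simp
  have hε1 : ε ≤ 1 := by linarith only [hε4]
  refine ⟨ε / 2, w, half_pos hε0, (half_lt_self hε0).trans_le hε1, ?_, hwle, hwge, ?_, ?_, ?_, ?_⟩
  · rw [contDiff_infty_iff_deriv, hwderiv]
    exact ⟨hwdiff, hGd⟩
  · intro x
    rcases le_total x (ε / 2) with h | h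
    · rw [hwle x h]
    · rw [← hwle (ε / 2) le_rfl]
      exact hwmono h
  · rw [hwderiv]
    exact hGnn
  · rw [hwderiv]
    exact hG'nn
  · intro x hx
    rw [hwderiv]
    rcases le_total x 1 with h | h
    · rw [max_eq_right h]
      have h1 : G x ≤ 2 * 1 := by
        rw [← flatG_one (b := b) (c := c) hε0 hε1 (le_refl (1 : ℝ))]
        exact hGmono h
      rw [one_pow]
      refine ⟨(mul_le_mul h h1 (hGnn x) zero_le_one).trans_eq (one_mul _), ?_⟩
      rw [← hw1]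
      exact hwmono h
    · rw [max_eq_left h, hwge x h]
      have h1 : G x = 2 * x := flatG_one hε0 hε1 h
      rw [h1]
      exact ⟨le_of_eq (by ring), le_rfl⟩

theorem exists_flat {A₁ : ℝ} (hA : 0 < A₁) : ∃ (A₀ : ℝ) (v : ℝ → ℝ), 0 < A₀ ∧ A₀ < A₁ ∧
    ContDiff ℝ ∞ v ∧ (∀ A ≤ A₀, v A = 0) ∧ (∀ A ≥ A₁, v A = A ^ 2) ∧ (∀ A, 0 ≤ v A) ∧
    (∀ A, 0 ≤ deriv v A) ∧ (∀ A, 0 ≤ deriv (deriv v) A) ∧
    ∀ A > 0, A * deriv v A ≤ 2 * (max A A₁) ^ 2 ∧ v A ≤ (max A A₁) ^ 2 := by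
  obtain ⟨x₀, w, hx0, hx1, hw, hw0, hw1, hwn, hwd, hwdd, hwb⟩ := flat_unit
  have hdiv : ContDiff ℝ ∞ fun A : ℝ => A / A₁ := by fun_prop
  have hlin : ∀ A, HasDerivAt (fun A : ℝ => A / A₁) (1 / A₁) A := fun A =>
    (hasDerivAt_id A).div_const A₁
  have hwD : Differentiable ℝ w := hw.differentiable (by simp)
  have hw' : ContDiff ℝ ∞ (deriv w) := (contDiff_infty_iff_deriv.1 hw).2
  have hwD' : Differentiable ℝ (deriv w) := hw'.differentiable (by simp)
  have hd1 : ∀ A, HasDerivAt (fun A => A₁ ^ 2 * w (A / A₁)) (A₁ * deriv w (A / A₁)) A := by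
    intro A
    have h1 := ((hwD (A / A₁)).hasDerivAt.comp A (hlin A)).const_mul (A₁ ^ 2)
    have h2 : A₁ ^ 2 * (deriv w (A / A₁) * (1 / A₁)) = A₁ * deriv w (A / A₁) := by
      field_simp
    rw [h2] at h1
    exact h1
  have hd2 : ∀ A, HasDerivAt (fun A => A₁ * deriv w (A / A₁)) (deriv (deriv w) (A / A₁)) A := by
    intro A
    have h1 := ((hwD' (A / A₁)).hasDerivAt.comp A (hlin A)).const_mul A₁
    have h2 : A₁ * (deriv (deriv w) (A / A₁) * (1 / A₁)) = deriv (deriv w) (A / A₁) := by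
      field_simp
    rw [h2] at h1
    exact h1
  have he1 : deriv (fun A => A₁ ^ 2 * w (A / A₁)) = fun A => A₁ * deriv w (A / A₁) :=
    funext fun A => (hd1 A).deriv
  have he2 : deriv (fun A => A₁ * deriv w (A / A₁)) = fun A => deriv (deriv w) (A / A₁) :=
    funext fun A => (hd2 A).deriv
  have hmax : ∀ A, A₁ ^ 2 * (max (A / A₁) 1) ^ 2 = (max A A₁) ^ 2 := by
    intro A
    rw [← mul_pow, mul_max_of_nonneg _ _ hA.le, mul_div_cancel₀ _ hA.ne', mul_one]
  refine ⟨A₁ * x₀, fun A => A₁ ^ 2 * w (A / A₁), mul_pos hA hx0, mul_lt_of_lt_one_right hA hx1,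
    contDiff_const.mul (hw.comp hdiv), ?_, ?_, ?_, ?_, ?_, ?_⟩
  · intro A h
    show A₁ ^ 2 * w (A / A₁) = 0
    rw [hw0 (A / A₁), mul_zero]
    rw [div_le_iff₀ hA, mul_comm]
    exact h
  · intro A h
    show A₁ ^ 2 * w (A / A₁) = A ^ 2
    rw [hw1 (A / A₁) ((one_le_div hA).2 h), ← mul_pow, mul_div_cancel₀ _ hA.ne']
  · intro A
    exact mul_nonneg (sq_nonneg _) (hwn _)
  · intro A
    rw [he1]
    exact mul_nonneg hA.le (hwd _)
  · intro A
    rw [he1, he2]
    exact hwdd _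
  · intro A hA0
    obtain ⟨h1, h2⟩ := hwb (A / A₁) (div_pos hA0 hA)
    rw [he1, ← hmax]
    constructor
    · have h3 := mul_le_mul_of_nonneg_left h1 (sq_nonneg A₁)
      have h4 : A₁ ^ 2 * (A / A₁ * deriv w (A / A₁)) = A * (A₁ * deriv w (A / A₁)) := by
        field_simp
      rw [h4] at h3
      exact h3.trans_eq (by ring)
    · exact mul_le_mul_of_nonneg_left h2 (sq_nonneg A₁)

/-! ### Curvature of the flattened metric -/

theorem flat_alg_q {p N D : ℝ} (hN : 0 < N) (hD : 0 < D) (hN3 : 3 / 4 ≤ N) :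
    0 ≤ p ^ 2 * (4 * D + 6 * N - 1) / (64 * D ^ 2 * N) :=
  div_nonneg (mul_nonneg (sq_nonneg p) (by linarith only [hD, hN3]))
    (mul_pos (mul_pos (by norm_num) (pow_pos hD 2)) hN).le

theorem flat_alg_0 {A p s N D : ℝ} (hA : 0 < A) (hN : 0 < N) (hD : 0 < D) :
    -(-p) / A - -p * (1 / A + -(p / (8 * (D * N)))) / 2 -
        N * (-(s / (8 * (D * N))) - p ^ 2 * (3 / 4 * N + D) / (8 * (D * N) ^ 2) +
          2 * -(p / (8 * (D * N))) / A + (-(p / (8 * (D * N)))) ^ 2) =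
        3 * p / (2 * A) + s / (8 * D) + p / (4 * D * A) +
          p ^ 2 * (4 * D + 6 * N - 1) / (64 * D ^ 2 * N) := by
  field_simp
  ring

theorem flat_alg_1 {A p N D : ℝ} (hA : 0 < A) (hN : 0 < N) (hD : 0 < D) :
    -(-p) / (2 * A) - 2 * N / A ^ 2 - N * -(p / (8 * (D * N))) / A +
        (4 - 2 * (N / D)) / A ^ 2 =
        p / (2 * A) + p / (8 * D * A) + (4 - 2 * N - 2 * (N / D)) / A ^ 2 := by
  field_simp
  ring

theorem flat_alg_3 {A p s N D : ℝ} (hA : 0 < A) (hN : 0 < N) (hD : 0 < D) :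
    -(-p) * (1 / A + -(p / (8 * (D * N)))) / 2 -
        N * (-(s / (8 * (D * N))) - p ^ 2 * (3 / 4 * N + D) / (8 * (D * N) ^ 2) +
          2 * -(p / (8 * (D * N))) / A + (-(p / (8 * (D * N)))) ^ 2) -
        2 * N / A * (1 / A + -(p / (8 * (D * N)))) + 2 * (N / D) / A ^ 2 =
        p / (2 * A) + s / (8 * D) + p / (2 * D * A) + 2 * N * (1 - D) / (D * A ^ 2) +
          p ^ 2 * (4 * D + 6 * N - 1) / (64 * D ^ 2 * N) := by
  field_simp
  ring

theorem flat_alg {A p s N D : ℝ} (hA : 0 < A) (hp : 0 ≤ p) (hs : 0 ≤ s) (hN : 0 < N)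
    (hD : 0 < D) (hN3 : 3 / 4 ≤ N) (hN1 : N ≤ 1) (hDN : N ≤ D) (hD1 : D ≤ 1) :
    0 ≤ -(-p) / A - -p * (1 / A + -(p / (8 * (D * N)))) / 2 -
        N * (-(s / (8 * (D * N))) - p ^ 2 * (3 / 4 * N + D) / (8 * (D * N) ^ 2) +
          2 * -(p / (8 * (D * N))) / A + (-(p / (8 * (D * N)))) ^ 2) ∧
    0 ≤ -(-p) / (2 * A) - 2 * N / A ^ 2 - N * -(p / (8 * (D * N))) / A +
        (4 - 2 * (N / D)) / A ^ 2 ∧
    0 ≤ -(-p) * (1 / A + -(p / (8 * (D * N)))) / 2 -
        N * (-(s / (8 * (D * N))) - p ^ 2 * (3 / 4 * N + D) / (8 * (D * N) ^ 2) +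
          2 * -(p / (8 * (D * N))) / A + (-(p / (8 * (D * N)))) ^ 2) -
        2 * N / A * (1 / A + -(p / (8 * (D * N)))) + 2 * (N / D) / A ^ 2 := by
  have h2A : 0 < 2 * A := mul_pos two_pos hA
  have h8D : 0 < 8 * D := mul_pos (by norm_num) hD
  have hA2 : 0 < A ^ 2 := pow_pos hA 2
  have hq := flat_alg_q (p := p) hN hD hN3
  refine ⟨?_, ?_, ?_⟩
  · rw [flat_alg_0 hA hN hD]
    exact add_nonneg (add_nonneg (add_nonneg (div_nonneg (mul_nonneg zero_le_three hp) h2A.le)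
      (div_nonneg hs h8D.le)) (div_nonneg hp (mul_pos (mul_pos four_pos hD) hA).le)) hq
  · rw [flat_alg_1 hA hN hD]
    have h9 : N / D ≤ 1 := (div_le_one hD).2 hDN
    exact add_nonneg (add_nonneg (div_nonneg hp h2A.le) (div_nonneg hp (mul_pos h8D hA).le))
      (div_nonneg (by linarith only [hN1, h9]) hA2.le)
  · rw [flat_alg_3 hA hN hD]
    exact add_nonneg (add_nonneg (add_nonneg (add_nonneg (div_nonneg hp h2A.le)
      (div_nonneg hs h8D.le)) (div_nonneg hp (mul_pos (mul_pos two_pos hD) hA).le))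
      (div_nonneg (mul_nonneg (mul_nonneg zero_le_two hN.le) (sub_nonneg.2 hD1))
        (mul_pos hD hA2).le)) hq

theorem u2OK_flat {v : ℝ → ℝ} {A : ℝ} (hA : 0 < A) (hv : ContDiff ℝ ∞ v) (h0 : 0 ≤ v A)
    (h1 : 0 ≤ deriv v A) (h2 : 0 ≤ deriv (deriv v) A) (h3 : v A ≤ 1 / 4)
    (h4 : A * deriv v A ≤ 1 / 2) :
    U2OK (fun A => 1 - v A) (fun A => (1 - v A) / (1 - 3 / 4 * v A)) 0 A := by
  have hvD : ∀ x, HasDerivAt v (deriv v x) x := fun x =>
    ((hv.differentiable (by simp)) x).hasDerivAt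
  have hv' : ContDiff ℝ ∞ (deriv v) := (contDiff_infty_iff_deriv.1 hv).2
  have hvD' : ∀ x, HasDerivAt (deriv v) (deriv (deriv v) x) x := fun x =>
    ((hv'.differentiable (by simp)) x).hasDerivAt
  have hnear : ∀ᶠ x in 𝓝 A, v x < 1 / 2 :=
    hv.continuous.continuousAt.eventually_lt continuousAt_const (by linarith only [h3])
  have hU : deriv (fun A => 1 - v A) A = -deriv v A := ((hvD A).const_sub 1).deriv
  have hW : ∀ x, v x < 1 / 2 → HasDerivAt (fun A => (1 - v A) / (1 - 3 / 4 * v A))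
      (-deriv v x / (4 * (1 - 3 / 4 * v x) ^ 2)) x := by
    intro x hx
    have hD : 0 < 1 - 3 / 4 * v x := by linarith only [hx]
    have h5 := ((hvD x).const_sub 1).div (((hvD x).const_mul (3 / 4)).const_sub 1) hD.ne'
    refine h5.congr_deriv ?_
    field_simp
    ring
  have hom : u2om (fun A => (1 - v A) / (1 - 3 / 4 * v A)) =ᶠ[𝓝 A]
      fun x => -(deriv v x / (8 * ((1 - 3 / 4 * v x) * (1 - v x)))) := by
    filter_upwards [hnear] with x hx
    have hD : 0 < 1 - 3 / 4 * v x := by linarith only [hx]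
    have hN : 0 < 1 - v x := by linarith only [hx]
    unfold u2om
    rw [(hW x hx).deriv]
    field_simp
    ring
  have hD : 0 < 1 - 3 / 4 * v A := by linarith only [h3]
  have hN : 0 < 1 - v A := by linarith only [h3]
  have homd : deriv (u2om (fun A => (1 - v A) / (1 - 3 / 4 * v A))) A =
      -(deriv (deriv v) A / (8 * ((1 - 3 / 4 * v A) * (1 - v A)))) -
        deriv v A ^ 2 * (3 / 4 * (1 - v A) + (1 - 3 / 4 * v A)) /
          (8 * ((1 - 3 / 4 * v A) * (1 - v A)) ^ 2) := by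
    rw [hom.deriv_eq]
    have h6 : HasDerivAt (fun x => 8 * ((1 - 3 / 4 * v x) * (1 - v x)))
        (8 * (-(3 / 4 * deriv v A) * (1 - v A) + (1 - 3 / 4 * v A) * -deriv v A)) A :=
      ((((hvD A).const_mul (3 / 4)).const_sub 1).mul ((hvD A).const_sub 1)).const_mul 8
    have hne : 8 * ((1 - 3 / 4 * v A) * (1 - v A)) ≠ 0 :=
      (mul_pos (by norm_num) (mul_pos hD hN)).ne'
    have h7 : HasDerivAt (fun x => -(deriv v x / (8 * ((1 - 3 / 4 * v x) * (1 - v x)))))
        (-((deriv (deriv v) A * (8 * ((1 - 3 / 4 * v A) * (1 - v A))) -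
          deriv v A * (8 * (-(3 / 4 * deriv v A) * (1 - v A) +
            (1 - 3 / 4 * v A) * -deriv v A))) /
          (8 * ((1 - 3 / 4 * v A) * (1 - v A))) ^ 2)) A := ((hvD' A).div h6 hne).neg
    rw [h7.deriv]
    field_simp
    ring
  have homA : u2om (fun A => (1 - v A) / (1 - 3 / 4 * v A)) A =
      -(deriv v A / (8 * ((1 - 3 / 4 * v A) * (1 - v A)))) := hom.eq_of_nhds
  unfold U2OK u2R0 u2R1 u2R3
  rw [hU, homd, homA]
  simp only [add_zero]
  exact flat_alg hA h1 h2 hN hD (by linarith only [h3]) (by linarith only [h0])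
    (by linarith only [h0]) (by linarith only [h0])

/-! ### Curvature of the cut off Eguchi-Hanson metric -/

/-- The curvatures of a `U(2)`-metric with `U = W`. -/
theorem flat_u2_eq {U : ℝ → ℝ} {A u' u'' : ℝ} (hA : 0 < A) (hU : 0 < U A)
    (h1 : ∀ᶠ x in 𝓝 A, DifferentiableAt ℝ U x) (h1' : deriv U A = u')
    (h2 : HasDerivAt (deriv U) u'' A) :
    u2R0 U U A = -(5 / 2) * u' / A - u'' / 2 ∧ u2R1 U U A = -u' / A + (4 - 4 * U A) / A ^ 2 ∧
      u2R3 U U A = -(5 / 2) * u' / A - u'' / 2 := by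
  have hUd : HasDerivAt U u' A := by
    rw [← h1']
    exact h1.self_of_nhds.hasDerivAt
  have h3 : HasDerivAt (u2om U) ((u'' * (2 * U A) - u' * (2 * u')) / (2 * U A) ^ 2) A := by
    have h4 := h2.div (hUd.const_mul 2) (by positivity)
    rw [h1'] at h4
    exact h4
  unfold u2R0 u2R1 u2R3
  rw [h3.deriv, h1']
  have h5 : u2om U A = u' / (2 * U A) := by
    unfold u2om
    rw [h1']
  rw [h5]
  refine ⟨?_, ?_, ?_⟩
  · field_simp
    ring
  · field_simp
    ring
  · field_simp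
    ring

theorem flat_chi_contDiff (A₀ : ℝ) : ContDiff ℝ ∞ (ehChi A₀) := by
  unfold ehChi
  exact contDiff_const.sub (flat_S_contDiff.comp (by fun_prop))

theorem flat_chi_nonneg (A₀ A : ℝ) : 0 ≤ ehChi A₀ A := by
  unfold ehChi
  have := Real.smoothTransition.le_one (4 * A / A₀ - 2)
  linarith

theorem flat_chi_le_one (A₀ A : ℝ) : ehChi A₀ A ≤ 1 := by
  unfold ehChi
  have := Real.smoothTransition.nonneg (4 * A / A₀ - 2)
  linarith

theorem flat_chi_deriv_zero {A₀ A : ℝ} (hA : 0 < A₀) (h : A < A₀ / 2 ∨ 3 * A₀ / 4 < A) :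
    deriv (ehChi A₀) A = 0 ∧ deriv (deriv (ehChi A₀)) A = 0 := by
  have key : ∀ c : ℝ, ehChi A₀ =ᶠ[𝓝 A] (fun _ => c) →
      deriv (ehChi A₀) A = 0 ∧ deriv (deriv (ehChi A₀)) A = 0 := by
    intro c hc
    have h1 : deriv (ehChi A₀) =ᶠ[𝓝 A] fun _ => (0 : ℝ) := by
      have h2 := hc.deriv
      rwa [deriv_const'] at h2
    exact ⟨h1.eq_of_nhds, by rw [h1.deriv_eq, deriv_const]⟩
  rcases h with h | h
  · refine key 1 ?_
    filter_upwards [Iio_mem_nhds h] with x hx
    have hx' : x < A₀ / 2 := hx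
    unfold ehChi
    rw [Real.smoothTransition.zero_of_nonpos, sub_zero]
    rw [sub_nonpos, div_le_iff₀ hA]
    linarith
  · refine key 0 ?_
    filter_upwards [Ioi_mem_nhds h] with x hx
    have hx' : 3 * A₀ / 4 < x := hx
    unfold ehChi
    rw [Real.smoothTransition.one_of_one_le, sub_self]
    rw [le_sub_iff_add_le, le_div_iff₀ hA]
    linarith

theorem flat_chi_bound {A₀ : ℝ} (hA : 0 < A₀) : ∃ C : ℝ, 0 < C ∧ ∀ A > 0,
    -C ≤ deriv (deriv (ehChi A₀)) A / (2 * A ^ 4) - 3 * deriv (ehChi A₀) A / (2 * A ^ 5) ∧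
      -C ≤ deriv (ehChi A₀) A / A ^ 5 := by
  have hs := flat_chi_contDiff A₀
  have hs' : ContDiff ℝ ∞ (deriv (ehChi A₀)) := (contDiff_infty_iff_deriv.1 hs).2
  have hs'' : ContDiff ℝ ∞ (deriv (deriv (ehChi A₀))) := (contDiff_infty_iff_deriv.1 hs').2
  have hc1 : ContinuousOn (fun A => deriv (deriv (ehChi A₀)) A / (2 * A ^ 4) -
      3 * deriv (ehChi A₀) A / (2 * A ^ 5)) (Set.Icc (A₀ / 2) (3 * A₀ / 4)) := by
    refine ContinuousOn.sub (ContinuousOn.div hs''.continuous.continuousOn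
      (by fun_prop) ?_) (ContinuousOn.div (continuousOn_const.mul hs'.continuous.continuousOn)
      (by fun_prop) ?_)
    · intro x hx
      have : 0 < x := (half_pos hA).trans_le hx.1
      exact (mul_pos two_pos (pow_pos this _)).ne'
    · intro x hx
      have : 0 < x := (half_pos hA).trans_le hx.1
      exact (mul_pos two_pos (pow_pos this _)).ne'
  have hc2 : ContinuousOn (fun A => deriv (ehChi A₀) A / A ^ 5)
      (Set.Icc (A₀ / 2) (3 * A₀ / 4)) := by
    refine ContinuousOn.div hs'.continuous.continuousOn (by fun_prop) ?_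
    intro x hx
    have : 0 < x := (half_pos hA).trans_le hx.1
    exact (pow_pos this _).ne'
  obtain ⟨C1, hC1⟩ := isCompact_Icc.exists_bound_of_continuousOn hc1
  obtain ⟨C2, hC2⟩ := isCompact_Icc.exists_bound_of_continuousOn hc2
  refine ⟨|C1| + |C2| + 1, by positivity, fun A hA0 => ?_⟩
  have hC : 0 ≤ |C1| + |C2| + 1 := by positivity
  by_cases h : A < A₀ / 2 ∨ 3 * A₀ / 4 < A
  · obtain ⟨h1, h2⟩ := flat_chi_deriv_zero hA h
    rw [h1, h2]
    constructor
    · simp only [mul_zero, zero_div, sub_zero]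
      exact neg_nonpos.2 hC
    · rw [zero_div]
      exact neg_nonpos.2 hC
  · push Not at h
    have h1 := hC1 A ⟨h.1, h.2⟩
    have h2 := hC2 A ⟨h.1, h.2⟩
    rw [Real.norm_eq_abs] at h1 h2
    have h3 := neg_abs_le (deriv (deriv (ehChi A₀)) A / (2 * A ^ 4) -
      3 * deriv (ehChi A₀) A / (2 * A ^ 5))
    have h4 := neg_abs_le (deriv (ehChi A₀) A / A ^ 5)
    have h5 := le_abs_self C1
    have h6 := le_abs_self C2
    have h7 := abs_nonneg C1
    have h8 := abs_nonneg C2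
    exact ⟨by linarith only [h1, h3, h5, h8], by linarith only [h2, h4, h6, h7]⟩

theorem flat_ehU_deriv (A₀ a : ℝ) {x : ℝ} (hx : 0 < x) : HasDerivAt (ehU A₀ a)
    (-(a ^ 4 * (deriv (ehChi A₀) x / x ^ 4 - 4 * ehChi A₀ x / x ^ 5))) x := by
  have h1 : HasDerivAt (ehChi A₀) (deriv (ehChi A₀) x) x :=
    (((flat_chi_contDiff A₀).differentiable (by simp)) x).hasDerivAt
  have h2 := (((h1.mul_const (a ^ 4)).div (hasDerivAt_pow 4 x) (by positivity)).const_sub 1)
  refine HasDerivAt.congr_deriv (f := ehU A₀ a) h2 ?_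
  field_simp
  ring

theorem flat_ehU_deriv2 (A₀ a : ℝ) {x : ℝ} (hx : 0 < x) : HasDerivAt (deriv (ehU A₀ a))
    (-(a ^ 4 * (deriv (deriv (ehChi A₀)) x / x ^ 4 - 8 * deriv (ehChi A₀) x / x ^ 5 +
      20 * ehChi A₀ x / x ^ 6))) x := by
  have h0 : deriv (ehU A₀ a) =ᶠ[𝓝 x]
      fun x => -(a ^ 4 * (deriv (ehChi A₀) x / x ^ 4 - 4 * ehChi A₀ x / x ^ 5)) := by
    filter_upwards [Ioi_mem_nhds hx] with y hy
    exact (flat_ehU_deriv A₀ a hy).deriv
  refine HasDerivAt.congr_of_eventuallyEq ?_ h0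
  have hs := flat_chi_contDiff A₀
  have hs' : ContDiff ℝ ∞ (deriv (ehChi A₀)) := (contDiff_infty_iff_deriv.1 hs).2
  have h1 : HasDerivAt (ehChi A₀) (deriv (ehChi A₀) x) x :=
    ((hs.differentiable (by simp)) x).hasDerivAt
  have h2 : HasDerivAt (deriv (ehChi A₀)) (deriv (deriv (ehChi A₀)) x) x :=
    ((hs'.differentiable (by simp)) x).hasDerivAt
  have h3 := (((h2.div (hasDerivAt_pow 4 x) (by positivity)).sub
    ((h1.const_mul 4).div (hasDerivAt_pow 5 x) (by positivity))).const_mul (a ^ 4)).neg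
  refine HasDerivAt.congr_deriv (f := fun x => -(a ^ 4 * (deriv (ehChi A₀) x / x ^ 4 -
    4 * ehChi A₀ x / x ^ 5))) h3 ?_
  field_simp
  ring

theorem flat_lin {t C X κ : ℝ} (ht : 0 ≤ t) (h : -C ≤ X) (h2 : t * C ≤ κ) : 0 ≤ t * X + κ := by
  have h3 := mul_le_mul_of_nonneg_left h ht
  rw [mul_neg] at h3
  linarith only [h2, h3]

theorem u2OK_eh {A₀ κ : ℝ} (hA : 0 < A₀) (hκ : 0 < κ) : ∃ a₀ : ℝ, 0 < a₀ ∧ a₀ < A₀ / 2 ∧
    ∀ a : ℝ, 0 < a → a < a₀ → ∀ A > a, 0 < ehU A₀ a A ∧ U2OK (ehU A₀ a) (ehU A₀ a) κ A := by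
  obtain ⟨C, hC, hb⟩ := flat_chi_bound hA
  refine ⟨min (A₀ / 4) (min 1 (κ / C)), by positivity,
    (min_le_left _ _).trans_lt (by linarith), fun a ha ha' A hAa => ?_⟩
  have ha1 : a < 1 := ha'.trans_le ((min_le_right _ _).trans (min_le_left _ _))
  have ha2 : a < κ / C := ha'.trans_le ((min_le_right _ _).trans (min_le_right _ _))
  have hA0 : 0 < A := ha.trans hAa
  have ha4 : a ^ 4 * C ≤ κ := by
    have h1 : a ^ 4 ≤ a := pow_le_of_le_one ha.le ha1.le (by norm_num)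
    have h2 : a * C < κ := by rwa [lt_div_iff₀ hC] at ha2
    exact (mul_le_mul_of_nonneg_right h1 hC.le).trans h2.le
  have hpos : 0 < ehU A₀ a A := by
    unfold ehU
    have h3 : a ^ 4 < A ^ 4 := pow_lt_pow_left₀ hAa ha.le (by norm_num)
    have h4 : ehChi A₀ A * a ^ 4 / A ^ 4 < 1 := by
      rw [div_lt_one (pow_pos hA0 4)]
      exact (mul_le_of_le_one_left (pow_pos ha 4).le (flat_chi_le_one A₀ A)).trans_lt h3
    exact sub_pos.2 h4
  refine ⟨hpos, ?_⟩
  have hdiff : ∀ᶠ x in 𝓝 A, DifferentiableAt ℝ (ehU A₀ a) x := by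
    filter_upwards [Ioi_mem_nhds hA0] with x hx
    exact (flat_ehU_deriv A₀ a hx).differentiableAt
  obtain ⟨e0, e1, e3⟩ := flat_u2_eq hA0 hpos hdiff (flat_ehU_deriv A₀ a hA0).deriv
    (flat_ehU_deriv2 A₀ a hA0)
  obtain ⟨b1, b2⟩ := hb A hA0
  have ha4' : 0 < a ^ 4 := pow_pos ha 4
  have key0 : 0 ≤ u2R0 (ehU A₀ a) (ehU A₀ a) A + κ := by
    rw [e0]
    have h1 : -(5 / 2) * -(a ^ 4 * (deriv (ehChi A₀) A / A ^ 4 - 4 * ehChi A₀ A / A ^ 5)) / A -
        -(a ^ 4 * (deriv (deriv (ehChi A₀)) A / A ^ 4 - 8 * deriv (ehChi A₀) A / A ^ 5 +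
          20 * ehChi A₀ A / A ^ 6)) / 2 =
        a ^ 4 * (deriv (deriv (ehChi A₀)) A / (2 * A ^ 4) -
          3 * deriv (ehChi A₀) A / (2 * A ^ 5)) := by
      field_simp
      ring
    rw [h1]
    exact flat_lin ha4'.le b1 ha4
  refine ⟨key0, ?_, ?_⟩
  · rw [e1]
    have h1 : -(-(a ^ 4 * (deriv (ehChi A₀) A / A ^ 4 - 4 * ehChi A₀ A / A ^ 5))) / A +
        (4 - 4 * ehU A₀ a A) / A ^ 2 = a ^ 4 * (deriv (ehChi A₀) A / A ^ 5) := by
      unfold ehU
      field_simp
      ring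
    rw [h1]
    exact flat_lin ha4'.le b2 ha4
  · rw [e3, ← e0]
    exact key0

end Pool.Agent.W_MP_654ec6
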