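import Pool.Agent.W_MP_654ec6.E.Slices
import Pool.Agent.W_MP_654ec6.E.U2ZRic

/-!
# The Ricci curvature of the round metrics
-/

open scoped ContDiff Topology ComplexConjugate
open Filter Set Real

namespace Pool.Agent.W_MP_654ec6

theorem ricGE_gFS {u : E4} (hu : nsq u < 1) (hu0 : u ≠ 0) : RicGE gFS 0 u := by
  obtain ⟨s, hs⟩ : ∃ s, s = nsq u := ⟨_, rfl⟩
  have hs0 : 0 < s := by rw [hs]; exact nsq_pos hu0
  have hs1 : s < 1 := by rw [hs]; exact hu
  have h1 : 0 < 1 - s := by linarith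
  have h2 : 0 < 4 - 3 * s := by linarith
  have h1' : (1 : ℝ) - s ≠ 0 := h1.ne'
  have h2' : (4 : ℝ) - s * 3 ≠ 0 := by linarith
  have hev : ∀ᶠ t : ℝ in 𝓝 s, 0 < t ∧ t < 1 :=
    (eventually_gt_nhds hs0).and (eventually_lt_nhds hs1)
  refine ricGE_u2q (S := Iio 1) (U := fun t => 1 - t) (W := fun t => 4 * (1 - t) / (4 - 3 * t))
    (U1 := fun _ => -1) (W1 := fun t => -4 / (4 - 3 * t) ^ 2) (U2 := 0)
    (W2 := -24 / (4 - 3 * s) ^ 3) isOpen_Iio
    (fun _ hs => (gFS_smooth hs).1) (fun _ hs => (gFS_smooth hs).2.1)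
    (fun _ hs => (gFS_smooth hs).2.2.1) (fun _ hs => (gFS_smooth hs).2.2.2) hs.symm hs1 hs0
    ?_ ?_ ?_ ?_ ?_ ?_ h1 (by positivity) ?_ ?_ ?_
  · filter_upwards [hev] with t ht
    have e1 : (1 : ℝ) - t ≠ 0 := by linarith [ht.2]
    have e2 : t ≠ 0 := ht.1.ne'
    field_simp
    ring
  · filter_upwards [hev] with t ht
    have e1 : (4 : ℝ) - 3 * t ≠ 0 := by linarith [ht.2]
    have e2 : t ≠ 0 := ht.1.ne'
    field_simp
    ring
  · exact Eventually.of_forall fun t => by simpa using (hasDerivAt_id t).const_sub (1 : ℝ)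
  · exact hasDerivAt_const s (-1 : ℝ)
  · filter_upwards [hev] with t ht
    have e1 : (4 : ℝ) - 3 * t ≠ 0 := by linarith [ht.2]
    have := (((hasDerivAt_id t).const_sub (1 : ℝ)).const_mul 4).div
      (((hasDerivAt_id t).const_mul 3).const_sub (4 : ℝ)) e1
    refine this.congr_deriv ?_
    simp
    field_simp
    ring
  · have e1 : (4 : ℝ) - 3 * s ≠ 0 := h2.ne'
    have := (hasDerivAt_const s (-4 : ℝ)).div
      ((((hasDerivAt_id s).const_mul 3).const_sub (4 : ℝ)).pow 2) (pow_ne_zero 2 e1)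
    refine this.congr_deriv ?_
    simp
    field_simp
    ring
  · have : -3 * (-1 : ℝ) - s * -1 * (-4 / (4 - 3 * s) ^ 2) / (4 * (1 - s) / (4 - 3 * s)) -
        (1 - s) * (3 * (-4 / (4 - 3 * s) ^ 2) / (4 * (1 - s) / (4 - 3 * s)) +
          2 * s * (-24 / (4 - 3 * s) ^ 3) / (4 * (1 - s) / (4 - 3 * s)) -
          s * (-4 / (4 - 3 * s) ^ 2) ^ 2 / (4 * (1 - s) / (4 - 3 * s)) ^ 2) =
        3 + 3 / (4 - 3 * s) + 9 * s / (4 - 3 * s) ^ 2 := by
      field_simp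
      ring
    rw [this]
    positivity
  · have : -(-1 : ℝ) - 2 * (1 - s) / s - (1 - s) * (-4 / (4 - 3 * s) ^ 2) /
        (4 * (1 - s) / (4 - 3 * s)) + (4 - 2 * (4 * (1 - s) / (4 - 3 * s))) / s =
        1 + (11 - 6 * s) / (4 - 3 * s) := by
      field_simp
      ring
    rw [this]
    have : 0 < 11 - 6 * s := by linarith
    positivity
  · have : -(-1 : ℝ) * (1 + s * (-4 / (4 - 3 * s) ^ 2) / (4 * (1 - s) / (4 - 3 * s))) -
        (1 - s) * (3 * (-4 / (4 - 3 * s) ^ 2) / (4 * (1 - s) / (4 - 3 * s)) +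
          2 * s * (-24 / (4 - 3 * s) ^ 3) / (4 * (1 - s) / (4 - 3 * s)) -
          s * (-4 / (4 - 3 * s) ^ 2) ^ 2 / (4 * (1 - s) / (4 - 3 * s)) ^ 2) -
        2 * (1 - s) / s - 2 * (1 - s) * (-4 / (4 - 3 * s) ^ 2) / (4 * (1 - s) / (4 - 3 * s)) +
        2 * (4 * (1 - s) / (4 - 3 * s)) / s =
        1 + 9 * s / (4 - 3 * s) ^ 2 + (11 - 6 * s) / (4 - 3 * s) := by
      field_simp
      ring
    rw [this]
    have : 0 < 11 - 6 * s := by linarith
    positivity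

theorem ricGE_gE {u : E4} (hu : nsq u < 1) : RicGE gE 0 u := by
  have hV : IsOpen {u : E4 | nsq u < 1 ∧ cA u ≠ 0} :=
    isOpen_ball1.inter (isOpen_ne.preimage cA.continuous)
  have hg : GoodMet gFS {u : E4 | nsq u < 1 ∧ cA u ≠ 0} :=
    ⟨fun i j => (goodMet_gFS.smooth i j).mono fun x hx => hx.1,
      fun x hx => goodMet_gFS.symm x hx.1, fun x hx => goodMet_gFS.pos x hx.1⟩
  refine ricGE_of_param hV hg isOpen_ball1 goodMet_gE (Q := thFE) ?_ ?_ ?_ ?_ u hu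
  · intro x hx
    change nsq (thFE x) < 1
    rw [nsq_thFE hx.1 hx.2]
    have := pow_pos (norm_pos_iff.2 hx.2) 2
    linarith
  · exact fun x hx => isoAt_thFE hx.1 hx.2
  · intro v hv
    refine closure_mono ?_ (mem_closure_offAxes isOpen_ball1 hv)
    rintro w ⟨hw1, hw2, hw3⟩
    have h1 : cA w ≠ 0 := by
      intro h
      apply hw2
      rw [← cA_re, h]
      rfl
    obtain ⟨x, hx1, hx2, hx3⟩ := exists_thFE hw1 h1
    exact ⟨x, ⟨hx1, hx2⟩, hx3⟩
  · intro x hx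
    refine ricGE_gFS hx.1 ?_
    rintro rfl
    exact hx.2 (map_zero cA)

end Pool.Agent.W_MP_654ec6
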