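import Mathlib
import Pool.Agent.W_MP_654ec6.E.Defs
import Pool.Agent.W_MP_654ec6.A.KK

/-!
# Task E2: the Ricci curvature of `U(2)`-metrics

Apply `ricq_kk` to `u2KK U W` (`E = 1/U`, `P = A`, `N = A c s`, `H = A √W`, `a = c²`, `c = cos x`,
`s = sin x`). With `om = W'/(2 W)` the components in the orthonormal frame are
`R00 = -U'/A - U' (1/A + om)/2 - U (om' + 2 om/A + om²)`,
`R11 = R22 = -U'/(2A) - 2U/A² - U om/A + (4 - 2W)/A²`,
`R33 = -U' (1/A + om)/2 - U (om' + 2 om/A + om²) - (2U/A)(1/A + om) + 2W/A²`, the others vanish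
(checked numerically). So `ricq = R00 w0² + R11 (w1² + w2²) + R33 w3²` and `qf = w0² + w1² + w2² + w3²`.
-/

open scoped ContDiff Topology
open Filter Real

namespace Pool.Agent.W_MP_654ec6

theorem u2_contDiffAt_sqrt {W : ℝ → ℝ} {A : ℝ} (hW : ContDiffAt ℝ ∞ W A) (hW0 : 0 < W A) :
    ContDiffAt ℝ ∞ (fun A => √(W A)) A := hW.sqrt hW0.ne'

theorem u2_contDiffAt_inv {U : ℝ → ℝ} {A : ℝ} (hU : ContDiffAt ℝ ∞ U A) (hU0 : 0 < U A) :
    ContDiffAt ℝ ∞ (fun A => 1 / U A) A := contDiffAt_const.div hU hU0.ne'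

theorem u2_contDiff_N : ContDiff ℝ ∞ (fun p : ℝ × ℝ => p.1 * Real.cos p.2 * Real.sin p.2) :=
  (contDiff_fst.mul (Real.contDiff_cos.comp contDiff_snd)).mul
    (Real.contDiff_sin.comp contDiff_snd)

theorem u2_contDiffAt_H {W : ℝ → ℝ} {p : ℝ × ℝ} (hW : ContDiffAt ℝ ∞ W p.1) (hW0 : 0 < W p.1) :
    ContDiffAt ℝ ∞ (fun p : ℝ × ℝ => p.1 * √(W p.1)) p :=
  contDiffAt_fst.mul ((u2_contDiffAt_sqrt hW hW0).comp p contDiffAt_fst)

theorem u2_trig_pos {x : ℝ} (hx : x ∈ Set.Ioo 0 (π / 2)) : 0 < Real.cos x ∧ 0 < Real.sin x :=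
  ⟨Real.cos_pos_of_mem_Ioo ⟨by linarith [hx.1, Real.pi_pos], hx.2⟩,
    Real.sin_pos_of_pos_of_lt_pi hx.1 (by linarith [hx.2, Real.pi_pos])⟩

theorem goodMet_u2 {U W : ℝ → ℝ} {T : Set ℝ} (hT : IsOpen T) (hU : ContDiffOn ℝ ∞ U T)
    (hW : ContDiffOn ℝ ∞ W T) (hT0 : ∀ A ∈ T, 0 < A) (hU0 : ∀ A ∈ T, 0 < U A)
    (hW0 : ∀ A ∈ T, 0 < W A) :
    GoodMet (u2KK U W) {y : E4 | y 0 ∈ T ∧ y 1 ∈ Set.Ioo 0 (π / 2)} := by
  have hUa : ∀ A ∈ T, ContDiffAt ℝ ∞ U A := fun A hA => hU.contDiffAt (hT.mem_nhds hA)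
  have hWa : ∀ A ∈ T, ContDiffAt ℝ ∞ W A := fun A hA => hW.contDiffAt (hT.mem_nhds hA)
  exact goodMet_kk (U := {p : ℝ × ℝ | p.1 ∈ T ∧ p.2 ∈ Set.Ioo 0 (π / 2)})
    (fun p hp => u2_contDiffAt_inv (hUa _ hp.1) (hU0 _ hp.1))
    (fun p _ => contDiffAt_id)
    (fun p _ => (Real.contDiff_cos.pow 2).contDiffAt)
    (u2_contDiff_N.contDiffOn)
    (fun p hp => (u2_contDiffAt_H (hWa _ hp.1) (hW0 _ hp.1)).contDiffWithinAt)
    (fun p hp => one_div_pos.mpr (hU0 _ hp.1))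
    (fun p hp => (hT0 _ hp.1).ne')
    (fun p hp => (mul_pos (mul_pos (hT0 _ hp.1) (u2_trig_pos hp.2).1) (u2_trig_pos hp.2).2).ne')
    (fun p hp => (mul_pos (hT0 _ hp.1) (Real.sqrt_pos.mpr (hW0 _ hp.1))).ne')

/-- The first derivative of `t √(W t)`. -/
theorem u2_deriv1 {W : ℝ → ℝ} {A : ℝ} (hA : 0 < A) (hW : DifferentiableAt ℝ W A) (hW0 : 0 < W A) :
    HasDerivAt (fun t => t * √(W t)) (A * √(W A) * (1 / A + u2om W A)) A := by
  have h1 := (hasDerivAt_id A).mul (hW.hasDerivAt.sqrt hW0.ne')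
  refine h1.congr_deriv ?_
  have h2 : 0 < √(W A) := Real.sqrt_pos.mpr hW0
  have h3 : W A = √(W A) ^ 2 := (Real.sq_sqrt hW0.le).symm
  unfold u2om
  simp only [id]
  have h4 : deriv W A / (2 * W A) = deriv W A / (2 * √(W A) ^ 2) := by rw [← h3]
  rw [h4]
  field_simp

/-- The second derivative of `t √(W t)`. -/
theorem u2_deriv2 {W : ℝ → ℝ} {A : ℝ} (hA : 0 < A) (hW : ContDiffAt ℝ ∞ W A) (hW0 : 0 < W A) :
    deriv (deriv (fun t => t * √(W t))) A =
      A * √(W A) * (deriv (u2om W) A + 2 * u2om W A / A + u2om W A ^ 2) := by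
  have hW2 : ContDiffAt ℝ 2 W A := hW.of_le (WithTop.coe_le_coe.mpr le_top)
  have hpos : ∀ᶠ t in 𝓝 A, 0 < W t := hW.continuousAt.eventually (lt_mem_nhds hW0)
  have hA' : ∀ᶠ t in 𝓝 A, 0 < t := lt_mem_nhds hA
  have hdiff : ∀ᶠ t in 𝓝 A, DifferentiableAt ℝ W t := by
    filter_upwards [hW2.eventually (by simp)] with t ht
    exact ht.differentiableAt (by norm_num)
  have h1 : deriv (fun t => t * √(W t)) =ᶠ[𝓝 A] fun t => t * √(W t) * (1 / t + u2om W t) := by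
    filter_upwards [hpos, hA', hdiff] with t h1 h2 h3
    exact (u2_deriv1 h2 h3 h1).deriv
  rw [h1.deriv_eq]
  have hdd : DifferentiableAt ℝ (deriv W) A := by
    have h2 : ContDiffAt ℝ 1 (fderiv ℝ W) A := hW2.fderiv_right (by norm_num)
    have h3 : ContDiffAt ℝ 1 (fun t => fderiv ℝ W t 1) A := h2.clm_apply contDiffAt_const
    have h4 : DifferentiableAt ℝ (fun t => fderiv ℝ W t 1) A := h3.differentiableAt (by norm_num)
    exact h4
  have hom : DifferentiableAt ℝ (u2om W) A := by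
    unfold u2om
    exact hdd.div (hdiff.self_of_nhds.const_mul 2) (by positivity)
  have h5 := (u2_deriv1 hA hdiff.self_of_nhds hW0).mul
    (((hasDerivAt_const A (1 : ℝ)).div (hasDerivAt_id A) hA.ne').add hom.hasDerivAt)
  have h6 : deriv (fun t => t * √(W t) * (1 / t + u2om W t)) A = _ := h5.deriv
  rw [h6]
  simp only [id, Pi.add_apply, Pi.div_apply]
  field_simp
  ring

theorem ricGE_u2 {U W : ℝ → ℝ} {κ : ℝ} {y : E4} (hA : 0 < y 0) (hU : ContDiffAt ℝ ∞ U (y 0))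
    (hW : ContDiffAt ℝ ∞ W (y 0)) (hU0 : 0 < U (y 0)) (hW0 : 0 < W (y 0))
    (hx : y 1 ∈ Set.Ioo 0 (π / 2)) (h : U2OK U W κ (y 0)) : RicGE (u2KK U W) (-κ) y := by
  intro v
  obtain ⟨A, hAdef⟩ : ∃ A, A = y 0 := ⟨_, rfl⟩
  obtain ⟨x, hxdef⟩ : ∃ x, x = y 1 := ⟨_, rfl⟩
  obtain ⟨hc, hs⟩ := u2_trig_pos hx
  obtain ⟨c, hcdef⟩ : ∃ c, c = Real.cos (y 1) := ⟨_, rfl⟩
  obtain ⟨s, hsdef⟩ : ∃ s, s = Real.sin (y 1) := ⟨_, rfl⟩
  rw [← hcdef] at hc
  rw [← hsdef] at hs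
  obtain ⟨U0, hU0def⟩ : ∃ a, a = U (y 0) := ⟨_, rfl⟩
  obtain ⟨U1, hU1def⟩ : ∃ a, a = deriv U (y 0) := ⟨_, rfl⟩
  obtain ⟨r, hrdef⟩ : ∃ a, a = √(U (y 0)) := ⟨_, rfl⟩
  have hr : 0 < r := by rw [hrdef]; exact Real.sqrt_pos.mpr hU0
  have hrr : r ^ 2 = U0 := by rw [hrdef, hU0def]; exact Real.sq_sqrt hU0.le
  obtain ⟨w, hwdef⟩ : ∃ a, a = √(W (y 0)) := ⟨_, rfl⟩
  have hw : 0 < w := by rw [hwdef]; exact Real.sqrt_pos.mpr hW0
  have hww : w ^ 2 = W (y 0) := by rw [hwdef]; exact Real.sq_sqrt hW0.le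
  obtain ⟨om, homdef⟩ : ∃ a, a = u2om W (y 0) := ⟨_, rfl⟩
  obtain ⟨om1, hom1def⟩ : ∃ a, a = deriv (u2om W) (y 0) := ⟨_, rfl⟩
  have hWd : DifferentiableAt ℝ W (y 0) := hW.differentiableAt (by simp)
  have hUd : DifferentiableAt ℝ U (y 0) := hU.differentiableAt (by simp)
  have hE : ContDiffAt ℝ ∞ (fun A => 1 / U A) (y 0) := u2_contDiffAt_inv hU hU0
  have hder : deriv (fun A => 1 / U A) (y 0) = -U1 / r ^ 4 := by
    have h1 := (hasDerivAt_const (y 0) (1 : ℝ)).div hUd.hasDerivAt hU0.ne'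
    have h2 : deriv (fun A => 1 / U A) (y 0) = _ := h1.deriv
    rw [h2, ← hU0def, ← hU1def, ← hrr]
    ring
  have hN : ContDiffAt ℝ ∞ (fun p : ℝ × ℝ => (fun A x => A * Real.cos x * Real.sin x) p.1 p.2)
      (y 0, y 1) := u2_contDiff_N.contDiffAt
  have hH : ContDiffAt ℝ ∞ (fun p : ℝ × ℝ => (fun A (_ : ℝ) => A * √(W A)) p.1 p.2)
      (y 0, y 1) := u2_contDiffAt_H (p := (y 0, y 1)) hW hW0
  have ddcos : ∀ z, HasDerivAt (fun x => Real.cos x ^ 2) (-(2 * Real.cos z * Real.sin z)) z := by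
    intro z
    exact ((Real.hasDerivAt_cos z).pow 2).congr_deriv (by simp; try ring)
  have dcs : ∀ z, HasDerivAt (fun x => Real.cos x * Real.sin x)
      (Real.cos z ^ 2 - Real.sin z ^ 2) z := by
    intro z
    exact ((Real.hasDerivAt_cos z).mul (Real.hasDerivAt_sin z)).congr_deriv (by ring)
  have dcc : ∀ z, HasDerivAt (fun x => Real.cos x ^ 2 - Real.sin x ^ 2)
      (-(4 * Real.cos z * Real.sin z)) z := by
    intro z
    exact (((Real.hasDerivAt_cos z).pow 2).sub ((Real.hasDerivAt_sin z).pow 2)).congr_deriv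
      (by simp; try ring)
  have ha1 : deriv (fun x => Real.cos x ^ 2) (y 1) = -(2 * c * s) := by
    rw [(ddcos _).deriv, hcdef, hsdef]
  have ha1f : deriv (fun x => Real.cos x ^ 2) = fun z => -2 * (Real.cos z * Real.sin z) := by
    funext z
    rw [(ddcos _).deriv]
    ring
  have ha2 : deriv (deriv (fun x => Real.cos x ^ 2)) (y 1) = -2 * (c ^ 2 - s ^ 2) := by
    rw [ha1f, ((dcs _).const_mul (-2)).deriv, hcdef, hsdef]
  have hdT : dT (fun A x => A * Real.cos x * Real.sin x) = fun _ x => Real.cos x * Real.sin x := by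
    funext t z
    unfold dT
    have h1 : HasDerivAt (fun A => A * Real.cos z * Real.sin z) (1 * Real.cos z * Real.sin z) t :=
      ((hasDerivAt_id t).mul_const _).mul_const _
    rw [h1.deriv, one_mul]
  have hdX : dX (fun A x => A * Real.cos x * Real.sin x) =
      fun A x => A * (Real.cos x ^ 2 - Real.sin x ^ 2) := by
    funext t z
    unfold dX
    have h1 : HasDerivAt (fun x => t * Real.cos x * Real.sin x)
        (t * (Real.cos z ^ 2 - Real.sin z ^ 2)) z := by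
      have h2 := (dcs z).const_mul t
      simpa only [mul_assoc] using h2
    exact h1.deriv
  have hdTT : dT (fun _ x => Real.cos x * Real.sin x) = fun _ _ => 0 := by
    funext t z
    unfold dT
    simp
  have hdTX : dT (fun A x => A * (Real.cos x ^ 2 - Real.sin x ^ 2)) =
      fun _ x => Real.cos x ^ 2 - Real.sin x ^ 2 := by
    funext t z
    unfold dT
    have h1 := (hasDerivAt_id t).mul_const (Real.cos z ^ 2 - Real.sin z ^ 2)
    rw [one_mul] at h1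
    exact h1.deriv
  have hdXX : dX (fun A x => A * (Real.cos x ^ 2 - Real.sin x ^ 2)) =
      fun A x => A * (-(4 * Real.cos x * Real.sin x)) := by
    funext t z
    unfold dX
    exact ((dcc z).const_mul t).deriv
  have hHT : dT (fun A (_ : ℝ) => A * √(W A)) (y 0) (y 1) = y 0 * w * (1 / y 0 + om) := by
    unfold dT
    rw [(u2_deriv1 hA hWd hW0).deriv, hwdef, homdef]
  have hHTT : dT (dT (fun A (_ : ℝ) => A * √(W A))) (y 0) (y 1) =
      y 0 * w * (om1 + 2 * om / y 0 + om ^ 2) := by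
    unfold dT
    rw [u2_deriv2 hA hW hW0, hwdef, homdef, hom1def]
  have hHX : dX (fun A (_ : ℝ) => A * √(W A)) = fun _ _ => 0 := by
    funext t z
    unfold dX
    simp
  have hzT : dT (fun _ _ => (0 : ℝ)) = fun _ _ => 0 := by
    funext t z
    unfold dT
    simp
  have hzX : dX (fun _ _ => (0 : ℝ)) = fun _ _ => 0 := by
    funext t z
    unfold dX
    simp
  have hds : deriv (fun A : ℝ => A) = fun _ => 1 := by
    funext t
    exact (hasDerivAt_id t).deriv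
  have hric := ricq_kk (E := fun A => 1 / U A) (P := fun A => A)
    (N := fun A x => A * Real.cos x * Real.sin x) (H := fun A _ => A * √(W A))
    (a := fun x => Real.cos x ^ 2) (y := y) hE contDiffAt_id
    (Real.contDiff_cos.pow 2).contDiffAt hN hH
    (s := 1 / r) (e1 := -U1 / r ^ 4) (p0 := y 0) (p1 := 1) (p2 := 0)
    (n0 := y 0 * c * s) (nt := c * s) (nx := y 0 * (c ^ 2 - s ^ 2)) (ntt := 0)
    (ntx := c ^ 2 - s ^ 2) (nxx := y 0 * (-(4 * c * s)))
    (h0 := y 0 * w) (ht := y 0 * w * (1 / y 0 + om)) (hx := 0)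
    (htt := y 0 * w * (om1 + 2 * om / y 0 + om ^ 2)) (htx := 0) (hxx := 0)
    (a0 := c ^ 2) (a1 := -(2 * c * s)) (a2 := -2 * (c ^ 2 - s ^ 2))
    (one_div_pos.mpr hr)
    (by rw [div_pow, one_pow, hrr, hU0def]) hder rfl
    (by rw [hds]) (by rw [hds]; simp) hA.ne' (mul_pos (mul_pos hA hc) hs).ne'
    (mul_pos hA hw).ne' (by rw [hcdef]) ha1 ha2 (by rw [hcdef, hsdef])
    (by rw [hdT, hcdef, hsdef]) (by rw [hdX, hcdef, hsdef]) (by rw [hdT, hdTT])
    (by rw [hdX, hdTX, hcdef, hsdef]) (by rw [hdX, hdXX, hcdef, hsdef])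
    (by rw [hwdef]) hHT (by rw [hHX]) hHTT (by rw [hHX, hzT]) (by rw [hHX, hzX])
    (R00 := u2R0 U W (y 0)) (R01 := 0) (R11 := u2R1 U W (y 0)) (R22 := u2R1 U W (y 0))
    (R33 := u2R3 U W (y 0)) (R23 := 0) rfl rfl rfl rfl rfl rfl rfl
    (by
      unfold u2R0
      rw [← homdef, ← hom1def, ← hU1def, ← hU0def, ← hrr]
      have h1 := hr.ne'
      have h2 := hA.ne'
      have h3 := hc.ne'
      have h4 := hs.ne'
      have h5 := hw.ne'
      field_simp
      ring)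
    (by
      have h1 := hr.ne'
      have h2 := hA.ne'
      have h3 := hc.ne'
      have h4 := hs.ne'
      have h5 := hw.ne'
      field_simp
      ring)
    (by
      unfold u2R1
      rw [← homdef, ← hU1def, ← hU0def, ← hrr, ← hww]
      have h1 := hr.ne'
      have h2 := hA.ne'
      have h3 := hc.ne'
      have h4 := hs.ne'
      have h5 := hw.ne'
      field_simp
      ring)
    (by
      unfold u2R1
      rw [← homdef, ← hU1def, ← hU0def, ← hrr, ← hww]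
      have h1 := hr.ne'
      have h2 := hA.ne'
      have h3 := hc.ne'
      have h4 := hs.ne'
      have h5 := hw.ne'
      field_simp
      ring)
    (by
      unfold u2R3
      rw [← homdef, ← hom1def, ← hU1def, ← hU0def, ← hrr, ← hww]
      have h1 := hr.ne'
      have h2 := hA.ne'
      have h3 := hc.ne'
      have h4 := hs.ne'
      have h5 := hw.ne'
      field_simp
      ring)
    (by
      have h1 := hr.ne'
      have h2 := hA.ne'
      have h3 := hc.ne'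
      have h4 := hs.ne'
      have h5 := hw.ne'
      field_simp
      ring) v
  have hqf : qf (u2KK U W y) v = (1 / r * v 0) ^ 2 + (y 0 * v 1) ^ 2 + (y 0 * c * s * v 2) ^ 2 +
      (y 0 * w * (v 3 + c ^ 2 * v 2)) ^ 2 := by
    have e1 : (1 / r * v 0) ^ 2 = 1 / U (y 0) * v 0 ^ 2 := by
      rw [mul_pow, div_pow, one_pow, hrr, hU0def]
    rw [e1, hcdef, hsdef, hwdef]
    simp [qf, u2KK, kkMet, Fin.sum_univ_four]
    ring
  change -κ * qf (u2KK U W y) v ≤ ricq (u2KK U W) y v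
  unfold u2KK at hqf ⊢
  rw [hric, hqf]
  obtain ⟨k0, k1, k3⟩ := h
  have m0 := mul_nonneg k0 (sq_nonneg (1 / r * v 0))
  have m1 := mul_nonneg k1 (sq_nonneg (y 0 * v 1))
  have m2 := mul_nonneg k1 (sq_nonneg (y 0 * c * s * v 2))
  have m3 := mul_nonneg k3 (sq_nonneg (y 0 * w * (v 3 + c ^ 2 * v 2)))
  nlinarith [m0, m1, m2, m3]

end Pool.Agent.W_MP_654ec6
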