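import Pool.Agent.W_MP_654ec6.A.Jet

/-!
# The algebra of the Ricci tensor of a `U(2)`-invariant metric at the point `(A, 0, 0, 0)`

`g_ij = δ_ij + P(s) u_i u_j + Q(s) (Ju)_i (Ju)_j`, `s = |u|²`, `P = (1/U - 1)/s`, `Q = (W - 1)/s`.
-/

namespace Pool.Agent.W_MP_654ec6

/-- Kronecker delta. -/
def u2e (i j : Fin 4) : ℝ := if i = j then 1 else 0

/-- The complex structure: `(Ju)_i = ∑_m u2J i m u_m`. -/
def u2J : Fin 4 → Fin 4 → ℝ :=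
  ![![0, -1, 0, 0], ![1, 0, 0, 0], ![0, 0, 0, -1], ![0, 0, 1, 0]]

/-- values -/
def u2G (P0 Q0 : ℝ) (x y : Fin 4 → ℝ) (i j : Fin 4) : ℝ :=
  u2e i j + P0 * x i * x j + Q0 * y i * y j

/-- first derivatives -/
def u2D (P0 P1 Q0 Q1 : ℝ) (x y : Fin 4 → ℝ) (m i j : Fin 4) : ℝ :=
  2 * P1 * x m * x i * x j + P0 * (u2e m i * x j + x i * u2e m j) +
    (2 * Q1 * x m * y i * y j + Q0 * (u2J i m * y j + y i * u2J j m))

/-- second derivatives -/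
def u2S (P0 P1 P2 Q0 Q1 Q2 : ℝ) (x y : Fin 4 → ℝ) (m n i j : Fin 4) : ℝ :=
  ((4 * P2 * x m * x n + 2 * P1 * u2e m n) * x i * x j +
      2 * P1 * x m * (u2e n i * x j + x i * u2e n j) +
      2 * P1 * x n * (u2e m i * x j + x i * u2e m j) +
      P0 * (u2e m i * u2e n j + u2e n i * u2e m j)) +
    ((4 * Q2 * x m * x n + 2 * Q1 * u2e m n) * y i * y j +
      2 * Q1 * x m * (u2J i n * y j + y i * u2J j n) +
      2 * Q1 * x n * (u2J i m * y j + y i * u2J j m) +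
      Q0 * (u2J i m * u2J j n + u2J i n * u2J j m))

/-- inverse matrix -/
noncomputable def u2I (U W : ℝ) : Matrix (Fin 4) (Fin 4) ℝ :=
  !![U, 0, 0, 0; 0, 1 / W, 0, 0; 0, 0, 1, 0; 0, 0, 0, 1]

/-- Christoffel symbols -/
noncomputable def u2T (A U W Us Ws P0 Q0 : ℝ) : Fin 4 → Fin 4 → Fin 4 → ℝ :=
  ![![![-(A * Us) / U, 0, 0, 0], ![0, U * A * (P0 - Q0 - Ws), 0, 0], ![0, 0, U * A * P0, 0],
      ![0, 0, 0, U * A * P0]],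
    ![![0, A * Ws / W, 0, 0], ![A * Ws / W, 0, 0, 0], ![0, 0, 0, 0], ![0, 0, 0, 0]],
    ![![0, 0, 0, 0], ![0, 0, 0, -(A * Q0)], ![0, 0, 0, 0], ![0, -(A * Q0), 0, 0]],
    ![![0, 0, 0, 0], ![0, 0, A * Q0, 0], ![0, A * Q0, 0, 0], ![0, 0, 0, 0]]]

theorem u2I_off (U W : ℝ) (k p : Fin 4) (h : k ≠ p) : u2I U W k p = 0 := by
  revert h
  fin_cases k <;> fin_cases p <;> simp [u2I]

theorem u2I_mul {A U W P0 Q0 : ℝ} (hA : A ≠ 0) (hU : U ≠ 0) (hW : W ≠ 0)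
    (hP0 : P0 = (1 / U - 1) / A ^ 2) (hQ0 : Q0 = (W - 1) / A ^ 2) :
    u2I U W * (Matrix.of (u2G P0 Q0 ![A, 0, 0, 0] ![0, A, 0, 0])) = 1 := by
  subst hP0 hQ0
  unfold u2I
  ext i j
  fin_cases i <;> fin_cases j <;> simp [Matrix.mul_apply, Fin.sum_univ_four, u2G, u2e] <;>
    field_simp <;> ring

theorem u2T_eq {A U W Us Ws P0 P1 Q0 Q1 : ℝ} (hA : A ≠ 0) (hU : U ≠ 0) (hW : W ≠ 0)
    (hP0 : P0 = (1 / U - 1) / A ^ 2) (hQ0 : Q0 = (W - 1) / A ^ 2)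
    (hP1 : P1 = -Us / (U ^ 2 * A ^ 2) - (1 / U - 1) / A ^ 4)
    (hQ1 : Q1 = Ws / A ^ 2 - (W - 1) / A ^ 4) (k i j : Fin 4) :
    u2T A U W Us Ws P0 Q0 k i j =
      ∑ l, u2I U W k l * KosF (u2D P0 P1 Q0 Q1 ![A, 0, 0, 0] ![0, A, 0, 0]) l i j := by
  subst hP0 hQ0 hP1 hQ1
  rw [Finset.sum_eq_single k (fun p _ hp => by rw [u2I_off U W k p (Ne.symm hp), zero_mul])
    (fun h => absurd (Finset.mem_univ k) h)]
  unfold u2T u2I KosF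
  fin_cases k <;> fin_cases i <;> fin_cases j <;>
    simp [u2D, u2e, u2J] <;> field_simp <;> ring

/-- The matrix `u2I` is diagonal. -/
theorem u2dGam (U W : ℝ) (D : Fin 4 → Fin 4 → Fin 4 → ℝ)
    (S : Fin 4 → Fin 4 → Fin 4 → Fin 4 → ℝ) (T : Fin 4 → Fin 4 → Fin 4 → ℝ) (m k i j : Fin 4) :
    dGamF (u2I U W) D S T m k i j = u2I U W k k *
      ((1 / 2) * (S m i k j + S m j k i - S m k i j) -
        (D m k 0 * T 0 i j + D m k 1 * T 1 i j + D m k 2 * T 2 i j + D m k 3 * T 3 i j)) := by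
  unfold dGamF
  rw [Finset.sum_eq_single k (fun p _ hp => ?_) (fun h => absurd (Finset.mem_univ k) h),
    Fin.sum_univ_four]
  rw [u2I_off U W k p (Ne.symm hp), zero_mul]

/-- Ricci tensor at `(A, 0, 0, 0)` -/
noncomputable def u2R (U W Rtt R11 R33 : ℝ) : Fin 4 → Fin 4 → ℝ :=
  ![![Rtt / U, 0, 0, 0], ![0, W * R33, 0, 0], ![0, 0, R11, 0], ![0, 0, 0, R11]]

theorem u2R_eq {A U W Us Uss Ws Wss P0 P1 P2 Q0 Q1 Q2 Rtt R11 R33 : ℝ} (hA : A ≠ 0) (hU : U ≠ 0)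
    (hW : W ≠ 0)
    (hP0 : P0 = (1 / U - 1) / A ^ 2) (hQ0 : Q0 = (W - 1) / A ^ 2)
    (hP1 : P1 = -Us / (U ^ 2 * A ^ 2) - (1 / U - 1) / A ^ 4)
    (hQ1 : Q1 = Ws / A ^ 2 - (W - 1) / A ^ 4)
    (hP2 : P2 = (2 * Us ^ 2 / U ^ 3 - Uss / U ^ 2) / A ^ 2 + 2 * Us / (U ^ 2 * A ^ 4) +
      2 * (1 / U - 1) / A ^ 6)
    (hQ2 : Q2 = Wss / A ^ 2 - 2 * Ws / A ^ 4 + 2 * (W - 1) / A ^ 6)
    (hRtt : Rtt = -3 * Us - A ^ 2 * Us * Ws / W -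
      U * (3 * Ws / W + 2 * A ^ 2 * Wss / W - A ^ 2 * Ws ^ 2 / W ^ 2))
    (hR11 : R11 = -Us - 2 * U / A ^ 2 - U * Ws / W + (4 - 2 * W) / A ^ 2)
    (hR33 : R33 = -Us * (1 + A ^ 2 * Ws / W) -
      U * (3 * Ws / W + 2 * A ^ 2 * Wss / W - A ^ 2 * Ws ^ 2 / W ^ 2) -
      2 * U / A ^ 2 - 2 * U * Ws / W + 2 * W / A ^ 2) (i j : Fin 4) :
    RicF (u2I U W) (u2D P0 P1 Q0 Q1 ![A, 0, 0, 0] ![0, A, 0, 0])
      (u2S P0 P1 P2 Q0 Q1 Q2 ![A, 0, 0, 0] ![0, A, 0, 0]) (u2T A U W Us Ws P0 Q0) i j =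
      u2R U W Rtt R11 R33 i j := by
  subst hP0 hQ0 hP1 hQ1 hP2 hQ2 hRtt hR11 hR33
  simp only [RicF, u2dGam, Fin.sum_univ_four]
  fin_cases i <;> fin_cases j <;>
    simp only [u2I, u2D, u2S, u2T, u2R, u2e, u2J, Matrix.of_apply, Matrix.cons_val', Matrix.cons_val,
      Matrix.cons_val_zero, Matrix.cons_val_one, Matrix.cons_val_fin_one, Fin.isValue,
      Fin.reduceFinMk, Fin.zero_eta, Fin.mk_one, Fin.reduceEq, ↓reduceIte, mul_zero, zero_mul,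
      add_zero, zero_add, sub_zero, zero_sub, mul_one, one_mul, sub_self,
      zero_ne_one, one_ne_zero] <;>
    field_simp <;> ring

end Pool.Agent.W_MP_654ec6
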